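import Pool.Agent.LogPar.Defs

set_option autoImplicit false

/-! # Fourier series on `ℝ / ℤ` of bounded measurable functions -/

namespace Pool.Agent.LogPar

open MeasureTheory ComplexConjugate

private theorem memLp_bdd {g : UnitAddCircle → ℂ} (hg : Measurable g) {M : ℝ}
    (hM : ∀ x, ‖g x‖ ≤ M) : MemLp g 2 mu :=
  MemLp.of_bound hg.aestronglyMeasurable M (ae_of_all _ hM)

/-- Parseval for bounded measurable functions -/
theorem parseval {g : UnitAddCircle → ℂ} (hg : Measurable g) {M : ℝ} (hM : ∀ x, ‖g x‖ ≤ M) :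
    HasSum (fun k : ℤ => ‖fourierCoeff g k‖ ^ 2) (∫ x, ‖g x‖ ^ 2 ∂mu) := by
  have h := memLp_bdd hg hM
  convert hasSum_sq_fourierCoeff h.toLp using 1
  · ext k
    rw [fourierCoeff_congr_ae h.coeFn_toLp]
  · apply integral_congr_ae
    filter_upwards [h.coeFn_toLp] with x hx
    simp [hx]

/-- Bessel -/
theorem bessel {g : UnitAddCircle → ℂ} (hg : Measurable g) {M : ℝ} (hM : ∀ x, ‖g x‖ ≤ M)
    (s : Finset ℤ) : ∑ k ∈ s, ‖fourierCoeff g k‖ ^ 2 ≤ ∫ x, ‖g x‖ ^ 2 ∂mu :=
  sum_le_hasSum s (fun _ _ => by positivity) (parseval hg hM)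

private theorem parseval_inner {c g : UnitAddCircle → ℂ} (hc : Measurable c) (hg : Measurable g)
    {M : ℝ} (hcM : ∀ x, ‖c x‖ ≤ M) (hgM : ∀ x, ‖g x‖ ≤ M) :
    HasSum (fun k : ℤ => conj (fourierCoeff c k) * fourierCoeff g k)
      (∫ x, conj (c x) * g x ∂mu) := by
  have h1 := memLp_bdd hc hcM
  have h2 := memLp_bdd hg hgM
  have key := (fourierBasis (T := 1)).hasSum_inner_mul_inner h1.toLp h2.toLp
  have e1 : (fun k : ℤ => conj (fourierCoeff c k) * fourierCoeff g k) = fun i : ℤ =>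
      inner ℂ h1.toLp (fourierBasis i) * inner ℂ (fourierBasis i) h2.toLp := by
    funext k
    rw [← HilbertBasis.repr_apply_apply, fourierBasis_repr, ← inner_conj_symm,
      ← HilbertBasis.repr_apply_apply, fourierBasis_repr,
      fourierCoeff_congr_ae h1.coeFn_toLp, fourierCoeff_congr_ae h2.coeFn_toLp]
  have e2 : ∫ x, conj (c x) * g x ∂mu = inner ℂ h1.toLp h2.toLp := by
    rw [MeasureTheory.L2.inner_def]
    apply integral_congr_ae
    filter_upwards [h1.coeFn_toLp, h2.coeFn_toLp] with x hx hx'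
    rw [hx, hx', RCLike.inner_apply']
  rw [e1, e2]
  exact key

/-- polarised Parseval, with the frequencies in `s` separated and the rest estimated by
Cauchy-Schwarz -/
theorem parseval_split {c g : UnitAddCircle → ℂ} (hc : Measurable c) (hg : Measurable g) {M : ℝ}
    (hcM : ∀ x, ‖c x‖ ≤ M) (hgM : ∀ x, ‖g x‖ ≤ M) (s : Finset ℤ) {d : ℝ} (hd : 0 ≤ d)
    (hs : ∀ s' : Finset ℤ, Disjoint s' s → ∑ k ∈ s', ‖fourierCoeff c k‖ ^ 2 ≤ d) :
    ‖∫ x, conj (c x) * g x ∂mu - ∑ k ∈ s, conj (fourierCoeff c k) * fourierCoeff g k‖ ≤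
      √d * √(∫ x, ‖g x‖ ^ 2 ∂mu) := by
  have key := parseval_inner hc hg hcM hgM
  have hfin : ∀ s' : Finset ℤ, Disjoint s' s →
      ‖∑ k ∈ s', conj (fourierCoeff c k) * fourierCoeff g k‖ ≤
        √d * √(∫ x, ‖g x‖ ^ 2 ∂mu) := by
    intro s' hs'
    calc ‖∑ k ∈ s', conj (fourierCoeff c k) * fourierCoeff g k‖
        ≤ ∑ k ∈ s', ‖fourierCoeff c k‖ * ‖fourierCoeff g k‖ := by
          refine (norm_sum_le _ _).trans (Finset.sum_le_sum fun k _ => ?_)
          rw [norm_mul, RCLike.norm_conj]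
      _ ≤ √(∑ k ∈ s', ‖fourierCoeff c k‖ ^ 2) * √(∑ k ∈ s', ‖fourierCoeff g k‖ ^ 2) :=
          Real.sum_mul_le_sqrt_mul_sqrt _ _ _
      _ ≤ √d * √(∫ x, ‖g x‖ ^ 2 ∂mu) := by
          gcongr
          · exact hs s' hs'
          · exact bessel hg hgM s'
  have hlim : Filter.Tendsto (fun t : Finset ℤ =>
      ‖∑ k ∈ t, conj (fourierCoeff c k) * fourierCoeff g k -
        ∑ k ∈ s, conj (fourierCoeff c k) * fourierCoeff g k‖) Filter.atTop
      (nhds ‖∫ x, conj (c x) * g x ∂mu -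
        ∑ k ∈ s, conj (fourierCoeff c k) * fourierCoeff g k‖) :=
    (Filter.Tendsto.sub_const key _).norm
  refine le_of_tendsto hlim ?_
  filter_upwards [Filter.eventually_ge_atTop s] with t ht
  have hst : s ⊆ t := ht
  rw [← Finset.sum_sdiff hst, add_sub_cancel_right]
  exact hfin _ Finset.sdiff_disjoint

/-- translation -/
theorem fourierCoeff_translate (g : UnitAddCircle → ℂ) (a : UnitAddCircle) (k : ℤ) :
    fourierCoeff (fun x => g (x + a)) k = fourier k a * fourierCoeff g k := by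
  unfold fourierCoeff
  rw [← integral_const_mul]
  have h := integral_add_right_eq_self (μ := mu)
    (fun y : UnitAddCircle => (fourier k a : ℂ) * (fourier (-k) y • g y)) a
  rw [← h]
  apply integral_congr_ae
  refine ae_of_all _ fun x => ?_
  simp only [smul_eq_mul]
  have h1 : (fourier (-k) (x + a) : ℂ) = fourier (-k) x * fourier (-k) a := by
    simp only [fourier_apply, smul_add, AddCircle.toCircle_add, Circle.coe_mul]
  have h2 : (fourier k a : ℂ) * fourier (-k) a = 1 := by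
    rw [← fourier_add, add_neg_cancel, fourier_zero]
  rw [h1]
  linear_combination (-(fourier (-k) x : ℂ) * g (x + a)) * h2

end Pool.Agent.LogPar
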