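import Pool.Agent.LogPar.Arc
import Pool.Agent.LogPar.Four

set_option autoImplicit false

/-! # The large sieve inequality for well spaced points -/

namespace Pool.Agent.LogPar

open MeasureTheory

theorem lsieve_fc_sum {ι : Type*} (P : Finset ι) (a : ι → UnitAddCircle) (z : ι → ℂ) (η : ℝ)
    (k : ℤ) :
    fourierCoeff (fun x => ∑ i ∈ P, z i * ((arc (a i) η x : ℝ) : ℂ)) k =
      ∑ i ∈ P, z i * fc (arc (a i) η) k := by
  unfold fc fourierCoeff
  have h : ∀ x : UnitAddCircle, (fourier (-k) x : ℂ) • (∑ i ∈ P, z i * ((arc (a i) η x : ℝ) : ℂ)) =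
      ∑ i ∈ P, z i * ((fourier (-k) x : ℂ) • ((arc (a i) η x : ℝ) : ℂ)) := by
    intro x
    rw [Finset.smul_sum]
    refine Finset.sum_congr rfl fun i _ => ?_
    simp only [smul_eq_mul]
    ring
  simp only [h]
  rw [integral_finsetSum]
  · refine Finset.sum_congr rfl fun i _ => ?_
    rw [integral_const_mul]
  · intro i _
    apply Integrable.const_mul
    refine Integrable.of_bound (C := 1) ?_ ?_
    · apply Measurable.aestronglyMeasurable
      exact ((fourier (-k)).continuous.measurable).smul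
        (Complex.measurable_ofReal.comp (arc_meas _ _))
    · refine Filter.Eventually.of_forall fun x => ?_
      rw [norm_smul]
      have h1 : ‖(fourier (-k) x : ℂ)‖ = 1 := by
        rw [fourier_apply]; exact Circle.norm_coe _
      rw [h1, one_mul, Complex.norm_real, Real.norm_eq_abs, abs_of_nonneg (arc_nonneg _ _ _)]
      exact arc_le _ _ _

theorem large_sieve {ι : Type*} [DecidableEq ι] (P : Finset ι) (a : ι → UnitAddCircle) (z : ι → ℂ)
    {Δ N : ℝ} (hΔ : 0 < Δ) (hΔ1 : Δ ≤ 1) (hN : 1 ≤ N)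
    (hsep : ∀ i ∈ P, ∀ j ∈ P, i ≠ j → Δ ≤ ‖a i - a j‖)
    (s : Finset ℤ) (hs : ∀ k ∈ s, |(k : ℝ)| ≤ N) :
    ∑ k ∈ s, ‖∑ i ∈ P, z i * (fourier k (a i) : ℂ)‖ ^ 2 ≤ 16 * (N + 1 / Δ) * ∑ i ∈ P, ‖z i‖ ^ 2 := by
  set η : ℝ := min (Δ / 3) (1 / (8 * N)) with hη
  have hη0 : 0 < η := lt_min (by positivity) (by positivity)
  have hηΔ : η ≤ Δ / 3 := min_le_left _ _
  have hηN : η ≤ 1 / (8 * N) := min_le_right _ _
  have hη8 : η ≤ 1 / 8 := hηN.trans (by
    apply one_div_le_one_div_of_le (by norm_num)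
    linarith)
  have hη2 : η ≤ 1 / 2 := by linarith
  set g : UnitAddCircle → ℂ := fun x => ∑ i ∈ P, z i * ((arc (a i) η x : ℝ) : ℂ) with hg
  have hgm : Measurable g := by
    apply Finset.measurable_sum
    intro i _
    exact (Complex.measurable_ofReal.comp (arc_meas _ _)).const_mul _
  have hgM : ∀ x, ‖g x‖ ≤ ∑ i ∈ P, ‖z i‖ := by
    intro x
    refine (norm_sum_le _ _).trans (Finset.sum_le_sum fun i _ => ?_)
    rw [norm_mul, Complex.norm_real, Real.norm_eq_abs, abs_of_nonneg (arc_nonneg _ _ _)]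
    calc ‖z i‖ * arc (a i) η x ≤ ‖z i‖ * 1 :=
          mul_le_mul_of_nonneg_left (arc_le _ _ _) (norm_nonneg _)
      _ = ‖z i‖ := mul_one _
  -- the square norm
  have hsq : ∀ x, ‖g x‖ ^ 2 = ∑ i ∈ P, ‖z i‖ ^ 2 * arc (a i) η x := by
    intro x
    by_cases hx : ∃ i ∈ P, arc (a i) η x ≠ 0
    · obtain ⟨i, hi, hix⟩ := hx
      have h0 : ∀ j ∈ P, j ≠ i → arc (a j) η x = 0 := by
        intro j hj hji
        have h2 : 2 * η < ‖a j - a i‖ := by
          have := hsep j hj i hi hji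
          linarith
        have h3 := arc_mul_eq_zero h2 x
        rcases mul_eq_zero.1 h3 with h4 | h4
        · exact h4
        · exact absurd h4 hix
      have h1 : arc (a i) η x = 1 := by
        unfold arc at hix ⊢
        by_cases hm : x ∈ Metric.closedBall (a i) η
        · rw [Set.indicator_of_mem hm]
        · rw [Set.indicator_of_notMem hm] at hix
          exact absurd rfl hix
      have e1 : g x = z i := by
        show ∑ j ∈ P, z j * ((arc (a j) η x : ℝ) : ℂ) = z i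
        rw [Finset.sum_eq_single i]
        · rw [h1]; simp
        · intro j hj hji
          rw [h0 j hj hji]; simp
        · intro h; exact absurd hi h
      have e2 : ∑ j ∈ P, ‖z j‖ ^ 2 * arc (a j) η x = ‖z i‖ ^ 2 := by
        rw [Finset.sum_eq_single i]
        · rw [h1, mul_one]
        · intro j hj hji
          rw [h0 j hj hji, mul_zero]
        · intro h; exact absurd hi h
      rw [e1, e2]
    · push Not at hx
      have e1 : g x = 0 := by
        show ∑ j ∈ P, z j * ((arc (a j) η x : ℝ) : ℂ) = 0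
        refine Finset.sum_eq_zero fun j hj => ?_
        rw [hx j hj]; simp
      rw [e1, Finset.sum_eq_zero fun j hj => by rw [hx j hj, mul_zero]]
      simp
  have harcint : ∀ i, Integrable (arc (a i) η) mu := by
    intro i
    refine Integrable.of_bound (C := 1) (arc_meas _ _).aestronglyMeasurable ?_
    refine Filter.Eventually.of_forall fun x => ?_
    rw [Real.norm_eq_abs, abs_of_nonneg (arc_nonneg _ _ _)]
    exact arc_le _ _ _
  have hint : ∫ x, ‖g x‖ ^ 2 ∂mu = 2 * η * ∑ i ∈ P, ‖z i‖ ^ 2 := by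
    simp only [hsq]
    rw [integral_finsetSum _ fun i _ => (harcint i).const_mul _]
    rw [Finset.mul_sum]
    refine Finset.sum_congr rfl fun i _ => ?_
    rw [integral_const_mul, integral_arc _ hη0.le hη2]
    ring
  -- Bessel
  have hb := bessel hgm hgM (s.image fun k => -k)
  rw [hint, Finset.sum_image (by intro x _ y _ h; exact neg_injective h)] at hb
  have hterm : ∀ k ∈ s, η ^ 2 * ‖∑ i ∈ P, z i * (fourier k (a i) : ℂ)‖ ^ 2 ≤
      ‖fourierCoeff g (-k)‖ ^ 2 := by
    intro k hk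
    have e1 : fourierCoeff g (-k) = arcC η (-k) * ∑ i ∈ P, z i * (fourier k (a i) : ℂ) := by
      rw [hg, lsieve_fc_sum, Finset.mul_sum]
      refine Finset.sum_congr rfl fun i _ => ?_
      rw [fc_arc, neg_neg]
      ring
    have e2 : η ≤ ‖arcC η (-k)‖ := by
      apply le_norm_arcC hη0.le hη8
      rw [Int.cast_neg, abs_neg]
      calc |(k : ℝ)| * η ≤ N * (1 / (8 * N)) :=
            mul_le_mul (hs k hk) hηN hη0.le (by linarith)
        _ = 1 / 8 := by
            have : N ≠ 0 := by linarith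
            field_simp
    rw [e1, norm_mul, mul_pow]
    exact mul_le_mul_of_nonneg_right (pow_le_pow_left₀ hη0.le e2 2) (sq_nonneg _)
  have h1 : η ^ 2 * ∑ k ∈ s, ‖∑ i ∈ P, z i * (fourier k (a i) : ℂ)‖ ^ 2 ≤
      2 * η * ∑ i ∈ P, ‖z i‖ ^ 2 := by
    rw [Finset.mul_sum]
    exact (Finset.sum_le_sum hterm).trans hb
  have hZ : 0 ≤ ∑ i ∈ P, ‖z i‖ ^ 2 := Finset.sum_nonneg fun i _ => sq_nonneg _
  have h2 : ∑ k ∈ s, ‖∑ i ∈ P, z i * (fourier k (a i) : ℂ)‖ ^ 2 ≤
      2 / η * ∑ i ∈ P, ‖z i‖ ^ 2 := by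
    have e : (2 / η * ∑ i ∈ P, ‖z i‖ ^ 2) * η ^ 2 = 2 * η * ∑ i ∈ P, ‖z i‖ ^ 2 := by
      field_simp
    have hη2' : 0 < η ^ 2 := by positivity
    refine le_of_mul_le_mul_right ?_ hη2'
    rw [e, mul_comm]
    exact h1
  have h3 : 1 / η ≤ 8 * (N + 1 / Δ) := by
    have hinv : 0 < 1 / Δ := by positivity
    rcases min_choice (Δ / 3) (1 / (8 * N)) with hm | hm
    · rw [hη, hm, one_div_div]
      have e : 3 / Δ = 3 * (1 / Δ) := by ring
      rw [e]
      nlinarith
    · rw [hη, hm, one_div_one_div]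
      nlinarith
  refine h2.trans (mul_le_mul_of_nonneg_right ?_ hZ)
  have e : 2 / η = 2 * (1 / η) := by ring
  rw [e]
  linarith

end Pool.Agent.LogPar
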