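import Pool.Agent.LogPar.Defs

set_option autoImplicit false

/-! # Indicator functions of short arcs of the circle -/

namespace Pool.Agent.LogPar

open MeasureTheory

/-- indicator function of the closed arc with centre `a` and radius `η` -/
noncomputable def arc (a : UnitAddCircle) (η : ℝ) : UnitAddCircle → ℝ :=
  (Metric.closedBall a η).indicator (fun _ => 1)

/-- the Fourier coefficients of the arc with centre `0` -/
noncomputable def arcC (η : ℝ) (k : ℤ) : ℂ := fc (arc 0 η) k

theorem arc_meas (a : UnitAddCircle) (η : ℝ) : Measurable (arc a η) :=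
  measurable_const.indicator measurableSet_closedBall

theorem arc_nonneg (a : UnitAddCircle) (η : ℝ) (x : UnitAddCircle) : 0 ≤ arc a η x :=
  Set.indicator_nonneg (fun _ _ => zero_le_one) x

theorem arc_le (a : UnitAddCircle) (η : ℝ) (x : UnitAddCircle) : arc a η x ≤ 1 :=
  Set.indicator_le_self' (s := Metric.closedBall a η) (f := fun _ => (1 : ℝ))
    (fun _ _ => zero_le_one) x

theorem mu_ball (a : UnitAddCircle) {η : ℝ} (h0 : 0 ≤ η) (h1 : η ≤ 1 / 2) :
    mu.real (Metric.closedBall a η) = 2 * η := by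
  have h : (volume : Measure UnitAddCircle) = mu := by
    have := AddCircle.volume_eq_smul_haarAddCircle (T := (1 : ℝ))
    simpa using this
  rw [Measure.real, ← h]
  have h2 := AddCircle.volume_closedBall (T := (1 : ℝ)) (x := a) η
  rw [h2, min_eq_right (by linarith), ENNReal.toReal_ofReal (by linarith)]

theorem integral_arc (a : UnitAddCircle) {η : ℝ} (h0 : 0 ≤ η) (h1 : η ≤ 1 / 2) :
    ∫ x, arc a η x ∂mu = 2 * η := by
  unfold arc
  rw [integral_indicator measurableSet_closedBall]
  simp only [integral_const, smul_eq_mul, mul_one]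
  rw [Measure.real, Measure.restrict_apply_univ]
  exact mu_ball a h0 h1

theorem arc_mul_eq_zero {a b : UnitAddCircle} {η : ℝ} (h : 2 * η < ‖a - b‖) (x : UnitAddCircle) :
    arc a η x * arc b η x = 0 := by
  unfold arc
  by_cases h1 : x ∈ Metric.closedBall a η
  · by_cases h2 : x ∈ Metric.closedBall b η
    · exfalso
      have h3 : dist a b ≤ η + η :=
        (dist_triangle_left a b x).trans
          (add_le_add (Metric.mem_closedBall.1 h1) (Metric.mem_closedBall.1 h2))
      rw [dist_eq_norm] at h3
      linarith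
    · rw [Set.indicator_of_notMem h2, mul_zero]
  · rw [Set.indicator_of_notMem h1, zero_mul]

theorem arc_translate (a : UnitAddCircle) (η : ℝ) (x : UnitAddCircle) :
    arc a η (x + a) = arc 0 η x := by
  unfold arc
  have h : (x + a ∈ Metric.closedBall a η) ↔ (x ∈ Metric.closedBall (0 : UnitAddCircle) η) := by
    rw [Metric.mem_closedBall, Metric.mem_closedBall, dist_eq_norm, dist_eq_norm,
      add_sub_cancel_right, sub_zero]
  by_cases hx : x ∈ Metric.closedBall (0 : UnitAddCircle) η
  · rw [Set.indicator_of_mem hx, Set.indicator_of_mem (h.2 hx)]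
  · rw [Set.indicator_of_notMem hx, Set.indicator_of_notMem (fun hh => hx (h.1 hh))]

theorem fourier_add_pt (k : ℤ) (x y : UnitAddCircle) :
    (fourier k (x + y) : ℂ) = fourier k x * fourier k y := by
  rw [fourier_apply, fourier_apply, fourier_apply, smul_add, AddCircle.toCircle_add,
    Circle.coe_mul]

theorem norm_fourier_pt (k : ℤ) (x : UnitAddCircle) : ‖(fourier k x : ℂ)‖ = 1 :=
  Circle.norm_coe _

theorem fc_arc (a : UnitAddCircle) (η : ℝ) (k : ℤ) :
    fc (arc a η) k = fourier (-k) a * arcC η k := by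
  unfold arcC fc fourierCoeff
  rw [← integral_add_right_eq_self (μ := mu)
    (fun t => (fourier (-k) t : ℂ) • ((arc a η t : ℝ) : ℂ)) a, ← integral_const_mul]
  refine integral_congr_ae (Filter.Eventually.of_forall fun x => ?_)
  simp only [smul_eq_mul]
  rw [arc_translate, fourier_add_pt]
  ring

theorem arc_integrable (a : UnitAddCircle) (η : ℝ) : Integrable (arc a η) mu := by
  refine Integrable.of_bound (arc_meas a η).aestronglyMeasurable 1
    (Filter.Eventually.of_forall fun x => ?_)
  rw [Real.norm_eq_abs, abs_of_nonneg (arc_nonneg a η x)]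
  exact arc_le a η x

theorem norm_arcC_le {η : ℝ} (h0 : 0 ≤ η) (h1 : η ≤ 1 / 2) (k : ℤ) : ‖arcC η k‖ ≤ 2 * η := by
  unfold arcC fc fourierCoeff
  rw [← integral_arc 0 h0 h1]
  refine norm_integral_le_of_norm_le (arc_integrable 0 η) (Filter.Eventually.of_forall fun x => ?_)
  rw [norm_smul, norm_fourier_pt, one_mul, Complex.norm_real, Real.norm_eq_abs,
    abs_of_nonneg (arc_nonneg 0 η x)]

theorem exists_rep (x : UnitAddCircle) : ∃ t : ℝ, x = (t : UnitAddCircle) ∧ |t| = ‖x‖ := by
  induction x using QuotientAddGroup.induction_on with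
  | H t =>
    refine ⟨t - round t, ?_, (UnitAddCircle.norm_eq).symm⟩
    have h0 : (((round t : ℤ) : ℝ) : UnitAddCircle) = 0 :=
      (AddCircle.coe_eq_zero_iff (1 : ℝ)).2 ⟨round t, by simp⟩
    rw [AddCircle.coe_sub, h0, sub_zero]

theorem re_fourier_coe (k : ℤ) (t : ℝ) :
    (fourier k (t : UnitAddCircle) : ℂ).re = Real.cos (2 * Real.pi * k * t) := by
  rw [fourier_coe_apply]
  have h : 2 * (Real.pi : ℂ) * Complex.I * (k : ℂ) * (t : ℂ) / ((1 : ℝ) : ℂ) =
      ((2 * Real.pi * k * t : ℝ) : ℂ) * Complex.I := by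
    push_cast
    ring
  rw [h, Complex.exp_ofReal_mul_I_re]

theorem le_norm_arcC {η : ℝ} (h0 : 0 ≤ η) (h1 : η ≤ 1 / 8) {k : ℤ} (hk : |(k : ℝ)| * η ≤ 1 / 8) :
    η ≤ ‖arcC η k‖ := by
  have hcos : ∀ x : UnitAddCircle, x ∈ Metric.closedBall (0 : UnitAddCircle) η →
      1 / 2 ≤ (fourier (-k) x : ℂ).re := by
    intro x hx
    obtain ⟨t, rfl, ht⟩ := exists_rep x
    rw [re_fourier_coe]
    have hx' : |t| ≤ η := by
      rw [ht]
      simpa [dist_eq_norm] using Metric.mem_closedBall.1 hx
    have hpi := Real.pi_pos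
    have hb : |2 * Real.pi * ((-k : ℤ) : ℝ) * t| ≤ Real.pi / 3 := by
      rw [abs_mul, abs_mul, abs_of_pos (by positivity : (0 : ℝ) < 2 * Real.pi)]
      push_cast
      rw [abs_neg]
      have h2 : |(k : ℝ)| * |t| ≤ 1 / 8 :=
        (mul_le_mul_of_nonneg_left hx' (abs_nonneg _)).trans hk
      nlinarith
    rw [← Real.cos_abs, ← Real.cos_pi_div_three]
    exact Real.cos_le_cos_of_nonneg_of_le_pi (abs_nonneg _) (by linarith) hb
  have hint : Integrable (fun x => (fourier (-k) x : ℂ) • ((arc 0 η x : ℝ) : ℂ)) mu := by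
    refine Integrable.of_bound ?_ 1 (Filter.Eventually.of_forall fun x => ?_)
    · refine (Continuous.aestronglyMeasurable
        (map_continuous (fourier (-k) : C(UnitAddCircle, ℂ)))).smul ?_
      exact (Complex.measurable_ofReal.comp (arc_meas 0 η)).aestronglyMeasurable
    · rw [norm_smul, norm_fourier_pt, one_mul, Complex.norm_real, Real.norm_eq_abs,
        abs_of_nonneg (arc_nonneg 0 η x)]
      exact arc_le 0 η x
  have hre : η ≤ (arcC η k).re := by
    have h2 : (arcC η k).re =
        ∫ x, ((fourier (-k) x : ℂ) • ((arc 0 η x : ℝ) : ℂ)).re ∂mu := by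
      unfold arcC fc fourierCoeff
      exact (integral_re hint).symm
    rw [h2]
    have h3 : η = ∫ x, (1 / 2) * arc 0 η x ∂mu := by
      rw [integral_const_mul, integral_arc 0 h0 (by linarith)]
      ring
    calc η = ∫ x, (1 / 2) * arc 0 η x ∂mu := h3
      _ ≤ _ := by
        refine integral_mono ((arc_integrable 0 η).const_mul _) hint.re fun x => ?_
        simp only [smul_eq_mul, Complex.re_mul_ofReal]
        by_cases hx : x ∈ Metric.closedBall (0 : UnitAddCircle) η
        · exact mul_le_mul_of_nonneg_right (hcos x hx) (arc_nonneg 0 η x)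
        · have : arc 0 η x = 0 := Set.indicator_of_notMem hx _
          rw [this]
          simp
  exact hre.trans ((Complex.abs_re_le_norm _).trans' (le_abs_self _))

end Pool.Agent.LogPar
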