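import Pool.Agent.LogPar.AsmC

set_option autoImplicit false

/-! # The final argument -/

namespace Pool.Agent.LogPar

open Real Finset Pool.Agent.FareyParity

theorem main_minus {B C : ℤ} (k : Kit B C) : ∃ A : ℕ, ∃ X0 : ℝ, ∀ X : ℕ, X0 ≤ X →
    ∀ f : ℕ → ℤ, IsSign f → ∀ v : ℤ × ℤ, k.Adm v → f (nf B C v).natAbs = -1 →
    ∀ P : ℝ, 1 ≤ P → |(nf B C v : ℝ)| ≤ P → P ^ A ≤ X →
    (X : ℝ) ≤ (P * Real.log X) ^ A *
      (((Finset.Icc (-(X : ℤ)) X).filter (fun n => f (val B C n) = -1)).card : ℝ) := by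
  obtain ⟨K1, hK1, hbox⟩ := k.box_card
  obtain ⟨K2, hK2, A1, hge⟩ := k.ge
  obtain ⟨K3, hK3, hexpo⟩ := k.expo
  obtain ⟨K4, hK4, A2, hquad⟩ := k.quad
  obtain ⟨K5, hK5, hprimes⟩ := k.primes
  obtain ⟨K6, hK6, hsmall⟩ := k.small
  obtain ⟨K, hKdef⟩ : ∃ K : ℝ, K = K1 + K2 + K3 + K4 + K5 + K6 := ⟨_, rfl⟩
  have hK : 1 ≤ K := by linarith
  have hK0 : 0 < K := by linarith
  have k1 : K1 ≤ K := by linarith
  have k2 : K2 ≤ K := by linarith
  have k3 : K3 ≤ K := by linarith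
  have k4 : K4 ≤ K := by linarith
  have k5 : K5 ≤ K := by linarith
  have k6 : K6 ≤ K := by linarith
  obtain ⟨X0, hnum⟩ := numeric K (10 ^ 10 * K ^ 16) hK
  obtain ⟨a, ha⟩ : ∃ a : ℕ, a = 10002 + A1 + (A2 + 3) := ⟨_, rfl⟩
  refine ⟨2 * a + 40008, X0 + 1, ?_⟩
  intro X hX f hf v hv hfv P hP hvP hPX
  obtain ⟨S, hSX, hXS, hLX, hX5, hLS⟩ := hnum X (by linarith)
  by_contra hcon
  push Not at hcon
  obtain ⟨L, hL⟩ : ∃ L : ℝ, L = log X := ⟨_, rfl⟩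
  rw [← hL] at hcon hLX hLS
  obtain ⟨G, hG⟩ : ∃ G : ℝ, G = P * L := ⟨_, rfl⟩
  rw [← hG] at hcon
  have hK16 : 1 ≤ K ^ 16 := one_le_pow₀ hK
  have hKK : K ≤ K ^ 16 := le_self_pow₀ hK (by norm_num)
  have hL1 : 10 ^ 10 ≤ L := by nlinarith
  have hL0 : 0 < L := by linarith
  have hLG : L ≤ G := by rw [hG]; nlinarith
  have hPG : P ≤ G := by rw [hG]; nlinarith
  have hG0 : 0 < G := by linarith
  have hG1 : 1 ≤ G := by linarith
  have hX1 : (1 : ℝ) ≤ X := by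
    by_contra hc
    push Not at hc
    have : log (X : ℝ) ≤ 0 := by
      rcases eq_or_lt_of_le (Nat.cast_nonneg (α := ℝ) X) with h | h
      · rw [← h, log_zero]
      · exact log_nonpos h.le hc.le
    linarith
  have hX0' : (0 : ℝ) < X := by linarith
  have hS1 : (1 : ℝ) ≤ S := (one_le_rpow hX1 (by norm_num)).trans hX5
  have hS0 : (0 : ℝ) < S := by linarith
  have hSN : 1 ≤ S := by exact_mod_cast hS1
  have hLp : ∀ n : ℕ, n ≤ 10002 → 10 ^ 10 * K ^ 16 * L ^ n ≤ (S : ℝ) ^ (1 / 20000 : ℝ) := by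
    intro n hn
    refine le_trans ?_ hLS
    have : L ^ n ≤ L ^ 10002 := pow_le_pow_right₀ (by linarith) hn
    gcongr
  have hCS : 10 ^ 10 * K ^ 16 ≤ (S : ℝ) ^ (1 / 20000 : ℝ) := by simpa using hLp 0 (by norm_num)
  have hSS : (S : ℝ) ^ (1 / 20000 : ℝ) ≤ S := by
    calc (S : ℝ) ^ (1 / 20000 : ℝ) ≤ (S : ℝ) ^ (1 : ℝ) := rpow_le_rpow_of_exponent_le hS1 (by norm_num)
      _ = S := rpow_one _
  have hKS : K ≤ S := by nlinarith
  -- H
  obtain ⟨H, hH⟩ : ∃ H : ℝ, H = G ^ 5001 := ⟨_, rfl⟩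
  have hP58 : P ^ 5001 ≤ (S : ℝ) ^ (5 / 8 : ℝ) := by
    have e1 : P ^ 40008 ≤ X := by
      refine le_trans ?_ hPX
      exact pow_le_pow_right₀ hP (by omega)
    calc P ^ 5001 = (P ^ 40008) ^ (1 / 8 : ℝ) := by
          rw [show P ^ 40008 = (P ^ 5001) ^ 8 by rw [← pow_mul], ← rpow_natCast (P ^ 5001) 8,
            ← rpow_mul (by positivity)]
          norm_num
      _ ≤ (X : ℝ) ^ (1 / 8 : ℝ) := by gcongr
      _ = ((X : ℝ) ^ (1 / 5 : ℝ)) ^ (5 / 8 : ℝ) := by rw [← rpow_mul hX0'.le]; norm_num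
      _ ≤ _ := by gcongr
  have hL5001 : L ^ 5001 ≤ (S : ℝ) ^ (1 / 20000 : ℝ) := by
    refine le_trans ?_ (hLp 5001 (by norm_num))
    have : 0 < L ^ 5001 := by positivity
    have : (1 : ℝ) ≤ 10 ^ 10 * K ^ 16 := by nlinarith
    nlinarith
  have hHS : H ≤ (S : ℝ) ^ 2 := by
    calc H = P ^ 5001 * L ^ 5001 := by rw [hH, hG, mul_pow]
      _ ≤ (S : ℝ) ^ (5 / 8 : ℝ) * (S : ℝ) ^ (1 / 20000 : ℝ) := by gcongr
      _ = (S : ℝ) ^ (5 / 8 + 1 / 20000 : ℝ) := by rw [rpow_add hS0]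
      _ ≤ (S : ℝ) ^ (2 : ℝ) := rpow_le_rpow_of_exponent_le hS1 (by norm_num)
      _ = (S : ℝ) ^ 2 := by exact_mod_cast rpow_natCast (S : ℝ) 2
  have hGH : G ≤ H := by rw [hH]; exact le_self_pow₀ hG1 (by norm_num)
  have hH0 : 0 < H := by linarith
  have hG2H : G ^ 2 ≤ H := by rw [hH]; exact pow_le_pow_right₀ hG1 (by norm_num)
  have hLLH : L ^ 5001 ≤ H := by rw [hH]; gcongr
  have hG3H : G ^ 3 ≤ H := by rw [hH]; exact pow_le_pow_right₀ hG1 (by norm_num)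
  -- R
  obtain ⟨R, hR⟩ : ∃ R : ℝ, R = K * (S : ℝ) ^ 2 := ⟨_, rfl⟩
  have hR0 : 0 < R := by rw [hR]; positivity
  have hR1 : 1 ≤ R := by rw [hR]; exact one_le_mul_of_one_le_of_one_le hK (one_le_pow₀ hS1)
  have hKR : K * R ^ 2 ≤ X := by rw [hR]; nlinarith [hSX]
  have hRX : R ≤ X := by
    have : R ≤ K * R ^ 2 := by nlinarith
    linarith
  obtain ⟨Bd, hBd⟩ : ∃ Bd : Finset ℤ,
      Bd = (Finset.Icc (-(X : ℤ)) X).filter (fun n => f (val B C n) = -1) := ⟨_, rfl⟩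
  rw [← hBd] at hcon
  have hk2H : K2 ≤ H := by linarith
  have hk2R : K2 * H ≤ R := by rw [hR]; gcongr
  obtain ⟨c, E, hc, hA, hBt, hDp⟩ := hge R H hk2H hk2R f hf Bd (by
    intro n hn hfn
    rw [hBd, mem_filter]
    refine ⟨?_, hfn⟩
    rw [mem_Icc, ← abs_le]
    have e1 : |(n : ℝ)| ≤ X := hn.trans ((by gcongr : K2 * R ^ 2 ≤ K * R ^ 2).trans hKR)
    rw [← Int.cast_abs] at e1
    exact_mod_cast e1)
  -- the measure of E
  have hδ : K2 * √(Bd.card : ℝ) * H ^ 2 * log R ^ A1 / R ≤ 4 * K ^ 2 / G ^ (A2 + 3) := by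
    have e1 : (Bd.card : ℝ) * (G ^ a) ^ 2 ≤ X := by
      have e2 : (G ^ a) ^ 2 ≤ G ^ (2 * a + 40008) := by
        rw [← pow_mul]; exact pow_le_pow_right₀ hG1 (by omega)
      have e3 : (Bd.card : ℝ) * (G ^ a) ^ 2 ≤ G ^ (2 * a + 40008) * Bd.card := by
        rw [mul_comm]; gcongr
      linarith
    have e2 : √(Bd.card : ℝ) * G ^ a ≤ 4 * K ^ 2 * (S : ℝ) ^ 2 := by
      have f1 : √(Bd.card : ℝ) * G ^ a = √((Bd.card : ℝ) * (G ^ a) ^ 2) := by
        rw [sqrt_mul (Nat.cast_nonneg _), sqrt_sq (by positivity)]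
      rw [f1]
      apply sqrt_le_iff.2
      refine ⟨by positivity, ?_⟩
      have f2 : K ^ 3 ≤ K ^ 4 := pow_le_pow_right₀ hK (by norm_num)
      calc (Bd.card : ℝ) * (G ^ a) ^ 2 ≤ X := e1
        _ ≤ 16 * K ^ 3 * (S : ℝ) ^ 4 := hXS
        _ ≤ 16 * K ^ 4 * (S : ℝ) ^ 4 := by gcongr
        _ = _ := by ring
    have e3 : log R ≤ G := by
      calc log R ≤ log X := log_le_log hR0 hRX
        _ = L := hL.symm
        _ ≤ G := hLG
    have e3' : 0 ≤ log R := log_nonneg hR1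
    have hGa : G ^ a = G ^ 10002 * G ^ A1 * G ^ (A2 + 3) := by rw [ha, pow_add, pow_add]
    have hH2 : H ^ 2 = G ^ 10002 := by rw [hH, ← pow_mul]
    rw [div_le_div_iff₀ hR0 (by positivity)]
    calc K2 * √(Bd.card : ℝ) * H ^ 2 * log R ^ A1 * G ^ (A2 + 3)
        ≤ K * √(Bd.card : ℝ) * H ^ 2 * G ^ A1 * G ^ (A2 + 3) := by gcongr
      _ = K * (√(Bd.card : ℝ) * G ^ a) := by rw [hGa, hH2]; ring
      _ ≤ K * (4 * K ^ 2 * (S : ℝ) ^ 2) := by gcongr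
      _ = 4 * K ^ 2 * R := by rw [hR]; ring
  -- T
  obtain ⟨T, hT⟩ : ∃ T : ℝ, T = H / (K * R ^ 2) := ⟨_, rfl⟩
  have hT0 : 0 < T := by rw [hT]; positivity
  have hTle : T ≤ H / (K2 * R ^ 2) := by
    rw [hT]
    gcongr
  have hTeq : T * (K ^ 3 * (S : ℝ) ^ 4) = H := by
    rw [hT, hR]; field_simp
  have hK3G : 2 * K ^ 3 ≤ G := by
    have : K ^ 3 ≤ K ^ 16 := pow_le_pow_right₀ hK (by norm_num)
    linarith
  have hK6G : 2 * K ^ 6 ≤ G := by
    have : K ^ 6 ≤ K ^ 16 := pow_le_pow_right₀ hK (by norm_num)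
    linarith
  -- N
  obtain ⟨N, hN⟩ : ∃ N : ℕ, N = ⌈320 * K ^ 3 * L⌉₊ := ⟨_, rfl⟩
  have hK3 : 1 ≤ K ^ 3 := one_le_pow₀ hK
  have hN1 : 320 * K ^ 3 * L ≤ N := by rw [hN]; exact Nat.le_ceil _
  have hN2 : (N : ℝ) ≤ 321 * K ^ 3 * L := by
    have := Nat.ceil_lt_add_one (show 0 ≤ 320 * K ^ 3 * L by positivity)
    rw [hN]
    have e : 1 ≤ K ^ 3 * L := by nlinarith
    linarith
  have hNK : K ≤ N := by
    have : K ≤ L := by linarith
    have : L ≤ 320 * K ^ 3 * L := by nlinarith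
    linarith
  obtain ⟨v0, hv0, hv0n, t, ht, ht1, ht2⟩ := hsmall N (by linarith)
  have hN0 : (0 : ℝ) < N := by linarith
  obtain ⟨Q, hQ, hQc, hQs⟩ := hprimes (L ^ 5000) (by
    have : L ≤ L ^ 5000 := le_self_pow₀ (by linarith) (by norm_num)
    linarith)
  have hsig : ∀ w, k.Adm w → (col f B C w : ℝ) = 1 ∨ (col f B C w : ℝ) = -1 := by
    intro w hw
    have h1 := hf.val (nf B C w).natAbs (by have := k.adm_ne w hw; omega)
    rcases h1 with h | h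
    · left; simp [col, h]
    · right; simp [col, h]
  have hsm : ∀ w, k.Adm w → K * |(nf B C w : ℝ)| ≤ H → ∀ x, x ∉ E → x + k.th w ∉ E →
      c (x + k.th w) = col f B C w * c x := by
    intro w hw hwH
    apply hA w hw
    refine le_trans ?_ hwH
    gcongr
  refine core (th := k.th) (F := fun w => (col f B C w : ℝ)) (V := k.box S) (Q := Q) (K := K)
    (L := L) (G := G) (T := T) (τ := 1 / (2 * K * (S : ℝ) ^ 4)) (t := t) (S := S) (A2 := A2)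
    (N := N) hK hLX hLG hLS ?_ (fun w hw => hsig w (k.box_adm S w hw))
    (fun w hw => hsig w (hQ w hw).1) hc hδ hT0 ?_ ?_ rfl ?_ ?_ ?_ ?_ ?_ hQc ?_ ?_
    (v0 := v0) (v1 := v) (hsig v0 hv0) ?_ ?_ ?_ hN1 hN2 ht ?_ ?_
  · -- log S^4 + 1 ≤ L
    have e1 : exp 1 * (S : ℝ) ^ 4 ≤ X := by
      have : exp 1 ≤ K ^ 3 := by
        have h6 : 6 ≤ K := by linarith
        have := exp_one_lt_d9
        have : (6:ℝ) ^ 3 ≤ K ^ 3 := by gcongr
        norm_num at this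
        linarith
      calc exp 1 * (S : ℝ) ^ 4 ≤ K ^ 3 * (S : ℝ) ^ 4 := by gcongr
        _ ≤ (X : ℝ) := hSX
    have e2 := log_le_log (by positivity) e1
    rw [log_mul (exp_pos 1).ne' (by positivity), log_exp] at e2
    linarith
  · -- K^3 ≤ S^4 T
    have e1 : K ^ 3 * K ^ 3 ≤ K ^ 3 * ((S : ℝ) ^ 4 * T) := by
      calc K ^ 3 * K ^ 3 = K ^ 6 := by ring
        _ ≤ H := by
          have : 0 < K ^ 6 := by positivity
          linarith
        _ = K ^ 3 * ((S : ℝ) ^ 4 * T) := by rw [← hTeq]; ring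
    exact le_of_mul_le_mul_left e1 (by positivity)
  · calc 2 * K ^ 3 ≤ H := by linarith
      _ = T * K ^ 3 * (S : ℝ) ^ 4 := by rw [← hTeq]; ring
  · intro s hs
    exact hBt s (hs.trans hTle)
  · intro w hw w' hw' s hs hE
    have e1 : |s| ≤ H / (K2 * R ^ 2) := by
      refine hs.trans (le_trans ?_ hTle)
      have e2 : 1 / (2 * K * (S : ℝ) ^ 4) = K ^ 2 / 2 / (K ^ 3 * (S : ℝ) ^ 4) := by
        field_simp
      rw [e2, div_le_iff₀ (by positivity), hTeq]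
      have : K ^ 2 ≤ K ^ 16 := pow_le_pow_right₀ hK (by norm_num)
      nlinarith
    have := hDp S (by rw [hR]; gcongr) w hw w' hw' s e1 hE
    exact_mod_cast this
  · refine le_trans ?_ (hbox S (by linarith)).1
    gcongr
  · intro m hm hmS
    refine (hexpo S (by linarith) m hm hmS).trans ?_
    gcongr
  · intro Pq hPq
    have h3 := hquad S (by linarith) Pq (by
      intro p hp
      obtain ⟨p1, p2, p3, p4, p5⟩ := hPq p hp
      refine ⟨p1, p2, p3, p4, p5.trans ?_⟩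
      gcongr)
    refine h3.trans ?_
    have e1 : log (S : ℝ) ≤ L := by
      rw [hL]
      apply log_le_log hS0
      have : (S : ℝ) ≤ K ^ 3 * (S : ℝ) ^ 4 := by
        have f1 : (S : ℝ) ≤ (S : ℝ) ^ 4 := le_self_pow₀ hS1 (by norm_num)
        nlinarith
      linarith
    have e2 : 0 ≤ log (S : ℝ) := log_nonneg hS1
    gcongr
  · intro r m hm m' hm' hne
    refine le_trans ?_ (hQs r m hm m' hm' hne)
    gcongr
  · intro w hw
    apply hsm w (hQ w hw).1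
    calc K * |(nf B C w : ℝ)| ≤ K * L ^ 5000 := by gcongr; exact (hQ w hw).2
      _ ≤ L * L ^ 5000 := by gcongr; linarith
      _ = L ^ 5001 := by ring
      _ ≤ H := hLLH
  · simp [col, hfv]
  · apply hsm v0 hv0
    calc K * |(nf B C v0 : ℝ)| ≤ K * (K6 * (N : ℝ) ^ 2) := by gcongr
      _ ≤ K * (K * (321 * K ^ 3 * L) ^ 2) := by gcongr
      _ = 103041 * K ^ 8 * L ^ 2 := by ring
      _ ≤ L * L ^ 2 := by
          have : K ^ 8 ≤ K ^ 16 := pow_le_pow_right₀ hK (by norm_num)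
          gcongr
          linarith
      _ ≤ G * G ^ 2 := by gcongr
      _ = G ^ 3 := by ring
      _ ≤ H := hG3H
  · apply hsm v hv
    calc K * |(nf B C v : ℝ)| ≤ K * P := by gcongr
      _ ≤ G * G := by gcongr; linarith
      _ = G ^ 2 := by ring
      _ ≤ H := hG2H
  · refine le_trans ?_ ht1
    gcongr
  · refine ht2.trans ?_
    gcongr

theorem main_plus {B C : ℤ} (k : Kit B C) : ∃ A : ℕ, ∃ X0 : ℝ, ∀ X : ℕ, X0 ≤ X →
    ∀ f : ℕ → ℤ, IsSign f → (X : ℝ) ≤ Real.log X ^ A *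
      (((Finset.Icc (-(X : ℤ)) X).filter (fun n => f (val B C n) = 1)).card : ℝ) := by
  obtain ⟨K, hK, A, h⟩ := k.plus
  have hK0 : 0 < K := by linarith
  refine ⟨2 * A + 3, exp K + K ^ 3 + 1, ?_⟩
  intro X hX f hf
  obtain ⟨Bd, hBd⟩ : ∃ Bd : Finset ℤ,
      Bd = (Finset.Icc (-(X : ℤ)) X).filter (fun n => f (val B C n) = 1) := ⟨_, rfl⟩
  rw [← hBd]
  have hK3 : 1 ≤ K ^ 3 := one_le_pow₀ hK
  have hE := exp_pos K
  have hX0 : (0 : ℝ) < X := by linarith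
  have hX1 : (1 : ℝ) ≤ X := by linarith
  obtain ⟨R, hR⟩ : ∃ R : ℝ, R = √(X / K) := ⟨_, rfl⟩
  have hR2 : K * R ^ 2 = X := by rw [hR, sq_sqrt (by positivity)]; field_simp
  have hR0 : 0 < R := by rw [hR]; positivity
  have hKR : K ≤ R := by
    rw [hR]
    apply le_sqrt_of_sq_le
    rw [le_div_iff₀ hK0]
    calc K ^ 2 * K = K ^ 3 := by ring
      _ ≤ (X : ℝ) := by linarith
  have main := h R hKR f hf Bd (by
    intro n hn hfn
    rw [hBd, mem_filter]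
    refine ⟨?_, hfn⟩
    rw [mem_Icc, ← abs_le]
    rw [hR2, ← Int.cast_abs] at hn
    exact_mod_cast hn)
  have hR1 : 1 ≤ R := hK.trans hKR
  have hRX : R ≤ X := by
    rw [← hR2]; nlinarith
  have hL : log R ≤ log X := log_le_log hR0 hRX
  have hLR : 0 ≤ log R := log_nonneg hR1
  have hKL : K ≤ log X := by
    rw [le_log_iff_exp_le hX0]; linarith
  have hL0 : 0 < log (X : ℝ) := by linarith
  have h1 : R ≤ K * √(Bd.card : ℝ) * log X ^ A := main.trans (by gcongr)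
  calc (X : ℝ) = K * R ^ 2 := hR2.symm
    _ ≤ K * (K * √(Bd.card : ℝ) * log X ^ A) ^ 2 := by gcongr
    _ = K ^ 3 * (log X ^ A) ^ 2 * √(Bd.card : ℝ) ^ 2 := by ring
    _ = K ^ 3 * log X ^ (2 * A) * Bd.card := by
        rw [sq_sqrt (Nat.cast_nonneg _), ← pow_mul, mul_comm A 2]
    _ ≤ log X ^ 3 * log X ^ (2 * A) * Bd.card := by gcongr
    _ = log X ^ (2 * A + 3) * Bd.card := by rw [← pow_add]; congr 2; ring

theorem main_kit {B C : ℤ} (k : Kit B C) : ∃ A : ℕ, ∃ X0 : ℝ, ∀ X : ℕ, X0 ≤ X →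
    ∀ f : ℕ → ℤ, IsSign f → ∀ v : ℤ × ℤ, k.Adm v → f (nf B C v).natAbs = -1 →
    ∀ P : ℝ, 1 ≤ P → |(nf B C v : ℝ)| ≤ P → P ^ A ≤ X → ∀ e : ℤ, e = 1 ∨ e = -1 →
    (X : ℝ) ≤ (P * Real.log X) ^ A *
      (((Finset.Icc (-(X : ℤ)) X).filter (fun n => f (val B C n) = e)).card : ℝ) := by
  obtain ⟨A, X0, h⟩ := main_minus k
  obtain ⟨A', X0', h'⟩ := main_plus k
  refine ⟨A + A', max (max X0 X0') (exp 1), ?_⟩
  intro X hX f hf v hv hfv P hP hvP hPX e he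
  have hx1 : X0 ≤ X := (le_max_left _ _).trans ((le_max_left _ _).trans hX)
  have hx2 : X0' ≤ X := (le_max_right _ _).trans ((le_max_left _ _).trans hX)
  have hx3 : exp 1 ≤ X := (le_max_right _ _).trans hX
  have hX0 : (0 : ℝ) < X := (exp_pos 1).trans_le hx3
  have hL : 1 ≤ log X := (le_log_iff_exp_le hX0).2 hx3
  have hPL : 1 ≤ P * log X := one_le_mul_of_one_le_of_one_le hP hL
  rcases he with rfl | rfl
  · refine (h' X hx2 f hf).trans ?_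
    gcongr
    calc log X ^ A' ≤ (P * log X) ^ A' := by gcongr; nlinarith
      _ ≤ (P * log X) ^ (A + A') := pow_le_pow_right₀ hPL (by omega)
  · refine (h X hx1 f hf v hv hfv P hP hvP (le_trans (pow_le_pow_right₀ hP (by omega)) hPX)).trans ?_
    gcongr
    omega

end Pool.Agent.LogPar
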