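import Pool.Agent.LogPar.Defs

set_option autoImplicit false

/-! # Sums of reciprocals over a separated set of integers -/

namespace Pool.Agent.LogPar

theorem harm_side {T : Finset ℤ} {D N : ℝ} (hD : 1 ≤ D) (hN : 1 ≤ N) (u : ℤ → ℝ)
    (hu : ∀ k ∈ T, D ≤ u k ∧ u k ≤ 2 * N)
    (hsep : ∀ k ∈ T, ∀ k' ∈ T, k ≠ k' → D ≤ |u k - u k'|) :
    ∑ k ∈ T, 1 / u k ≤ 1 / D * (1 + Real.log (2 * N)) := by
  classical
  have hD0 : 0 < D := by linarith
  set j : ℤ → ℕ := fun k => ⌊u k / D⌋₊ with hj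
  have hinj : Set.InjOn j (T : Set ℤ) := by
    intro k hk k' hk' he
    by_contra hne
    have h1 := hsep k hk k' hk' hne
    have hk0 : 0 ≤ u k / D := div_nonneg (by linarith [(hu k hk).1]) hD0.le
    have hk0' : 0 ≤ u k' / D := div_nonneg (by linarith [(hu k' hk').1]) hD0.le
    have h2 := Nat.floor_le hk0
    have h3 := Nat.lt_floor_add_one (u k / D)
    have h2' := Nat.floor_le hk0'
    have h3' := Nat.lt_floor_add_one (u k' / D)
    simp only [hj] at he
    rw [← he] at h2' h3'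
    have h4 : |u k / D - u k' / D| < 1 := by
      rw [abs_lt]; constructor <;> linarith
    rw [← sub_div, abs_div, abs_of_pos hD0, div_lt_one hD0] at h4
    linarith
  have hj1 : ∀ k ∈ T, 1 ≤ j k := by
    intro k hk
    simp only [hj]
    apply Nat.le_floor
    rw [Nat.cast_one, le_div_iff₀ hD0]
    linarith [(hu k hk).1]
  have hjN : ∀ k ∈ T, j k ≤ ⌊2 * N⌋₊ := by
    intro k hk
    simp only [hj]
    apply Nat.floor_le_floor
    rw [div_le_iff₀ hD0]
    have := (hu k hk).2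
    nlinarith
  have hjle : ∀ k ∈ T, 1 / u k ≤ 1 / D * (1 / (j k : ℝ)) := by
    intro k hk
    have h1 : (1 : ℝ) ≤ (j k : ℝ) := by exact_mod_cast hj1 k hk
    have hk0 : 0 ≤ u k / D := div_nonneg (by linarith [(hu k hk).1]) hD0.le
    have h2 : (j k : ℝ) ≤ u k / D := Nat.floor_le hk0
    rw [le_div_iff₀ hD0] at h2
    rw [one_div_mul_one_div]
    apply one_div_le_one_div_of_le (by positivity)
    linarith
  calc ∑ k ∈ T, 1 / u k ≤ ∑ k ∈ T, 1 / D * (1 / (j k : ℝ)) := Finset.sum_le_sum hjle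
    _ = ∑ i ∈ T.image j, 1 / D * (1 / (i : ℝ)) := by
      rw [Finset.sum_image hinj]
    _ ≤ ∑ i ∈ Finset.Icc 1 ⌊2 * N⌋₊, 1 / D * (1 / (i : ℝ)) := by
      apply Finset.sum_le_sum_of_subset_of_nonneg
      · intro i hi
        rw [Finset.mem_image] at hi
        obtain ⟨k, hk, rfl⟩ := hi
        rw [Finset.mem_Icc]
        exact ⟨hj1 k hk, hjN k hk⟩
      · intros; positivity
    _ = 1 / D * ((harmonic ⌊2 * N⌋₊ : ℚ) : ℝ) := by
      rw [← Finset.mul_sum, harmonic_eq_sum_Icc]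
      push_cast
      simp only [one_div]
    _ ≤ 1 / D * (1 + Real.log (2 * N)) := by
      apply mul_le_mul_of_nonneg_left _ (by positivity)
      have h1 := harmonic_floor_le_one_add_log (2 * N) (by linarith)
      exact h1

theorem harm {𝓚 : Finset ℤ} {D N : ℝ} (hD : 1 ≤ D) (hN : 1 ≤ N) (hK : ∀ k ∈ 𝓚, |(k : ℝ)| ≤ N)
    (hsep : ∀ k ∈ 𝓚, ∀ k' ∈ 𝓚, k ≠ k' → D ≤ |((k - k' : ℤ) : ℝ)|) {k : ℤ} (hk : k ∈ 𝓚) :
    ∑ k' ∈ 𝓚.erase k, 1 / |((k - k' : ℤ) : ℝ)| ≤ 4 / D * (1 + Real.log (2 * N)) := by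
  classical
  have hD0 : 0 < D := by linarith
  have hlog : 0 ≤ 1 + Real.log (2 * N) := by
    have := Real.log_nonneg (by linarith : (1 : ℝ) ≤ 2 * N)
    linarith
  rw [← Finset.sum_filter_add_sum_filter_not (𝓚.erase k) (fun k' => k' < k)]
  have hbd : ∀ k' ∈ 𝓚, |((k - k' : ℤ) : ℝ)| ≤ 2 * N := by
    intro k' hk'
    have h1 := hK k hk
    have h2 := hK k' hk'
    push_cast
    calc |(k : ℝ) - k'| ≤ |(k : ℝ)| + |(k' : ℝ)| := abs_sub _ _
      _ ≤ 2 * N := by linarith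
  have h1 := harm_side (T := (𝓚.erase k).filter (fun k' => k' < k)) hD hN
    (fun k' => |((k - k' : ℤ) : ℝ)|)
    (by
      intro k' hk'
      simp only [Finset.mem_filter, Finset.mem_erase] at hk'
      exact ⟨hsep k hk k' hk'.1.2 (Ne.symm hk'.1.1), hbd k' hk'.1.2⟩)
    (by
      intro a ha b hb hab
      simp only [Finset.mem_filter, Finset.mem_erase] at ha hb
      have h1 : (0 : ℝ) < ((k - a : ℤ) : ℝ) := by exact_mod_cast (by omega : (0 : ℤ) < k - a)
      have h2 : (0 : ℝ) < ((k - b : ℤ) : ℝ) := by exact_mod_cast (by omega : (0 : ℤ) < k - b)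
      have h3 := hsep b hb.1.2 a ha.1.2 (Ne.symm hab)
      rw [abs_of_pos h1, abs_of_pos h2]
      have : ((k - a : ℤ) : ℝ) - ((k - b : ℤ) : ℝ) = ((b - a : ℤ) : ℝ) := by push_cast; ring
      rw [this]; exact h3)
  have h2 := harm_side (T := (𝓚.erase k).filter (fun k' => ¬ k' < k)) hD hN
    (fun k' => |((k - k' : ℤ) : ℝ)|)
    (by
      intro k' hk'
      simp only [Finset.mem_filter, Finset.mem_erase] at hk'
      exact ⟨hsep k hk k' hk'.1.2 (Ne.symm hk'.1.1), hbd k' hk'.1.2⟩)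
    (by
      intro a ha b hb hab
      simp only [Finset.mem_filter, Finset.mem_erase] at ha hb
      have h1 : ((k - a : ℤ) : ℝ) < 0 := by exact_mod_cast (by omega : k - a < (0 : ℤ))
      have h2 : ((k - b : ℤ) : ℝ) < 0 := by exact_mod_cast (by omega : k - b < (0 : ℤ))
      have h3 := hsep a ha.1.2 b hb.1.2 hab
      rw [abs_of_neg h1, abs_of_neg h2]
      have : -((k - a : ℤ) : ℝ) - -((k - b : ℤ) : ℝ) = ((a - b : ℤ) : ℝ) := by push_cast; ring
      rw [this]; exact h3)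
  have h3 : 4 / D * (1 + Real.log (2 * N)) = 4 * (1 / D * (1 + Real.log (2 * N))) := by ring
  have h4 : 0 ≤ 1 / D * (1 + Real.log (2 * N)) := by positivity
  rw [h3]
  linarith

end Pool.Agent.LogPar
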