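import Pool.Agent.LogPar.LSieve

set_option autoImplicit false

/-! # Few frequencies correlate with a multiplicative function -/

namespace Pool.Agent.LogPar

theorem kcard_countPerms_le {α : Type*} [DecidableEq α] (m : Multiset α) :
    m.countPerms ≤ (Multiset.card m).factorial := by
  unfold Multiset.countPerms
  rw [Finsupp.multinomial_eq]
  unfold Nat.multinomial
  refine (Nat.div_le_self _ _).trans (le_of_eq ?_)
  congr 1
  have h := Multiset.toFinsupp_sum_eq m
  exact h

theorem kcard_fourier_sum {α : Type*} (th : α → UnitAddCircle) (k : ℤ) (m : Multiset α) :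
    (fourier k ((m.map th).sum) : ℂ) = (m.map fun v => (fourier k (th v) : ℂ)).prod := by
  induction m using Multiset.induction_on with
  | empty => simp
  | cons a m ih =>
    rw [Multiset.map_cons, Multiset.sum_cons, Multiset.map_cons, Multiset.prod_cons, ← ih]
    rw [fourier_apply, fourier_apply, fourier_apply, smul_add, AddCircle.toCircle_add]
    simp

theorem kcard_norm_prod {α : Type*} (Q : Finset α) (F : α → ℝ) (hF : ∀ v ∈ Q, |F v| = 1)
    (m : Multiset α) (hm : ∀ v ∈ m, v ∈ Q) : ‖(m.map fun v => (F v : ℂ)).prod‖ = 1 := by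
  induction m using Multiset.induction_on with
  | empty => simp
  | cons a m ih =>
    rw [Multiset.map_cons, Multiset.prod_cons, norm_mul, ih fun v hv => hm v
      (Multiset.mem_cons_of_mem hv), Complex.norm_real, Real.norm_eq_abs,
      hF a (hm a (Multiset.mem_cons_self a m)), mul_one]

theorem card_freq {α : Type*} [DecidableEq α] (Q : Finset α) (th : α → UnitAddCircle) (F : α → ℝ)
    (hF : ∀ v ∈ Q, |F v| = 1) (r : ℕ) {Δ N : ℝ} (hΔ : 0 < Δ) (hΔ1 : Δ ≤ 1) (hN : 1 ≤ N)
    (hsep : ∀ m ∈ Q.sym r, ∀ m' ∈ Q.sym r, m ≠ m' →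
      Δ ≤ ‖((m : Multiset α).map th).sum - ((m' : Multiset α).map th).sum‖)
    (s : Finset ℤ) (hs : ∀ k ∈ s, |(k : ℝ)| ≤ N)
    (hk : ∀ k ∈ s, (Q.card : ℝ) / 2 ≤ ‖∑ v ∈ Q, (F v : ℂ) * (fourier k (th v) : ℂ)‖) :
    (s.card : ℝ) * (Q.card : ℝ) ^ r ≤ 16 * (N + 1 / Δ) * r.factorial * 4 ^ r := by
  set q : ℝ := (Q.card : ℝ) with hq
  have hq0 : 0 ≤ q := Nat.cast_nonneg _
  have hNΔ : 0 < N + 1 / Δ := by positivity
  set a : Sym α r → UnitAddCircle := fun m => ((m : Multiset α).map th).sum with ha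
  set z : Sym α r → ℂ := fun m =>
    (((m : Multiset α).countPerms : ℕ) : ℂ) * ((m : Multiset α).map fun v => (F v : ℂ)).prod with hz
  have hls := large_sieve (Q.sym r) a z hΔ hΔ1 hN hsep s hs
  -- the expansion
  have hexp : ∀ k, ∑ m ∈ Q.sym r, z m * (fourier k (a m) : ℂ) =
      (∑ v ∈ Q, (F v : ℂ) * (fourier k (th v) : ℂ)) ^ r := by
    intro k
    rw [Finset.sum_pow]
    refine Finset.sum_congr rfl fun m _ => ?_
    rw [hz, ha]
    simp only
    rw [kcard_fourier_sum, mul_assoc, ← Multiset.prod_map_mul]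
    rfl
  have hnz : ∀ m ∈ Q.sym r, ‖z m‖ = ((m : Multiset α).countPerms : ℝ) := by
    intro m hm
    have h1 : ‖((m : Multiset α).map fun v => (F v : ℂ)).prod‖ = 1 :=
      kcard_norm_prod Q F hF (m : Multiset α) (fun v hv => Finset.mem_sym_iff.1 hm v hv)
    rw [hz]
    simp only
    rw [norm_mul, h1, mul_one, Complex.norm_natCast]
  have hsum1 : ∑ m ∈ Q.sym r, ((m : Multiset α).countPerms : ℝ) = q ^ r := by
    have h := Finset.sum_pow (s := Q) (x := fun _ : α => (1 : ℝ)) (n := r)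
    simp only [Finset.sum_const, nsmul_eq_mul, mul_one, Multiset.map_const', Multiset.prod_replicate,
      one_pow] at h
    rw [hq, h]
    rfl
  have hsum2 : ∑ m ∈ Q.sym r, ‖z m‖ ^ 2 ≤ r.factorial * q ^ r := by
    rw [← hsum1, Finset.mul_sum]
    refine Finset.sum_le_sum fun m hm => ?_
    rw [hnz m hm, sq]
    refine mul_le_mul_of_nonneg_right ?_ (Nat.cast_nonneg _)
    have h := kcard_countPerms_le (m : Multiset α)
    have h2 : Multiset.card (m : Multiset α) = r := m.2
    rw [h2] at h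
    exact_mod_cast h
  have hlow : (s.card : ℝ) * (q / 2) ^ (2 * r) ≤
      ∑ k ∈ s, ‖∑ m ∈ Q.sym r, z m * (fourier k (a m) : ℂ)‖ ^ 2 := by
    rw [← nsmul_eq_mul]
    refine Finset.card_nsmul_le_sum _ _ _ fun k hk' => ?_
    rw [hexp, norm_pow, ← pow_mul, mul_comm r 2]
    exact pow_le_pow_left₀ (by positivity) (hk k hk') _
  have hmain : (s.card : ℝ) * (q / 2) ^ (2 * r) ≤ 16 * (N + 1 / Δ) * (r.factorial * q ^ r) :=
    hlow.trans (hls.trans (mul_le_mul_of_nonneg_left hsum2 (by positivity)))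
  have e : (q / 2) ^ (2 * r) = q ^ r * q ^ r / 4 ^ r := by
    rw [div_pow, pow_mul 2 2 r, two_mul, pow_add]
    norm_num
  rw [e] at hmain
  have h4 : (0 : ℝ) < 4 ^ r := by positivity
  have hmain2 : ((s.card : ℝ) * q ^ r) * q ^ r ≤
      (16 * (N + 1 / Δ) * r.factorial * 4 ^ r) * q ^ r := by
    have h5 : ((s.card : ℝ) * (q ^ r * q ^ r / 4 ^ r)) * 4 ^ r =
        ((s.card : ℝ) * q ^ r) * q ^ r := by
      field_simp
    have h6 := mul_le_mul_of_nonneg_right hmain h4.le
    rw [h5] at h6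
    refine h6.trans (le_of_eq ?_)
    ring
  rcases (pow_nonneg hq0 r).eq_or_lt with h0 | h0
  · rw [← h0, mul_zero]
    positivity
  · exact le_of_mul_le_mul_right hmain2 h0

end Pool.Agent.LogPar
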