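import Pool.Agent.LogPar.Spec
import Pool.Agent.LogPar.KCard
import Pool.Agent.LogPar.Harm

set_option autoImplicit false

/-! # The final argument, part 1: the spectrum -/

namespace Pool.Agent.LogPar

open Finset ComplexConjugate

theorem norm_fourier (k : ℤ) (x : UnitAddCircle) : ‖(fourier k x : ℂ)‖ = 1 := by
  rw [fourier_apply]
  exact Circle.norm_coe _

theorem fourier_sub_one_ge {t : ℝ} (ht : 0 ≤ t) {m : ℤ} (hm : |(m : ℝ)| * t ≤ 1 / 2) :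
    4 * (|(m : ℝ)| * t) ≤ ‖(fourier m (t : UnitAddCircle) : ℂ) - 1‖ := by
  rw [fourier_coe_apply]
  have h1 : (2 * (Real.pi : ℂ) * Complex.I * m * t / (1 : ℝ)) =
      Complex.I * ((2 * Real.pi * m * t : ℝ) : ℂ) := by
    push_cast; ring
  rw [h1, Complex.norm_exp_I_mul_ofReal_sub_one]
  have h2 : 2 * Real.pi * m * t / 2 = Real.pi * (m * t) := by ring
  rw [h2, Real.norm_eq_abs, abs_mul, abs_two]
  have h3 : |Real.sin (Real.pi * (m * t))| = Real.sin (Real.pi * (|(m : ℝ)| * t)) := by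
    have h4 : 0 ≤ Real.sin (Real.pi * (|(m : ℝ)| * t)) := by
      apply Real.sin_nonneg_of_nonneg_of_le_pi
      · positivity
      · nlinarith [Real.pi_pos]
    rcases abs_cases (m : ℝ) with ⟨h, _⟩ | ⟨h, _⟩
    · rw [h] at h4 ⊢; rw [abs_of_nonneg h4]
    · rw [h] at h4 ⊢
      have e : Real.pi * (-(m : ℝ) * t) = -(Real.pi * (m * t)) := by ring
      rw [e, Real.sin_neg] at h4 ⊢
      rw [abs_of_nonpos (by linarith)]
  rw [h3]
  have hpi := Real.pi_pos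
  have h5 : 2 / Real.pi * (Real.pi * (|(m : ℝ)| * t)) ≤ Real.sin (Real.pi * (|(m : ℝ)| * t)) := by
    apply Real.mul_le_sin
    · positivity
    · nlinarith
  have h6 : 2 / Real.pi * (Real.pi * (|(m : ℝ)| * t)) = 2 * (|(m : ℝ)| * t) := by
    field_simp
  linarith

theorem off_spec {c : UnitAddCircle → ℝ} {E : Set UnitAddCircle} {δ : ℝ} (hc : SignFun c E δ)
    {T : ℝ} (hT : 0 < T)
    (htail : ∀ t : ℝ, |t| ≤ T → ∀ x, x ∉ E → x + (t : UnitAddCircle) ∉ E →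
      c (x + (t : UnitAddCircle)) = c x)
    {a0 a1 : UnitAddCircle} {e0 e1 : ℝ} (he0 : e0 = 1 ∨ e0 = -1) (he1 : e1 = 1 ∨ e1 = -1)
    (h0 : ∀ x, x ∉ E → x + a0 ∉ E → c (x + a0) = e0 * c x)
    (h1 : ∀ x, x ∉ E → x + a1 ∉ E → c (x + a1) = e1 * c x)
    {α : Type*} (Q : Finset α) (hQ : Q.Nonempty) (th : α → UnitAddCircle) (F : α → ℝ)
    (hF : ∀ v ∈ Q, F v = 1 ∨ F v = -1)
    (hQe : ∀ v ∈ Q, ∀ x, x ∉ E → x + th v ∉ E → c (x + th v) = F v * c x)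
    {t : ℝ} (ht : 0 < t) (s : Finset ℤ)
    (hs : ∀ k ∈ s, 1 ≤ |(k : ℝ)| * T ∨ 2 * t ≤ ‖(fourier k a0 : ℂ) - e0‖ ∨
      1 ≤ ‖(fourier k a1 : ℂ) - e1‖ ∨
      (Q.card : ℝ) ≤ ∑ v ∈ Q, ‖(fourier k (th v) : ℂ) - F v‖ ^ 2) :
    ∑ k ∈ s, ‖fc c k‖ ^ 2 ≤ 8 * δ * (3 + 1 / (4 * t ^ 2)) := by
  classical
  have hQ0 : (0 : ℝ) < Q.card := by exact_mod_cast hQ.card_pos
  have htl := spec_tail hc hT htail (s.filter (fun k => 1 ≤ |(k : ℝ)| * T))
    (fun k hk => (mem_filter.1 hk).2)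
  have hs0 := spec_one hc he0 h0 s
  have hs1 := spec_one hc he1 h1 s
  have hsQ : ∑ v ∈ Q, ∑ k ∈ s, ‖fc c k‖ ^ 2 * ‖(fourier k (th v) : ℂ) - F v‖ ^ 2 ≤
      Q.card * (8 * δ) := by
    rw [← nsmul_eq_mul]
    apply sum_le_card_nsmul
    intro v hv
    exact spec_one hc (hF v hv) (hQe v hv) s
  have key : ∀ k ∈ s, ‖fc c k‖ ^ 2 ≤ (if 1 ≤ |(k : ℝ)| * T then ‖fc c k‖ ^ 2 else 0) +
      1 / (4 * t ^ 2) * (‖fc c k‖ ^ 2 * ‖(fourier k a0 : ℂ) - e0‖ ^ 2) +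
      ‖fc c k‖ ^ 2 * ‖(fourier k a1 : ℂ) - e1‖ ^ 2 +
      1 / Q.card * ∑ v ∈ Q, ‖fc c k‖ ^ 2 * ‖(fourier k (th v) : ℂ) - F v‖ ^ 2 := by
    intro k hk
    have hw : 0 ≤ ‖fc c k‖ ^ 2 := by positivity
    have n0 : 0 ≤ (if 1 ≤ |(k : ℝ)| * T then ‖fc c k‖ ^ 2 else 0) := by
      split_ifs
      · exact hw
      · exact le_rfl
    have n1 : 0 ≤ 1 / (4 * t ^ 2) * (‖fc c k‖ ^ 2 * ‖(fourier k a0 : ℂ) - e0‖ ^ 2) := by positivity
    have n2 : 0 ≤ ‖fc c k‖ ^ 2 * ‖(fourier k a1 : ℂ) - e1‖ ^ 2 := by positivity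
    have n3 : 0 ≤ 1 / Q.card * ∑ v ∈ Q, ‖fc c k‖ ^ 2 * ‖(fourier k (th v) : ℂ) - F v‖ ^ 2 := by
      positivity
    rcases hs k hk with h | h | h | h
    · rw [if_pos h] at n0 ⊢; linarith
    · have : ‖fc c k‖ ^ 2 ≤
          1 / (4 * t ^ 2) * (‖fc c k‖ ^ 2 * ‖(fourier k a0 : ℂ) - e0‖ ^ 2) := by
        have h4 : 4 * t ^ 2 ≤ ‖(fourier k a0 : ℂ) - e0‖ ^ 2 := by
          calc 4 * t ^ 2 = (2 * t) ^ 2 := by ring
            _ ≤ _ := by gcongr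
        calc ‖fc c k‖ ^ 2 = 1 / (4 * t ^ 2) * (‖fc c k‖ ^ 2 * (4 * t ^ 2)) := by field_simp
          _ ≤ _ := by gcongr
      linarith
    · have : ‖fc c k‖ ^ 2 ≤ ‖fc c k‖ ^ 2 * ‖(fourier k a1 : ℂ) - e1‖ ^ 2 := by
        have : 1 ≤ ‖(fourier k a1 : ℂ) - e1‖ ^ 2 := one_le_pow₀ h
        nlinarith
      linarith
    · have : ‖fc c k‖ ^ 2 ≤
          1 / Q.card * ∑ v ∈ Q, ‖fc c k‖ ^ 2 * ‖(fourier k (th v) : ℂ) - F v‖ ^ 2 := by
        rw [← mul_sum]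
        calc ‖fc c k‖ ^ 2 = 1 / Q.card * (‖fc c k‖ ^ 2 * Q.card) := by field_simp
          _ ≤ _ := by gcongr
      linarith
  have h2 : ∑ k ∈ s, (if 1 ≤ |(k : ℝ)| * T then ‖fc c k‖ ^ 2 else 0) ≤ 8 * δ := by
    rw [← sum_filter]; exact htl
  have h3 : ∑ k ∈ s, 1 / (4 * t ^ 2) * (‖fc c k‖ ^ 2 * ‖(fourier k a0 : ℂ) - e0‖ ^ 2) ≤
      1 / (4 * t ^ 2) * (8 * δ) := by
    rw [← mul_sum]
    exact mul_le_mul_of_nonneg_left hs0 (by positivity)
  have h4 : ∑ k ∈ s, 1 / (Q.card : ℝ) * ∑ v ∈ Q, ‖fc c k‖ ^ 2 *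
      ‖(fourier k (th v) : ℂ) - F v‖ ^ 2 ≤ 8 * δ := by
    rw [← mul_sum, sum_comm]
    calc 1 / (Q.card : ℝ) * ∑ v ∈ Q, ∑ k ∈ s, ‖fc c k‖ ^ 2 * ‖(fourier k (th v) : ℂ) - F v‖ ^ 2
        ≤ 1 / (Q.card : ℝ) * (Q.card * (8 * δ)) := by gcongr
      _ = 8 * δ := by field_simp
  calc ∑ k ∈ s, ‖fc c k‖ ^ 2 ≤ _ := sum_le_sum key
    _ = _ := by rw [sum_add_distrib, sum_add_distrib, sum_add_distrib]
    _ ≤ 8 * δ + 1 / (4 * t ^ 2) * (8 * δ) + 8 * δ + 8 * δ := by gcongr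
    _ = 8 * δ * (3 + 1 / (4 * t ^ 2)) := by ring

/-- closeness of `fourier k (th v)` to `F v` on average gives correlation -/
theorem corr_of_close {α : Type*} (Q : Finset α) (th : α → UnitAddCircle) (F : α → ℝ)
    (hF : ∀ v ∈ Q, F v = 1 ∨ F v = -1) {k : ℤ}
    (h : ∑ v ∈ Q, ‖(fourier k (th v) : ℂ) - F v‖ ^ 2 < Q.card) :
    (Q.card : ℝ) / 2 ≤ ‖∑ v ∈ Q, (F v : ℂ) * (fourier k (th v) : ℂ)‖ := by
  have h1 : ∀ v ∈ Q, ‖(fourier k (th v) : ℂ) - F v‖ ^ 2 =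
      2 - 2 * ((F v : ℂ) * (fourier k (th v) : ℂ)).re := by
    intro v hv
    have hn := norm_fourier k (th v)
    have hF2 : F v ^ 2 = 1 := by rcases hF v hv with h | h <;> rw [h] <;> norm_num
    have e1 : ‖(fourier k (th v) : ℂ)‖ ^ 2 =
        (fourier k (th v) : ℂ).re ^ 2 + (fourier k (th v) : ℂ).im ^ 2 := by
      rw [← Complex.normSq_eq_norm_sq, Complex.normSq_apply]; ring
    rw [hn] at e1
    rw [← Complex.normSq_eq_norm_sq, Complex.normSq_apply]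
    simp only [Complex.sub_re, Complex.sub_im, Complex.ofReal_re, Complex.ofReal_im,
      Complex.re_ofReal_mul]
    nlinarith
  rw [sum_congr rfl h1, sum_sub_distrib, ← mul_sum] at h
  simp only [sum_const, nsmul_eq_mul] at h
  have h2 : ∑ v ∈ Q, ((F v : ℂ) * (fourier k (th v) : ℂ)).re =
      (∑ v ∈ Q, (F v : ℂ) * (fourier k (th v) : ℂ)).re := (Complex.re_sum ..).symm
  rw [h2] at h
  have h3 := Complex.re_le_norm (∑ v ∈ Q, (F v : ℂ) * (fourier k (th v) : ℂ))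
  linarith

/-- two frequencies close to the same sign at a small angle are equal or far apart -/
theorem far_apart {t : ℝ} (ht : 0 < t) {e : ℝ} {k k' : ℤ} (hne : k ≠ k')
    (h : ‖(fourier k (t : UnitAddCircle) : ℂ) - e‖ < 2 * t)
    (h' : ‖(fourier k' (t : UnitAddCircle) : ℂ) - e‖ < 2 * t) :
    1 / (2 * t) ≤ |((k - k' : ℤ) : ℝ)| := by
  by_contra hcon
  push Not at hcon
  have hm : |((k - k' : ℤ) : ℝ)| * t ≤ 1 / 2 := by
    have := mul_lt_mul_of_pos_right hcon ht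
    have e : 1 / (2 * t) * t = 1 / 2 := by field_simp
    linarith
  have h1 := fourier_sub_one_ge ht.le hm
  have h2 : (1 : ℝ) ≤ |((k - k' : ℤ) : ℝ)| := by
    rw [← Int.cast_abs]
    exact_mod_cast Int.one_le_abs (sub_ne_zero.2 hne)
  have h3 : ‖(fourier (k - k') (t : UnitAddCircle) : ℂ) - 1‖ =
      ‖(fourier k (t : UnitAddCircle) : ℂ) - fourier k' (t : UnitAddCircle)‖ := by
    have e1 : (fourier k (t : UnitAddCircle) : ℂ) =
        fourier (k - k') (t : UnitAddCircle) * fourier k' (t : UnitAddCircle) := by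
      rw [← fourier_add]; congr 2; ring
    have e2 : (fourier k (t : UnitAddCircle) : ℂ) - fourier k' (t : UnitAddCircle) =
        ((fourier (k - k') (t : UnitAddCircle) : ℂ) - 1) * fourier k' (t : UnitAddCircle) := by
      rw [e1]; ring
    rw [e2, norm_mul, norm_fourier, mul_one]
  have h4 : ‖(fourier k (t : UnitAddCircle) : ℂ) - fourier k' (t : UnitAddCircle)‖ < 4 * t := by
    calc ‖(fourier k (t : UnitAddCircle) : ℂ) - fourier k' (t : UnitAddCircle)‖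
        = ‖((fourier k (t : UnitAddCircle) : ℂ) - e) - (fourier k' (t : UnitAddCircle) - e)‖ := by
          congr 1; ring
      _ ≤ _ := norm_sub_le _ _
      _ < 4 * t := by linarith
  nlinarith

/-- a nonzero frequency close to a sign at a small angle is large -/
theorem double_large {t : ℝ} (ht : 0 < t) {e : ℝ} (he : e = 1 ∨ e = -1) {k : ℤ} (hk : k ≠ 0)
    (h : ‖(fourier k (t : UnitAddCircle) : ℂ) - e‖ < 2 * t) :
    1 / (2 * t) ≤ |((2 * k : ℤ) : ℝ)| := by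
  by_contra hcon
  push Not at hcon
  have hm : |((2 * k : ℤ) : ℝ)| * t ≤ 1 / 2 := by
    have := mul_lt_mul_of_pos_right hcon ht
    have e : 1 / (2 * t) * t = 1 / 2 := by field_simp
    linarith
  have h1 := fourier_sub_one_ge ht.le hm
  have h2 : (2 : ℝ) ≤ |((2 * k : ℤ) : ℝ)| := by
    rw [← Int.cast_abs]
    have := Int.one_le_abs hk
    have h5 : (2 : ℤ) ≤ |2 * k| := by rw [abs_mul, abs_two]; linarith
    exact_mod_cast h5
  have he2 : (e : ℂ) * e = 1 := by rcases he with h | h <;> rw [h] <;> norm_num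
  have hen : ‖(e : ℂ)‖ = 1 := by rcases he with h | h <;> rw [h] <;> simp
  have h3 : ‖(fourier (2 * k) (t : UnitAddCircle) : ℂ) - 1‖ ≤ 4 * t := by
    have e1 : (fourier (2 * k) (t : UnitAddCircle) : ℂ) =
        fourier k (t : UnitAddCircle) * fourier k (t : UnitAddCircle) := by
      rw [← fourier_add]; congr 2; ring
    have e2 : (fourier (2 * k) (t : UnitAddCircle) : ℂ) - 1 =
        ((fourier k (t : UnitAddCircle) : ℂ) - e) * (fourier k (t : UnitAddCircle) + e) := by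
      rw [e1]; linear_combination he2
    rw [e2, norm_mul]
    have h6 : ‖(fourier k (t : UnitAddCircle) : ℂ) + e‖ ≤ 2 := by
      refine (norm_add_le _ _).trans ?_
      rw [norm_fourier, hen]; norm_num
    calc _ ≤ 2 * t * 2 := by gcongr
      _ = 4 * t := by ring
  nlinarith

end Pool.Agent.LogPar
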