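import Pool.Agent.LogPar.AsmM

set_option autoImplicit false

/-! # The final argument, part 4: the contradiction for given parameters -/

namespace Pool.Agent.LogPar

open Real Finset Pool.Agent.FareyParity

/-- all hypotheses with explicit parameters; `e v` is the sign of `v` -/
theorem core {th : ℤ × ℤ → UnitAddCircle} {F : ℤ × ℤ → ℝ} {V Q : Finset (ℤ × ℤ)}
    {K L G δ T τ t : ℝ} {S A2 : ℕ} {N : ℕ}
    (hK : 1 ≤ K) (hL : 10 ^ 10 * K ^ 16 ≤ L) (hG : L ≤ G)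
    (hLS : 10 ^ 10 * K ^ 16 * L ^ 10002 ≤ (S : ℝ) ^ (1 / 20000 : ℝ))
    (hSL : log ((S : ℝ) ^ 4) + 1 ≤ L)
    (hFV : ∀ v ∈ V, F v = 1 ∨ F v = -1) (hFQ : ∀ v ∈ Q, F v = 1 ∨ F v = -1)
    {c : UnitAddCircle → ℝ} {E : Set UnitAddCircle} (hc : SignFun c E δ)
    (hδ : δ ≤ 4 * K ^ 2 / G ^ (A2 + 3))
    (hT : 0 < T) (hTS : K ^ 3 ≤ (S : ℝ) ^ 4 * T) (hTK : 2 * K ^ 3 ≤ T * K ^ 3 * (S : ℝ) ^ 4)
    (hτ : τ = 1 / (2 * K * (S : ℝ) ^ 4))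
    (htail : ∀ t : ℝ, |t| ≤ T → ∀ x, x ∉ E → x + (t : UnitAddCircle) ∉ E →
      c (x + (t : UnitAddCircle)) = c x)
    (hprod : ∀ v ∈ V, ∀ w ∈ V, ∀ t : ℝ, |t| ≤ τ → th v + th w + (t : UnitAddCircle) ∉ E →
      c (th v + th w + (t : UnitAddCircle)) = F v * F w)
    (hV1 : (S : ℝ) ^ 2 / K ≤ V.card)
    (hexpo : ∀ m : ℤ, m ≠ 0 → |(m : ℝ)| ≤ (S : ℝ) ^ 4 → ‖∑ v ∈ V, (fourier m (th v) : ℂ)‖ ≤
      K * (S : ℝ) ^ 2 * (1 / |(m : ℝ)| + (S : ℝ) ^ (-(1 / 100) : ℝ)))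
    (hquad : ∀ P : Finset ((ℤ × ℤ) × (ℤ × ℤ) × (ℤ × ℤ) × (ℤ × ℤ)),
      (∀ p ∈ P, p.1 ∈ V ∧ p.2.1 ∈ V ∧ p.2.2.1 ∈ V ∧ p.2.2.2 ∈ V ∧
        ‖(th p.1 + th p.2.1) - (th p.2.2.1 + th p.2.2.2)‖ ≤ 1 / (K * (S : ℝ) ^ 4)) →
      (P.card : ℝ) ≤ K * (S : ℝ) ^ 4 * L ^ A2)
    (hQ1 : (L ^ 5000) ^ (1 - 1 / 4000 : ℝ) ≤ (Q.card : ℝ))
    (hQsep : ∀ r : ℕ, ∀ m ∈ Q.sym r, ∀ m' ∈ Q.sym r, m ≠ m' → 1 / (K * (L ^ 5000) ^ r) ≤
      ‖((m : Multiset (ℤ × ℤ)).map th).sum - ((m' : Multiset (ℤ × ℤ)).map th).sum‖)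
    (hQe : ∀ v ∈ Q, ∀ x, x ∉ E → x + th v ∉ E → c (x + th v) = F v * c x)
    {v0 v1 : ℤ × ℤ} (hF0 : F v0 = 1 ∨ F v0 = -1) (hF1 : F v1 = -1)
    (h0 : ∀ x, x ∉ E → x + th v0 ∉ E → c (x + th v0) = F v0 * c x)
    (h1 : ∀ x, x ∉ E → x + th v1 ∉ E → c (x + th v1) = F v1 * c x)
    (hN1 : 320 * K ^ 3 * L ≤ N) (hN2 : (N : ℝ) ≤ 321 * K ^ 3 * L)
    (ht : th v0 = (t : UnitAddCircle)) (ht1 : 1 / (K * N) ≤ t) (ht2 : t ≤ K / N) : False := by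
  classical
  have hK0 : 0 < K := by linarith
  have hK16 : 1 ≤ K ^ 16 := one_le_pow₀ hK
  have hL1 : 10 ^ 10 ≤ L := by nlinarith
  have hL0 : 0 < L := by linarith
  have hG0 : 0 < G := by linarith
  have hK3 : 1 ≤ K ^ 3 := one_le_pow₀ hK
  have hN0 : (0 : ℝ) < N := by
    have : 0 < 320 * K ^ 3 * L := by positivity
    linarith
  have ht0 : 0 < t := lt_of_lt_of_le (by positivity) ht1
  -- size of S
  have hLp : 1 ≤ L ^ 10002 := one_le_pow₀ (by linarith)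
  have hC0 : 10 ^ 10 * K ^ 16 ≤ (S : ℝ) ^ (1 / 20000 : ℝ) := by
    refine le_trans ?_ hLS
    have : (0 : ℝ) ≤ 10 ^ 10 * K ^ 16 := by positivity
    nlinarith
  have hSs : (1 : ℝ) ≤ (S : ℝ) ^ (1 / 20000 : ℝ) := by nlinarith
  have hS1 : (1 : ℝ) ≤ S := by
    rcases Nat.eq_zero_or_pos S with h | h
    · exfalso
      rw [h, Nat.cast_zero, zero_rpow (by norm_num)] at hSs
      linarith
    · exact_mod_cast h
  have hS0 : (0 : ℝ) < S := by linarith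
  have hS4 : (1 : ℝ) ≤ (S : ℝ) ^ 4 := one_le_pow₀ hS1
  have hLS' : L ^ 5000 ≤ (S : ℝ) ^ (1 / 20000 : ℝ) := by
    refine le_trans ?_ hLS
    have e1 : L ^ 5000 ≤ L ^ 10002 := pow_le_pow_right₀ (by linarith) (by norm_num)
    have e2 : L ^ 10002 ≤ 10 ^ 10 * K ^ 16 * L ^ 10002 := by
      have : (1 : ℝ) ≤ 10 ^ 10 * K ^ 16 := by nlinarith
      nlinarith [pow_pos hL0 10002]
    linarith
  have hKK : K ≤ K ^ 16 := le_self_pow₀ hK (by norm_num)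
  have hKS : 32 * K ≤ (S : ℝ) ^ (1 / 20000 : ℝ) := by linarith
  have hVpos : (0 : ℝ) < V.card := lt_of_lt_of_le (by positivity) hV1
  have hVne : V.Nonempty := by
    rw [← Finset.card_pos]; exact_mod_cast hVpos
  have hQpos : (0 : ℝ) < Q.card := lt_of_lt_of_le (by positivity) hQ1
  have hQne : Q.Nonempty := by
    rw [← Finset.card_pos]; exact_mod_cast hQpos
  -- the exceptional set of frequencies
  obtain ⟨𝓚, h𝓚⟩ : ∃ 𝓚 : Finset ℤ, 𝓚 = (Finset.Icc (-((S ^ 4 : ℕ) : ℤ)) ((S ^ 4 : ℕ) : ℤ)).filter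
      (fun k : ℤ => |(k : ℝ)| * T < 1 ∧ ‖(fourier k (th v0) : ℂ) - F v0‖ < 2 * t ∧
        ‖(fourier k (th v1) : ℂ) - F v1‖ < 1 ∧
        ∑ v ∈ Q, ‖(fourier k (th v) : ℂ) - F v‖ ^ 2 < Q.card) := ⟨_, rfl⟩
  have hmem : ∀ k ∈ 𝓚, |(k : ℝ)| * T < 1 ∧ ‖(fourier k (th v0) : ℂ) - F v0‖ < 2 * t ∧
        ‖(fourier k (th v1) : ℂ) - F v1‖ < 1 ∧
        ∑ v ∈ Q, ‖(fourier k (th v) : ℂ) - F v‖ ^ 2 < Q.card := by
    intro k hk; rw [h𝓚, mem_filter] at hk; exact hk.2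
  have hkS : ∀ k : ℤ, |(k : ℝ)| * T < 1 → |(k : ℝ)| * 2 ≤ (S : ℝ) ^ 4 := by
    intro k hk
    have e1 : 2 ≤ T * (S : ℝ) ^ 4 := by
      have : 2 * K ^ 3 ≤ (T * (S : ℝ) ^ 4) * K ^ 3 := by linarith
      exact le_of_mul_le_mul_right this (by positivity)
    have e2 : |(k : ℝ)| * 2 ≤ |(k : ℝ)| * (T * (S : ℝ) ^ 4) := by gcongr
    have e3 : |(k : ℝ)| * (T * (S : ℝ) ^ 4) = (|(k : ℝ)| * T) * (S : ℝ) ^ 4 := by ring
    nlinarith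
  have hkS1 : ∀ k : ℤ, |(k : ℝ)| * T < 1 → |(k : ℝ)| ≤ (S : ℝ) ^ 4 := by
    intro k hk
    have := hkS k hk
    have := abs_nonneg (k : ℝ)
    linarith
  have hoff : ∀ s : Finset ℤ, Disjoint s 𝓚 →
      ∑ k ∈ s, ‖fc c k‖ ^ 2 ≤ 8 * δ * (3 + 1 / (4 * t ^ 2)) := by
    intro s hs
    apply off_spec hc hT htail hF0 (Or.inr hF1) h0 h1 Q hQne th F hFQ hQe ht0 s
    intro k hks
    by_contra hcon
    push Not at hcon
    obtain ⟨c1, c2, c3, c4⟩ := hcon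
    have : k ∈ 𝓚 := by
      rw [h𝓚, mem_filter]
      refine ⟨?_, c1, c2, c3, c4⟩
      rw [mem_Icc, ← abs_le]
      have h5 := hkS1 k c1
      rw [← Int.cast_abs] at h5
      have h6 : ((|k| : ℤ) : ℝ) ≤ (((S ^ 4 : ℕ) : ℤ) : ℝ) := by push_cast; push_cast at h5; exact h5
      exact_mod_cast h6
    exact (Finset.disjoint_left.1 hs hks) this
  have hne0 : ∀ k ∈ 𝓚, k ≠ 0 := by
    rintro k hk rfl
    have := (hmem 0 hk).2.2.1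
    rw [hF1] at this
    simp only [fourier_zero] at this
    norm_num at this
  have ht2' : t ≤ 1 / (320 * K ^ 2 * L) := by
    refine ht2.trans ?_
    rw [div_le_div_iff₀ hN0 (by positivity)]
    calc K * (320 * K ^ 2 * L) = 320 * K ^ 3 * L := by ring
      _ ≤ (1 : ℝ) * N := by linarith
  -- 2 k
  have hS100 : (S : ℝ) ^ (-(1 / 100) : ℝ) * K ^ 2 ≤ 1 / 10 ^ 9 := by
    have e1 : (S : ℝ) ^ (-(1 / 100) : ℝ) ≤ (S : ℝ) ^ (-(1 / 20000) : ℝ) :=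
      rpow_le_rpow_of_exponent_le hS1 (by norm_num)
    have e2 : (S : ℝ) ^ (-(1 / 20000) : ℝ) * (S : ℝ) ^ (1 / 20000 : ℝ) = 1 := by
      rw [← rpow_add hS0]; norm_num
    have e3 : K ^ 2 ≤ K ^ 16 := pow_le_pow_right₀ hK (by norm_num)
    have e4 : 0 < (S : ℝ) ^ (-(1 / 20000) : ℝ) := by positivity
    have e5 : (S : ℝ) ^ (-(1 / 20000) : ℝ) * (10 ^ 10 * K ^ 2) ≤ 1 := by
      have e8 : 10 ^ 10 * K ^ 2 ≤ (S : ℝ) ^ (1 / 20000 : ℝ) := by linarith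
      exact (mul_le_mul_of_nonneg_left e8 e4.le).trans e2.le
    have e6 : (S : ℝ) ^ (-(1 / 100) : ℝ) * K ^ 2 ≤ (S : ℝ) ^ (-(1 / 20000) : ℝ) * K ^ 2 := by
      gcongr
    have e7 : (0:ℝ) ≤ (S : ℝ) ^ (-(1 / 20000) : ℝ) * K ^ 2 := by positivity
    nlinarith
  have hVK : K * (S : ℝ) ^ 2 ≤ K ^ 2 * V.card := by
    have : (S : ℝ) ^ 2 ≤ K * V.card := by
      rw [div_le_iff₀ hK0] at hV1; linarith
    nlinarith
  have hexpo' : ∀ m : ℤ, m ≠ 0 → |(m : ℝ)| ≤ (S : ℝ) ^ 4 → ‖∑ v ∈ V, (fourier m (th v) : ℂ)‖ ≤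
      V.card * (K ^ 2 * (1 / |(m : ℝ)|) + K ^ 2 * (S : ℝ) ^ (-(1 / 100) : ℝ)) := by
    intro m hm hmS
    refine (hexpo m hm hmS).trans ?_
    calc K * (S : ℝ) ^ 2 * (1 / |(m : ℝ)| + (S : ℝ) ^ (-(1 / 100) : ℝ))
        ≤ K ^ 2 * V.card * (1 / |(m : ℝ)| + (S : ℝ) ^ (-(1 / 100) : ℝ)) := by gcongr
      _ = _ := by ring
  have h2k : ∀ k ∈ 𝓚, ‖∑ v ∈ V, (fourier (2 * k) (th v) : ℂ)‖ ≤ (V.card : ℝ) / 4 := by
    intro k hk
    obtain ⟨k1, k2, k3, k4⟩ := hmem k hk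
    have hk0 := hne0 k hk
    rw [ht] at k2
    have hlarge := double_large ht0 hF0 hk0 k2
    have e0 : |((2 * k : ℤ) : ℝ)| ≤ (S : ℝ) ^ 4 := by
      push_cast; rw [abs_mul, abs_two]; linarith [hkS k k1]
    refine (hexpo' (2 * k) (by omega) e0).trans ?_
    have e1 : 1 / |((2 * k : ℤ) : ℝ)| ≤ 2 * t := by
      rw [div_le_iff₀ (lt_of_lt_of_le (by positivity) hlarge)]
      rw [div_le_iff₀ (by positivity)] at hlarge
      linarith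
    have e2 : K ^ 2 * (1 / |((2 * k : ℤ) : ℝ)|) ≤ 1 / 100 := by
      calc K ^ 2 * (1 / |((2 * k : ℤ) : ℝ)|) ≤ K ^ 2 * (2 * (1 / (320 * K ^ 2 * L))) := by
            gcongr; linarith
        _ = 1 / (160 * L) := by field_simp; norm_num
        _ ≤ 1 / 100 := by apply one_div_le_one_div_of_le <;> linarith
    have e3 : K ^ 2 * (1 / |((2 * k : ℤ) : ℝ)|) + K ^ 2 * (S : ℝ) ^ (-(1 / 100) : ℝ) ≤ 1 / 4 := by
      linarith
    calc (V.card : ℝ) * _ ≤ V.card * (1 / 4) := by gcongr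
      _ = _ := by ring
  -- cardinality
  have hcard : ((𝓚.card : ℕ) : ℝ) ≤ (S : ℝ) ^ (1 / 200 : ℝ) :=
    card_exc hK (by linarith) hS1 hKS hLS' (by linarith) hFQ hQ1 hQsep 𝓚
      (fun k hk => hkS1 k (hmem k hk).1) (fun k hk => (hmem k hk).2.2.2)
  have hsepK : ∀ k ∈ 𝓚, ∀ k' ∈ 𝓚, k ≠ k' → 1 / (2 * t) ≤ |((k - k' : ℤ) : ℝ)| := by
    intro k hk k' hk' hne
    have a1 := (hmem k hk).2.1
    have a2 := (hmem k' hk').2.1
    rw [ht] at a1 a2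
    exact far_apart ht0 hne a1 a2
  have hD1 : 1 ≤ 1 / (2 * t) := by
    rw [le_div_iff₀ (by positivity)]
    have : 1 / (320 * K ^ 2 * L) ≤ 1 / 2 := by
      apply one_div_le_one_div_of_le (by norm_num)
      have : 1 ≤ K ^ 2 := one_le_pow₀ hK
      nlinarith
    linarith
  have hdiff : ∀ k ∈ 𝓚, ∑ k' ∈ 𝓚.erase k, ‖∑ v ∈ V, (fourier (k - k') (th v) : ℂ)‖ ≤
      1 / 10 * (V.card : ℝ) := by
    intro k hk
    have hh := harm hD1 hS4 (fun k hk => hkS1 k (hmem k hk).1) hsepK hk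
    have e1 : ∑ k' ∈ 𝓚.erase k, ‖∑ v ∈ V, (fourier (k - k') (th v) : ℂ)‖ ≤
        ∑ k' ∈ 𝓚.erase k, (V.card * (K ^ 2 * (1 / |((k - k' : ℤ) : ℝ)|) +
          K ^ 2 * (S : ℝ) ^ (-(1 / 100) : ℝ))) := by
      apply sum_le_sum
      intro k' hk'
      rw [mem_erase] at hk'
      apply hexpo' (k - k') (sub_ne_zero.2 hk'.1.symm)
      have a1 := hkS k (hmem k hk).1
      have a2 := hkS k' (hmem k' hk'.2).1
      push_cast
      have := abs_sub (k : ℝ) k'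
      linarith
    rw [← mul_sum, sum_add_distrib, ← mul_sum, sum_const, nsmul_eq_mul] at e1
    have e2 : 4 / (1 / (2 * t)) * (1 + log (2 * (S : ℝ) ^ 4)) ≤ 8 * t * (2 * L) := by
      have e3 : 4 / (1 / (2 * t)) = 8 * t := by field_simp; norm_num
      rw [e3]
      have e4 : log (2 * (S : ℝ) ^ 4) ≤ 1 + log ((S : ℝ) ^ 4) := by
        rw [log_mul (by norm_num) (by positivity)]
        have := log_two_lt_d9
        linarith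
      gcongr
      linarith
    have e3 : K ^ 2 * (8 * t * (2 * L)) ≤ 1 / 20 := by
      calc K ^ 2 * (8 * t * (2 * L)) ≤ K ^ 2 * (8 * (1 / (320 * K ^ 2 * L)) * (2 * L)) := by gcongr
        _ = 1 / 20 := by field_simp; norm_num
    have e4 : ((𝓚.erase k).card : ℝ) * (K ^ 2 * (S : ℝ) ^ (-(1 / 100) : ℝ)) ≤ 1 / 20 := by
      have f1 : ((𝓚.erase k).card : ℝ) ≤ (S : ℝ) ^ (1 / 200 : ℝ) := by
        refine le_trans ?_ hcard
        exact_mod_cast card_le_card (erase_subset _ _)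
      have f2 : (S : ℝ) ^ (1 / 200 : ℝ) * (S : ℝ) ^ (-(1 / 100) : ℝ) ≤
          (S : ℝ) ^ (-(1 / 20000) : ℝ) := by
        rw [← rpow_add hS0]
        exact rpow_le_rpow_of_exponent_le hS1 (by norm_num)
      have f3 : (S : ℝ) ^ (-(1 / 20000) : ℝ) * (S : ℝ) ^ (1 / 20000 : ℝ) = 1 := by
        rw [← rpow_add hS0]; norm_num
      have f4 : K ^ 2 ≤ K ^ 16 := pow_le_pow_right₀ hK (by norm_num)
      have f5 : (S : ℝ) ^ (-(1 / 20000) : ℝ) * (20 * K ^ 2) ≤ 1 := by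
        have f8 : 20 * K ^ 2 ≤ (S : ℝ) ^ (1 / 20000 : ℝ) := by linarith
        exact (mul_le_mul_of_nonneg_left f8 (by positivity)).trans f3.le
      calc ((𝓚.erase k).card : ℝ) * (K ^ 2 * (S : ℝ) ^ (-(1 / 100) : ℝ))
          ≤ (S : ℝ) ^ (1 / 200 : ℝ) * (K ^ 2 * (S : ℝ) ^ (-(1 / 100) : ℝ)) := by gcongr
        _ = (S : ℝ) ^ (1 / 200 : ℝ) * (S : ℝ) ^ (-(1 / 100) : ℝ) * K ^ 2 := by ring
        _ ≤ (S : ℝ) ^ (-(1 / 20000) : ℝ) * K ^ 2 := by gcongr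
        _ ≤ 1 / 20 := by linarith
    refine e1.trans ?_
    have e5 : K ^ 2 * ∑ k' ∈ 𝓚.erase k, 1 / |((k - k' : ℤ) : ℝ)| ≤ K ^ 2 * (8 * t * (2 * L)) := by
      gcongr; exact hh.trans e2
    calc (V.card : ℝ) * _ ≤ V.card * (1 / 20 + 1 / 20) := by gcongr; exact e5.trans e3
      _ = _ := by ring
  -- measure inequalities
  have hδ0 : 0 ≤ δ := by
    refine le_trans ?_ hc.vol
    exact MeasureTheory.measureReal_nonneg
  obtain ⟨M, hM⟩ : ∃ M : ℝ, M = 2 * K ^ 6 * L ^ A2 := ⟨_, rfl⟩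
  have hM0 : 0 ≤ M := by rw [hM]; positivity
  have hMG : M ≤ 2 * K ^ 6 * G ^ A2 := by rw [hM]; gcongr
  have hGK : 10 ^ 10 * K ^ 16 ≤ G := hL.trans hG
  have hδM : δ * M ≤ 8 * K ^ 8 / G ^ 3 := by
    calc δ * M ≤ (4 * K ^ 2 / G ^ (A2 + 3)) * (2 * K ^ 6 * G ^ A2) := by gcongr
      _ = 8 * K ^ 8 / G ^ 3 := by rw [pow_add]; field_simp; norm_num
  have hG1 : 1 ≤ G := by nlinarith
  have hK8 : K ^ 8 ≤ K ^ 16 := pow_le_pow_right₀ hK (by norm_num)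
  have hinv : 1 / (4 * t ^ 2) ≤ 26000 * K ^ 8 * L ^ 2 := by
    have e1 : 1 / t ≤ 321 * K ^ 4 * L := by
      rw [div_le_iff₀ ht0]
      have : 1 ≤ t * (K * N) := by
        rw [div_le_iff₀ (by positivity)] at ht1; exact ht1
      calc 1 ≤ t * (K * N) := this
        _ ≤ t * (K * (321 * K ^ 3 * L)) := by gcongr
        _ = 321 * K ^ 4 * L * t := by ring
    have e2 : 1 / (4 * t ^ 2) = (1 / t) ^ 2 / 4 := by field_simp
    rw [e2]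
    calc (1 / t) ^ 2 / 4 ≤ (321 * K ^ 4 * L) ^ 2 / 4 := by gcongr
      _ = 25760.25 * (K ^ 8 * L ^ 2) := by ring
      _ ≤ 26000 * (K ^ 8 * L ^ 2) := by gcongr; norm_num
      _ = _ := by ring
  have hd : 8 * δ * (3 + 1 / (4 * t ^ 2)) ≤ δ * (300000 * K ^ 8 * G ^ 2) := by
    have e1 : 1 ≤ K ^ 8 * L ^ 2 :=
      one_le_mul_of_one_le_of_one_le (one_le_pow₀ hK) (one_le_pow₀ (by linarith))
    have e2 : K ^ 8 * L ^ 2 ≤ K ^ 8 * G ^ 2 := by gcongr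
    calc 8 * δ * (3 + 1 / (4 * t ^ 2)) ≤ 8 * δ * (3 * (K ^ 8 * L ^ 2) + 26000 * K ^ 8 * L ^ 2) := by
          gcongr; linarith
      _ = δ * (208024 * (K ^ 8 * L ^ 2)) := by ring
      _ ≤ δ * (300000 * (K ^ 8 * G ^ 2)) := by gcongr; norm_num
      _ = _ := by ring
  refine contra V hVne th F (fun v hv => by rcases hFV v hv with h | h <;> rw [h] <;> simp) hc
    (τ := τ) (M := M) (d := 8 * δ * (3 + 1 / (4 * t ^ 2))) (by rw [hτ]; positivity) ?_ hM0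
    (by positivity) hprod ?_ 𝓚 hoff h2k hdiff ?_ ?_
  · rw [hτ]
    apply one_div_le_one_div_of_le (by norm_num)
    have : 8 ≤ (S : ℝ) ^ 4 := by
      have e1 : (S : ℝ) ^ (1 / 20000 : ℝ) ≤ (S : ℝ) ^ (4 : ℝ) :=
        rpow_le_rpow_of_exponent_le hS1 (by norm_num)
      have e2 : (S : ℝ) ^ (4 : ℝ) = (S : ℝ) ^ 4 := by exact_mod_cast rpow_natCast (S : ℝ) 4
      rw [e2] at e1
      nlinarith
    nlinarith
  · intro P hP
    have e0 : 2 * τ = 1 / (K * (S : ℝ) ^ 4) := by rw [hτ]; field_simp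
    rw [e0] at hP
    refine (hquad P hP).trans ?_
    have e1 : ((S : ℝ) ^ 2 / K) ^ 4 ≤ (V.card : ℝ) ^ 4 := by gcongr
    calc K * (S : ℝ) ^ 4 * L ^ A2
        = 2 * K ^ 6 * L ^ A2 * (1 / (2 * K * (S : ℝ) ^ 4)) * ((S : ℝ) ^ 2 / K) ^ 4 := by
          field_simp
      _ ≤ M * τ * (V.card : ℝ) ^ 4 := by rw [hM, hτ]; gcongr
  · refine hδM.trans ?_
    rw [div_le_iff₀ (by positivity)]
    have e1 : G ≤ G ^ 3 := le_self_pow₀ hG1 (by norm_num)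
    nlinarith
  · calc 8 * δ * (3 + 1 / (4 * t ^ 2)) * M ≤ δ * (300000 * K ^ 8 * G ^ 2) * M := by gcongr
      _ = (δ * M) * (300000 * K ^ 8 * G ^ 2) := by ring
      _ ≤ 8 * K ^ 8 / G ^ 3 * (300000 * K ^ 8 * G ^ 2) := by gcongr
      _ = 2400000 * K ^ 16 / G := by field_simp; norm_num
      _ ≤ 1 / 1000 := by
          rw [div_le_iff₀ hG0]
          nlinarith

end Pool.Agent.LogPar
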