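import Mathlib

set_option autoImplicit false

/-! # The final argument, part 2: numerical inequalities -/

namespace Pool.Agent.LogPar

open Real Filter

theorem numeric (K C0 : ℝ) (hK : 1 ≤ K) : ∃ X0 : ℝ, ∀ X : ℝ, X0 ≤ X → ∃ S : ℕ,
    K ^ 3 * (S : ℝ) ^ 4 ≤ X ∧ X ≤ 16 * K ^ 3 * (S : ℝ) ^ 4 ∧ C0 ≤ log X ∧
    X ^ (1 / 5 : ℝ) ≤ S ∧ C0 * log X ^ 10002 ≤ (S : ℝ) ^ (1 / 20000 : ℝ) := by
  have h1 : ∀ᶠ X : ℝ in atTop, C0 ≤ log X := tendsto_log_atTop.eventually_ge_atTop C0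
  have h2 : ∀ᶠ X : ℝ in atTop, |C0| * log X ^ 10002 ≤ X ^ (1 / 100000 : ℝ) := by
    have h : (fun x : ℝ => |C0| * log x ^ 10002) =o[atTop] fun x : ℝ => x ^ (1 / 100000 : ℝ) := by
      apply Asymptotics.IsLittleO.const_mul_left
      have := isLittleO_log_rpow_rpow_atTop (s := (1 / 100000 : ℝ)) 10002 (by norm_num)
      refine this.congr' ?_ (by rfl)
      filter_upwards with x
      exact_mod_cast rpow_natCast (log x) 10002
    have h' := h.bound (show (0 : ℝ) < 1 by norm_num)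
    filter_upwards [h', eventually_ge_atTop 1] with x hx hx1
    rw [norm_of_nonneg (by positivity : (0:ℝ) ≤ x ^ (1 / 100000 : ℝ)), one_mul] at hx
    exact (le_abs_self _).trans hx
  have h3 : ∀ᶠ X : ℝ in atTop, 2 * K ^ 3 * X ^ (1 / 5 : ℝ) ≤ X ^ (1 / 4 : ℝ) := by
    have h : ∀ᶠ X : ℝ in atTop, 2 * K ^ 3 ≤ X ^ (1 / 20 : ℝ) :=
      (tendsto_rpow_atTop (by norm_num)).eventually_ge_atTop _
    filter_upwards [h, eventually_gt_atTop 0] with x hx hx0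
    calc 2 * K ^ 3 * x ^ (1 / 5 : ℝ) ≤ x ^ (1 / 20 : ℝ) * x ^ (1 / 5 : ℝ) := by gcongr
      _ = x ^ (1 / 4 : ℝ) := by rw [← rpow_add hx0]; norm_num
  have h4 : ∀ᶠ X : ℝ in atTop, (1 : ℝ) ≤ X ^ (1 / 5 : ℝ) := by
    filter_upwards [eventually_ge_atTop 1] with x hx
    exact one_le_rpow hx (by norm_num)
  obtain ⟨X0, hX0⟩ := eventually_atTop.1 (h1.and (h2.and (h3.and (h4.and (eventually_ge_atTop 1)))))
  refine ⟨X0, fun X hX => ?_⟩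
  obtain ⟨g1, g2, g3, g4, g5⟩ := hX0 X hX
  have hX1 : 0 < X := by linarith
  have hK3 : 1 ≤ K ^ 3 := one_le_pow₀ hK
  obtain ⟨y, hy⟩ : ∃ y : ℝ, y = (X / K ^ 3) ^ (1 / 4 : ℝ) := ⟨_, rfl⟩
  have hy0 : 0 < y := by rw [hy]; positivity
  have hy4 : y ^ 4 = X / K ^ 3 := by
    rw [hy, ← rpow_natCast, ← rpow_mul (by positivity)]; norm_num
  have hyl : 2 * X ^ (1 / 5 : ℝ) ≤ y := by
    have e1 : X ^ (1 / 4 : ℝ) ≤ K ^ 3 * y := by
      rw [hy, div_rpow hX1.le (by positivity)]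
      have e2 : (K ^ 3) ^ (1 / 4 : ℝ) ≤ K ^ 3 := by
        calc (K ^ 3) ^ (1 / 4 : ℝ) ≤ (K ^ 3) ^ (1 : ℝ) := rpow_le_rpow_of_exponent_le hK3 (by norm_num)
          _ = K ^ 3 := rpow_one _
      rw [← mul_div_assoc, le_div_iff₀ (by positivity), mul_comm]
      gcongr
    have e3 : K ^ 3 * (2 * X ^ (1 / 5 : ℝ)) ≤ K ^ 3 * y := by linarith
    exact le_of_mul_le_mul_left e3 (by positivity)
  have hy2 : 2 ≤ y := by linarith
  refine ⟨⌊y⌋₊, ?_, ?_, g1, ?_, ?_⟩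
  · have e : (⌊y⌋₊ : ℝ) ≤ y := Nat.floor_le hy0.le
    calc K ^ 3 * (⌊y⌋₊ : ℝ) ^ 4 ≤ K ^ 3 * y ^ 4 := by gcongr
      _ = X := by rw [hy4]; field_simp
  · have e : y ≤ 2 * (⌊y⌋₊ : ℝ) := by
      have := Nat.lt_floor_add_one y
      linarith
    calc X = K ^ 3 * y ^ 4 := by rw [hy4]; field_simp
      _ ≤ K ^ 3 * (2 * (⌊y⌋₊ : ℝ)) ^ 4 := by gcongr
      _ = _ := by ring
  · have := Nat.lt_floor_add_one y
    linarith
  · have e0 : X ^ (1 / 5 : ℝ) ≤ (⌊y⌋₊ : ℝ) := by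
      have := Nat.lt_floor_add_one y
      linarith
    have hl : 0 ≤ log X := log_nonneg g5
    calc C0 * log X ^ 10002 ≤ |C0| * log X ^ 10002 := by gcongr; exact le_abs_self _
      _ ≤ X ^ (1 / 100000 : ℝ) := g2
      _ = (X ^ (1 / 5 : ℝ)) ^ (1 / 20000 : ℝ) := by rw [← rpow_mul hX1.le]; norm_num
      _ ≤ _ := by gcongr

/-- the inequality for the number of exceptional frequencies -/
theorem numeric_card {K L S : ℝ} (hK : 1 ≤ K) (hL : 100 ≤ L) (hS : 1 ≤ S)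
    (hKS : 32 * K ≤ S ^ (1 / 20000 : ℝ)) (hLS : L ^ 5000 ≤ S ^ (1 / 20000 : ℝ))
    (hSL : log (S ^ 4) ≤ L) {r : ℕ} (hr : (L ^ 5000) ^ r ≤ S ^ 4) :
    32 * K * L ^ 5000 * S ^ (1 / 1000 : ℝ) * r.factorial * 4 ^ r ≤ S ^ (1 / 200 : ℝ) := by
  have hS0 : 0 < S := by linarith
  have hL0 : 0 < L := by linarith
  have hL1 : 1 ≤ L := by linarith
  -- r ≤ L
  have hrL : (r : ℝ) ≤ L := by
    have h1 : log ((L ^ 5000) ^ r) ≤ L := (log_le_log (by positivity) hr).trans hSL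
    rw [log_pow, log_pow] at h1
    have h2 : 1 ≤ log L := by
      have : exp 1 ≤ L := by have := exp_one_lt_d9; linarith
      exact (le_log_iff_exp_le hL0).2 this
    have h3 : (r : ℝ) ≤ r * ((5000 : ℕ) * log L) := by
      have : (1 : ℝ) ≤ (5000 : ℕ) * log L := by push_cast; linarith
      nlinarith [Nat.cast_nonneg (α := ℝ) r]
    linarith
  have h1 : (r.factorial : ℝ) * 4 ^ r ≤ (L ^ 2) ^ r := by
    have e1 : (r.factorial : ℝ) ≤ (r : ℝ) ^ r := by exact_mod_cast Nat.factorial_le_pow r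
    have e2 : (r : ℝ) * 4 ≤ L ^ 2 := by nlinarith
    calc (r.factorial : ℝ) * 4 ^ r ≤ (r : ℝ) ^ r * 4 ^ r := by gcongr
      _ = ((r : ℝ) * 4) ^ r := by rw [mul_pow]
      _ ≤ (L ^ 2) ^ r := by gcongr
  have h2 : (L ^ 2) ^ r ≤ S ^ (1 / 625 : ℝ) := by
    have e1 : L ^ r ≤ S ^ (1 / 1250 : ℝ) := by
      have e2 : (L ^ r) ^ 5000 ≤ S ^ 4 := by
        calc (L ^ r) ^ 5000 = (L ^ 5000) ^ r := by rw [← pow_mul, ← pow_mul, mul_comm]
          _ ≤ S ^ 4 := hr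
      calc L ^ r = ((L ^ r) ^ 5000) ^ (1 / 5000 : ℝ) := by
            rw [← rpow_natCast (L ^ r) 5000, ← rpow_mul (by positivity)]; norm_num
        _ ≤ (S ^ 4) ^ (1 / 5000 : ℝ) := by gcongr
        _ = S ^ (1 / 1250 : ℝ) := by
            rw [← rpow_natCast S 4, ← rpow_mul hS0.le]; norm_num
    calc (L ^ 2) ^ r = (L ^ r) ^ 2 := by rw [← pow_mul, ← pow_mul, mul_comm]
      _ ≤ (S ^ (1 / 1250 : ℝ)) ^ 2 := by gcongr
      _ = S ^ (1 / 625 : ℝ) := by rw [← rpow_natCast, ← rpow_mul hS0.le]; norm_num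
  calc 32 * K * L ^ 5000 * S ^ (1 / 1000 : ℝ) * r.factorial * 4 ^ r
      = 32 * K * L ^ 5000 * S ^ (1 / 1000 : ℝ) * (r.factorial * 4 ^ r) := by ring
    _ ≤ S ^ (1 / 20000 : ℝ) * S ^ (1 / 20000 : ℝ) * S ^ (1 / 1000 : ℝ) * S ^ (1 / 625 : ℝ) := by
        gcongr
        exact h1.trans h2
    _ = S ^ (1 / 20000 + 1 / 20000 + 1 / 1000 + 1 / 625 : ℝ) := by
        rw [rpow_add hS0, rpow_add hS0, rpow_add hS0]
    _ ≤ S ^ (1 / 200 : ℝ) := rpow_le_rpow_of_exponent_le hS (by norm_num)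

end Pool.Agent.LogPar
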