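import Pool.Agent.LogPar.Defs

set_option autoImplicit false

/-! # Duality and the bound for real coefficients -/

namespace Pool.Agent.LogPar

open ComplexConjugate in
theorem fourier_mul_conj (k k' : ℤ) (x : UnitAddCircle) :
    (fourier k x : ℂ) * conj (fourier k' x : ℂ) = fourier (k - k') x := by
  rw [sub_eq_add_neg, fourier_add, fourier_neg]

theorem norm_fourier_pt' (k : ℤ) (x : UnitAddCircle) : ‖(fourier k x : ℂ)‖ = 1 :=
  Circle.norm_coe _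

open ComplexConjugate in
theorem norm_sq_eq_conj_mul (z : ℂ) : ((‖z‖ ^ 2 : ℝ) : ℂ) = conj z * z := by
  rw [mul_comm, Complex.mul_conj, Complex.normSq_eq_norm_sq]

open ComplexConjugate in
/-- Halasz-Montgomery: `∑_k |∑_v F(v) e(k th(v))|² ≤ (1 + b) |V|²` -/
theorem dual {α : Type*} (V : Finset α) (th : α → UnitAddCircle) (F : α → ℝ)
    (hF : ∀ v ∈ V, |F v| ≤ 1) (𝓚 : Finset ℤ) {b : ℝ} (hb0 : 0 ≤ b)
    (hb : ∀ k ∈ 𝓚, ∑ k' ∈ 𝓚.erase k, ‖∑ v ∈ V, (fourier (k - k') (th v) : ℂ)‖ ≤ b * V.card) :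
    ∑ k ∈ 𝓚, ‖∑ v ∈ V, (F v : ℂ) * (fourier k (th v) : ℂ)‖ ^ 2 ≤ (1 + b) * (V.card : ℝ) ^ 2 := by
  obtain ⟨W, hW⟩ : ∃ W : ℤ → ℂ, ∀ k, ∑ v ∈ V, (F v : ℂ) * (fourier k (th v) : ℂ) = W k :=
    ⟨_, fun _ => rfl⟩
  obtain ⟨S, hS⟩ : ∃ S : ℤ → ℝ, ∀ k, ‖∑ v ∈ V, (fourier k (th v) : ℂ)‖ = S k := ⟨_, fun _ => rfl⟩
  obtain ⟨G, hG⟩ : ∃ G : α → ℂ, ∀ v, ∑ k ∈ 𝓚, conj (W k) * (fourier k (th v) : ℂ) = G v :=
    ⟨_, fun _ => rfl⟩
  obtain ⟨T, hT⟩ : ∃ T : ℝ, ∑ k ∈ 𝓚, ‖W k‖ ^ 2 = T := ⟨_, rfl⟩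
  simp only [hW, hT]
  have hT0 : 0 ≤ T := hT ▸ Finset.sum_nonneg fun k _ => sq_nonneg _
  -- first step
  have h1 : (T : ℂ) = ∑ v ∈ V, (F v : ℂ) * G v := by
    calc (T : ℂ) = ∑ k ∈ 𝓚, conj (W k) * W k := by
          rw [← hT, Complex.ofReal_sum]
          exact Finset.sum_congr rfl fun k _ => norm_sq_eq_conj_mul _
      _ = ∑ k ∈ 𝓚, ∑ v ∈ V, (F v : ℂ) * (conj (W k) * (fourier k (th v) : ℂ)) := by
          refine Finset.sum_congr rfl fun k _ => ?_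
          nth_rewrite 2 [← hW k]
          rw [Finset.mul_sum]
          refine Finset.sum_congr rfl fun v _ => ?_
          ring
      _ = ∑ v ∈ V, (F v : ℂ) * G v := by
          rw [Finset.sum_comm]
          refine Finset.sum_congr rfl fun v _ => ?_
          rw [← hG, Finset.mul_sum]
  have h2 : T ≤ ∑ v ∈ V, ‖G v‖ := by
    have : T = ‖(T : ℂ)‖ := by rw [Complex.norm_real, Real.norm_eq_abs, abs_of_nonneg hT0]
    rw [this, h1]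
    refine (norm_sum_le _ _).trans (Finset.sum_le_sum fun v hv => ?_)
    rw [norm_mul, Complex.norm_real, Real.norm_eq_abs]
    exact mul_le_of_le_one_left (norm_nonneg _) (hF v hv)
  have h3 : T ^ 2 ≤ V.card * ∑ v ∈ V, ‖G v‖ ^ 2 :=
    (pow_le_pow_left₀ hT0 h2 2).trans sq_sum_le_card_mul_sum_sq
  -- open the square
  have h4 : ((∑ v ∈ V, ‖G v‖ ^ 2 : ℝ) : ℂ) =
      ∑ k ∈ 𝓚, ∑ k' ∈ 𝓚, conj (W k) * W k' * ∑ v ∈ V, (fourier (k - k') (th v) : ℂ) := by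
    rw [Complex.ofReal_sum]
    calc ∑ v ∈ V, ((‖G v‖ ^ 2 : ℝ) : ℂ) = ∑ v ∈ V, G v * conj (G v) := by
          refine Finset.sum_congr rfl fun v _ => ?_
          rw [norm_sq_eq_conj_mul, mul_comm]
      _ = ∑ v ∈ V, ∑ k ∈ 𝓚, ∑ k' ∈ 𝓚, conj (W k) * W k' * (fourier (k - k') (th v) : ℂ) := by
          refine Finset.sum_congr rfl fun v _ => ?_
          rw [← hG, map_sum, Finset.sum_mul_sum]
          refine Finset.sum_congr rfl fun k _ => Finset.sum_congr rfl fun k' _ => ?_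
          rw [map_mul, Complex.conj_conj, ← fourier_mul_conj]
          ring
      _ = _ := by
          rw [Finset.sum_comm]
          refine Finset.sum_congr rfl fun k _ => ?_
          rw [Finset.sum_comm]
          refine Finset.sum_congr rfl fun k' _ => ?_
          rw [Finset.mul_sum]
  have hS0 : ∀ k, 0 ≤ S k := fun k => hS k ▸ norm_nonneg _
  have hsym : ∀ k k' : ℤ, S (k - k') = S (k' - k) := by
    intro k k'
    rw [← hS, ← hS, ← Complex.norm_conj (∑ v ∈ V, (fourier (k - k') (th v) : ℂ)), map_sum]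
    congr 1
    refine Finset.sum_congr rfl fun v _ => ?_
    rw [← fourier_neg, neg_sub]
  have h5 : ∑ v ∈ V, ‖G v‖ ^ 2 ≤ ∑ k ∈ 𝓚, ∑ k' ∈ 𝓚, ‖W k‖ * ‖W k'‖ * S (k - k') := by
    have h0 : 0 ≤ ∑ v ∈ V, ‖G v‖ ^ 2 := Finset.sum_nonneg fun v _ => sq_nonneg _
    have : ∑ v ∈ V, ‖G v‖ ^ 2 = ‖((∑ v ∈ V, ‖G v‖ ^ 2 : ℝ) : ℂ)‖ := by
      rw [Complex.norm_real, Real.norm_eq_abs, abs_of_nonneg h0]
    rw [this, h4]
    refine (norm_sum_le _ _).trans (Finset.sum_le_sum fun k _ => ?_)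
    refine (norm_sum_le _ _).trans (Finset.sum_le_sum fun k' _ => ?_)
    rw [norm_mul, norm_mul, Complex.norm_conj, hS]
  have h6 : ∑ k ∈ 𝓚, ∑ k' ∈ 𝓚, ‖W k‖ * ‖W k'‖ * S (k - k') ≤
      ∑ k ∈ 𝓚, ∑ k' ∈ 𝓚, ‖W k‖ ^ 2 * S (k - k') := by
    have h8 : ∑ k ∈ 𝓚, ∑ k' ∈ 𝓚, ‖W k'‖ ^ 2 * S (k' - k) =
        ∑ k ∈ 𝓚, ∑ k' ∈ 𝓚, ‖W k‖ ^ 2 * S (k - k') := Finset.sum_comm
    have h7 : 2 * ∑ k ∈ 𝓚, ∑ k' ∈ 𝓚, ‖W k‖ * ‖W k'‖ * S (k - k') ≤
        ∑ k ∈ 𝓚, ∑ k' ∈ 𝓚, ‖W k‖ ^ 2 * S (k - k') +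
          ∑ k ∈ 𝓚, ∑ k' ∈ 𝓚, ‖W k'‖ ^ 2 * S (k' - k) := by
      rw [← Finset.sum_add_distrib, Finset.mul_sum]
      refine Finset.sum_le_sum fun k _ => ?_
      rw [← Finset.sum_add_distrib, Finset.mul_sum]
      refine Finset.sum_le_sum fun k' _ => ?_
      rw [hsym k' k]
      have := hS0 (k - k')
      nlinarith [mul_nonneg this (sq_nonneg (‖W k‖ - ‖W k'‖))]
    linarith
  have h7 : ∑ k ∈ 𝓚, ∑ k' ∈ 𝓚, ‖W k‖ ^ 2 * S (k - k') ≤ (1 + b) * V.card * T := by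
    rw [← hT, Finset.mul_sum]
    refine Finset.sum_le_sum fun k hk => ?_
    rw [← Finset.mul_sum, ← Finset.add_sum_erase 𝓚 _ hk]
    have h8 := hb k hk
    simp only [hS] at h8
    have h9 : S (k - k) ≤ V.card := by
      rw [← hS]
      refine (norm_sum_le _ _).trans ?_
      simp only [norm_fourier_pt', Finset.sum_const, nsmul_eq_mul, mul_one, le_refl]
    have h10 : S (k - k) + ∑ k' ∈ 𝓚.erase k, S (k - k') ≤ (1 + b) * V.card := by linarith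
    calc ‖W k‖ ^ 2 * (S (k - k) + ∑ k' ∈ 𝓚.erase k, S (k - k')) ≤
        ‖W k‖ ^ 2 * ((1 + b) * V.card) := mul_le_mul_of_nonneg_left h10 (sq_nonneg _)
      _ = _ := by ring
  have h8 : T ^ 2 ≤ V.card * ((1 + b) * V.card * T) :=
    h3.trans (mul_le_mul_of_nonneg_left ((h5.trans h6).trans h7) (Nat.cast_nonneg _))
  rcases hT0.eq_or_lt with h9 | h9
  · rw [← h9]
    positivity
  · have h10 : T * T ≤ ((1 + b) * (V.card : ℝ) ^ 2) * T := by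
      calc T * T = T ^ 2 := by ring
        _ ≤ _ := h8
        _ = _ := by ring
    exact le_of_mul_le_mul_right h10 h9

/-- a real function correlates with `e(k th)` only as much as `e(2 k th)` allows -/
theorem real_corr {α : Type*} (V : Finset α) (th : α → UnitAddCircle) (F : α → ℝ)
    (hF : ∀ v ∈ V, |F v| ≤ 1) (k : ℤ) :
    ‖∑ v ∈ V, (F v : ℂ) * (fourier k (th v) : ℂ)‖ ^ 2 ≤
      (V.card : ℝ) / 2 * (V.card + ‖∑ v ∈ V, (fourier (2 * k) (th v) : ℂ)‖) := by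
  obtain ⟨W, hW⟩ : ∃ W : ℂ, ∑ v ∈ V, (F v : ℂ) * (fourier k (th v) : ℂ) = W := ⟨_, rfl⟩
  rw [hW]
  obtain ⟨z, hz, hzW⟩ : ∃ z : ℂ, ‖z‖ = 1 ∧ z * W = ‖W‖ := by
    by_cases h : W = 0
    · exact ⟨1, by simp, by simp [h]⟩
    · have hn : (‖W‖ : ℂ) ≠ 0 := by simpa using h
      refine ⟨(‖W‖ : ℂ) / W, ?_, by field_simp⟩
      rw [norm_div, Complex.norm_real, norm_norm, div_self (norm_ne_zero_iff.2 h)]
  have h1 : ‖W‖ = ∑ v ∈ V, F v * (z * (fourier k (th v) : ℂ)).re := by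
    have : ‖W‖ = (z * W).re := by rw [hzW, Complex.ofReal_re]
    rw [this, ← hW, Finset.mul_sum, Complex.re_sum]
    refine Finset.sum_congr rfl fun v _ => ?_
    rw [mul_left_comm, Complex.re_ofReal_mul]
  have h2 : ‖W‖ ≤ ∑ v ∈ V, |(z * (fourier k (th v) : ℂ)).re| := by
    rw [h1]
    refine Finset.sum_le_sum fun v hv => (le_abs_self _).trans ?_
    rw [abs_mul]
    exact mul_le_of_le_one_left (abs_nonneg _) (hF v hv)
  have h3 : ‖W‖ ^ 2 ≤ V.card * ∑ v ∈ V, |(z * (fourier k (th v) : ℂ)).re| ^ 2 :=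
    (pow_le_pow_left₀ (norm_nonneg _) h2 2).trans sq_sum_le_card_mul_sum_sq
  have h4 : ∀ v ∈ V, |(z * (fourier k (th v) : ℂ)).re| ^ 2 =
      1 / 2 + 1 / 2 * (z ^ 2 * (fourier (2 * k) (th v) : ℂ)).re := by
    intro v _
    have h5 : z ^ 2 * (fourier (2 * k) (th v) : ℂ) = (z * (fourier k (th v) : ℂ)) ^ 2 := by
      rw [two_mul, fourier_add]
      ring
    rw [h5]
    obtain ⟨y, hy⟩ : ∃ y : ℂ, z * (fourier k (th v) : ℂ) = y := ⟨_, rfl⟩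
    have h6 : ‖y‖ = 1 := by rw [← hy, norm_mul, hz, norm_fourier_pt', one_mul]
    have h7 : y.re * y.re + y.im * y.im = 1 := by
      rw [← Complex.normSq_apply, Complex.normSq_eq_norm_sq, h6]
      norm_num
    rw [hy, sq_abs, sq y, Complex.mul_re]
    linarith
  rw [Finset.sum_congr rfl h4, Finset.sum_add_distrib, Finset.sum_const, ← Finset.mul_sum,
    ← Complex.re_sum, ← Finset.mul_sum, nsmul_eq_mul] at h3
  have h8 : (z ^ 2 * ∑ v ∈ V, (fourier (2 * k) (th v) : ℂ)).re ≤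
      ‖∑ v ∈ V, (fourier (2 * k) (th v) : ℂ)‖ := by
    refine (Complex.re_le_norm _).trans ?_
    rw [norm_mul, norm_pow, hz, one_pow, one_mul]
  have h9 : (0 : ℝ) ≤ V.card := Nat.cast_nonneg _
  nlinarith

end Pool.Agent.LogPar
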