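import Pool.Agent.LogPar.Arc
import Pool.Agent.LogPar.Four
import Pool.Agent.LogPar.Dual

set_option autoImplicit false

/-! # The contradiction: the bilinear form -/

namespace Pool.Agent.LogPar

open MeasureTheory

theorem arc_sum_integrable {β : Type*} (Q : Finset β) (a : β → UnitAddCircle) (s : β → ℝ) (τ : ℝ) :
    Integrable (fun x => ∑ q ∈ Q, s q * arc (a q) τ x) mu :=
  integrable_finsetSum _ fun _ _ => (arc_integrable _ _).const_mul _

theorem arc_sum_meas {β : Type*} (Q : Finset β) (a : β → UnitAddCircle) (s : β → ℝ) (τ : ℝ) :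
    Measurable (fun x => ∑ q ∈ Q, s q * arc (a q) τ x) :=
  Finset.measurable_sum _ fun _ _ => (arc_meas _ _).const_mul _

theorem arc_sum_abs {β : Type*} (Q : Finset β) (a : β → UnitAddCircle) (s : β → ℝ)
    (hs : ∀ q ∈ Q, |s q| ≤ 1) (τ : ℝ) (x : UnitAddCircle) :
    |∑ q ∈ Q, s q * arc (a q) τ x| ≤ ∑ q ∈ Q, arc (a q) τ x := by
  refine (Finset.abs_sum_le_sum_abs _ _).trans (Finset.sum_le_sum fun q hq => ?_)
  rw [abs_mul, abs_of_nonneg (arc_nonneg _ _ _)]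
  exact mul_le_of_le_one_left (arc_nonneg _ _ _) (hs q hq)

theorem arc_sum_le_card {β : Type*} (Q : Finset β) (a : β → UnitAddCircle) (τ : ℝ)
    (x : UnitAddCircle) : ∑ q ∈ Q, arc (a q) τ x ≤ Q.card := by
  refine (Finset.sum_le_sum fun q _ => arc_le (a q) τ x).trans ?_
  simp

/-- second moment of a sum of arcs -/
theorem arc_sum_sq {β : Type*} [DecidableEq β] (Q : Finset β) (a : β → UnitAddCircle) {τ : ℝ}
    (hτ : 0 ≤ τ) (hτ1 : τ ≤ 1 / 2) :
    ∫ x, (∑ q ∈ Q, arc (a q) τ x) ^ 2 ∂mu ≤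
      2 * τ * (((Q ×ˢ Q).filter fun p => ‖a p.1 - a p.2‖ ≤ 2 * τ).card : ℝ) := by
  have h1 : ∀ x, (∑ q ∈ Q, arc (a q) τ x) ^ 2 ≤
      ∑ p ∈ (Q ×ˢ Q).filter fun p => ‖a p.1 - a p.2‖ ≤ 2 * τ, arc (a p.1) τ x := by
    intro x
    rw [sq, Finset.sum_mul_sum, ← Finset.sum_product', Finset.sum_filter]
    refine Finset.sum_le_sum fun p _ => ?_
    split_ifs with h
    · exact mul_le_of_le_one_right (arc_nonneg _ _ _) (arc_le _ _ _)
    · rw [arc_mul_eq_zero (not_le.1 h)]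
  have h2 : ∫ x, (∑ p ∈ (Q ×ˢ Q).filter fun p => ‖a p.1 - a p.2‖ ≤ 2 * τ, arc (a p.1) τ x) ∂mu =
      2 * τ * (((Q ×ˢ Q).filter fun p => ‖a p.1 - a p.2‖ ≤ 2 * τ).card : ℝ) := by
    rw [integral_finsetSum _ fun p _ => arc_integrable _ _]
    rw [Finset.sum_congr rfl fun p _ => integral_arc (a p.1) hτ hτ1]
    rw [Finset.sum_const, nsmul_eq_mul, mul_comm]
  rw [← h2]
  refine integral_mono_of_nonneg (Filter.Eventually.of_forall fun x => sq_nonneg _) ?_
    (Filter.Eventually.of_forall h1)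
  exact integrable_finsetSum _ fun _ _ => arc_integrable _ _

/-- Fourier coefficients of a sum of arcs -/
theorem fc_arc_sum {β : Type*} (Q : Finset β) (a : β → UnitAddCircle) (s : β → ℝ) (τ : ℝ) (k : ℤ) :
    fourierCoeff (fun x => ((∑ q ∈ Q, s q * arc (a q) τ x : ℝ) : ℂ)) k =
      (∑ q ∈ Q, (s q : ℂ) * fourier (-k) (a q)) * arcC τ k := by
  have hint : ∀ q ∈ Q, Integrable
      (fun x => (s q : ℂ) * ((fourier (-k) x : ℂ) • ((arc (a q) τ x : ℝ) : ℂ))) mu := by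
    intro q _
    refine Integrable.const_mul ?_ _
    refine Integrable.of_bound ?_ 1 (Filter.Eventually.of_forall fun x => ?_)
    · refine (Continuous.aestronglyMeasurable
        (map_continuous (fourier (-k) : C(UnitAddCircle, ℂ)))).smul ?_
      exact (Complex.measurable_ofReal.comp (arc_meas _ τ)).aestronglyMeasurable
    · rw [norm_smul, norm_fourier_pt, one_mul, Complex.norm_real, Real.norm_eq_abs,
        abs_of_nonneg (arc_nonneg _ τ x)]
      exact arc_le _ τ x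
  calc fourierCoeff (fun x => ((∑ q ∈ Q, s q * arc (a q) τ x : ℝ) : ℂ)) k =
      ∫ x, ∑ q ∈ Q, (s q : ℂ) * ((fourier (-k) x : ℂ) • ((arc (a q) τ x : ℝ) : ℂ)) ∂mu := by
        unfold fourierCoeff
        refine integral_congr_ae (Filter.Eventually.of_forall fun x => ?_)
        simp only [smul_eq_mul]
        push_cast
        rw [Finset.mul_sum]
        refine Finset.sum_congr rfl fun q _ => ?_
        ring
    _ = ∑ q ∈ Q, (s q : ℂ) * fc (arc (a q) τ) k := by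
        rw [integral_finsetSum _ hint]
        refine Finset.sum_congr rfl fun q _ => ?_
        rw [integral_const_mul]
        rfl
    _ = _ := by
        rw [Finset.sum_mul]
        refine Finset.sum_congr rfl fun q _ => ?_
        rw [fc_arc, mul_assoc]

/-- the Fourier coefficients of the bilinear form -/
theorem fc_bilin {α : Type*} (V : Finset α) (th : α → UnitAddCircle) (F : α → ℝ) (τ : ℝ)
    (hτ : 0 ≤ τ) (hτ1 : τ ≤ 1 / 2) (k : ℤ) :
    ‖fourierCoeff (fun x => ((∑ q ∈ V ×ˢ V, F q.1 * F q.2 * arc (th q.1 + th q.2) τ x : ℝ) : ℂ)) k‖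
      ≤ 2 * τ * ‖∑ v ∈ V, (F v : ℂ) * (fourier k (th v) : ℂ)‖ ^ 2 := by
  rw [fc_arc_sum (V ×ˢ V) (fun q => th q.1 + th q.2) (fun q => F q.1 * F q.2) τ k]
  have h1 : ∑ q ∈ V ×ˢ V, ((F q.1 * F q.2 : ℝ) : ℂ) * fourier (-k) (th q.1 + th q.2) =
      (∑ v ∈ V, (F v : ℂ) * (fourier (-k) (th v) : ℂ)) ^ 2 := by
    rw [sq, Finset.sum_mul_sum, ← Finset.sum_product']
    refine Finset.sum_congr rfl fun q _ => ?_
    rw [fourier_add_pt]
    push_cast
    ring
  have h2 : ‖∑ v ∈ V, (F v : ℂ) * (fourier (-k) (th v) : ℂ)‖ =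
      ‖∑ v ∈ V, (F v : ℂ) * (fourier k (th v) : ℂ)‖ := by
    rw [← Complex.norm_conj (∑ v ∈ V, (F v : ℂ) * (fourier k (th v) : ℂ)), map_sum]
    congr 1
    refine Finset.sum_congr rfl fun v _ => ?_
    rw [map_mul, Complex.conj_ofReal, ← fourier_neg]
  rw [h1, norm_mul, norm_pow, h2, mul_comm]
  exact mul_le_mul_of_nonneg_right (norm_arcC_le hτ hτ1 k) (sq_nonneg _)

/-- The product `F(v) F(w)` cannot be a function `c` of the direction of the product, when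
the spectrum of `c` is concentrated on a set `𝓚` of frequencies for which there is enough
cancellation. -/
theorem contra {α : Type*} [DecidableEq α] (V : Finset α) (hV : V.Nonempty)
    (th : α → UnitAddCircle) (F : α → ℝ)
    (hF : ∀ v ∈ V, |F v| = 1) {c : UnitAddCircle → ℝ} {E : Set UnitAddCircle} {δ : ℝ}
    (hc : SignFun c E δ) {τ M d : ℝ} (hτ : 0 < τ) (hτ1 : τ ≤ 1 / 8) (hM : 0 ≤ M) (hd : 0 ≤ d)
    (hprod : ∀ v ∈ V, ∀ w ∈ V, ∀ t : ℝ, |t| ≤ τ → th v + th w + (t : UnitAddCircle) ∉ E →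
      c (th v + th w + (t : UnitAddCircle)) = F v * F w)
    (hquad : ∀ P : Finset (α × α × α × α),
      (∀ p ∈ P, p.1 ∈ V ∧ p.2.1 ∈ V ∧ p.2.2.1 ∈ V ∧ p.2.2.2 ∈ V ∧
        ‖(th p.1 + th p.2.1) - (th p.2.2.1 + th p.2.2.2)‖ ≤ 2 * τ) →
      (P.card : ℝ) ≤ M * τ * (V.card : ℝ) ^ 4)
    (𝓚 : Finset ℤ)
    (hoff : ∀ s : Finset ℤ, Disjoint s 𝓚 → ∑ k ∈ s, ‖fc c k‖ ^ 2 ≤ d)
    (h2 : ∀ k ∈ 𝓚, ‖∑ v ∈ V, (fourier (2 * k) (th v) : ℂ)‖ ≤ (V.card : ℝ) / 4)
    (hdiff : ∀ k ∈ 𝓚, ∑ k' ∈ 𝓚.erase k, ‖∑ v ∈ V, (fourier (k - k') (th v) : ℂ)‖ ≤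
      1 / 10 * (V.card : ℝ))
    (hδM : δ * M ≤ 1 / 1000) (hdM : d * M ≤ 1 / 1000) : False := by
  obtain ⟨N, hN⟩ : ∃ N : ℝ, (V.card : ℝ) = N := ⟨_, rfl⟩
  have hN1 : 1 ≤ N := by
    rw [← hN]
    exact_mod_cast hV.card_pos
  obtain ⟨Q, hQ⟩ : ∃ Q : Finset (α × α), V ×ˢ V = Q := ⟨_, rfl⟩
  have hQc : (Q.card : ℝ) = N ^ 2 := by
    rw [← hQ, Finset.card_product, Nat.cast_mul, hN]
    ring
  obtain ⟨a, ha⟩ : ∃ a : α × α → UnitAddCircle, ∀ q, th q.1 + th q.2 = a q := ⟨_, fun _ => rfl⟩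
  obtain ⟨s, hs⟩ : ∃ s : α × α → ℝ, ∀ q, F q.1 * F q.2 = s q := ⟨_, fun _ => rfl⟩
  have hs1 : ∀ q ∈ Q, |s q| = 1 := by
    intro q hq
    rw [← hQ, Finset.mem_product] at hq
    rw [← hs, abs_mul, hF _ hq.1, hF _ hq.2, one_mul]
  have hsq : ∀ q ∈ Q, s q * s q = 1 := by
    intro q hq
    have h := hs1 q hq
    rw [← sq, ← sq_abs, h, one_pow]
  obtain ⟨mp, hmp⟩ : ∃ mp : UnitAddCircle → ℝ, ∀ x, ∑ q ∈ Q, arc (a q) τ x = mp x :=
    ⟨_, fun _ => rfl⟩
  obtain ⟨mm, hmm⟩ : ∃ mm : UnitAddCircle → ℝ, ∀ x, ∑ q ∈ Q, s q * arc (a q) τ x = mm x :=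
    ⟨_, fun _ => rfl⟩
  have hδ : 0 ≤ δ := measureReal_nonneg.trans hc.vol
  -- second moment
  have hI : ∫ x, mp x ^ 2 ∂mu ≤ 2 * M * (τ * N ^ 2) ^ 2 := by
    have h := arc_sum_sq Q a hτ.le (by linarith)
    simp only [hmp] at h
    refine h.trans ?_
    have hP := hquad (((Q ×ˢ Q).filter fun p => ‖a p.1 - a p.2‖ ≤ 2 * τ).map
      (Equiv.prodAssoc α α (α × α)).toEmbedding) (by
        intro p hp
        rw [Finset.mem_map] at hp
        obtain ⟨⟨⟨v, w⟩, ⟨v', w'⟩⟩, hp, rfl⟩ := hp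
        rw [Finset.mem_filter, ← hQ] at hp
        simp only [Finset.mem_product] at hp
        simp only [Equiv.coe_toEmbedding, Equiv.prodAssoc_apply]
        refine ⟨hp.1.1.1, hp.1.1.2, hp.1.2.1, hp.1.2.2, ?_⟩
        have h3 := hp.2
        rw [← ha, ← ha] at h3
        exact h3)
    rw [Finset.card_map, hN] at hP
    calc 2 * τ * _ ≤ 2 * τ * (M * τ * N ^ 4) := mul_le_mul_of_nonneg_left hP (by linarith)
      _ = _ := by ring
  have hMpos : 0 < M := by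
    obtain ⟨v, hv⟩ := hV
    have h := hquad {(v, v, v, v)} (by
      intro p hp
      rw [Finset.mem_singleton] at hp
      subst hp
      refine ⟨hv, hv, hv, hv, ?_⟩
      simp only [sub_self, norm_zero]
      linarith)
    rw [Finset.card_singleton, Nat.cast_one] at h
    rcases hM.eq_or_lt with h0 | h0
    · rw [← h0] at h
      norm_num at h
    · exact h0
  obtain ⟨L, hL⟩ : ∃ L : ℝ, τ * N ^ 2 = L := ⟨_, rfl⟩
  have hLpos : 0 < L := by rw [← hL]; positivity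
  rw [hL] at hI
  have hmp0 : ∀ x, 0 ≤ mp x := fun x => by
    rw [← hmp]; exact Finset.sum_nonneg fun q _ => arc_nonneg _ _ _
  have hmpN : ∀ x, mp x ≤ N ^ 2 := fun x => by
    rw [← hmp, ← hQc]; exact arc_sum_le_card _ _ _ _
  have hmm_abs : ∀ x, |mm x| ≤ mp x := fun x => by
    rw [← hmp, ← hmm]; exact arc_sum_abs _ _ _ (fun q hq => (hs1 q hq).le) _ _
  have hmp_eq : mp = fun x => ∑ q ∈ Q, arc (a q) τ x := funext fun x => (hmp x).symm
  have hmm_eq : mm = fun x => ∑ q ∈ Q, s q * arc (a q) τ x := funext fun x => (hmm x).symm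
  have hmp_meas : Measurable mp := by
    rw [hmp_eq]; exact Finset.measurable_sum _ fun _ _ => arc_meas _ _
  have hmm_meas : Measurable mm := by
    rw [hmm_eq]; exact arc_sum_meas _ _ _ _
  have hbdd : ∀ {f : UnitAddCircle → ℝ}, Measurable f → ∀ {B : ℝ}, (∀ x, |f x| ≤ B) →
      Integrable f mu := by
    intro f hf B hB
    exact Integrable.of_bound hf.aestronglyMeasurable B (Filter.Eventually.of_forall hB)
  have hmp_int : Integrable mp mu :=
    hbdd hmp_meas (B := N ^ 2) fun x => by rw [abs_of_nonneg (hmp0 x)]; exact hmpN x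
  have hmp2_int : Integrable (fun x => mp x ^ 2) mu :=
    hbdd (hmp_meas.pow_const 2) (B := (N ^ 2) ^ 2) fun x => by
      rw [abs_of_nonneg (sq_nonneg _)]; exact pow_le_pow_left₀ (hmp0 x) (hmpN x) 2
  have hc1 : ∀ x, |c x| ≤ 1 := by
    intro x
    by_cases hx : x ∈ E
    · rw [hc.zero x hx]; simp
    · rcases hc.one x hx with h | h <;> rw [h] <;> simp
  -- total mass
  have hmass : ∫ x, mp x ∂mu = 2 * L := by
    rw [hmp_eq, integral_finsetSum _ fun _ _ => arc_integrable _ _,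
      Finset.sum_congr rfl fun q _ => integral_arc (a q) hτ.le (by linarith),
      Finset.sum_const, nsmul_eq_mul, hQc, ← hL]
    ring
  -- the product
  have hcm : ∀ x, c x * mm x = mp x - E.indicator mp x := by
    intro x
    by_cases hx : x ∈ E
    · rw [hc.zero x hx, Set.indicator_of_mem hx, zero_mul, sub_self]
    · rw [Set.indicator_of_notMem hx, sub_zero, ← hmm, ← hmp, Finset.mul_sum]
      refine Finset.sum_congr rfl fun q hq => ?_
      by_cases hb : x ∈ Metric.closedBall (a q) τ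
      · obtain ⟨t, ht, ht'⟩ := exists_rep (x - a q)
        rw [Metric.mem_closedBall, dist_eq_norm] at hb
        have hxe : th q.1 + th q.2 + (t : UnitAddCircle) = x := by
          rw [ha, ← ht]; abel
        rw [← hQ, Finset.mem_product] at hq
        have h := hprod q.1 hq.1 q.2 hq.2 t (ht'.le.trans hb) (by rw [hxe]; exact hx)
        rw [hxe, hs] at h
        rw [h, ← mul_assoc, hsq q (by rw [← hQ, Finset.mem_product]; exact hq), one_mul]
      · have : arc (a q) τ x = 0 := Set.indicator_of_notMem hb _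
        rw [this]; ring
  have hEI : ∫ x, E.indicator mp x ∂mu ≤ 9 / 200 * L := by
    have hpt : ∀ x, E.indicator mp x ≤ 20 * M * L * E.indicator (fun _ => (1 : ℝ)) x +
        1 / (80 * M * L) * mp x ^ 2 := by
      intro x
      have hML : 0 < M * L := mul_pos hMpos hLpos
      by_cases hx : x ∈ E
      · rw [Set.indicator_of_mem hx, Set.indicator_of_mem hx]
        have : mp x * (80 * M * L) ≤ (20 * M * L * 1 + 1 / (80 * M * L) * mp x ^ 2) *
            (80 * M * L) := by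
          have h3 : (20 * M * L * 1 + 1 / (80 * M * L) * mp x ^ 2) * (80 * M * L) =
            1600 * (M * L) ^ 2 + mp x ^ 2 := by
            field_simp
            ring
          rw [h3]
          nlinarith [sq_nonneg (mp x - 40 * (M * L))]
        exact le_of_mul_le_mul_right this (by positivity)
      · rw [Set.indicator_of_notMem hx, Set.indicator_of_notMem hx, mul_zero, zero_add]
        positivity
    have hmono : ∫ x, E.indicator mp x ∂mu ≤
        ∫ x, (20 * M * L * E.indicator (fun _ => (1 : ℝ)) x + 1 / (80 * M * L) * mp x ^ 2) ∂mu := by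
      refine integral_mono (hmp_int.indicator hc.measE) ?_ hpt
      refine Integrable.add (Integrable.const_mul ?_ _) (hmp2_int.const_mul _)
      exact (integrable_const _).indicator hc.measE
    rw [integral_add (Integrable.const_mul ((integrable_const _).indicator hc.measE) _)
      (hmp2_int.const_mul _), integral_const_mul, integral_const_mul] at hmono
    have hE1 : ∫ x, E.indicator (fun _ => (1 : ℝ)) x ∂mu ≤ δ := by
      rw [integral_indicator hc.measE, integral_const, smul_eq_mul, mul_one, Measure.real,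
        Measure.restrict_apply_univ]
      exact hc.vol
    have h3 : 20 * M * L * ∫ x, E.indicator (fun _ => (1 : ℝ)) x ∂mu ≤ 1 / 50 * L := by
      calc 20 * M * L * ∫ x, E.indicator (fun _ => (1 : ℝ)) x ∂mu ≤ 20 * M * L * δ :=
            mul_le_mul_of_nonneg_left hE1 (by positivity)
        _ = 20 * (δ * M) * L := by ring
        _ ≤ 20 * (1 / 1000) * L := by gcongr
        _ = _ := by ring
    have h4 : 1 / (80 * M * L) * ∫ x, mp x ^ 2 ∂mu ≤ 1 / 40 * L := by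
      calc 1 / (80 * M * L) * ∫ x, mp x ^ 2 ∂mu ≤ 1 / (80 * M * L) * (2 * M * L ^ 2) :=
            mul_le_mul_of_nonneg_left hI (by positivity)
        _ = _ := by field_simp; norm_num
    linarith
  have hlow : 391 / 200 * L ≤ ∫ x, c x * mm x ∂mu := by
    simp only [hcm]
    rw [integral_sub hmp_int (hmp_int.indicator hc.measE), hmass]
    linarith
  -- the upper bound
  have hps := parseval_split (c := fun x => (c x : ℂ)) (g := fun x => (mm x : ℂ))
    (Complex.measurable_ofReal.comp hc.meas) (Complex.measurable_ofReal.comp hmm_meas) (M := N ^ 2)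
    (fun x => by
      rw [Complex.norm_real, Real.norm_eq_abs]
      exact (hc1 x).trans (one_le_pow₀ hN1))
    (fun x => by
      rw [Complex.norm_real, Real.norm_eq_abs]
      exact (hmm_abs x).trans (hmpN x)) 𝓚 hd hoff
  have herr : √d * √(∫ x, ‖(mm x : ℂ)‖ ^ 2 ∂mu) ≤ 9 / 200 * L := by
    rw [← Real.sqrt_mul hd]
    refine Real.sqrt_le_iff.2 ⟨by positivity, ?_⟩
    have h3 : ∫ x, ‖(mm x : ℂ)‖ ^ 2 ∂mu ≤ ∫ x, mp x ^ 2 ∂mu := by
      refine integral_mono_of_nonneg (Filter.Eventually.of_forall fun x => sq_nonneg _) hmp2_int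
        (Filter.Eventually.of_forall fun x => ?_)
      simp only [Complex.norm_real, Real.norm_eq_abs]
      exact pow_le_pow_left₀ (abs_nonneg _) (hmm_abs x) 2
    calc d * ∫ x, ‖(mm x : ℂ)‖ ^ 2 ∂mu ≤ d * (2 * M * L ^ 2) :=
          mul_le_mul_of_nonneg_left (h3.trans hI) hd
      _ = 2 * (d * M) * L ^ 2 := by ring
      _ ≤ 2 * (1 / 1000) * L ^ 2 := by gcongr
      _ ≤ (9 / 200 * L) ^ 2 := by nlinarith [sq_nonneg L]
  -- the main term
  obtain ⟨W, hW⟩ : ∃ W : ℤ → ℝ, ∀ k, ‖∑ v ∈ V, (F v : ℂ) * (fourier k (th v) : ℂ)‖ = W k :=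
    ⟨_, fun _ => rfl⟩
  have hF' : ∀ v ∈ V, |F v| ≤ 1 := fun v hv => (hF v hv).le
  have hW2 : ∀ k ∈ 𝓚, W k ^ 2 ≤ 5 / 8 * N ^ 2 := by
    intro k hk
    have h3 := real_corr V th F hF' k
    have h4 := h2 k hk
    rw [hW, hN] at h3
    rw [hN] at h4
    calc W k ^ 2 ≤ N / 2 * (N + ‖∑ v ∈ V, (fourier (2 * k) (th v) : ℂ)‖) := h3
      _ ≤ N / 2 * (N + N / 4) := by gcongr
      _ = _ := by ring
  have hWs : ∑ k ∈ 𝓚, W k ^ 2 ≤ 11 / 10 * N ^ 2 := by
    have h3 := dual V th F hF' 𝓚 (b := 1 / 10) (by norm_num) hdiff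
    simp only [hW, hN] at h3
    linarith
  have hW4 : ∑ k ∈ 𝓚, (W k ^ 2) ^ 2 ≤ 11 / 16 * N ^ 4 := by
    calc ∑ k ∈ 𝓚, (W k ^ 2) ^ 2 ≤ ∑ k ∈ 𝓚, 5 / 8 * N ^ 2 * W k ^ 2 := by
          refine Finset.sum_le_sum fun k hk => ?_
          rw [sq (W k ^ 2)]
          exact mul_le_mul_of_nonneg_right (hW2 k hk) (sq_nonneg _)
      _ = 5 / 8 * N ^ 2 * ∑ k ∈ 𝓚, W k ^ 2 := by rw [Finset.mul_sum]
      _ ≤ 5 / 8 * N ^ 2 * (11 / 10 * N ^ 2) := by gcongr
      _ = _ := by ring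
  have hcs : ∑ k ∈ 𝓚, ‖fc c k‖ ^ 2 ≤ 1 := by
    have h3 := bessel (g := fun x => (c x : ℂ)) (Complex.measurable_ofReal.comp hc.meas)
      (M := 1) (fun x => by rw [Complex.norm_real, Real.norm_eq_abs]; exact hc1 x) 𝓚
    refine h3.trans ?_
    have h4 : ∫ x, ‖(c x : ℂ)‖ ^ 2 ∂mu ≤ ∫ _x : UnitAddCircle, (1 : ℝ) ∂mu := by
      refine integral_mono_of_nonneg (Filter.Eventually.of_forall fun x => sq_nonneg _)
        (integrable_const _) (Filter.Eventually.of_forall fun x => ?_)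
      simp only [Complex.norm_real, Real.norm_eq_abs]
      exact pow_le_one₀ (abs_nonneg _) (hc1 x)
    simpa using h4
  have hgk : ∀ k, ‖fourierCoeff (fun x => (mm x : ℂ)) k‖ ≤ 2 * τ * W k ^ 2 := by
    intro k
    have h3 := fc_bilin V th F τ hτ.le (by linarith) k
    rw [hW, hQ] at h3
    simp only [hs, ha, hmm] at h3
    exact h3
  have hmain : ∑ k ∈ 𝓚, ‖fc c k‖ * ‖fourierCoeff (fun x => (mm x : ℂ)) k‖ ≤ 5 / 3 * L := by
    have h3 : (∑ k ∈ 𝓚, ‖fc c k‖ * (2 * τ * W k ^ 2)) ^ 2 ≤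
        (∑ k ∈ 𝓚, ‖fc c k‖ ^ 2) * ∑ k ∈ 𝓚, (2 * τ * W k ^ 2) ^ 2 :=
      Finset.sum_mul_sq_le_sq_mul_sq _ _ _
    have h4 : ∑ k ∈ 𝓚, (2 * τ * W k ^ 2) ^ 2 ≤ 11 / 4 * L ^ 2 := by
      calc ∑ k ∈ 𝓚, (2 * τ * W k ^ 2) ^ 2 = 4 * τ ^ 2 * ∑ k ∈ 𝓚, (W k ^ 2) ^ 2 := by
            rw [Finset.mul_sum]
            refine Finset.sum_congr rfl fun k _ => ?_
            ring
        _ ≤ 4 * τ ^ 2 * (11 / 16 * N ^ 4) := by gcongr
        _ = _ := by rw [← hL]; ring
    have h5 : (∑ k ∈ 𝓚, ‖fc c k‖ * (2 * τ * W k ^ 2)) ^ 2 ≤ (5 / 3 * L) ^ 2 := by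
      refine h3.trans ?_
      calc (∑ k ∈ 𝓚, ‖fc c k‖ ^ 2) * ∑ k ∈ 𝓚, (2 * τ * W k ^ 2) ^ 2 ≤ 1 * (11 / 4 * L ^ 2) := by
            refine mul_le_mul hcs h4 (Finset.sum_nonneg fun k _ => sq_nonneg _) zero_le_one
        _ ≤ (5 / 3 * L) ^ 2 := by nlinarith [sq_nonneg L]
    have h6 : ∑ k ∈ 𝓚, ‖fc c k‖ * (2 * τ * W k ^ 2) ≤ 5 / 3 * L :=
      le_of_sq_le_sq h5 (by positivity)
    refine (Finset.sum_le_sum fun k _ => ?_).trans h6
    exact mul_le_mul_of_nonneg_left (hgk k) (norm_nonneg _)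
  have hup : ∫ x, c x * mm x ∂mu ≤ 5 / 3 * L + 9 / 200 * L := by
    have h3 : ∫ x, (starRingEnd ℂ) (c x : ℂ) * (mm x : ℂ) ∂mu = ((∫ x, c x * mm x ∂mu : ℝ) : ℂ) := by
      rw [← integral_complex_ofReal]
      refine integral_congr_ae (Filter.Eventually.of_forall fun x => ?_)
      simp only [Complex.conj_ofReal]
      push_cast
      rfl
    rw [h3] at hps
    have h4 : |∫ x, c x * mm x ∂mu| ≤ ‖((∫ x, c x * mm x ∂mu : ℝ) : ℂ) -
        ∑ k ∈ 𝓚, (starRingEnd ℂ) (fourierCoeff (fun x => (c x : ℂ)) k) *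
          fourierCoeff (fun x => (mm x : ℂ)) k‖ +
        ∑ k ∈ 𝓚, ‖fc c k‖ * ‖fourierCoeff (fun x => (mm x : ℂ)) k‖ := by
      have h5 : ‖((∫ x, c x * mm x ∂mu : ℝ) : ℂ)‖ = |∫ x, c x * mm x ∂mu| := by
        rw [Complex.norm_real, Real.norm_eq_abs]
      rw [← h5]
      have h6 : ∀ A B : ℂ, ‖A‖ ≤ ‖A - B‖ + ‖B‖ := fun A B => by
        calc ‖A‖ = ‖A - B + B‖ := by rw [sub_add_cancel]
          _ ≤ _ := norm_add_le _ _
      refine (h6 _ (∑ k ∈ 𝓚, (starRingEnd ℂ) (fourierCoeff (fun x => (c x : ℂ)) k) *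
          fourierCoeff (fun x => (mm x : ℂ)) k)).trans ?_
      refine add_le_add le_rfl ((norm_sum_le _ _).trans (Finset.sum_le_sum fun k _ => ?_))
      rw [norm_mul, Complex.norm_conj]
      rfl
    have h7 := le_abs_self (∫ x, c x * mm x ∂mu)
    linarith
  linarith

end Pool.Agent.LogPar
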