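import Pool.Agent.LogPar.Asm1
import Pool.Agent.LogPar.AsmN
import Pool.Agent.LogPar.Contra

set_option autoImplicit false

/-! # The final argument, part 3: the value `-1` -/

namespace Pool.Agent.LogPar

open Real Finset Pool.Agent.FareyParity

/-- the number of exceptional frequencies -/
theorem card_exc {Q : Finset (ℤ × ℤ)} {th : ℤ × ℤ → UnitAddCircle} {F : ℤ × ℤ → ℝ} {K L : ℝ} {S : ℕ}
    (hK : 1 ≤ K) (hL : 100 ≤ L) (hS : 1 ≤ (S : ℝ))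
    (hKS : 32 * K ≤ (S : ℝ) ^ (1 / 20000 : ℝ)) (hLS : L ^ 5000 ≤ (S : ℝ) ^ (1 / 20000 : ℝ))
    (hSL : log ((S : ℝ) ^ 4) ≤ L)
    (hF : ∀ v ∈ Q, F v = 1 ∨ F v = -1)
    (hQ : (L ^ 5000) ^ (1 - 1 / 4000 : ℝ) ≤ (Q.card : ℝ))
    (hsep : ∀ r : ℕ, ∀ m ∈ Q.sym r, ∀ m' ∈ Q.sym r, m ≠ m' → 1 / (K * (L ^ 5000) ^ r) ≤
      ‖((m : Multiset (ℤ × ℤ)).map th).sum - ((m' : Multiset (ℤ × ℤ)).map th).sum‖)
    (s : Finset ℤ) (hs : ∀ k ∈ s, |(k : ℝ)| ≤ (S : ℝ) ^ 4)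
    (hk : ∀ k ∈ s, ∑ v ∈ Q, ‖(fourier k (th v) : ℂ) - F v‖ ^ 2 < Q.card) :
    (s.card : ℝ) ≤ (S : ℝ) ^ (1 / 200 : ℝ) := by
  have hL0 : 0 < L := by linarith
  have hS0 : (0 : ℝ) < S := by linarith
  obtain ⟨Y, hY⟩ : ∃ Y : ℝ, Y = L ^ 5000 := ⟨_, rfl⟩
  have hY1 : 1 < Y := by rw [hY]; exact one_lt_pow₀ (by linarith) (by norm_num)
  have hY0 : 0 < Y := by linarith
  have hS4 : (1 : ℝ) ≤ (S : ℝ) ^ 4 := one_le_pow₀ hS
  obtain ⟨r, hr1, hr2⟩ := exists_nat_pow_near hS4 hY1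
  have hcorr : ∀ k ∈ s, (Q.card : ℝ) / 2 ≤ ‖∑ v ∈ Q, (F v : ℂ) * (fourier k (th v) : ℂ)‖ :=
    fun k hks => corr_of_close Q th F hF (hk k hks)
  have hYr : 1 ≤ Y ^ r := one_le_pow₀ hY1.le
  have hKY : 1 ≤ K * Y ^ r := one_le_mul_of_one_le_of_one_le hK hYr
  have main := card_freq Q th F (fun v hv => by rcases hF v hv with h | h <;> rw [h] <;> simp) r
    (Δ := 1 / (K * Y ^ r)) (N := (S : ℝ) ^ 4) (by positivity)
    (by rw [div_le_one (by positivity)]; exact hKY) hS4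
    (by rw [hY]; exact hsep r) s hs hcorr
  rw [one_div_one_div] at main
  have h1 : 16 * ((S : ℝ) ^ 4 + K * Y ^ r) ≤ 32 * K * (S : ℝ) ^ 4 := by
    have e1 : K * Y ^ r ≤ K * (S : ℝ) ^ 4 := by gcongr
    have e2 : (S : ℝ) ^ 4 ≤ K * (S : ℝ) ^ 4 := by nlinarith
    linarith
  have h2 : (S : ℝ) ^ 4 ≤ Y * (S : ℝ) ^ (1 / 1000 : ℝ) * (Q.card : ℝ) ^ r := by
    have e1 : ((S : ℝ) ^ 4 / Y) ^ (1 - 1 / 4000 : ℝ) ≤ (Q.card : ℝ) ^ r := by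
      calc ((S : ℝ) ^ 4 / Y) ^ (1 - 1 / 4000 : ℝ) ≤ (Y ^ r) ^ (1 - 1 / 4000 : ℝ) := by
            apply rpow_le_rpow (by positivity) _ (by norm_num)
            rw [div_le_iff₀ hY0, ← pow_succ]; exact hr2.le
        _ = (Y ^ (1 - 1 / 4000 : ℝ)) ^ r := by
            rw [← rpow_natCast, ← rpow_natCast, ← rpow_mul hY0.le, ← rpow_mul hY0.le, mul_comm]
        _ ≤ _ := by
            apply pow_le_pow_left₀ (by positivity)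
            rw [hY]; exact hQ
    have e2 : (S : ℝ) ^ 4 = ((S : ℝ) ^ 4) ^ (1 / 4000 : ℝ) * ((S : ℝ) ^ 4) ^ (1 - 1 / 4000 : ℝ) := by
      rw [← rpow_add (by positivity)]; norm_num
    have e3 : ((S : ℝ) ^ 4) ^ (1 / 4000 : ℝ) = (S : ℝ) ^ (1 / 1000 : ℝ) := by
      rw [← rpow_natCast (S : ℝ) 4, ← rpow_mul hS0.le]; norm_num
    have e4 : ((S : ℝ) ^ 4) ^ (1 - 1 / 4000 : ℝ) ≤
        Y * ((S : ℝ) ^ 4 / Y) ^ (1 - 1 / 4000 : ℝ) := by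
      rw [div_rpow (by positivity) hY0.le]
      have e5 : Y ^ (1 - 1 / 4000 : ℝ) ≤ Y := by
        calc Y ^ (1 - 1 / 4000 : ℝ) ≤ Y ^ (1 : ℝ) := rpow_le_rpow_of_exponent_le hY1.le (by norm_num)
          _ = Y := rpow_one Y
      rw [mul_div_assoc', le_div_iff₀ (by positivity), mul_comm]
      gcongr
    calc (S : ℝ) ^ 4 = (S : ℝ) ^ (1 / 1000 : ℝ) * ((S : ℝ) ^ 4) ^ (1 - 1 / 4000 : ℝ) := by
          rw [← e3]; exact e2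
      _ ≤ (S : ℝ) ^ (1 / 1000 : ℝ) * (Y * (Q.card : ℝ) ^ r) := by
          gcongr
          exact e4.trans (by gcongr)
      _ = _ := by ring
  have hQpos : (0 : ℝ) < Q.card := lt_of_lt_of_le (by positivity) hQ
  have h3 : (s.card : ℝ) * (Q.card : ℝ) ^ r ≤
      (32 * K * Y * (S : ℝ) ^ (1 / 1000 : ℝ) * r.factorial * 4 ^ r) * (Q.card : ℝ) ^ r := by
    calc (s.card : ℝ) * (Q.card : ℝ) ^ r ≤ 16 * ((S : ℝ) ^ 4 + K * Y ^ r) * r.factorial * 4 ^ r := main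
      _ ≤ 32 * K * (S : ℝ) ^ 4 * r.factorial * 4 ^ r := by gcongr
      _ ≤ 32 * K * (Y * (S : ℝ) ^ (1 / 1000 : ℝ) * (Q.card : ℝ) ^ r) * r.factorial * 4 ^ r := by
          gcongr
      _ = _ := by ring
  have h4 := le_of_mul_le_mul_right h3 (by positivity)
  refine h4.trans ?_
  rw [hY]
  exact numeric_card hK hL hS hKS hLS hSL (by rw [← hY]; exact hr1)

end Pool.Agent.LogPar
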