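import Pool.Agent.LogPar.Defs
import Pool.Agent.FareyParity.Near
import Pool.Agent.FareyParity.Geom
import Pool.Agent.FareyParity.Count

set_option autoImplicit false

/-! # Definite case (negative discriminant): definitions -/

namespace Pool.Agent.LogPar

open Pool.Agent.FareyParity

/-- the direction of a lattice vector -/
noncomputable def thD (B C : ℤ) (v : ℤ × ℤ) : UnitAddCircle :=
  ((Complex.arg (cv B C v) / (2 * Real.pi) : ℝ) : UnitAddCircle)

/-- aspect ratio of the box -/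
def qD (B C : ℤ) : ℕ := 100 * (B.natAbs + C.natAbs + 1)

/-- the box `q S ≤ x < 2 q S`, `S ≤ y < 2 S` -/
noncomputable def boxD (B C : ℤ) (S : ℕ) : Finset (ℤ × ℤ) :=
  Finset.Ico ((qD B C * S : ℕ) : ℤ) ((2 * qD B C * S : ℕ) : ℤ) ×ˢ Finset.Ico (S : ℤ) ((2 * S : ℕ) : ℤ)

end Pool.Agent.LogPar
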