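import Mathlib
import Pool.Agent.FareyParity.Basic

set_option autoImplicit false

/-!
# Sign changes of completely multiplicative functions at monic quadratics: definitions

`F(T) = T^2 + B T + C`, the lattice `ℤ + ℤ ω` is coded as `ℤ × ℤ` as in `FareyParity.Basic`
(`nf`, `dt`, `ip`, `mulv`, `cj`, `IsSign`, `col`).
-/

namespace Pool.Agent.LogPar

open MeasureTheory Pool.Agent.FareyParity

/-- the probability measure on the circle `ℝ / ℤ` -/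
noncomputable abbrev mu : Measure UnitAddCircle := AddCircle.haarAddCircle

/-- Fourier coefficients of a real function on the circle -/
noncomputable def fc (c : UnitAddCircle → ℝ) (k : ℤ) : ℂ := fourierCoeff (fun x => (c x : ℂ)) k

/-- the number `|F(n)|` -/
def val (B C n : ℤ) : ℕ := (n ^ 2 + B * n + C).natAbs

/-- `c` has values `±1` off the measurable set `E` of measure at most `δ`, and `0` on `E`. -/
structure SignFun (c : UnitAddCircle → ℝ) (E : Set UnitAddCircle) (δ : ℝ) : Prop where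
  meas : Measurable c
  measE : MeasurableSet E
  vol : mu.real E ≤ δ
  one : ∀ x, x ∉ E → c x = 1 ∨ c x = -1
  zero : ∀ x ∈ E, c x = 0

/-- The sign function on the circle: if `f(F(n)) = -1` for few `n` only, then the colour of a
lattice vector is a function `c` of its direction, for most directions. -/
def GEProp (B C : ℤ) (Adm : ℤ × ℤ → Prop) (th : ℤ × ℤ → UnitAddCircle)
    (box : ℕ → Finset (ℤ × ℤ)) (K : ℝ) (A : ℕ) : Prop :=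
  ∀ R H : ℝ, K ≤ H → K * H ≤ R → ∀ f : ℕ → ℤ, IsSign f → ∀ Bd : Finset ℤ,
    (∀ n : ℤ, |(n : ℝ)| ≤ K * R ^ 2 → f (val B C n) = -1 → n ∈ Bd) →
    ∃ (c : UnitAddCircle → ℝ) (E : Set UnitAddCircle),
      SignFun c E (K * √(Bd.card : ℝ) * H ^ 2 * Real.log R ^ A / R) ∧
      (∀ v, Adm v → K * |(nf B C v : ℝ)| ≤ H → ∀ x, x ∉ E → x + th v ∉ E →
        c (x + th v) = col f B C v * c x) ∧
      (∀ t : ℝ, |t| ≤ H / (K * R ^ 2) → ∀ x, x ∉ E → x + (t : UnitAddCircle) ∉ E →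
        c (x + (t : UnitAddCircle)) = c x) ∧
      (∀ S : ℕ, K * (S : ℝ) ^ 2 ≤ R → ∀ v ∈ box S, ∀ w ∈ box S, ∀ t : ℝ,
        |t| ≤ H / (K * R ^ 2) → th v + th w + (t : UnitAddCircle) ∉ E →
        c (th v + th w + (t : UnitAddCircle)) = col f B C v * col f B C w)

/-- Everything about the quadratic polynomial `T^2 + B T + C` that the final argument uses. -/
structure Kit (B C : ℤ) where
  /-- admissible lattice vectors (nonzero, resp. totally positive) -/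
  Adm : ℤ × ℤ → Prop
  /-- the angle, an element of `ℝ / ℤ` -/
  th : ℤ × ℤ → UnitAddCircle
  /-- the box of side about `S` -/
  box : ℕ → Finset (ℤ × ℤ)
  box_adm : ∀ S, ∀ v ∈ box S, Adm v
  /-- colours of admissible vectors are signs -/
  adm_ne : ∀ v, Adm v → nf B C v ≠ 0
  box_card : ∃ K : ℝ, 1 ≤ K ∧ ∀ S : ℕ, K ≤ S →
    (S : ℝ) ^ 2 / K ≤ (box S).card ∧ ((box S).card : ℝ) ≤ K * (S : ℝ) ^ 2
  /-- the sign function of the direction -/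
  ge : ∃ K : ℝ, 1 ≤ K ∧ ∃ A : ℕ, GEProp B C Adm th box K A
  /-- exponential sums over the box -/
  expo : ∃ K : ℝ, 1 ≤ K ∧ ∀ S : ℕ, K ≤ S → ∀ m : ℤ, m ≠ 0 → |(m : ℝ)| ≤ (S : ℝ) ^ 4 →
    ‖∑ v ∈ box S, (fourier m (th v) : ℂ)‖ ≤
      K * (S : ℝ) ^ 2 * (1 / |(m : ℝ)| + (S : ℝ) ^ (-(1 / 100) : ℝ))
  /-- few coincidences between the directions of products -/
  quad : ∃ K : ℝ, 1 ≤ K ∧ ∃ A : ℕ, ∀ S : ℕ, K ≤ S →
    ∀ P : Finset ((ℤ × ℤ) × (ℤ × ℤ) × (ℤ × ℤ) × (ℤ × ℤ)),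
    (∀ p ∈ P, p.1 ∈ box S ∧ p.2.1 ∈ box S ∧ p.2.2.1 ∈ box S ∧ p.2.2.2 ∈ box S ∧
      ‖(th p.1 + th p.2.1) - (th p.2.2.1 + th p.2.2.2)‖ ≤ 1 / (K * (S : ℝ) ^ 4)) →
    (P.card : ℝ) ≤ K * (S : ℝ) ^ 4 * Real.log S ^ A
  /-- many elements of small norm whose products have distinct directions -/
  primes : ∃ K : ℝ, 1 ≤ K ∧ ∀ Y : ℝ, K ≤ Y → ∃ Q : Finset (ℤ × ℤ),
    (∀ v ∈ Q, Adm v ∧ |(nf B C v : ℝ)| ≤ Y) ∧ Y ^ (1 - 1 / 4000 : ℝ) ≤ (Q.card : ℝ) ∧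
    ∀ r : ℕ, ∀ m ∈ Q.sym r, ∀ m' ∈ Q.sym r, m ≠ m' →
      1 / (K * Y ^ r) ≤ ‖((m : Multiset (ℤ × ℤ)).map th).sum - ((m' : Multiset (ℤ × ℤ)).map th).sum‖
  /-- elements of small norm and small angle -/
  small : ∃ K : ℝ, 1 ≤ K ∧ ∀ N : ℕ, K ≤ N → ∃ v, Adm v ∧ |(nf B C v : ℝ)| ≤ K * (N : ℝ) ^ 2 ∧
    ∃ t : ℝ, th v = (t : UnitAddCircle) ∧ 1 / (K * N) ≤ t ∧ t ≤ K / N
  /-- the value `+1` is taken often -/
  plus : ∃ K : ℝ, 1 ≤ K ∧ ∃ A : ℕ, ∀ R : ℝ, K ≤ R → ∀ f : ℕ → ℤ, IsSign f → ∀ Bd : Finset ℤ,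
    (∀ n : ℤ, |(n : ℝ)| ≤ K * R ^ 2 → f (val B C n) = 1 → n ∈ Bd) →
    R ≤ K * √(Bd.card : ℝ) * Real.log R ^ A

end Pool.Agent.LogPar
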