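import Mathlib
import Pool.Agent.RPS.Vdc4
import Pool.Agent.RPS.WeylF
import Pool.Agent.H33.Exp.KL

set_option autoImplicit false

/-! # Exponential sums with a smooth phase whose derivatives have the size of those of `1 / x` -/

namespace Pool.Agent.LogPar

open Pool.Agent.H33 Finset Pool.Agent.SSQ Pool.Agent.RPS

theorem df_hasDerivAt (us : List ℝ) (hus : ∀ u ∈ us, 0 ≤ u) (g g' : ℝ → ℝ) {A B : ℝ}
    (hg : ∀ x : ℝ, A ≤ x → x ≤ B → HasDerivAt g (g' x) x) :
    ∀ x : ℝ, A ≤ x → x + us.sum ≤ B → HasDerivAt (DrL us g) (DrL us g' x) x := by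
  induction us with
  | nil =>
    intro x hx hB
    simp only [List.sum_nil, add_zero] at hB
    exact hg x hx hB
  | cons u us ih =>
    intro x hx hB
    have hus' : ∀ v ∈ us, 0 ≤ v := fun v hv => hus v (List.mem_cons_of_mem _ hv)
    have hu : 0 ≤ u := hus u List.mem_cons_self
    rw [List.sum_cons] at hB
    have h1 : HasDerivAt (fun y => DrL us g (y + u)) (DrL us g' (x + u)) x :=
      (ih hus' (x + u) (by linarith) (by linarith)).comp_add_const x u
    have h2 := ih hus' x hx (by linarith)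
    exact h1.sub h2

theorem df_upper (F : ℕ → ℝ → ℝ) {A B M : ℝ} (us : List ℝ) (hus : ∀ u ∈ us, 0 ≤ u) :
    ∀ i : ℕ, (∀ j : ℕ, j < i + us.length → ∀ x : ℝ, A ≤ x → x ≤ B →
      HasDerivAt (F j) (F (j + 1) x) x) →
      (∀ y : ℝ, A ≤ y → y ≤ B → F (i + us.length) y ≤ M) →
      ∀ x : ℝ, A ≤ x → x + us.sum ≤ B → DrL us (F i) x ≤ M * us.prod := by
  induction us with
  | nil =>
    intro i _ h x hx hB
    simp only [List.sum_nil, add_zero] at hB
    simpa [DrL] using h x hx hB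
  | cons u us ih =>
    intro i hF h x hx hB
    have hus' : ∀ v ∈ us, 0 ≤ v := fun v hv => hus v (List.mem_cons_of_mem _ hv)
    have hu : 0 ≤ u := hus u List.mem_cons_self
    have hs : 0 ≤ us.sum := List.sum_nonneg hus'
    rw [List.sum_cons] at hB
    have hder := df_hasDerivAt us hus' (F i) (F (i + 1)) (A := A) (B := B)
      (hF i (by rw [List.length_cons]; omega))
    have ih' := ih hus' (i + 1) (fun j hj => hF j (by rw [List.length_cons]; omega)) (by
      intro y h1 h2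
      have := h y h1 h2
      rw [List.length_cons] at this
      rw [show i + 1 + us.length = i + (us.length + 1) by ring]
      exact this)
    have e : DrL (u :: us) (F i) x = DrL us (F i) (x + u) - DrL us (F i) x := rfl
    rcases hu.eq_or_lt with h0 | h0
    · rw [e, List.prod_cons, ← h0]
      simp
    · obtain ⟨ξ, hξ, hd⟩ := exists_hasDerivAt_eq_slope (DrL us (F i)) (DrL us (F (i + 1)))
        (show x < x + u by linarith)
        (fun y hy => (hder y (by linarith [hy.1])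
          (by linarith [hy.2])).continuousAt.continuousWithinAt)
        (fun y hy => hder y (by linarith [hy.1]) (by linarith [hy.2]))
      have h1 := ih' ξ (by linarith [hξ.1]) (by linarith [hξ.2])
      have h2 : DrL us (F i) (x + u) - DrL us (F i) x = u * DrL us (F (i + 1)) ξ := by
        rw [hd, show x + u - x = u by ring]
        field_simp
      rw [e, h2, List.prod_cons]
      calc u * DrL us (F (i + 1)) ξ ≤ u * (M * us.prod) := mul_le_mul_of_nonneg_left h1 hu
          _ = M * (u * us.prod) := by ring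

theorem df_neg (us : List ℝ) (g : ℝ → ℝ) : DrL us (fun x => -g x) = fun x => -DrL us g x := by
  induction us with
  | nil => rfl
  | cons u us ih =>
    funext x
    show DrL us (fun x => -g x) (x + u) - DrL us (fun x => -g x) x =
      -(DrL us g (x + u) - DrL us g x)
    rw [ih]
    ring

theorem df_lower (F : ℕ → ℝ → ℝ) {A B M : ℝ} (us : List ℝ) (hus : ∀ u ∈ us, 0 ≤ u)
    (hF : ∀ j : ℕ, j < us.length → ∀ x : ℝ, A ≤ x → x ≤ B → HasDerivAt (F j) (F (j + 1) x) x)
    (hM : ∀ y : ℝ, A ≤ y → y ≤ B → M ≤ F us.length y)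
    (x : ℝ) (hx : A ≤ x) (hx2 : x + us.sum ≤ B) : M * us.prod ≤ DrL us (F 0) x := by
  have h := df_upper (fun i x => -F i x) (A := A) (B := B) (M := -M) us hus 0
    (fun j hj x h1 h2 => (hF j (by omega) x h1 h2).neg)
    (fun y h1 h2 => by rw [Nat.zero_add]; exact neg_le_neg (hM y h1 h2)) x hx hx2
  rw [df_neg] at h
  linarith

theorem df_Dq (φ : ℝ → ℝ) (a : ℝ) (q : ℕ) :
    Dq q (fun i : ℕ => φ (a + i)) = fun i : ℕ => Dr q φ (a + i) := by
  funext i
  unfold Dq Dr
  push_cast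
  congr 2
  ring

/-- the five-fold difference of the phase -/
theorem df_five (M a : ℝ) (φ : ℝ → ℝ) (q₁ q₂ q₃ q₄ : ℕ) (i : ℕ) :
    Dq 1 (D4 q₁ q₂ q₃ q₄ (fun i : ℕ => M * φ (a + i))) i =
      M * DrL [((1 : ℕ) : ℝ), (q₁ : ℝ), (q₂ : ℝ), (q₃ : ℝ), (q₄ : ℝ)] φ (a + i) := by
  unfold D4
  rw [wf_Dq_mul, wf_Dq_mul, wf_Dq_mul, wf_Dq_mul, wf_Dq_mul]
  rw [df_Dq, df_Dq, df_Dq, df_Dq, df_Dq]
  rfl

/-- numerical conditions -/
theorem df_num (κ : ℝ) : ∃ K : ℝ, 1 ≤ K ∧ ∀ L : ℝ, K ≤ L →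
    32 * κ ^ 7 ≤ L ^ ((1 : ℝ) / 6) ∧ 4 * κ ^ 2 ≤ L ^ ((1 : ℝ) / 12) := by
  have h1 := (tendsto_rpow_atTop (show (0 : ℝ) < 1 / 6 by norm_num)).eventually
    (Filter.eventually_ge_atTop (32 * κ ^ 7))
  have h2 := (tendsto_rpow_atTop (show (0 : ℝ) < 1 / 12 by norm_num)).eventually
    (Filter.eventually_ge_atTop (4 * κ ^ 2))
  obtain ⟨n0, hn0⟩ := Filter.eventually_atTop.mp (h1.and h2)
  exact ⟨max 1 n0, le_max_left _ _, fun n hn => hn0 n (le_trans (le_max_right _ _) hn)⟩

/-- `G j` is the `j`-th derivative of `G 0` for `j ≤ 6`; the first, fifth derivatives are positive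
and of size `1 / L`, resp. `1 / L^5`, the second and sixth ones are `≤ 0`, on `[a, a + N]`. Then the exponential
sum with phase `M G 0` has power saving for `1 ≤ M ≤ L^4`, up to the term `1 / M`. -/
theorem expsum_smooth (κ : ℝ) (hκ : 1 ≤ κ) : ∃ K : ℝ, 1 ≤ K ∧ ∀ L : ℝ, K ≤ L →
    ∀ (G : ℕ → ℝ → ℝ) (a : ℝ) (N : ℕ), L / κ ≤ N → (N : ℝ) ≤ κ * L →
    (∀ j ≤ 5, ∀ x, a ≤ x → x ≤ a + N → HasDerivAt (G j) (G (j + 1) x) x) →
    (∀ x, a ≤ x → x ≤ a + N → 1 / (κ * L) ≤ G 1 x ∧ G 1 x ≤ κ / L ∧ G 2 x ≤ 0 ∧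
      1 / (κ * L ^ 5) ≤ G 5 x ∧ G 5 x ≤ κ / L ^ 5 ∧ G 6 x ≤ 0) →
    ∀ M : ℝ, 0 < M → M ≤ L ^ 4 →
    ‖∑ i ∈ range N, ee (M * G 0 (a + i))‖ ≤ K * L * (1 / M + L ^ (-(1 / 96) : ℝ)) := by
  obtain ⟨K0, hK0, hnum⟩ := df_num κ
  refine ⟨max K0 (6 * κ), le_trans hK0 (le_max_left _ _), ?_⟩
  intro L hL G a N hN1 hN2 hder hG M hM0 hM
  obtain ⟨m1, m2⟩ := hnum L ((le_max_left _ _).trans hL)
  have hL1 : 1 ≤ L := hK0.trans ((le_max_left _ _).trans hL)
  have hL0 : 0 < L := by linarith
  have hκ0 : 0 < κ := by linarith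
  have hK6 : 6 * κ ≤ max K0 (6 * κ) := le_max_right _ _
  have hKpos : 0 < max K0 (6 * κ) := by linarith
  have hLneg : 0 < L ^ (-(1 / 96) : ℝ) := Real.rpow_pos_of_pos hL0 _
  have hNR : (0 : ℝ) < N := lt_of_lt_of_le (by positivity) hN1
  rcases le_or_gt M (L / (2 * κ)) with hcase | hcase
  · -- Kusmin-Landau
    have hk := kusmin_landau (fun i : ℕ => M * G 0 (a + i)) N (l := M * (1 / (κ * L)))
      (by positivity)
      (by
        intro n hn
        have hn' : (n : ℝ) + 1 ≤ N := by exact_mod_cast hn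
        have h := df_lower G (A := a) (B := a + N) (M := 1 / (κ * L)) [(1 : ℝ)] (by simp)
          (fun j hj x h1 h2 => hder j (by simp at hj; omega) x h1 h2)
          (fun y h1 h2 => (hG y h1 h2).1) (a + n) (by linarith [(Nat.cast_nonneg n : (0 : ℝ) ≤ n)])
          (by simp; linarith)
        have e : DrL [(1 : ℝ)] (G 0) (a + n) = G 0 (a + ((n + 1 : ℕ) : ℝ)) - G 0 (a + n) := by
          show G 0 (a + n + 1) - G 0 (a + n) = _
          push_cast
          ring_nf
        rw [e, List.prod_singleton, mul_one] at h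
        have := mul_le_mul_of_nonneg_left h hM0.le
        show M * (1 / (κ * L)) ≤ M * G 0 (a + ((n + 1 : ℕ) : ℝ)) - M * G 0 (a + n)
        linarith)
      (by
        intro n hn
        have hn' : (n : ℝ) + 1 ≤ N := by exact_mod_cast hn
        have h := df_upper G (A := a) (B := a + N) (M := κ / L) [(1 : ℝ)] (by simp) 0
          (fun j hj x h1 h2 => hder j (by simp at hj; omega) x h1 h2)
          (fun y h1 h2 => (hG y h1 h2).2.1) (a + n) (by linarith [(Nat.cast_nonneg n : (0 : ℝ) ≤ n)])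
          (by simp; linarith)
        have e : DrL [(1 : ℝ)] (G 0) (a + n) = G 0 (a + ((n + 1 : ℕ) : ℝ)) - G 0 (a + n) := by
          show G 0 (a + n + 1) - G 0 (a + n) = _
          push_cast
          ring_nf
        rw [e, List.prod_singleton, mul_one] at h
        have h2 := mul_le_mul_of_nonneg_left h hM0.le
        have h3 : M * (κ / L) ≤ L / (2 * κ) * (κ / L) :=
          mul_le_mul_of_nonneg_right hcase (by positivity)
        have h4 : L / (2 * κ) * (κ / L) = 1 / 2 := by field_simp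
        show M * G 0 (a + ((n + 1 : ℕ) : ℝ)) - M * G 0 (a + n) ≤ 1 / 2
        linarith)
      (by
        intro n hn
        have hn' : (n : ℝ) + 2 ≤ N := by
          have : n + 2 ≤ N := by omega
          exact_mod_cast this
        have h := df_upper G (A := a) (B := a + N) (M := 0) [(1 : ℝ), 1] (by simp) 0
          (fun j hj x h1 h2 => hder j (by simp at hj; omega) x h1 h2)
          (fun y h1 h2 => (hG y h1 h2).2.2.1) (a + n)
          (by linarith [(Nat.cast_nonneg n : (0 : ℝ) ≤ n)])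
          (by simp; linarith)
        have e : DrL [(1 : ℝ), 1] (G 0) (a + n) =
            (G 0 (a + n + 1 + 1) - G 0 (a + n + 1)) - (G 0 (a + n + 1) - G 0 (a + n)) := rfl
        have e2 : a + ((n + 2 : ℕ) : ℝ) = a + n + 1 + 1 := by push_cast; ring
        have e1 : a + ((n + 1 : ℕ) : ℝ) = a + n + 1 := by push_cast; ring
        rw [e, zero_mul] at h
        have h2 := mul_le_mul_of_nonneg_left h hM0.le
        show M * G 0 (a + ((n + 2 : ℕ) : ℝ)) - M * G 0 (a + ((n + 1 : ℕ) : ℝ)) ≤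
          M * G 0 (a + ((n + 1 : ℕ) : ℝ)) - M * G 0 (a + n)
        rw [e2, e1]
        linarith)
    refine hk.trans ?_
    have h1 : 1 / (M * (1 / (κ * L))) = κ * L * (1 / M) := by field_simp
    rw [h1]
    calc κ * L * (1 / M) ≤ max K0 (6 * κ) * L * (1 / M) := by
          apply mul_le_mul_of_nonneg_right _ (by positivity)
          apply mul_le_mul_of_nonneg_right _ hL0.le
          linarith
      _ ≤ max K0 (6 * κ) * L * (1 / M + L ^ (-(1 / 96) : ℝ)) := by
          apply mul_le_mul_of_nonneg_left _ (by positivity)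
          linarith
  · -- van der Corput
    obtain ⟨z, hz⟩ : ∃ z : ℝ, z = L ^ ((1 : ℝ) / 6) := ⟨_, rfl⟩
    have hzpos : 0 < z := by rw [hz]; exact Real.rpow_pos_of_pos hL0 _
    have hz6 : z ^ 6 = L := by
      rw [hz, ← Real.rpow_natCast, ← Real.rpow_mul hL0.le]
      norm_num
    rw [← hz] at m1
    have hκ7 : (1 : ℝ) ≤ κ ^ 7 := one_le_pow₀ hκ
    have hz1 : 1 ≤ z := by linarith
    obtain ⟨E, hE⟩ : ∃ E : ℝ, E = z⁻¹ := ⟨_, rfl⟩
    have hEpos : 0 < E := by rw [hE]; positivity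
    have hzE : z * E = 1 := by rw [hE]; exact mul_inv_cancel₀ hzpos.ne'
    have hE1 : E ≤ 1 := by
      rw [hE]; exact inv_le_one_of_one_le₀ hz1
    have hE16 : E ^ ((1 : ℝ) / 16) = L ^ (-(1 / 96) : ℝ) := by
      rw [hE, hz, ← Real.rpow_neg hL0.le, ← Real.rpow_mul hL0.le]
      norm_num
    obtain ⟨T, hT⟩ : ∃ T : ℝ, T = L ^ 5 / (2 * κ ^ 5 * M) := ⟨_, rfl⟩
    have hTpos : 0 < T := by rw [hT]; positivity
    obtain ⟨h, hh⟩ : ∃ h : ℝ, h = T ^ ((1 : ℝ) / 4) := ⟨_, rfl⟩
    have hhpos : 0 < h := by rw [hh]; exact Real.rpow_pos_of_pos hTpos _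
    have hh4 : h ^ 4 = T := by
      rw [hh, ← Real.rpow_natCast, ← Real.rpow_mul hTpos.le]
      norm_num
    have hMT : M * T = L ^ 5 / (2 * κ ^ 5) := by
      rw [hT]; field_simp
    -- lower bound for h
    have hκ5 : κ ^ 5 ≤ κ ^ 7 := pow_le_pow_right₀ hκ (by norm_num)
    have hκ5' : (1 : ℝ) ≤ κ ^ 5 := one_le_pow₀ hκ
    have hhlow : 2 * z ≤ h := by
      by_contra hcon
      rw [not_le] at hcon
      have h1 : h ^ 4 < (2 * z) ^ 4 := pow_lt_pow_left₀ hcon hhpos.le (by norm_num)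
      rw [hh4] at h1
      have h2 : L ^ 5 / (2 * κ ^ 5) < M * (2 * z) ^ 4 := by
        rw [← hMT]; exact mul_lt_mul_of_pos_left h1 hM0
      have h3 : M * (2 * z) ^ 4 ≤ L ^ 4 * (2 * z) ^ 4 :=
        mul_le_mul_of_nonneg_right hM (by positivity)
      have h4 : L ^ 5 / (2 * κ ^ 5) < L ^ 4 * (2 * z) ^ 4 := lt_of_lt_of_le h2 h3
      rw [div_lt_iff₀ (by positivity)] at h4
      have h5 : L ^ 4 * (2 * z) ^ 4 * (2 * κ ^ 5) = L ^ 4 * (32 * κ ^ 5 * z ^ 4) := by ring
      rw [h5] at h4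
      have h6 : L ^ 5 = L ^ 4 * z ^ 6 := by rw [← hz6]; ring
      rw [h6] at h4
      have h7 : z ^ 6 < 32 * κ ^ 5 * z ^ 4 := lt_of_mul_lt_mul_left h4 (by positivity)
      have h8 : z ^ 6 = z ^ 4 * (z * z) := by ring
      have h9 : 32 * κ ^ 5 ≤ z * z := by nlinarith
      have h10 : 32 * κ ^ 5 * z ^ 4 ≤ z ^ 4 * (z * z) := by
        rw [mul_comm (32 * κ ^ 5)]
        exact mul_le_mul_of_nonneg_left h9 (by positivity)
      linarith
    have hhup : h ≤ L / κ := by
      by_contra hcon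
      rw [not_le] at hcon
      have h1 : (L / κ) ^ 4 < h ^ 4 := pow_lt_pow_left₀ hcon (by positivity) (by norm_num)
      rw [hh4] at h1
      have h2 : L / (2 * κ) * (L / κ) ^ 4 < M * T := by
        calc L / (2 * κ) * (L / κ) ^ 4 ≤ M * (L / κ) ^ 4 :=
              mul_le_mul_of_nonneg_right hcase.le (by positivity)
          _ < M * T := mul_lt_mul_of_pos_left h1 hM0
      rw [hMT] at h2
      have h3 : L / (2 * κ) * (L / κ) ^ 4 = L ^ 5 / (2 * κ ^ 5) := by field_simp
      rw [h3] at h2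
      exact lt_irrefl _ h2
    obtain ⟨H, hH⟩ : ∃ H : ℕ, H = ⌊h⌋₊ := ⟨_, rfl⟩
    have hHle : (H : ℝ) ≤ h := by rw [hH]; exact Nat.floor_le hhpos.le
    have hHge : h / 2 ≤ H := by
      have := Nat.lt_floor_add_one h
      rw [← hH] at this
      linarith
    have hHz : z ≤ H := by linarith
    have hH1 : 1 ≤ H := by
      have : (1 : ℝ) ≤ H := hz1.trans hHz
      exact_mod_cast this
    have hHN : H ≤ N := by
      have : (H : ℝ) ≤ N := hHle.trans (hhup.trans hN1)
      exact_mod_cast this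
    have hHE : 1 ≤ H * E := by
      calc (1 : ℝ) = z * E := hzE.symm
        _ ≤ H * E := mul_le_mul_of_nonneg_right hHz hEpos.le
    have hv := vdc4 (g := fun i : ℕ => M * G 0 (a + i)) (N := N) (H := H) (Y := z) (E := E) hz1
      hEpos hE1 hH1 hHN hzE.ge hHE (by
      intro q₁ q₂ q₃ q₄ a1 a2 a3 a4 b1 b2 b3 b4 c1 c2 c3 c4
      have up : ∀ q : ℕ, q < H → (q : ℝ) ≤ h := fun q hq => by
        have : (q : ℝ) ≤ H := by exact_mod_cast hq.le
        linarith
      have low : ∀ q : ℕ, (H : ℝ) ≤ q * z → h / 2 * E ≤ q := fun q hq => by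
        have h1 : (H : ℝ) * E ≤ q * z * E := mul_le_mul_of_nonneg_right hq hEpos.le
        rw [mul_assoc, hzE, mul_one] at h1
        have h2 : h / 2 * E ≤ H * E := mul_le_mul_of_nonneg_right hHge hEpos.le
        linarith
      have pos : ∀ q : ℕ, 1 ≤ q → (0 : ℝ) < q := fun q hq => by exact_mod_cast hq
      obtain ⟨P, hP⟩ : ∃ P : ℝ, P = (q₁ : ℝ) * (q₂ : ℝ) * ((q₃ : ℝ) * (q₄ : ℝ)) := ⟨_, rfl⟩
      have p1 := pos q₁ a1
      have p2 := pos q₂ a2
      have p3 := pos q₃ a3
      have p4 := pos q₄ a4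
      have hPpos : 0 < P := by rw [hP]; positivity
      have hPup : P ≤ T := by
        rw [hP, ← hh4]
        calc (q₁ : ℝ) * (q₂ : ℝ) * ((q₃ : ℝ) * (q₄ : ℝ)) ≤ h * h * (h * h) := by
              apply mul_le_mul (mul_le_mul (up _ b1) (up _ b2) p2.le hhpos.le)
                (mul_le_mul (up _ b3) (up _ b4) p4.le hhpos.le) (by positivity) (by positivity)
          _ = h ^ 4 := by ring
      have hPlow : T * E ^ 4 / 16 ≤ P := by
        rw [hP, ← hh4]
        have hq : 0 < h / 2 * E := by positivity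
        calc h ^ 4 * E ^ 4 / 16 = (h / 2 * E) * (h / 2 * E) * ((h / 2 * E) * (h / 2 * E)) := by
              ring
          _ ≤ (q₁ : ℝ) * (q₂ : ℝ) * ((q₃ : ℝ) * (q₄ : ℝ)) := by
              apply mul_le_mul (mul_le_mul (low _ c1) (low _ c2) hq.le p1.le)
                (mul_le_mul (low _ c3) (low _ c4) hq.le p3.le) (by positivity) (by positivity)
      have hprod : [((1 : ℕ) : ℝ), (q₁ : ℝ), (q₂ : ℝ), (q₃ : ℝ), (q₄ : ℝ)].prod = P := by
        rw [hP]
        simp only [List.prod_cons, List.prod_nil]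
        push_cast
        ring
      have hsum : [((1 : ℕ) : ℝ), (q₁ : ℝ), (q₂ : ℝ), (q₃ : ℝ), (q₄ : ℝ)].sum =
          1 + q₁ + q₂ + q₃ + q₄ := by
        simp only [List.sum_cons, List.sum_nil]
        push_cast
        ring
      have hnn : ∀ u ∈ [((1 : ℕ) : ℝ), (q₁ : ℝ), (q₂ : ℝ), (q₃ : ℝ), (q₄ : ℝ)], 0 ≤ u := by
        intro u hu
        simp only [List.mem_cons, List.not_mem_nil, or_false] at hu
        rcases hu with rfl | rfl | rfl | rfl | rfl <;> positivity
      refine ⟨M * (1 / (κ * L ^ 5) * P), by positivity, ?_, ?_, ?_⟩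
      · -- lower bound for `l`
        have h1 : M * (1 / (κ * L ^ 5) * (T * E ^ 4 / 16)) ≤ M * (1 / (κ * L ^ 5) * P) := by
          apply mul_le_mul_of_nonneg_left _ hM0.le
          exact mul_le_mul_of_nonneg_left hPlow (by positivity)
        have h2 : M * (1 / (κ * L ^ 5) * (T * E ^ 4 / 16)) = E ^ 4 / (32 * κ ^ 6) := by
          have : M * (1 / (κ * L ^ 5) * (T * E ^ 4 / 16)) = (M * T) * E ^ 4 / (16 * κ * L ^ 5) := by
            field_simp
          rw [this, hMT]
          field_simp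
          ring
        rw [h2] at h1
        have h3 : z ^ 5 / κ ≤ N * E := by
          have e1 : L / κ * E ≤ N * E := mul_le_mul_of_nonneg_right hN1 hEpos.le
          have e2 : L / κ * E = z ^ 5 / κ := by
            rw [← hz6]
            calc z ^ 6 / κ * E = z ^ 5 / κ * (z * E) := by ring
              _ = z ^ 5 / κ := by rw [hzE, mul_one]
          linarith
        have h4 : E ^ 4 / (32 * κ ^ 6) * (z ^ 5 / κ) ≤
            M * (1 / (κ * L ^ 5) * P) * (N * E) :=
          mul_le_mul h1 h3 (by positivity) (by positivity)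
        have h5 : E ^ 4 / (32 * κ ^ 6) * (z ^ 5 / κ) = (z * E) ^ 4 * (z / (32 * κ ^ 7)) := by
          field_simp
        rw [h5, hzE, one_pow, one_mul] at h4
        have h6 : 1 ≤ z / (32 * κ ^ 7) := by
          rw [le_div_iff₀ (by positivity), one_mul]
          exact m1
        linarith
      · intro i hi
        have hi' : (i : ℝ) + q₁ + q₂ + q₃ + q₄ + 1 ≤ N := by
          have : i + q₁ + q₂ + q₃ + q₄ + 1 ≤ N := hi
          exact_mod_cast this
        have hi0 : (0 : ℝ) ≤ i := Nat.cast_nonneg i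
        rw [df_five]
        constructor
        · have h1 := df_lower G (A := a) (B := a + N) (M := 1 / (κ * L ^ 5))
            [((1 : ℕ) : ℝ), (q₁ : ℝ), (q₂ : ℝ), (q₃ : ℝ), (q₄ : ℝ)] hnn
            (fun j hj x h1 h2 => hder j (by simp at hj; omega) x h1 h2)
            (fun y h1 h2 => (hG y h1 h2).2.2.2.1) (a + i) (by linarith) (by rw [hsum]; linarith)
          rw [hprod] at h1
          exact mul_le_mul_of_nonneg_left h1 hM0.le
        · have h1 := df_upper G (A := a) (B := a + N) (M := κ / L ^ 5)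
            [((1 : ℕ) : ℝ), (q₁ : ℝ), (q₂ : ℝ), (q₃ : ℝ), (q₄ : ℝ)] hnn 0
            (fun j hj x h1 h2 => hder j (by simp at hj; omega) x h1 h2)
            (fun y h1 h2 => (hG y h1 h2).2.2.2.2.1) (a + i) (by linarith) (by rw [hsum]; linarith)
          rw [hprod] at h1
          have h2 := mul_le_mul_of_nonneg_left h1 hM0.le
          have h3 : M * (κ / L ^ 5 * P) ≤ M * (κ / L ^ 5 * T) := by
            apply mul_le_mul_of_nonneg_left _ hM0.le
            exact mul_le_mul_of_nonneg_left hPup (by positivity)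
          have h4 : M * (κ / L ^ 5 * T) = 1 / (2 * κ ^ 4) := by
            have : M * (κ / L ^ 5 * T) = (M * T) * (κ / L ^ 5) := by ring
            rw [this, hMT]
            field_simp
          have h5 : 1 / (2 * κ ^ 4) ≤ 1 / 2 := by
            apply one_div_le_one_div_of_le (by norm_num)
            have : (1 : ℝ) ≤ κ ^ 4 := one_le_pow₀ hκ
            linarith
          linarith
      · intro i hi
        have hi' : (i : ℝ) + 1 + q₁ + q₂ + q₃ + q₄ + 1 ≤ N := by
          have : i + 1 + q₁ + q₂ + q₃ + q₄ + 1 ≤ N := hi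
          exact_mod_cast this
        have hi0 : (0 : ℝ) ≤ i := Nat.cast_nonneg i
        rw [df_five, df_five]
        apply mul_le_mul_of_nonneg_left _ hM0.le
        have h1 := df_upper G (A := a) (B := a + N) (M := 0)
            [(1 : ℝ), ((1 : ℕ) : ℝ), (q₁ : ℝ), (q₂ : ℝ), (q₃ : ℝ), (q₄ : ℝ)]
            (by
              intro u hu
              rcases List.mem_cons.mp hu with rfl | hu
              · norm_num
              · exact hnn u hu) 0
            (fun j hj x h1 h2 => hder j (by simp at hj; omega) x h1 h2)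
            (fun y h1 h2 => (hG y h1 h2).2.2.2.2.2) (a + i) (by linarith)
            (by rw [List.sum_cons, hsum]; linarith)
        rw [zero_mul] at h1
        have e : DrL [(1 : ℝ), ((1 : ℕ) : ℝ), (q₁ : ℝ), (q₂ : ℝ), (q₃ : ℝ), (q₄ : ℝ)] (G 0) (a + i) =
            DrL [((1 : ℕ) : ℝ), (q₁ : ℝ), (q₂ : ℝ), (q₃ : ℝ), (q₄ : ℝ)] (G 0) (a + i + 1) -
            DrL [((1 : ℕ) : ℝ), (q₁ : ℝ), (q₂ : ℝ), (q₃ : ℝ), (q₄ : ℝ)] (G 0) (a + i) := rfl
        rw [e] at h1
        have e2 : a + ((i + 1 : ℕ) : ℝ) = a + i + 1 := by push_cast; ring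
        rw [e2]
        linarith)
    refine hv.trans ?_
    rw [hE16]
    calc 6 * (N : ℝ) * L ^ (-(1 / 96) : ℝ) ≤ 6 * (κ * L) * L ^ (-(1 / 96) : ℝ) := by
          apply mul_le_mul_of_nonneg_right _ hLneg.le
          linarith
      _ = 6 * κ * L * L ^ (-(1 / 96) : ℝ) := by ring
      _ ≤ max K0 (6 * κ) * L * L ^ (-(1 / 96) : ℝ) := by
          apply mul_le_mul_of_nonneg_right _ hLneg.le
          exact mul_le_mul_of_nonneg_right hK6 hL0.le
      _ ≤ max K0 (6 * κ) * L * (1 / M + L ^ (-(1 / 96) : ℝ)) := by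
          apply mul_le_mul_of_nonneg_left _ (by positivity)
          have : 0 < 1 / M := by positivity
          linarith

end Pool.Agent.LogPar
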