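import Pool.Agent.LogPar.Defs
import Pool.Agent.MR.BTau

set_option autoImplicit false

/-! # Moments of the divisor function -/

namespace Pool.Agent.LogPar

/-- `∑_{n ≤ x} τ(n)^k / n ≪ (log x)^A` -/
theorem tau_sum (k : ℕ) : ∃ K : ℝ, 1 ≤ K ∧ ∃ A : ℕ, ∀ x : ℝ, 3 ≤ x →
    ∑ n ∈ Finset.Icc 1 ⌊x⌋₊, (n.divisors.card : ℝ) ^ k / n ≤ K * Real.log x ^ A := by
  obtain ⟨A, K, h⟩ := Pool.Agent.MR.sum_tau_pow k
  refine ⟨max K 1, le_max_right _ _, A, fun x hx => ?_⟩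
  have hf : 3 ≤ ⌊x⌋₊ := Nat.le_floor (by exact_mod_cast hx)
  refine (h _ (by omega)).trans ?_
  have hpos : (0 : ℝ) < (⌊x⌋₊ : ℝ) := by
    have : (3 : ℝ) ≤ (⌊x⌋₊ : ℝ) := by exact_mod_cast hf
    linarith
  have h1 : Real.log ⌊x⌋₊ ≤ Real.log x := Real.log_le_log hpos (Nat.floor_le (by linarith))
  have h0 : 0 ≤ Real.log ⌊x⌋₊ := Real.log_natCast_nonneg _
  calc K * Real.log ⌊x⌋₊ ^ A ≤ max K 1 * Real.log ⌊x⌋₊ ^ A :=
        mul_le_mul_of_nonneg_right (le_max_left _ _) (pow_nonneg h0 _)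
    _ ≤ max K 1 * Real.log x ^ A :=
        mul_le_mul_of_nonneg_left (pow_le_pow_left₀ h0 h1 _)
          (le_trans zero_le_one (le_max_right _ _))

theorem tau_mul (a b : ℕ) : ((a * b).divisors.card : ℝ) ≤ a.divisors.card * b.divisors.card := by
  exact_mod_cast Pool.Agent.MR.tau_mul_le a b

end Pool.Agent.LogPar
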