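import Pool.Agent.LogPar.RepR
import Pool.Agent.LogPar.TauS

set_option autoImplicit false

/-! # Real case: number of unimodular pairs over a set of values -/

namespace Pool.Agent.LogPar

open Pool.Agent.FareyParity
open Pool.Agent.RealQuad (Disc Pos ang mg xc yc rt)

variable {B C : ℤ}

/-- number of partners of a given vector -/
theorem edge_fiberR (hD : Disc B C) {M : ℝ} {z : ℤ × ℤ} (hz : IsCoprime z.1 z.2) {R : ℝ}
    (hz0 : Pos B C z) (hza : |ang B C z| ≤ M)
    (hzR : mg B C z ≤ R) {e : ℤ} (W : Finset (ℤ × ℤ))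
    (hW : ∀ w ∈ W, dt z w = e ∧ Pos B C w ∧ |ang B C w| ≤ M ∧ mg B C w ≤ R) :
    (W.card : ℝ) ≤ (2 * Real.exp (2 * M) + 1) * R / mg B C z := by
  classical
  have hn0 : 0 < mg B C z := Pool.Agent.RealQuad.mg_pos hz0
  have hRpos : 0 < R := by linarith
  rcases W.eq_empty_or_nonempty with h0 | ⟨w0, hw0⟩
  · rw [h0, Finset.card_empty, Nat.cast_zero]
    positivity
  have hex : ∀ w : ℤ × ℤ, ∃ k : ℤ, w ∈ W → w = w0 + k • z := by
    intro w
    by_cases hw : w ∈ W
    · have h1 : dt z (w - w0) = 0 := by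
        have h2 := (hW w hw).1
        have h3 := (hW w0 hw0).1
        simp only [dt, Prod.fst_sub, Prod.snd_sub] at h2 h3 ⊢
        linarith
      obtain ⟨k, hk⟩ := eq_smul_of_dt_eq_zero hz h1
      exact ⟨k, fun _ => by rw [← hk]; abel⟩
    · exact ⟨0, fun h => absurd h hw⟩
  choose k hk using hex
  obtain ⟨N, hN⟩ : ∃ N : ℕ, N = ⌊Real.exp (2 * M) * R / mg B C z⌋₊ := ⟨_, rfl⟩
  have hR0 : 0 ≤ Real.exp (2 * M) * R / mg B C z := by positivity
  have hxc : ∀ w ∈ W, 0 < xc B C w ∧ xc B C w ≤ R * Real.exp M := by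
    intro w hw
    obtain ⟨-, hw1, hw2, hw3⟩ := hW w hw
    refine ⟨hw1.1, ?_⟩
    rw [Pool.Agent.RealQuad.xc_eq hw1]
    exact mul_le_mul hw3 (Real.exp_le_exp.mpr (abs_le.mp hw2).2) (Real.exp_pos _).le hRpos.le
  have hxz : mg B C z * Real.exp (-M) ≤ xc B C z := by
    rw [Pool.Agent.RealQuad.xc_eq hz0]
    exact mul_le_mul_of_nonneg_left (Real.exp_le_exp.mpr (abs_le.mp hza).1) hn0.le
  have hcard : W.card ≤ (Finset.Icc (-(N:ℤ)) N).card := by
    apply Finset.card_le_card_of_injOn k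
    · intro w hw
      have h1 := hk w hw
      have h2 : xc B C w = xc B C w0 + (k w : ℝ) * xc B C z := by
        conv_lhs => rw [h1]
        rw [Pool.Agent.RealQuad.xc_add, Pool.Agent.RealQuad.xc_smul]
      have h3 : |(k w : ℝ)| * xc B C z ≤ R * Real.exp M := by
        have h4 : |(k w : ℝ)| * xc B C z = |(k w : ℝ) * xc B C z| := by
          rw [abs_mul, abs_of_pos hz0.1]
        rw [h4]
        have h5 : (k w : ℝ) * xc B C z = xc B C w - xc B C w0 := by rw [h2]; ring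
        rw [h5, abs_le]
        have h6 := hxc w hw
        have h7 := hxc w0 hw0
        constructor <;> linarith [h6.1, h6.2, h7.1, h7.2]
      have h6 : |(k w : ℝ)| ≤ Real.exp (2 * M) * R / mg B C z := by
        rw [le_div_iff₀ hn0]
        have h8 : |(k w : ℝ)| * (mg B C z * Real.exp (-M)) ≤ R * Real.exp M :=
          (mul_le_mul_of_nonneg_left hxz (abs_nonneg _)).trans h3
        have h9 : |(k w : ℝ)| * mg B C z =
            |(k w : ℝ)| * (mg B C z * Real.exp (-M)) * Real.exp M := by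
          have : Real.exp (-M) * Real.exp M = 1 := by
            rw [← Real.exp_add, neg_add_cancel, Real.exp_zero]
          linear_combination (-|(k w : ℝ)| * mg B C z) * this
        rw [h9]
        calc _ ≤ R * Real.exp M * Real.exp M :=
              mul_le_mul_of_nonneg_right h8 (Real.exp_pos _).le
          _ = Real.exp (2 * M) * R := by
              rw [two_mul, Real.exp_add]; ring
      have h7 : (k w).natAbs ≤ N := by
        rw [hN]
        apply Nat.le_floor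
        rw [Nat.cast_natAbs, Int.cast_abs]
        exact h6
      have h8 : |k w| ≤ (N : ℤ) := by
        rw [Int.abs_eq_natAbs]; exact_mod_cast h7
      rw [Finset.coe_Icc, Set.mem_Icc]
      exact abs_le.mp h8
    · intro w hw w' hw' h
      rw [hk w hw, hk w' hw', h]
  have h9 : ((Finset.Icc (-(N:ℤ)) N).card : ℝ) = 2 * N + 1 := by
    rw [Int.card_Icc]
    have : ((N:ℤ) + 1 - -(N:ℤ)).toNat = 2 * N + 1 := by omega
    rw [this]; push_cast; ring
  have h10 : (N : ℝ) ≤ Real.exp (2 * M) * R / mg B C z := by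
    rw [hN]; exact Nat.floor_le hR0
  have h11 : 1 ≤ R / mg B C z := by rwa [le_div_iff₀ hn0, one_mul]
  calc (W.card : ℝ) ≤ ((Finset.Icc (-(N:ℤ)) N).card : ℝ) := by exact_mod_cast hcard
    _ = 2 * N + 1 := h9
    _ ≤ 2 * (Real.exp (2 * M) * R / mg B C z) + R / mg B C z := by linarith
    _ = (2 * Real.exp (2 * M) + 1) * R / mg B C z := by ring

/-- the value of the norm as a natural number -/
theorem edge_nfR (hD : Disc B C) {z : ℤ × ℤ} (hz : Pos B C z) :
    (((nf B C z).natAbs : ℕ) : ℤ) = nf B C z := by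
  have := hz.nf_pos hD
  omega

theorem edge_nfR' (hD : Disc B C) {z : ℤ × ℤ} (hz : Pos B C z) :
    (((nf B C z).natAbs : ℕ) : ℝ) = mg B C z ^ 2 := by
  rw [Pool.Agent.RealQuad.mg_sq hz, ← Pool.Agent.RealQuad.nf_eq hD, ← edge_nfR hD hz,
    Int.cast_natCast, Int.natAbs_natCast]

/-- the weighted sum over the vectors -/
theorem edge_sumR (hD : Disc B C) (M : ℝ) : ∃ K : ℝ, 1 ≤ K ∧ ∃ A : ℕ, ∀ R : ℝ, 3 ≤ R →
    ∀ Z : Finset (ℤ × ℤ), (∀ z ∈ Z, Pos B C z ∧ |ang B C z| ≤ M ∧ mg B C z ≤ R) →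
    ∑ z ∈ Z, ((nf B C z).natAbs.divisors.card : ℝ) ^ 2 / mg B C z ≤ K * R * Real.log R ^ A := by
  classical
  obtain ⟨K1, hK1, h1⟩ := repR hD M
  obtain ⟨K2, hK2, A, h2⟩ := tau_sum 4
  refine ⟨K1 * (K2 * 2 ^ A), ?_, A, ?_⟩
  · have : (1:ℝ) ≤ 2 ^ A := one_le_pow₀ (by norm_num)
    have h3 : (1:ℝ) ≤ K2 * 2 ^ A := by nlinarith
    nlinarith
  intro R hR Z hZ
  have hR0 : 0 < R := by linarith
  have hterm : ∀ z ∈ Z, ((nf B C z).natAbs.divisors.card : ℝ) ^ 2 / mg B C z ≤
      R * (((nf B C z).natAbs.divisors.card : ℝ) ^ 2 / ((nf B C z).natAbs : ℝ)) := by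
    intro z hz
    obtain ⟨hz0, -, hzR⟩ := hZ z hz
    have hn0 : 0 < mg B C z := Pool.Agent.RealQuad.mg_pos hz0
    rw [edge_nfR' hD hz0, mul_div_assoc', div_le_div_iff₀ hn0 (by positivity)]
    have h4 : mg B C z ^ 2 ≤ R * mg B C z := by nlinarith
    have h5 : (0:ℝ) ≤ ((nf B C z).natAbs.divisors.card : ℝ) ^ 2 := by positivity
    nlinarith [mul_le_mul_of_nonneg_left h4 h5]
  have himg : Z.image (fun z => (nf B C z).natAbs) ⊆ Finset.Icc 1 ⌊R ^ 2⌋₊ := by
    intro n hn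
    rw [Finset.mem_image] at hn
    obtain ⟨z, hz, rfl⟩ := hn
    obtain ⟨hz0, -, hzR⟩ := hZ z hz
    have h4 := hz0.nf_pos hD
    rw [Finset.mem_Icc]
    constructor
    · omega
    · apply Nat.le_floor
      rw [edge_nfR' hD hz0]
      exact pow_le_pow_left₀ (Pool.Agent.RealQuad.mg_pos hz0).le hzR 2
  have hcard : ∀ n ∈ Z.image (fun z => (nf B C z).natAbs),
      ((Z.filter (fun z => (nf B C z).natAbs = n)).card : ℝ) ≤ K1 * (n.divisors.card : ℝ) ^ 2 := by
    intro n hn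
    have hn1 := (Finset.mem_Icc.mp (himg hn)).1
    apply h1 n hn1
    intro v hv
    rw [Finset.mem_filter] at hv
    obtain ⟨hz0, hza, -⟩ := hZ v hv.1
    refine ⟨hz0, hza, ?_⟩
    rw [← hv.2]
    exact (edge_nfR hD hz0).symm
  calc ∑ z ∈ Z, ((nf B C z).natAbs.divisors.card : ℝ) ^ 2 / mg B C z
      ≤ ∑ z ∈ Z, R * (((nf B C z).natAbs.divisors.card : ℝ) ^ 2 / ((nf B C z).natAbs : ℝ)) :=
        Finset.sum_le_sum hterm
    _ = R * ∑ z ∈ Z, (((nf B C z).natAbs.divisors.card : ℝ) ^ 2 / ((nf B C z).natAbs : ℝ)) := by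
        rw [Finset.mul_sum]
    _ = R * ∑ n ∈ Z.image (fun z => (nf B C z).natAbs),
          ((Z.filter (fun z => (nf B C z).natAbs = n)).card : ℝ) *
            ((n.divisors.card : ℝ) ^ 2 / (n : ℝ)) := by
        congr 1
        rw [Finset.sum_comp (fun n : ℕ => ((n.divisors.card : ℝ) ^ 2 / (n : ℝ)))
          (fun z => (nf B C z).natAbs)]
        apply Finset.sum_congr rfl
        intro n _
        rw [nsmul_eq_mul]
    _ ≤ R * ∑ n ∈ Z.image (fun z => (nf B C z).natAbs), K1 * ((n.divisors.card : ℝ) ^ 4 / (n : ℝ)) := by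
        apply mul_le_mul_of_nonneg_left _ hR0.le
        apply Finset.sum_le_sum
        intro n hn
        calc _ ≤ (K1 * (n.divisors.card : ℝ) ^ 2) * ((n.divisors.card : ℝ) ^ 2 / (n : ℝ)) :=
              mul_le_mul_of_nonneg_right (hcard n hn) (by positivity)
          _ = _ := by ring
    _ ≤ R * ∑ n ∈ Finset.Icc 1 ⌊R ^ 2⌋₊, K1 * ((n.divisors.card : ℝ) ^ 4 / (n : ℝ)) := by
        apply mul_le_mul_of_nonneg_left _ hR0.le
        apply Finset.sum_le_sum_of_subset_of_nonneg himg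
        intro n _ _
        positivity
    _ = R * (K1 * ∑ n ∈ Finset.Icc 1 ⌊R ^ 2⌋₊, ((n.divisors.card : ℝ) ^ 4 / (n : ℝ))) := by
        rw [← Finset.mul_sum]
    _ ≤ R * (K1 * (K2 * Real.log (R ^ 2) ^ A)) := by
        apply mul_le_mul_of_nonneg_left _ hR0.le
        apply mul_le_mul_of_nonneg_left _ (by linarith)
        exact h2 (R ^ 2) (by nlinarith)
    _ = K1 * (K2 * 2 ^ A) * R * Real.log R ^ A := by
        rw [Real.log_pow, mul_pow]
        push_cast
        ring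

theorem edgeR {B C : ℤ} (hD : Disc B C) (M : ℝ) : ∃ K : ℝ, 1 ≤ K ∧ ∃ A : ℕ, ∀ R : ℝ, K ≤ R →
    ∀ Bd : Finset ℤ, ∀ P : Finset ((ℤ × ℤ) × (ℤ × ℤ)),
    (∀ p ∈ P, Pos B C p.1 ∧ Pos B C p.2 ∧ |ang B C p.1| ≤ M ∧ |ang B C p.2| ≤ M ∧
      mg B C p.1 ≤ R ∧ mg B C p.2 ≤ R ∧ dt p.1 p.2 = 1 ∧ ip B C p.1 p.2 ∈ Bd) →
    (P.card : ℝ) ≤ K * √(Bd.card : ℝ) * R * Real.log R ^ A := by
  classical
  obtain ⟨K0, hK0, A, h0⟩ := edge_sumR hD M
  obtain ⟨m, hm⟩ : ∃ m : ℝ, m = (Pool.Agent.RealQuad.mult B C M : ℝ) := ⟨_, rfl⟩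
  have hm1 : 1 ≤ m := by
    rw [hm]
    have : 1 ≤ Pool.Agent.RealQuad.mult B C M := by
      unfold Pool.Agent.RealQuad.mult
      exact Nat.succ_le_of_lt (Nat.mul_pos (by omega) (by omega))
    exact_mod_cast this
  obtain ⟨c, hc⟩ : ∃ c : ℝ, c = 2 * Real.exp (2 * M) + 1 := ⟨_, rfl⟩
  have hc1 : 1 ≤ c := by rw [hc]; have := Real.exp_pos (2 * M); linarith
  have hmc : 1 ≤ m * c := by nlinarith
  have hmcK : 1 ≤ m * c * K0 := by nlinarith
  refine ⟨3 + m * c * K0, by linarith, A, ?_⟩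
  intro R hR Bd P hP
  have hR3 : 3 ≤ R := by linarith
  have hR0 : 0 < R := by linarith
  have hlog1 : 1 ≤ Real.log R := by
    rw [Real.le_log_iff_exp_le hR0]
    have := Real.exp_one_lt_d9
    linarith
  -- coprimality
  have hcop1 : ∀ p ∈ P, IsCoprime p.1.1 p.1.2 := by
    intro p hp
    have h := (hP p hp).2.2.2.2.2.2.1
    simp only [dt] at h
    exact ⟨p.2.2, -p.2.1, by linarith⟩
  have hcop2 : ∀ p ∈ P, IsCoprime p.2.1 p.2.2 := by
    intro p hp
    have h := (hP p hp).2.2.2.2.2.2.1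
    simp only [dt] at h
    exact ⟨-p.1.2, p.1.1, by linarith⟩
  set τ : ℤ × ℤ → ℝ := fun z => ((nf B C z).natAbs.divisors.card : ℝ) with hτ
  -- the fibres over the values
  have hfib : ∀ p ∈ P, ((P.filter (fun q => ip B C q.1 q.2 = ip B C p.1 p.2)).card : ℝ) ≤
      m * (τ p.1 * τ p.2) := by
    intro p hp
    obtain ⟨n, hn⟩ : ∃ n, n = ip B C p.1 p.2 := ⟨_, rfl⟩
    rw [← hn]
    have hinj : Set.InjOn Prod.fst ((P.filter (fun q => ip B C q.1 q.2 = n) :
        Finset ((ℤ × ℤ) × (ℤ × ℤ))) : Set ((ℤ × ℤ) × (ℤ × ℤ))) := by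
      intro q hq q' hq' heq
      rw [Finset.mem_coe, Finset.mem_filter] at hq hq'
      have h1 := mulv_ip B C q.1 q.2
      have h2 := mulv_ip B C q'.1 q'.2
      rw [hq.2, (hP q hq.1).2.2.2.2.2.2.1] at h1
      rw [hq'.2, (hP q' hq'.1).2.2.2.2.2.2.1, ← heq, h1] at h2
      have h3 := (hP q hq.1).1.nf_pos hD
      have e1 := congrArg Prod.fst h2
      have e2 := congrArg Prod.snd h2
      simp only [Prod.smul_fst, Prod.smul_snd, smul_eq_mul] at e1 e2
      exact Prod.ext heq (Prod.ext (mul_left_cancel₀ h3.ne' e1) (mul_left_cancel₀ h3.ne' e2))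
    rw [← Finset.card_image_of_injOn hinj]
    have h4 := Pool.Agent.RealQuad.mult_card hD M n
      ((P.filter (fun q => ip B C q.1 q.2 = n)).image Prod.fst) (by
      intro z hz
      rw [Finset.mem_image] at hz
      obtain ⟨q, hq, rfl⟩ := hz
      rw [Finset.mem_filter] at hq
      exact ⟨(hP q hq.1).1, (hP q hq.1).2.2.1, q.2, (hP q hq.1).2.2.2.2.2.2.1, hq.2⟩)
    have h5 : (n ^ 2 + B * n + C).natAbs = (nf B C p.1).natAbs * (nf B C p.2).natAbs := by
      rw [← Int.natAbs_mul, nf_mul_nf, (hP p hp).2.2.2.2.2.2.1, ← hn]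
      congr 1
      simp only [nf]; ring
    rw [h5] at h4
    have h6 := tau_mul (nf B C p.1).natAbs (nf B C p.2).natAbs
    have h7 : (((P.filter (fun q => ip B C q.1 q.2 = n)).image Prod.fst).card : ℝ) ≤
        m * (((nf B C p.1).natAbs * (nf B C p.2).natAbs).divisors.card : ℝ) := by
      rw [hm]
      exact_mod_cast h4
    exact h7.trans (mul_le_mul_of_nonneg_left h6 (by linarith))
  -- sums over the first members
  have hsum1 : ∑ p ∈ P, τ p.1 ^ 2 ≤ c * R * (K0 * R * Real.log R ^ A) := by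
    rw [Finset.sum_comp (fun z => τ z ^ 2) Prod.fst]
    have h1 := h0 R hR3 (P.image Prod.fst) (by
      intro z hz
      rw [Finset.mem_image] at hz
      obtain ⟨q, hq, rfl⟩ := hz
      exact ⟨(hP q hq).1, (hP q hq).2.2.1, (hP q hq).2.2.2.2.1⟩)
    calc _ ≤ ∑ z ∈ P.image Prod.fst, c * R * (τ z ^ 2 / mg B C z) := by
          apply Finset.sum_le_sum
          intro z hz
          rw [Finset.mem_image] at hz
          obtain ⟨q, hq, rfl⟩ := hz
          have hinj : Set.InjOn Prod.snd ((P.filter (fun p => p.1 = q.1) :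
              Finset ((ℤ × ℤ) × (ℤ × ℤ))) : Set ((ℤ × ℤ) × (ℤ × ℤ))) := by
            intro p hp p' hp' heq
            rw [Finset.mem_coe, Finset.mem_filter] at hp hp'
            exact Prod.ext (hp.2.trans hp'.2.symm) heq
          have h2 := edge_fiberR hD (hcop1 q hq) (hP q hq).1 (hP q hq).2.2.1
            (hP q hq).2.2.2.2.1 (e := 1)
            ((P.filter (fun p => p.1 = q.1)).image Prod.snd) (by
              intro w hw
              rw [Finset.mem_image] at hw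
              obtain ⟨p, hp, rfl⟩ := hw
              rw [Finset.mem_filter] at hp
              rw [← hp.2]
              exact ⟨(hP p hp.1).2.2.2.2.2.2.1, (hP p hp.1).2.1, (hP p hp.1).2.2.2.1,
                (hP p hp.1).2.2.2.2.2.1⟩)
          rw [Finset.card_image_of_injOn hinj, ← hc] at h2
          rw [nsmul_eq_mul]
          calc _ ≤ (c * R / mg B C q.1) * τ q.1 ^ 2 :=
                mul_le_mul_of_nonneg_right h2 (by positivity)
            _ = _ := by ring
      _ = c * R * ∑ z ∈ P.image Prod.fst, (τ z ^ 2 / mg B C z) := by rw [Finset.mul_sum]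
      _ ≤ _ := mul_le_mul_of_nonneg_left h1 (by positivity)
  have hsum2 : ∑ p ∈ P, τ p.2 ^ 2 ≤ c * R * (K0 * R * Real.log R ^ A) := by
    rw [Finset.sum_comp (fun z => τ z ^ 2) Prod.snd]
    have h1 := h0 R hR3 (P.image Prod.snd) (by
      intro z hz
      rw [Finset.mem_image] at hz
      obtain ⟨q, hq, rfl⟩ := hz
      exact ⟨(hP q hq).2.1, (hP q hq).2.2.2.1, (hP q hq).2.2.2.2.2.1⟩)
    calc _ ≤ ∑ z ∈ P.image Prod.snd, c * R * (τ z ^ 2 / mg B C z) := by
          apply Finset.sum_le_sum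
          intro z hz
          rw [Finset.mem_image] at hz
          obtain ⟨q, hq, rfl⟩ := hz
          have hinj : Set.InjOn Prod.fst ((P.filter (fun p => p.2 = q.2) :
              Finset ((ℤ × ℤ) × (ℤ × ℤ))) : Set ((ℤ × ℤ) × (ℤ × ℤ))) := by
            intro p hp p' hp' heq
            rw [Finset.mem_coe, Finset.mem_filter] at hp hp'
            exact Prod.ext heq (hp.2.trans hp'.2.symm)
          have h2 := edge_fiberR hD (hcop2 q hq) (hP q hq).2.1 (hP q hq).2.2.2.1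
            (hP q hq).2.2.2.2.2.1 (e := -1)
            ((P.filter (fun p => p.2 = q.2)).image Prod.fst) (by
              intro w hw
              rw [Finset.mem_image] at hw
              obtain ⟨p, hp, rfl⟩ := hw
              rw [Finset.mem_filter] at hp
              rw [← hp.2, dt_swap, (hP p hp.1).2.2.2.2.2.2.1]
              exact ⟨rfl, (hP p hp.1).1, (hP p hp.1).2.2.1, (hP p hp.1).2.2.2.2.1⟩)
          rw [Finset.card_image_of_injOn hinj, ← hc] at h2
          rw [nsmul_eq_mul]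
          calc _ ≤ (c * R / mg B C q.2) * τ q.2 ^ 2 :=
                mul_le_mul_of_nonneg_right h2 (by positivity)
            _ = _ := by ring
      _ = c * R * ∑ z ∈ P.image Prod.snd, (τ z ^ 2 / mg B C z) := by rw [Finset.mul_sum]
      _ ≤ _ := mul_le_mul_of_nonneg_left h1 (by positivity)
  -- the sum of the squares of the fibres
  have hsq : ∑ n ∈ Bd, ((P.filter (fun q => ip B C q.1 q.2 = n)).card : ℝ) ^ 2 ≤
      m * c * K0 * R ^ 2 * Real.log R ^ A := by
    have h1 : ∑ n ∈ Bd, ((P.filter (fun q => ip B C q.1 q.2 = n)).card : ℝ) ^ 2 =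
        ∑ p ∈ P, ((P.filter (fun q => ip B C q.1 q.2 = ip B C p.1 p.2)).card : ℝ) := by
      rw [← Finset.sum_fiberwise_of_maps_to (s := P) (t := Bd) (g := fun q => ip B C q.1 q.2)
        (fun p hp => (hP p hp).2.2.2.2.2.2.2)]
      apply Finset.sum_congr rfl
      intro n _
      rw [sq, Finset.sum_congr rfl (g := fun _ =>
        ((P.filter (fun q => ip B C q.1 q.2 = n)).card : ℝ))]
      · rw [Finset.sum_const, nsmul_eq_mul]
      · intro p hp
        rw [Finset.mem_filter] at hp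
        rw [hp.2]
    rw [h1]
    calc _ ≤ ∑ p ∈ P, (m / 2) * (τ p.1 ^ 2 + τ p.2 ^ 2) := by
          apply Finset.sum_le_sum
          intro p hp
          have h2 := hfib p hp
          have h3 := mul_nonneg (by linarith : (0:ℝ) ≤ m / 2) (sq_nonneg (τ p.1 - τ p.2))
          linarith [h3, h2]
      _ = (m / 2) * (∑ p ∈ P, τ p.1 ^ 2 + ∑ p ∈ P, τ p.2 ^ 2) := by
          rw [← Finset.mul_sum, Finset.sum_add_distrib]
      _ ≤ (m / 2) * (c * R * (K0 * R * Real.log R ^ A) + c * R * (K0 * R * Real.log R ^ A)) := by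
          apply mul_le_mul_of_nonneg_left _ (by linarith)
          linarith
      _ = _ := by ring
  have hP1 : (P.card : ℝ) = ∑ n ∈ Bd, ((P.filter (fun q => ip B C q.1 q.2 = n)).card : ℝ) := by
    rw [Finset.card_eq_sum_card_fiberwise (s := P) (t := Bd) (f := fun q => ip B C q.1 q.2)
        (fun p hp => (hP p hp).2.2.2.2.2.2.2)]
    push_cast
    rfl
  have hCS : (P.card : ℝ) ^ 2 ≤ (Bd.card : ℝ) * (m * c * K0 * R ^ 2 * Real.log R ^ A) := by
    rw [hP1]
    have h1 := sq_sum_le_card_mul_sum_sq (s := Bd)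
      (f := fun n => ((P.filter (fun q => ip B C q.1 q.2 = n)).card : ℝ))
    exact h1.trans (mul_le_mul_of_nonneg_left hsq (by positivity))
  have hlogA : Real.log R ^ A ≤ (Real.log R ^ A) ^ 2 := by
    have : 1 ≤ Real.log R ^ A := one_le_pow₀ hlog1
    nlinarith
  have hfin : (P.card : ℝ) ^ 2 ≤ ((3 + m * c * K0) * √(Bd.card : ℝ) * R * Real.log R ^ A) ^ 2 := by
    have h1 : ((3 + m * c * K0) * √(Bd.card : ℝ) * R * Real.log R ^ A) ^ 2 =
        (3 + m * c * K0) ^ 2 * ((Bd.card : ℝ) * R ^ 2 * (Real.log R ^ A) ^ 2) := by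
      rw [mul_pow, mul_pow, mul_pow, Real.sq_sqrt (Nat.cast_nonneg _)]; ring
    rw [h1]
    have h2 : m * c * K0 ≤ (3 + m * c * K0) ^ 2 := by nlinarith
    calc (P.card : ℝ) ^ 2 ≤ (Bd.card : ℝ) * (m * c * K0 * R ^ 2 * Real.log R ^ A) := hCS
      _ ≤ (Bd.card : ℝ) * (m * c * K0 * R ^ 2 * (Real.log R ^ A) ^ 2) := by gcongr
      _ = (m * c * K0) * ((Bd.card : ℝ) * R ^ 2 * (Real.log R ^ A) ^ 2) := by ring
      _ ≤ _ := mul_le_mul_of_nonneg_right h2 (by positivity)
  have hnn : 0 ≤ (3 + m * c * K0) * √(Bd.card : ℝ) * R * Real.log R ^ A := by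
    have : 0 ≤ Real.log R := by linarith
    positivity
  exact (pow_le_pow_iff_left₀ (Nat.cast_nonneg _) hnn two_ne_zero).1 hfin

end Pool.Agent.LogPar
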