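import Pool.Agent.LogPar.ThD
import Pool.Agent.LogPar.Differ
import Pool.Agent.FareyParity.Angle

set_option autoImplicit false

/-! # Definite case: exponential sums over the box -/

namespace Pool.Agent.LogPar

open Pool.Agent.FareyParity Complex Pool.Agent.H33

theorem ex_aF_val (β t : ℝ) (s : ℕ) :
    aF β (s + 1) t = s.factorial * (((t : ℂ) + β * I) ^ (s + 1)).im
      / (t ^ 2 + β ^ 2) ^ (s + 1) := by
  simp only [aF]
  have h5 : ((s.factorial : ℂ) * (((t : ℂ) + β * I) ^ (s + 1))⁻¹).im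
      = s.factorial * ((((t : ℂ) + β * I) ^ (s + 1))⁻¹).im := by
    have : (s.factorial : ℂ) = ((s.factorial : ℝ) : ℂ) := by push_cast; rfl
    rw [this, im_ofReal_mul]
  rw [h5, inv_im, map_pow, normSq_apply]
  have h6 : ((t : ℂ) + β * I).re * ((t : ℂ) + β * I).re
      + ((t : ℂ) + β * I).im * ((t : ℂ) + β * I).im = t ^ 2 + β ^ 2 := by
    simp; ring
  rw [h6]; ring

theorem ex_aF_bounds {β t : ℝ} (hβ : 0 < β) (ht : 12 * β ≤ t) (s : ℕ) (hs : s + 1 ≤ 6) :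
    ((s + 1).factorial : ℝ) * β / (2 ^ (s + 2) * t ^ (s + 2)) ≤ aF β (s + 1) t ∧
      aF β (s + 1) t ≤ ((s + 1).factorial : ℝ) * β / t ^ (s + 2) := by
  have ht0 : 0 < t := by linarith
  have hβt : β ≤ t := by linarith
  obtain ⟨-, -, h3, h4⟩ := pow_bounds hβ 6 (t := t) (by push_cast; linarith) ht0 (s + 1) hs
  rw [ex_aF_val]
  have hfac : (((s + 1).factorial : ℕ) : ℝ) = (s + 1) * s.factorial := by
    rw [Nat.factorial_succ]; push_cast; ring
  constructor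
  · calc ((s + 1).factorial : ℝ) * β / (2 ^ (s + 2) * t ^ (s + 2))
        = s.factorial * (((s + 1 : ℕ) : ℝ) * β * t ^ (s + 1) / t / 2)
          / (2 * t ^ 2) ^ (s + 1) := by
          rw [hfac, mul_pow, ← pow_mul]
          push_cast
          field_simp
          ring
      _ ≤ s.factorial * (((t : ℂ) + β * I) ^ (s + 1)).im / (2 * t ^ 2) ^ (s + 1) := by
          gcongr
      _ ≤ s.factorial * (((t : ℂ) + β * I) ^ (s + 1)).im / (t ^ 2 + β ^ 2) ^ (s + 1) := by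
          have h7 : 0 ≤ (((t : ℂ) + β * I) ^ (s + 1)).im := le_trans (by positivity) h3
          have h8 : β ^ 2 ≤ t ^ 2 := by gcongr
          gcongr
          linarith
  · calc s.factorial * (((t : ℂ) + β * I) ^ (s + 1)).im / (t ^ 2 + β ^ 2) ^ (s + 1)
        ≤ s.factorial * (((s + 1 : ℕ) : ℝ) * β * t ^ (s + 1) / t) / (t ^ 2) ^ (s + 1) := by
          have h7 : 0 ≤ (((t : ℂ) + β * I) ^ (s + 1)).im := le_trans (by positivity) h3
          gcongr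
          nlinarith [sq_nonneg β]
      _ = (s + 1).factorial * β / t ^ (s + 2) := by
          rw [hfac, ← pow_mul]
          push_cast
          field_simp
          ring

/-- the phase and its derivatives -/
noncomputable def exG (β : ℝ) (j : ℕ) (t : ℝ) : ℝ := (-1) ^ (j + 1) * aF β j t / (2 * Real.pi)

theorem exG_deriv {β : ℝ} (j : ℕ) {t : ℝ} (ht : 0 < t) :
    HasDerivAt (exG β j) (exG β (j + 1) t) t := by
  have h := ((aF_hasDerivAt (β := β) j ht).const_mul ((-1 : ℝ) ^ (j + 1))).div_const (2 * Real.pi)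
  refine h.congr_deriv ?_
  unfold exG
  rw [pow_succ (-1 : ℝ) (j + 1)]
  ring

theorem ex_arg {z : ℂ} (h : 0 < z.re) : Complex.arg z = Real.arctan (z.im / z.re) := by
  have h1 : |Complex.arg z| < Real.pi / 2 := Complex.abs_arg_lt_pi_div_two_iff.mpr (Or.inl h)
  rw [abs_lt] at h1
  rw [← Complex.tan_arg z, Real.arctan_tan (by linarith [h1.1]) h1.2]

theorem ex_norm_neg (g : ℕ → ℝ) (s : Finset ℕ) :
    ‖∑ i ∈ s, ee (-(g i))‖ = ‖∑ i ∈ s, ee (g i)‖ := by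
  have h : ∑ i ∈ s, ee (-(g i)) = (starRingEnd ℂ) (∑ i ∈ s, ee (g i)) := by
    rw [map_sum]
    exact Finset.sum_congr rfl (fun i _ => ee_neg _)
  rw [h]
  exact RCLike.norm_conj _

theorem ex_sizes {b q S β t κ : ℝ} (hb : 0 < b) (hq : 100 ≤ q) (hS : 1 ≤ S) (h1 : b * S ≤ β)
    (h2 : β ≤ 2 * b * S) (h3 : q * S / 2 ≤ t) (h4 : t ≤ 3 * q * S) (h5 : 12 * β ≤ t)
    (k1 : 8 * b / q ^ 2 ≤ κ) (k2 : 36 * q ^ 2 * (2 * Real.pi) / b ≤ κ)
    (k3 : 15360 * b / q ^ 6 ≤ κ) (k4 : 64 * (3 * q) ^ 6 * (2 * Real.pi) / (120 * b) ≤ κ) :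
    1 / (κ * S) ≤ exG β 1 t ∧ exG β 1 t ≤ κ / S ∧ exG β 2 t ≤ 0 ∧
      1 / (κ * S ^ 5) ≤ exG β 5 t ∧ exG β 5 t ≤ κ / S ^ 5 ∧ exG β 6 t ≤ 0 := by
  have hpi := Real.pi_pos
  have hS0 : 0 < S := by linarith
  have hq0 : 0 < q := by linarith
  have hβ0 : 0 < β := lt_of_lt_of_le (by positivity) h1
  have ht0 : 0 < t := by linarith
  have hκ0 : 0 < κ := lt_of_lt_of_le (by positivity) k1
  obtain ⟨l1, u1⟩ := ex_aF_bounds hβ0 (t := t) h5 0 (by norm_num)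
  obtain ⟨l2, -⟩ := ex_aF_bounds hβ0 (t := t) h5 1 (by norm_num)
  obtain ⟨l5, u5⟩ := ex_aF_bounds hβ0 (t := t) h5 4 (by norm_num)
  obtain ⟨l6, -⟩ := ex_aF_bounds hβ0 (t := t) h5 5 (by norm_num)
  have f5 : ((Nat.factorial 5 : ℕ) : ℝ) = 120 := by norm_num [Nat.factorial]
  have f1 : ((Nat.factorial 1 : ℕ) : ℝ) = 1 := by norm_num [Nat.factorial]
  simp only [Nat.zero_add, Nat.reduceAdd, f1, f5, one_mul] at l1 u1 l5 u5 l2 l6
  have e1 : exG β 1 t = aF β 1 t / (2 * Real.pi) := by unfold exG; ring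
  have e2 : exG β 2 t = -(aF β 2 t / (2 * Real.pi)) := by unfold exG; ring
  have e5 : exG β 5 t = aF β 5 t / (2 * Real.pi) := by unfold exG; ring
  have e6 : exG β 6 t = -(aF β 6 t / (2 * Real.pi)) := by unfold exG; ring
  rw [e1, e2, e5, e6]
  have h2pi : (1 : ℝ) ≤ 2 * Real.pi := by linarith [Real.pi_gt_three]
  have h2pi0 : (0 : ℝ) < 2 * Real.pi := by linarith
  have p2 : 0 ≤ aF β 2 t := le_trans (by positivity) l2
  have p6 : 0 ≤ aF β 6 t := le_trans (by positivity) l6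
  have p1 : 0 ≤ aF β 1 t := le_trans (by positivity) l1
  have p5 : 0 ≤ aF β 5 t := le_trans (by positivity) l5
  refine ⟨?_, ?_, ?_, ?_, ?_, ?_⟩
  · -- lower bound of the first
    rw [div_le_div_iff₀ (by positivity) h2pi0, one_mul]
    have a1 : b * S / (2 ^ 2 * (3 * q * S) ^ 2) ≤ aF β 1 t := by
      refine le_trans ?_ l1
      gcongr
    have a2 : b * S / (2 ^ 2 * (3 * q * S) ^ 2) = b / (36 * q ^ 2 * S) := by
      field_simp; ring
    rw [a2] at a1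
    have a3 : 2 * Real.pi = b / (36 * q ^ 2 * S) * (36 * q ^ 2 * (2 * Real.pi) / b * S) := by
      field_simp
    rw [a3]
    apply mul_le_mul a1 _ (by positivity) p1
    exact mul_le_mul_of_nonneg_right k2 hS0.le
  · have a1 : aF β 1 t ≤ 2 * b * S / (q * S / 2) ^ 2 := by
      refine u1.trans ?_
      gcongr
    have a2 : 2 * b * S / (q * S / 2) ^ 2 = 8 * b / q ^ 2 / S := by field_simp; ring
    calc aF β 1 t / (2 * Real.pi) ≤ aF β 1 t := div_le_self p1 h2pi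
      _ ≤ 8 * b / q ^ 2 / S := by rw [← a2]; exact a1
      _ ≤ κ / S := by gcongr
  · have : 0 ≤ aF β 2 t / (2 * Real.pi) := by positivity
    linarith
  · rw [div_le_div_iff₀ (by positivity) h2pi0, one_mul]
    have a1 : 120 * (b * S) / (2 ^ 6 * (3 * q * S) ^ 6) ≤ aF β 5 t := by
      refine le_trans ?_ l5
      gcongr
    have a2 : 120 * (b * S) / (2 ^ 6 * (3 * q * S) ^ 6) = 120 * b / (64 * (3 * q) ^ 6 * S ^ 5) := by
      field_simp; ring
    rw [a2] at a1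
    have a3 : 2 * Real.pi = 120 * b / (64 * (3 * q) ^ 6 * S ^ 5) *
        (64 * (3 * q) ^ 6 * (2 * Real.pi) / (120 * b) * S ^ 5) := by
      field_simp
    rw [a3]
    apply mul_le_mul a1 _ (by positivity) p5
    exact mul_le_mul_of_nonneg_right k4 (by positivity)
  · have a1 : aF β 5 t ≤ 120 * (2 * b * S) / (q * S / 2) ^ 6 := by
      refine u5.trans ?_
      gcongr
    have a2 : 120 * (2 * b * S) / (q * S / 2) ^ 6 = 15360 * b / q ^ 6 / S ^ 5 := by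
      field_simp; ring
    calc aF β 5 t / (2 * Real.pi) ≤ aF β 5 t := div_le_self p5 h2pi
      _ ≤ 15360 * b / q ^ 6 / S ^ 5 := by rw [← a2]; exact a1
      _ ≤ κ / S ^ 5 := by gcongr
  · have : 0 ≤ aF β 6 t / (2 * Real.pi) := by positivity
    linarith


theorem ex_ico (n : ℕ) (f : ℤ → ℂ) :
    ∑ x ∈ Finset.Ico ((n : ℕ) : ℤ) ((2 * n : ℕ) : ℤ), f x =
      ∑ i ∈ Finset.range n, f ((n : ℤ) + (i : ℤ)) := by
  symm
  apply Finset.sum_bij (fun (i : ℕ) _ => (n : ℤ) + (i : ℤ))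
  · intro i hi
    rw [Finset.mem_range] at hi
    rw [Finset.mem_Ico]
    push_cast
    constructor <;> omega
  · intro i _ j _ h
    simpa using h
  · intro x hx
    rw [Finset.mem_Ico] at hx
    push_cast at hx
    refine ⟨(x - n).toNat, ?_, ?_⟩
    · rw [Finset.mem_range]; omega
    · omega
  · intro i _
    rfl

/-- for fixed `y` -/
theorem ex_line {B C : ℤ} (hD : B ^ 2 < 4 * C) : ∃ K : ℝ, 1 ≤ K ∧ ∀ S : ℕ, K ≤ S → ∀ m : ℤ,
    m ≠ 0 → |(m : ℝ)| ≤ (S : ℝ) ^ 4 → ∀ y : ℤ, (S : ℤ) ≤ y → y < 2 * S →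
    ‖∑ i ∈ Finset.range (qD B C * S),
      (fourier m (thD B C (((qD B C * S : ℕ) : ℤ) + (i : ℤ), y)) : ℂ)‖ ≤
      K * S * (1 / |(m : ℝ)| + (S : ℝ) ^ (-(1 / 96) : ℝ)) := by
  have hbt := bt_pos hD
  obtain ⟨b, hb⟩ : ∃ b : ℝ, b = bt B C := ⟨_, rfl⟩
  rw [← hb] at hbt
  obtain ⟨q, hq⟩ : ∃ q : ℝ, q = (qD B C : ℝ) := ⟨_, rfl⟩
  have hBabs : ((B.natAbs : ℕ) : ℝ) = |(B : ℝ)| := by
    rw [Nat.cast_natAbs]; push_cast; rfl
  have hCabs : ((C.natAbs : ℕ) : ℝ) = |(C : ℝ)| := by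
    rw [Nat.cast_natAbs]; push_cast; rfl
  have hq' : q = 100 * (|(B : ℝ)| + |(C : ℝ)| + 1) := by
    rw [hq, ← hBabs, ← hCabs]; unfold qD; push_cast; ring
  have hB0 := abs_nonneg (B : ℝ)
  have hC0 := abs_nonneg (C : ℝ)
  have hq1 : 100 ≤ q := by rw [hq']; linarith
  have hbC : b ≤ |(C : ℝ)| + 1 := by
    have h1 := bt_sq hD
    rw [← hb] at h1
    have h2 : (C : ℝ) ≤ |(C : ℝ)| := le_abs_self _
    nlinarith [sq_nonneg (B : ℝ)]
  have hpi := Real.pi_pos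
  obtain ⟨κ, hκ⟩ : ∃ κ : ℝ, κ = 1 + q + 8 * b / q ^ 2 + 36 * q ^ 2 * (2 * Real.pi) / b
      + 15360 * b / q ^ 6 + 64 * (3 * q) ^ 6 * (2 * Real.pi) / (120 * b) := ⟨_, rfl⟩
  have t1 : 0 ≤ 8 * b / q ^ 2 := by positivity
  have t2 : 0 ≤ 36 * q ^ 2 * (2 * Real.pi) / b := by positivity
  have t3 : 0 ≤ 15360 * b / q ^ 6 := by positivity
  have t4 : 0 ≤ 64 * (3 * q) ^ 6 * (2 * Real.pi) / (120 * b) := by positivity
  have hκ1 : 1 ≤ κ := by rw [hκ]; linarith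
  have hκ0 : 0 < κ := by linarith
  obtain ⟨K, hK1, hK⟩ := expsum_smooth κ hκ1
  refine ⟨K, hK1, ?_⟩
  intro S hS m hm hmS y hy1' hy2'
  have hS1 : (1 : ℝ) ≤ S := hK1.trans hS
  have hS0 : (0 : ℝ) < S := by linarith
  have hm' : 0 < |(m : ℝ)| := abs_pos.mpr (by exact_mod_cast hm)
  have hy1 : (S : ℝ) ≤ y := by exact_mod_cast hy1'
  have hy2 : (y : ℝ) ≤ 2 * S := by exact_mod_cast hy2'.le
  have hy0 : (0 : ℝ) < y := by linarith
  obtain ⟨β, hβ⟩ : ∃ β : ℝ, β = b * y := ⟨_, rfl⟩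
  have hβ0 : 0 < β := by rw [hβ]; positivity
  have hβ1 : b * S ≤ β := by rw [hβ]; exact mul_le_mul_of_nonneg_left hy1 hbt.le
  have hβ2 : β ≤ 2 * b * S := by
    rw [hβ]
    calc b * (y : ℝ) ≤ b * (2 * S) := mul_le_mul_of_nonneg_left hy2 hbt.le
      _ = 2 * b * S := by ring
  obtain ⟨a, ha⟩ : ∃ a : ℝ, a = q * S + B / 2 * y := ⟨_, rfl⟩
  have hBy : |(B : ℝ) / 2 * y| ≤ |(B : ℝ)| * S := by
    rw [abs_mul, abs_div, abs_of_pos hy0, abs_two]
    calc |(B : ℝ)| / 2 * y ≤ |(B : ℝ)| / 2 * (2 * S) :=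
          mul_le_mul_of_nonneg_left hy2 (by positivity)
      _ = |(B : ℝ)| * S := by ring
  rw [abs_le] at hBy
  have hBq : |(B : ℝ)| * S ≤ q * S / 100 := by
    have : |(B : ℝ)| ≤ q / 100 := by rw [hq']; linarith
    calc |(B : ℝ)| * S ≤ q / 100 * S := mul_le_mul_of_nonneg_right this hS0.le
      _ = q * S / 100 := by ring
  have hqS : 0 < q * S := by positivity
  have ha1 : q * S / 2 ≤ a := by rw [ha]; linarith [hBy.1]
  have ha2 : a + q * S ≤ 3 * q * S := by rw [ha]; linarith [hBy.2]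
  have hN : ((qD B C * S : ℕ) : ℝ) = q * S := by push_cast; rw [hq]
  have h12 : 12 * β ≤ a := by
    have h1 : 24 * b ≤ q / 2 := by rw [hq']; linarith
    have h2 : 24 * b * S ≤ q / 2 * S := mul_le_mul_of_nonneg_right h1 hS0.le
    linarith
  have hmain := hK S hS (exG β) a (qD B C * S) (by
      rw [hN, div_le_iff₀ hκ0]
      have h1 : (1 : ℝ) ≤ q * κ := by
        calc (1 : ℝ) = 1 * 1 := by norm_num
          _ ≤ q * κ := mul_le_mul (by linarith) hκ1 (by norm_num) (by linarith)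
      calc (S : ℝ) = S * 1 := by ring
        _ ≤ S * (q * κ) := mul_le_mul_of_nonneg_left h1 hS0.le
        _ = q * S * κ := by ring) (by
      rw [hN]
      apply mul_le_mul_of_nonneg_right _ hS0.le
      rw [hκ]; linarith)
    (fun j _ x hx _ => exG_deriv j (by linarith))
    (by
      intro t ht1 ht2
      rw [hN] at ht2
      exact ex_sizes hbt hq1 hS1 hβ1 hβ2 (by linarith) (by linarith) (by linarith)
        (by rw [hκ]; linarith) (by rw [hκ]; linarith) (by rw [hκ]; linarith)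
        (by rw [hκ]; linarith))
    |(m : ℝ)| hm' hmS
  have hterm : ∀ i : ℕ, (fourier m (thD B C (((qD B C * S : ℕ) : ℤ) + (i : ℤ), y)) : ℂ) =
      ee (-((m : ℝ) * exG β 0 (a + i))) := by
    intro i
    have hi0 : (0 : ℝ) ≤ i := Nat.cast_nonneg i
    have hne : ((((qD B C * S : ℕ) : ℤ) + (i : ℤ), y) : ℤ × ℤ) ≠ 0 := by
      intro h0
      have : y = 0 := congrArg Prod.snd h0
      rw [this] at hy0
      simp at hy0
    rw [fourier_thD hD hne]
    have hre : (cv B C (((qD B C * S : ℕ) : ℤ) + (i : ℤ), y)).re = a + i := by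
      rw [cv_re]
      show ((((qD B C * S : ℕ) : ℤ) + (i : ℤ) : ℤ) : ℝ) + B / 2 * (y : ℝ) = a + i
      rw [ha]
      push_cast
      rw [← hq]
      ring
    have him : (cv B C (((qD B C * S : ℕ) : ℤ) + (i : ℤ), y)).im = β := by
      rw [cv_im, hβ, hb]
    rw [ex_arg (by rw [hre]; linarith), hre, him]
    unfold ee exG aF
    congr 1
    push_cast
    field_simp
  rw [Finset.sum_congr rfl (fun i _ => hterm i)]
  refine le_trans (le_of_eq ?_) hmain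
  rcases lt_or_gt_of_ne hm with h | h
  · have hm2 : |(m : ℝ)| = -(m : ℝ) := abs_of_neg (by exact_mod_cast h)
    rw [hm2]
    congr 1
    apply Finset.sum_congr rfl
    intro i _
    congr 1
    ring
  · have hm2 : |(m : ℝ)| = (m : ℝ) := abs_of_pos (by exact_mod_cast h)
    rw [hm2]
    exact ex_norm_neg (fun i => (m : ℝ) * exG β 0 (a + i)) _

theorem expoD {B C : ℤ} (hD : B ^ 2 < 4 * C) : ∃ K : ℝ, 1 ≤ K ∧ ∀ S : ℕ, K ≤ S → ∀ m : ℤ,
    m ≠ 0 → |(m : ℝ)| ≤ (S : ℝ) ^ 4 →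
    ‖∑ v ∈ boxD B C S, (fourier m (thD B C v) : ℂ)‖ ≤
      K * (S : ℝ) ^ 2 * (1 / |(m : ℝ)| + (S : ℝ) ^ (-(1 / 100) : ℝ)) := by
  obtain ⟨K, hK1, hK⟩ := ex_line hD
  refine ⟨K, hK1, ?_⟩
  intro S hS m hm hmS
  have hS1 : (1 : ℝ) ≤ S := hK1.trans hS
  have hS0 : (0 : ℝ) < S := by linarith
  have hm' : 0 < |(m : ℝ)| := abs_pos.mpr (by exact_mod_cast hm)
  have hK0 : 0 < K := by linarith
  unfold boxD
  rw [Finset.sum_product_right]
  have hterm : ∀ y ∈ Finset.Ico (S : ℤ) ((2 * S : ℕ) : ℤ),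
      ‖∑ x ∈ Finset.Ico ((qD B C * S : ℕ) : ℤ) ((2 * qD B C * S : ℕ) : ℤ),
        (fourier m (thD B C (x, y)) : ℂ)‖ ≤
      K * S * (1 / |(m : ℝ)| + (S : ℝ) ^ (-(1 / 96) : ℝ)) := by
    intro y hy
    rw [Finset.mem_Ico] at hy
    have e : (2 * qD B C * S : ℕ) = 2 * (qD B C * S) := by ring
    rw [e, ex_ico]
    apply hK S hS m hm hmS y hy.1
    have := hy.2
    push_cast at this
    exact this
  have hexp : (S : ℝ) ^ (-(1 / 96) : ℝ) ≤ (S : ℝ) ^ (-(1 / 100) : ℝ) :=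
    Real.rpow_le_rpow_of_exponent_le hS1 (by norm_num)
  calc ‖∑ y ∈ Finset.Ico (S : ℤ) ((2 * S : ℕ) : ℤ),
        ∑ x ∈ Finset.Ico ((qD B C * S : ℕ) : ℤ) ((2 * qD B C * S : ℕ) : ℤ),
          (fourier m (thD B C (x, y)) : ℂ)‖
      ≤ ∑ y ∈ Finset.Ico (S : ℤ) ((2 * S : ℕ) : ℤ),
        K * S * (1 / |(m : ℝ)| + (S : ℝ) ^ (-(1 / 96) : ℝ)) :=
        (norm_sum_le _ _).trans (Finset.sum_le_sum hterm)
    _ = S * (K * S * (1 / |(m : ℝ)| + (S : ℝ) ^ (-(1 / 96) : ℝ))) := by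
        rw [Finset.sum_const, Int.card_Ico, nsmul_eq_mul]
        congr 1
        have : (((2 * S : ℕ) : ℤ) - (S : ℤ)).toNat = S := by push_cast; omega
        rw [this]
    _ = K * (S : ℝ) ^ 2 * (1 / |(m : ℝ)| + (S : ℝ) ^ (-(1 / 96) : ℝ)) := by ring
    _ ≤ K * (S : ℝ) ^ 2 * (1 / |(m : ℝ)| + (S : ℝ) ^ (-(1 / 100) : ℝ)) := by
        apply mul_le_mul_of_nonneg_left _ (by positivity)
        linarith

end Pool.Agent.LogPar
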