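import Pool.Agent.LogPar.ThR
import Pool.Agent.LogPar.Differ

set_option autoImplicit false

/-! # Real case: exponential sums over the box -/

namespace Pool.Agent.LogPar

open Pool.Agent.FareyParity
open Pool.Agent.RealQuad (Disc Pos ang mg xc yc rt)
open Pool.Agent.H33 (ee)

/-- the phase and its derivatives -/
noncomputable def expoRG (lam a1 a2 : ℝ) : ℕ → ℝ → ℝ
  | 0, x => (Real.log (x + a1) - Real.log (x + a2)) / (2 * lam)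
  | (j + 1), x => (-1) ^ j * (j.factorial : ℝ) / (2 * lam) *
      (((x + a1)⁻¹) ^ (j + 1) - ((x + a2)⁻¹) ^ (j + 1))

theorem expoR_pow_deriv (a : ℝ) (j : ℕ) {x : ℝ} (hx : x + a ≠ 0) :
    HasDerivAt (fun x : ℝ => ((x + a)⁻¹) ^ (j + 1)) (-(j + 1 : ℕ) * ((x + a)⁻¹) ^ (j + 2)) x := by
  have h1 : HasDerivAt (fun x : ℝ => x + a) 1 x := (hasDerivAt_id x).add_const a
  have h2 := (h1.inv hx).pow (j + 1)
  refine h2.congr_deriv ?_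
  show ((j + 1 : ℕ) : ℝ) * ((x + a)⁻¹) ^ (j + 1 - 1) * (-1 / (x + a) ^ 2) = _
  rw [Nat.add_sub_cancel, pow_add ((x + a)⁻¹) j 2, inv_pow (x + a) 2]
  field_simp

theorem expoRG_deriv {lam a1 a2 : ℝ} (j : ℕ) {x : ℝ} (h1 : 0 < x + a1)
    (h2 : 0 < x + a2) :
    HasDerivAt (expoRG lam a1 a2 j) (expoRG lam a1 a2 (j + 1) x) x := by
  cases j with
  | zero =>
    have e1 : HasDerivAt (fun x : ℝ => Real.log (x + a1)) ((x + a1)⁻¹) x := by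
      have := ((hasDerivAt_id x).add_const a1).log h1.ne'
      simpa using this
    have e2 : HasDerivAt (fun x : ℝ => Real.log (x + a2)) ((x + a2)⁻¹) x := by
      have := ((hasDerivAt_id x).add_const a2).log h2.ne'
      simpa using this
    have e3 := (e1.sub e2).div_const (2 * lam)
    refine e3.congr_deriv ?_
    show ((x + a1)⁻¹ - (x + a2)⁻¹) / (2 * lam) = (-1) ^ 0 * ((0 : ℕ).factorial : ℝ) / (2 * lam) *
      (((x + a1)⁻¹) ^ (0 + 1) - ((x + a2)⁻¹) ^ (0 + 1))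
    simp
    ring
  | succ j =>
    have e3 := ((expoR_pow_deriv a1 j h1.ne').sub (expoR_pow_deriv a2 j h2.ne')).const_mul
      ((-1) ^ j * (j.factorial : ℝ) / (2 * lam))
    refine e3.congr_deriv ?_
    show (-1) ^ j * (j.factorial : ℝ) / (2 * lam) *
        (-(j + 1 : ℕ) * ((x + a1)⁻¹) ^ (j + 2) - -(j + 1 : ℕ) * ((x + a2)⁻¹) ^ (j + 2)) =
      (-1) ^ (j + 1) * ((j + 1).factorial : ℝ) / (2 * lam) *
        (((x + a1)⁻¹) ^ (j + 1 + 1) - ((x + a2)⁻¹) ^ (j + 1 + 1))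
    rw [Nat.factorial_succ]
    push_cast
    ring

/-- upper and lower bounds for a difference of inverse powers -/
theorem expoR_inv_bounds {u v lo hi d1 d2 : ℝ} (hlo : 0 < lo) (h1 : lo ≤ u) (h2 : v ≤ hi)
    (hd1 : 0 < d1) (h3 : d1 ≤ v - u) (h4 : v - u ≤ d2) :
    (d1 / hi ^ 2 ≤ u⁻¹ - v⁻¹ ∧ u⁻¹ - v⁻¹ ≤ d2 / lo ^ 2) ∧
    (d1 / hi ^ 6 ≤ (u⁻¹) ^ 5 - (v⁻¹) ^ 5 ∧ (u⁻¹) ^ 5 - (v⁻¹) ^ 5 ≤ 5 * d2 / lo ^ 6) ∧
    (0 ≤ (u⁻¹) ^ 2 - (v⁻¹) ^ 2) ∧ 0 ≤ (u⁻¹) ^ 6 - (v⁻¹) ^ 6 := by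
  have hu : 0 < u := by linarith
  have huv : u < v := by linarith
  have hv : 0 < v := by linarith
  have hhi : 0 < hi := by linarith
  have hiu : 0 < u⁻¹ := inv_pos.2 hu
  have hiv : 0 < v⁻¹ := inv_pos.2 hv
  have hle : v⁻¹ ≤ u⁻¹ := inv_anti₀ hu huv.le
  have eu : u⁻¹ ≤ lo⁻¹ := inv_anti₀ hlo h1
  have ev : hi⁻¹ ≤ v⁻¹ := inv_anti₀ hv h2
  have hhii : 0 < hi⁻¹ := inv_pos.2 hhi
  have hloi : 0 < lo⁻¹ := inv_pos.2 hlo
  have e1 : u⁻¹ - v⁻¹ = (v - u) * (u⁻¹ * v⁻¹) := by field_simp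
  have e5 : (u⁻¹) ^ 5 - (v⁻¹) ^ 5 = (v - u) * (u⁻¹ * v⁻¹) *
      ((u⁻¹) ^ 4 + (u⁻¹) ^ 3 * v⁻¹ + (u⁻¹) ^ 2 * (v⁻¹) ^ 2 + u⁻¹ * (v⁻¹) ^ 3 + (v⁻¹) ^ 4) := by
    rw [← e1]; ring
  have hlow2 : hi⁻¹ * hi⁻¹ ≤ u⁻¹ * v⁻¹ :=
    mul_le_mul (ev.trans hle) ev hhii.le hiu.le
  have hupp2 : u⁻¹ * v⁻¹ ≤ lo⁻¹ * lo⁻¹ :=
    mul_le_mul eu (hle.trans eu) hiv.le hloi.le
  have p4 : ∀ i j : ℕ, i + j = 4 → (u⁻¹) ^ i * (v⁻¹) ^ j ≤ (lo⁻¹) ^ 4 := by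
    intro i j hij
    rw [← hij, pow_add]
    exact mul_le_mul (pow_le_pow_left₀ hiu.le eu i) (pow_le_pow_left₀ hiv.le (hle.trans eu) j)
      (pow_nonneg hiv.le _) (pow_nonneg hloi.le _)
  have q1 := p4 4 0 rfl
  have q2 := p4 3 1 rfl
  have q3 := p4 2 2 rfl
  have q4 := p4 1 3 rfl
  have q5 := p4 0 4 rfl
  simp only [pow_zero, mul_one, one_mul, pow_one] at q1 q2 q3 q4 q5
  have hS0 : (hi⁻¹) ^ 4 ≤ (u⁻¹) ^ 4 + (u⁻¹) ^ 3 * v⁻¹ + (u⁻¹) ^ 2 * (v⁻¹) ^ 2 +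
      u⁻¹ * (v⁻¹) ^ 3 + (v⁻¹) ^ 4 := by
    have : (hi⁻¹) ^ 4 ≤ (v⁻¹) ^ 4 := pow_le_pow_left₀ hhii.le ev 4
    have h6 : 0 ≤ (u⁻¹) ^ 4 + (u⁻¹) ^ 3 * v⁻¹ + (u⁻¹) ^ 2 * (v⁻¹) ^ 2 + u⁻¹ * (v⁻¹) ^ 3 := by
      positivity
    linarith
  have hS1 : (u⁻¹) ^ 4 + (u⁻¹) ^ 3 * v⁻¹ + (u⁻¹) ^ 2 * (v⁻¹) ^ 2 +
      u⁻¹ * (v⁻¹) ^ 3 + (v⁻¹) ^ 4 ≤ 5 * (lo⁻¹) ^ 4 := by linarith
  have hd : 0 < v - u := by linarith
  refine ⟨⟨?_, ?_⟩, ⟨?_, ?_⟩, ?_, ?_⟩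
  · rw [e1]
    calc d1 / hi ^ 2 = d1 * (hi⁻¹ * hi⁻¹) := by rw [div_eq_mul_inv, ← inv_pow]; ring
      _ ≤ (v - u) * (u⁻¹ * v⁻¹) := mul_le_mul h3 hlow2 (by positivity) hd.le
  · rw [e1]
    calc (v - u) * (u⁻¹ * v⁻¹) ≤ d2 * (lo⁻¹ * lo⁻¹) :=
          mul_le_mul h4 hupp2 (by positivity) (by linarith)
      _ = d2 / lo ^ 2 := by rw [div_eq_mul_inv, ← inv_pow]; ring
  · rw [e5]
    calc d1 / hi ^ 6 = d1 * (hi⁻¹ * hi⁻¹) * (hi⁻¹) ^ 4 := by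
          rw [div_eq_mul_inv, ← inv_pow]; ring
      _ ≤ _ := mul_le_mul (mul_le_mul h3 hlow2 (by positivity) hd.le) hS0 (by positivity)
          (by positivity)
  · rw [e5]
    have hd2 : 0 < d2 := by linarith
    calc (v - u) * (u⁻¹ * v⁻¹) *
          ((u⁻¹) ^ 4 + (u⁻¹) ^ 3 * v⁻¹ + (u⁻¹) ^ 2 * (v⁻¹) ^ 2 + u⁻¹ * (v⁻¹) ^ 3 + (v⁻¹) ^ 4)
        ≤ (d2 * (lo⁻¹ * lo⁻¹)) * (5 * (lo⁻¹) ^ 4) :=
          mul_le_mul (mul_le_mul h4 hupp2 (by positivity) (by linarith)) hS1 (by positivity)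
            (by positivity)
      _ = 5 * d2 / lo ^ 6 := by rw [div_eq_mul_inv, ← inv_pow]; ring
  · have := pow_le_pow_left₀ hiv.le hle 2
    linarith
  · have := pow_le_pow_left₀ hiv.le hle 6
    linarith

theorem expoR_conj (x : ℝ) : ee (-x) = (starRingEnd ℂ) (ee x) := by
  unfold ee
  rw [← Complex.exp_conj, map_mul, Complex.conj_I, Complex.conj_ofReal]
  congr 1
  push_cast
  ring

theorem exR_norm_neg (g : ℕ → ℝ) (s : Finset ℕ) :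
    ‖∑ i ∈ s, ee (-(g i))‖ = ‖∑ i ∈ s, ee (g i)‖ := by
  have h : ∑ i ∈ s, ee (-(g i)) = (starRingEnd ℂ) (∑ i ∈ s, ee (g i)) := by
    rw [map_sum]
    exact Finset.sum_congr rfl (fun i _ => expoR_conj _)
  rw [h]
  exact RCLike.norm_conj _

theorem exR_ico (n : ℕ) (f : ℤ → ℂ) :
    ∑ x ∈ Finset.Ico ((n : ℕ) : ℤ) ((2 * n : ℕ) : ℤ), f x =
      ∑ i ∈ Finset.range n, f ((n : ℤ) + (i : ℤ)) := by
  symm
  apply Finset.sum_bij (fun (i : ℕ) _ => (n : ℤ) + (i : ℤ))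
  · intro i hi
    rw [Finset.mem_range] at hi
    rw [Finset.mem_Ico]
    push_cast
    constructor <;> omega
  · intro i _ j _ h
    simpa using h
  · intro x hx
    rw [Finset.mem_Ico] at hx
    push_cast at hx
    refine ⟨(x - n).toNat, ?_, ?_⟩
    · rw [Finset.mem_range]; omega
    · omega
  · intro i _
    rfl

/-- sizes of the derivatives -/
theorem exR_sizes {r q S l a1 a2 t κ : ℝ} (hr : 0 < r) (hq : 0 < q) (hS : 1 ≤ S) (hl : 0 < l)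
    (hd1 : 2 * r * S ≤ a2 - a1) (hd2 : a2 - a1 ≤ 4 * r * S) (h3 : q * S / 2 ≤ t + a1)
    (h4 : t + a2 ≤ 3 * q * S)
    (k1 : 2 * l * (3 * q) ^ 2 / (2 * r) ≤ κ) (k2 : 16 * r / q ^ 2 / (2 * l) ≤ κ)
    (k3 : 2 * l * (3 * q) ^ 6 / (24 * (2 * r)) ≤ κ)
    (k4 : 24 * (5 * (4 * r)) * 64 / q ^ 6 / (2 * l) ≤ κ) :
    1 / (κ * S) ≤ expoRG l a1 a2 1 t ∧ expoRG l a1 a2 1 t ≤ κ / S ∧ expoRG l a1 a2 2 t ≤ 0 ∧
      1 / (κ * S ^ 5) ≤ expoRG l a1 a2 5 t ∧ expoRG l a1 a2 5 t ≤ κ / S ^ 5 ∧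
      expoRG l a1 a2 6 t ≤ 0 := by
  have hS0 : 0 < S := by linarith
  have hκ0 : 0 < κ := lt_of_lt_of_le (by positivity) k1
  obtain ⟨⟨l1, u1⟩, ⟨l5, u5⟩, p2, p6⟩ := expoR_inv_bounds (u := t + a1) (v := t + a2)
    (lo := q * S / 2) (hi := 3 * q * S) (d1 := 2 * r * S) (d2 := 4 * r * S) (by positivity) h3 h4
    (by positivity) (by linarith) (by linarith)
  have f4 : ((Nat.factorial 4 : ℕ) : ℝ) = 24 := by norm_num [Nat.factorial]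
  have f5 : ((Nat.factorial 5 : ℕ) : ℝ) = 120 := by norm_num [Nat.factorial]
  have f0 : ((Nat.factorial 0 : ℕ) : ℝ) = 1 := by norm_num [Nat.factorial]
  have f1 : ((Nat.factorial 1 : ℕ) : ℝ) = 1 := by norm_num [Nat.factorial]
  have e1 : expoRG l a1 a2 1 t = ((t + a1)⁻¹ - (t + a2)⁻¹) / (2 * l) := by
    show (-1) ^ 0 * ((0 : ℕ).factorial : ℝ) / (2 * l) *
      (((t + a1)⁻¹) ^ (0 + 1) - ((t + a2)⁻¹) ^ (0 + 1)) = _
    rw [f0]; ring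
  have e2 : expoRG l a1 a2 2 t = -(((t + a1)⁻¹ ^ 2 - (t + a2)⁻¹ ^ 2) / (2 * l)) := by
    show (-1) ^ 1 * ((1 : ℕ).factorial : ℝ) / (2 * l) *
      (((t + a1)⁻¹) ^ (1 + 1) - ((t + a2)⁻¹) ^ (1 + 1)) = _
    rw [f1]; ring
  have e5 : expoRG l a1 a2 5 t = 24 * ((t + a1)⁻¹ ^ 5 - (t + a2)⁻¹ ^ 5) / (2 * l) := by
    show (-1) ^ 4 * ((4 : ℕ).factorial : ℝ) / (2 * l) *
      (((t + a1)⁻¹) ^ (4 + 1) - ((t + a2)⁻¹) ^ (4 + 1)) = _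
    rw [f4]; ring
  have e6 : expoRG l a1 a2 6 t = -(120 * ((t + a1)⁻¹ ^ 6 - (t + a2)⁻¹ ^ 6) / (2 * l)) := by
    show (-1) ^ 5 * ((5 : ℕ).factorial : ℝ) / (2 * l) *
      (((t + a1)⁻¹) ^ (5 + 1) - ((t + a2)⁻¹) ^ (5 + 1)) = _
    rw [f5]; ring
  rw [e1, e2, e5, e6]
  have h2l : 0 < 2 * l := by linarith
  refine ⟨?_, ?_, ?_, ?_, ?_, ?_⟩
  · have a1' : 2 * r * S / (3 * q * S) ^ 2 = 2 * r / ((3 * q) ^ 2 * S) := by
      field_simp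
    rw [a1'] at l1
    calc 1 / (κ * S) ≤ 1 / (2 * l * (3 * q) ^ 2 / (2 * r) * S) := by gcongr
      _ = 2 * r / ((3 * q) ^ 2 * S) / (2 * l) := by field_simp
      _ ≤ _ := by gcongr
  · have a2' : 4 * r * S / (q * S / 2) ^ 2 = 16 * r / q ^ 2 / S := by field_simp; ring
    rw [a2'] at u1
    calc ((t + a1)⁻¹ - (t + a2)⁻¹) / (2 * l) ≤ 16 * r / q ^ 2 / S / (2 * l) := by gcongr
      _ = 16 * r / q ^ 2 / (2 * l) / S := by field_simp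
      _ ≤ κ / S := by gcongr
  · have : 0 ≤ ((t + a1)⁻¹ ^ 2 - (t + a2)⁻¹ ^ 2) / (2 * l) := by positivity
    linarith
  · have a1' : 2 * r * S / (3 * q * S) ^ 6 = 2 * r / ((3 * q) ^ 6 * S ^ 5) := by
      field_simp
    rw [a1'] at l5
    calc 1 / (κ * S ^ 5) ≤ 1 / (2 * l * (3 * q) ^ 6 / (24 * (2 * r)) * S ^ 5) := by gcongr
      _ = 24 * (2 * r / ((3 * q) ^ 6 * S ^ 5)) / (2 * l) := by field_simp
      _ ≤ _ := by gcongr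
  · have a2' : 5 * (4 * r * S) / (q * S / 2) ^ 6 = 5 * (4 * r) * 64 / q ^ 6 / S ^ 5 := by
      field_simp; ring
    rw [a2'] at u5
    calc 24 * ((t + a1)⁻¹ ^ 5 - (t + a2)⁻¹ ^ 5) / (2 * l)
        ≤ 24 * (5 * (4 * r) * 64 / q ^ 6 / S ^ 5) / (2 * l) := by gcongr
      _ = 24 * (5 * (4 * r)) * 64 / q ^ 6 / (2 * l) / S ^ 5 := by field_simp
      _ ≤ κ / S ^ 5 := by gcongr
  · have : 0 ≤ 120 * ((t + a1)⁻¹ ^ 6 - (t + a2)⁻¹ ^ 6) / (2 * l) := by positivity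
    linarith

/-- for fixed `y` -/
theorem exR_line {B C : ℤ} (hD : Disc B C) : ∃ K : ℝ, 1 ≤ K ∧ ∀ S : ℕ, K ≤ S → ∀ m : ℤ,
    m ≠ 0 → |(m : ℝ)| ≤ (S : ℝ) ^ 4 → ∀ y : ℤ, (S : ℤ) ≤ y → y < 2 * S →
    ‖∑ i ∈ Finset.range (qD B C * S),
      (fourier m (thR B C (((qD B C * S : ℕ) : ℤ) + (i : ℤ), y)) : ℂ)‖ ≤
      K * S * (1 / |(m : ℝ)| + (S : ℝ) ^ (-(1 / 96) : ℝ)) := by
  have hr0 : 0 < rt B C := Pool.Agent.RealQuad.rt_pos hD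
  obtain ⟨r, hr⟩ : ∃ r : ℝ, r = rt B C := ⟨_, rfl⟩
  rw [← hr] at hr0
  obtain ⟨l, hl⟩ : ∃ l : ℝ, l = lamR B C := ⟨_, rfl⟩
  have hl0 : 1 / 2 ≤ l := by rw [hl]; exact lamR_ge hD
  have hl1 : 0 < l := by linarith
  obtain ⟨q, hq⟩ : ∃ q : ℝ, q = (qD B C : ℝ) := ⟨_, rfl⟩
  have hBabs : ((B.natAbs : ℕ) : ℝ) = |(B : ℝ)| := by
    rw [Nat.cast_natAbs]; push_cast; rfl
  have hCabs : ((C.natAbs : ℕ) : ℝ) = |(C : ℝ)| := by
    rw [Nat.cast_natAbs]; push_cast; rfl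
  have hq' : q = 100 * (|(B : ℝ)| + |(C : ℝ)| + 1) := by
    rw [hq, ← hBabs, ← hCabs]; unfold qD; push_cast; ring
  have hB0 := abs_nonneg (B : ℝ)
  have hC0 := abs_nonneg (C : ℝ)
  have hq1 : 100 ≤ q := by rw [hq']; linarith
  have hq0 : 0 < q := by linarith
  have hrq : r ≤ q / 100 := by
    have h1 : r ^ 2 = ((B : ℝ) ^ 2 - 4 * C) / 4 := by
      rw [hr, Pool.Agent.RealQuad.rt_sq hD]; ring
    have h4 := neg_abs_le (C : ℝ)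
    have h5 := sq_abs (B : ℝ)
    have h6 : r ^ 2 ≤ (|(B : ℝ)| + |(C : ℝ)| + 1) ^ 2 := by
      rw [h1, ← h5]
      nlinarith
    have h7 := abs_le_of_sq_le_sq h6 (by linarith)
    have h8 := le_abs_self r
    rw [hq']
    linarith
  obtain ⟨κ, hκ⟩ : ∃ κ : ℝ, κ = 1 + q + 2 * l * (3 * q) ^ 2 / (2 * r) + 16 * r / q ^ 2 / (2 * l)
      + 2 * l * (3 * q) ^ 6 / (24 * (2 * r)) + 24 * (5 * (4 * r)) * 64 / q ^ 6 / (2 * l) := ⟨_, rfl⟩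
  have t1 : 0 ≤ 2 * l * (3 * q) ^ 2 / (2 * r) := by positivity
  have t2 : 0 ≤ 16 * r / q ^ 2 / (2 * l) := by positivity
  have t3 : 0 ≤ 2 * l * (3 * q) ^ 6 / (24 * (2 * r)) := by positivity
  have t4 : 0 ≤ 24 * (5 * (4 * r)) * 64 / q ^ 6 / (2 * l) := by positivity
  have hκ1 : 1 ≤ κ := by rw [hκ]; linarith
  have hκ0 : 0 < κ := by linarith
  obtain ⟨K, hK1, hK⟩ := expsum_smooth κ hκ1
  refine ⟨K, hK1, ?_⟩
  intro S hS m hm hmS y hy1' hy2'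
  have hS1 : (1 : ℝ) ≤ S := hK1.trans hS
  have hS0 : (0 : ℝ) < S := by linarith
  have hm' : 0 < |(m : ℝ)| := abs_pos.mpr (by exact_mod_cast hm)
  have hy1 : (S : ℝ) ≤ y := by exact_mod_cast hy1'
  have hy2 : (y : ℝ) ≤ 2 * S := by exact_mod_cast hy2'.le
  have hy0 : (0 : ℝ) < y := by linarith
  obtain ⟨a1, ha1⟩ : ∃ a1 : ℝ, a1 = B / 2 * y - r * y := ⟨_, rfl⟩
  obtain ⟨a2, ha2⟩ : ∃ a2 : ℝ, a2 = B / 2 * y + r * y := ⟨_, rfl⟩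
  have hry1 : r * S ≤ r * y := mul_le_mul_of_nonneg_left hy1 hr0.le
  have hry2 : r * y ≤ r * (2 * S) := mul_le_mul_of_nonneg_left hy2 hr0.le
  have hBy : |(B : ℝ) / 2 * y| ≤ |(B : ℝ)| * S := by
    rw [abs_mul, abs_div, abs_of_pos hy0, abs_two]
    calc |(B : ℝ)| / 2 * y ≤ |(B : ℝ)| / 2 * (2 * S) :=
          mul_le_mul_of_nonneg_left hy2 (by positivity)
      _ = |(B : ℝ)| * S := by ring
  rw [abs_le] at hBy
  have hBq : |(B : ℝ)| * S ≤ q * S / 100 := by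
    have : |(B : ℝ)| ≤ q / 100 := by rw [hq']; linarith
    calc |(B : ℝ)| * S ≤ q / 100 * S := mul_le_mul_of_nonneg_right this hS0.le
      _ = q * S / 100 := by ring
  have hrS : r * (2 * S) ≤ q * S / 50 := by
    calc r * (2 * S) ≤ q / 100 * (2 * S) := mul_le_mul_of_nonneg_right hrq (by positivity)
      _ = q * S / 50 := by ring
  have hqS : 0 < q * S := by positivity
  have hN : ((qD B C * S : ℕ) : ℝ) = q * S := by push_cast; rw [hq]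
  have hpos1 : ∀ t : ℝ, q * S ≤ t → q * S / 2 ≤ t + a1 := by
    intro t ht
    rw [ha1]; linarith [hBy.1]
  have hpos2 : ∀ t : ℝ, q * S ≤ t → q * S / 2 ≤ t + a2 := by
    intro t ht
    have : 0 < r * y := by positivity
    rw [ha2]; linarith [hBy.1]
  have hmain := hK S hS (expoRG l a1 a2) (q * S) (qD B C * S) (by
      rw [hN, div_le_iff₀ hκ0]
      have h1 : (1 : ℝ) ≤ q * κ := by
        calc (1 : ℝ) = 1 * 1 := by norm_num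
          _ ≤ q * κ := mul_le_mul (by linarith) hκ1 (by norm_num) (by linarith)
      calc (S : ℝ) = S * 1 := by ring
        _ ≤ S * (q * κ) := mul_le_mul_of_nonneg_left h1 hS0.le
        _ = q * S * κ := by ring) (by
      rw [hN]
      apply mul_le_mul_of_nonneg_right _ hS0.le
      rw [hκ]; linarith)
    (fun j _ x hx _ => expoRG_deriv j (by linarith [hpos1 x hx]) (by linarith [hpos2 x hx]))
    (by
      intro t ht1 ht2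
      rw [hN] at ht2
      exact exR_sizes hr0 hq0 hS1 hl1 (by rw [ha1, ha2]; linarith) (by rw [ha1, ha2]; linarith)
        (hpos1 t ht1) (by rw [ha2]; linarith [hBy.2])
        (by rw [hκ]; linarith) (by rw [hκ]; linarith) (by rw [hκ]; linarith)
        (by rw [hκ]; linarith))
    |(m : ℝ)| hm' hmS
  have hterm : ∀ i : ℕ, (fourier m (thR B C (((qD B C * S : ℕ) : ℤ) + (i : ℤ), y)) : ℂ) =
      ee (-((m : ℝ) * expoRG l a1 a2 0 (q * S + i))) := by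
    intro i
    have hi0 : (0 : ℝ) ≤ i := Nat.cast_nonneg i
    rw [fourier_thR]
    have hx : xc B C (((qD B C * S : ℕ) : ℤ) + (i : ℤ), y) = q * S + i + a2 := by
      unfold xc
      rw [ha2, ← hr]
      push_cast
      rw [← hq]
      ring
    have hy : yc B C (((qD B C * S : ℕ) : ℤ) + (i : ℤ), y) = q * S + i + a1 := by
      unfold yc
      rw [ha1, ← hr]
      push_cast
      rw [← hq]
      ring
    have hang : ang B C (((qD B C * S : ℕ) : ℤ) + (i : ℤ), y) / lamR B C =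
        -(expoRG l a1 a2 0 (q * S + i)) := by
      unfold ang
      rw [hx, hy, ← hl]
      have h1 := hpos1 (q * S + i) (by linarith)
      have h2 := hpos2 (q * S + i) (by linarith)
      rw [Real.log_div (by linarith) (by linarith)]
      show _ = -((Real.log (q * S + i + a1) - Real.log (q * S + i + a2)) / (2 * l))
      field_simp
      ring
    have hph : 2 * Real.pi * (m : ℝ) * ang B C (((qD B C * S : ℕ) : ℤ) + (i : ℤ), y) / lamR B C =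
        2 * Real.pi * (-((m : ℝ) * expoRG l a1 a2 0 (q * S + i))) := by
      rw [mul_div_assoc, hang]
      ring
    rw [hph]
    unfold ee
    congr 1
    push_cast
    ring
  rw [Finset.sum_congr rfl (fun i _ => hterm i)]
  refine le_trans (le_of_eq ?_) hmain
  rcases lt_or_gt_of_ne hm with h | h
  · have hm2 : |(m : ℝ)| = -(m : ℝ) := abs_of_neg (by exact_mod_cast h)
    rw [hm2]
    congr 1
    apply Finset.sum_congr rfl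
    intro i _
    congr 1
    ring
  · have hm2 : |(m : ℝ)| = (m : ℝ) := abs_of_pos (by exact_mod_cast h)
    rw [hm2]
    exact exR_norm_neg (fun i => (m : ℝ) * expoRG l a1 a2 0 (q * S + i)) _

theorem expoR {B C : ℤ} (hD : Disc B C) : ∃ K : ℝ, 1 ≤ K ∧ ∀ S : ℕ, K ≤ S → ∀ m : ℤ,
    m ≠ 0 → |(m : ℝ)| ≤ (S : ℝ) ^ 4 →
    ‖∑ v ∈ boxD B C S, (fourier m (thR B C v) : ℂ)‖ ≤
      K * (S : ℝ) ^ 2 * (1 / |(m : ℝ)| + (S : ℝ) ^ (-(1 / 100) : ℝ)) := by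
  obtain ⟨K, hK1, hK⟩ := exR_line hD
  refine ⟨K, hK1, ?_⟩
  intro S hS m hm hmS
  have hS1 : (1 : ℝ) ≤ S := hK1.trans hS
  have hS0 : (0 : ℝ) < S := by linarith
  have hm' : 0 < |(m : ℝ)| := abs_pos.mpr (by exact_mod_cast hm)
  have hK0 : 0 < K := by linarith
  unfold boxD
  rw [Finset.sum_product_right]
  have hterm : ∀ y ∈ Finset.Ico (S : ℤ) ((2 * S : ℕ) : ℤ),
      ‖∑ x ∈ Finset.Ico ((qD B C * S : ℕ) : ℤ) ((2 * qD B C * S : ℕ) : ℤ),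
        (fourier m (thR B C (x, y)) : ℂ)‖ ≤
      K * S * (1 / |(m : ℝ)| + (S : ℝ) ^ (-(1 / 96) : ℝ)) := by
    intro y hy
    rw [Finset.mem_Ico] at hy
    have e : (2 * qD B C * S : ℕ) = 2 * (qD B C * S) := by ring
    rw [e, exR_ico]
    apply hK S hS m hm hmS y hy.1
    have := hy.2
    push_cast at this
    exact this
  have hexp : (S : ℝ) ^ (-(1 / 96) : ℝ) ≤ (S : ℝ) ^ (-(1 / 100) : ℝ) :=
    Real.rpow_le_rpow_of_exponent_le hS1 (by norm_num)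
  calc ‖∑ y ∈ Finset.Ico (S : ℤ) ((2 * S : ℕ) : ℤ),
        ∑ x ∈ Finset.Ico ((qD B C * S : ℕ) : ℤ) ((2 * qD B C * S : ℕ) : ℤ),
          (fourier m (thR B C (x, y)) : ℂ)‖
      ≤ ∑ y ∈ Finset.Ico (S : ℤ) ((2 * S : ℕ) : ℤ),
        K * S * (1 / |(m : ℝ)| + (S : ℝ) ^ (-(1 / 96) : ℝ)) :=
        (norm_sum_le _ _).trans (Finset.sum_le_sum hterm)
    _ = S * (K * S * (1 / |(m : ℝ)| + (S : ℝ) ^ (-(1 / 96) : ℝ))) := by
        rw [Finset.sum_const, Int.card_Ico, nsmul_eq_mul]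
        congr 1
        have : (((2 * S : ℕ) : ℤ) - (S : ℤ)).toNat = S := by push_cast; omega
        rw [this]
    _ = K * (S : ℝ) ^ 2 * (1 / |(m : ℝ)| + (S : ℝ) ^ (-(1 / 96) : ℝ)) := by ring
    _ ≤ K * (S : ℝ) ^ 2 * (1 / |(m : ℝ)| + (S : ℝ) ^ (-(1 / 100) : ℝ)) := by
        apply mul_le_mul_of_nonneg_left _ (by positivity)
        linarith

end Pool.Agent.LogPar
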