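import Pool.Agent.LogPar.Defs

set_option autoImplicit false

namespace Pool.Agent.LogPar

theorem SignFun.mono {c : UnitAddCircle → ℝ} {E : Set UnitAddCircle} {δ δ' : ℝ}
    (h : SignFun c E δ) (hd : δ ≤ δ') : SignFun c E δ' :=
  ⟨h.meas, h.measE, h.vol.trans hd, h.one, h.zero⟩

theorem log_two_mul_le {R : ℝ} (hR : 2 ≤ R) : Real.log (2 * R) ≤ 2 * Real.log R := by
  rw [Real.log_mul (by norm_num) (by linarith)]
  have := Real.log_le_log (by norm_num) hR
  linarith

end Pool.Agent.LogPar
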