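import Pool.Agent.LogPar.GeoD
import Pool.Agent.LogPar.EdgeD
import Pool.Agent.LogPar.Mono

set_option autoImplicit false

/-! # Definite case: assembly of the sign function -/

namespace Pool.Agent.LogPar

open Pool.Agent.FareyParity

theorem geD {B C : ℤ} (hD : B ^ 2 < 4 * C) : ∃ K : ℝ, 1 ≤ K ∧ ∃ A : ℕ,
    GEProp B C (fun v => v ≠ 0) (thD B C) (boxD B C) K A := by
  obtain ⟨Kg, hKg, hgeo⟩ := geoD hD
  obtain ⟨Ke, hKe, A, hedge⟩ := edgeD hD
  obtain ⟨Kb, hKb, hbox⟩ := boxD_norm hD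
  have hB : 0 ≤ |(B : ℝ)| := abs_nonneg _
  obtain ⟨K, hK⟩ : ∃ K : ℝ, K = Kg + Ke + Kb ^ 2 + 2 * Kg * Ke * 2 ^ A + 4 + |(B : ℝ)| := ⟨_, rfl⟩
  have hA2 : (1 : ℝ) ≤ 2 ^ A := one_le_pow₀ (by norm_num)
  have p1 : 0 ≤ 2 * Kg * Ke * 2 ^ A := by positivity
  have p2 : 1 ≤ Kb ^ 2 := one_le_pow₀ hKb
  have q1 : Kg ≤ K := by linarith
  have q2 : Ke ≤ K := by linarith
  have q3 : Kb ^ 2 ≤ K := by linarith
  have q4 : 2 * Kg * Ke * 2 ^ A ≤ K := by linarith
  have q5 : 4 + |(B : ℝ)| ≤ K := by linarith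
  refine ⟨K, by linarith, A, ?_⟩
  intro R H hH hR f hf Bd hBd
  have hK0 : 0 < K := by linarith
  have hK4 : 4 ≤ K := by linarith
  have hH0 : 0 < H := by linarith
  have hRK : K ≤ R := by nlinarith
  have hR1 : 4 ≤ R := by linarith
  have hR0 : 0 < R := by linarith
  obtain ⟨N, hN⟩ : ∃ N : ℝ, N = Ke * √(Bd.card : ℝ) * (2 * R) * Real.log (2 * R) ^ A := ⟨_, rfl⟩
  obtain ⟨c, E, hc, h1, h2, h3⟩ := hgeo R H (by linarith) (by nlinarith) f hf N (by
    intro P hP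
    rw [hN]
    apply hedge (2 * R) (by linarith) Bd P
    intro p hp
    obtain ⟨a1, a2, a3, a4⟩ := hP p hp
    refine ⟨a1, a2, a3, ?_⟩
    apply hBd
    · have b1 := abs_ip_le hD a3
      have b2 : ‖cv B C p.1‖ * ‖cv B C p.2‖ ≤ (2 * R) * (2 * R) := by gcongr
      have b3 : (4 + |(B : ℝ)|) * R ^ 2 ≤ K * R ^ 2 := by gcongr
      have b4 : |(B : ℝ)| ≤ |(B : ℝ)| * R ^ 2 := by
        have : 1 ≤ R ^ 2 := one_le_pow₀ (by linarith)
        nlinarith
      nlinarith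
    · have b1 := col_mul_col hf (B := B) (C := C) a3
      have b2 : f (val B C (ip B C p.1 p.2)) = col f B C p.1 * col f B C p.2 := by
        rw [b1]
        unfold val nf
        congr 2
        ring
      have n1 : p.1 ≠ 0 := by
        intro h0; rw [h0] at a3; simp [dt] at a3
      have n2 : p.2 ≠ 0 := by
        intro h0; rw [h0] at a3; simp [dt] at a3
      rcases col_val hf hD n1 with e1 | e1 <;> rcases col_val hf hD n2 with e2 | e2
      · exact absurd (e1.trans e2.symm) a4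
      · rw [b2, e1, e2]; norm_num
      · rw [b2, e1, e2]; norm_num
      · exact absurd (e1.trans e2.symm) a4)
  refine ⟨c, E, hc.mono ?_, ?_, ?_, ?_⟩
  · have l1 : 0 ≤ Real.log R := Real.log_nonneg (by linarith)
    have l2 := log_two_mul_le (show 2 ≤ R by linarith)
    have l3 : 0 ≤ Real.log (2 * R) := Real.log_nonneg (by linarith)
    calc Kg * N * H ^ 2 / R ^ 2
        = 2 * Kg * Ke * √(Bd.card : ℝ) * H ^ 2 * Real.log (2 * R) ^ A / R := by
          rw [hN]; field_simp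
      _ ≤ 2 * Kg * Ke * √(Bd.card : ℝ) * H ^ 2 * (2 * Real.log R) ^ A / R := by gcongr
      _ = (2 * Kg * Ke * 2 ^ A) * √(Bd.card : ℝ) * H ^ 2 * Real.log R ^ A / R := by
          rw [mul_pow]; ring
      _ ≤ K * √(Bd.card : ℝ) * H ^ 2 * Real.log R ^ A / R := by gcongr
  · intro v hv hvH x hx hx'
    apply h1 v hv _ x hx hx'
    have h5 : (0 : ℝ) < nf B C v := by exact_mod_cast nf_pos hD hv
    rw [abs_of_pos h5] at hvH
    refine le_trans ?_ hvH
    gcongr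
  · intro t ht x hx hx'
    apply h2 t _ x hx hx'
    refine ht.trans ?_
    gcongr
  · intro S hS v hv w hw t ht hE
    obtain ⟨v0, v1, v2⟩ := hbox S v hv
    obtain ⟨w0, w1, w2⟩ := hbox S w hw
    rw [← thD_mulv hD v0 w0] at hE ⊢
    rw [h3 _ (mulv_ne_zero hD v0 w0) _ t _ hE, col_mulv hf]
    · push_cast; ring
    · rw [cv_mulv hD, norm_mul]
      calc ‖cv B C v‖ * ‖cv B C w‖ ≤ (Kb * S) * (Kb * S) := by gcongr
        _ = Kb ^ 2 * (S : ℝ) ^ 2 := by ring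
        _ ≤ K * (S : ℝ) ^ 2 := by gcongr
        _ ≤ R := hS
    · refine ht.trans ?_
      gcongr

end Pool.Agent.LogPar
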