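import Pool.Agent.LogPar.GeoR
import Pool.Agent.LogPar.EdgeR
import Pool.Agent.LogPar.Mono

set_option autoImplicit false

/-! # Real case: assembly of the sign function -/

namespace Pool.Agent.LogPar

open Pool.Agent.FareyParity
open Pool.Agent.RealQuad (Disc Pos ang mg xc yc rt)

theorem geR {B C : ℤ} (hD : Disc B C) : ∃ K : ℝ, 1 ≤ K ∧ ∃ A : ℕ,
    GEProp B C (Pos B C) (thR B C) (boxD B C) K A := by
  obtain ⟨Kg, hKg, hgeo⟩ := geoR hD
  obtain ⟨Ke, hKe, A, hedge⟩ := edgeR hD Kg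
  obtain ⟨Kb, hKb, hbox⟩ := boxR hD
  have hB : 0 ≤ |(B : ℝ)| := abs_nonneg _
  have hrt : 0 < rt B C := RealQuad.rt_pos hD
  have hexp : 0 < Real.exp (2 * Kg) := Real.exp_pos _
  obtain ⟨K, hK⟩ : ∃ K : ℝ, K = Kg + Ke + Kg * Kb ^ 2 + Kg * Ke + 4 +
    (Real.exp (2 * Kg) + (|(B : ℝ)| + rt B C)) := ⟨_, rfl⟩
  have p1 : 0 ≤ Kg * Ke := by positivity
  have p2 : 0 ≤ Kg * Kb ^ 2 := by positivity
  have q1 : Kg ≤ K := by linarith
  have q2 : Ke ≤ K := by linarith
  have q3 : Kg * Kb ^ 2 ≤ K := by linarith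
  have q4 : Kg * Ke ≤ K := by linarith
  have q5 : Real.exp (2 * Kg) + (|(B : ℝ)| + rt B C) ≤ K := by linarith
  refine ⟨K, by linarith, A, ?_⟩
  intro R H hH hR f hf Bd hBd
  have hK0 : 0 < K := by linarith
  have hK4 : 4 ≤ K := by linarith
  have hH0 : 0 < H := by linarith
  have hRK : K ≤ R := by nlinarith
  have hR1 : 4 ≤ R := by linarith
  have hR0 : 0 < R := by linarith
  obtain ⟨N, hN⟩ : ∃ N : ℝ, N = Ke * √(Bd.card : ℝ) * R * Real.log R ^ A := ⟨_, rfl⟩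
  obtain ⟨c, E, hc, h1, h2, h3⟩ := hgeo R H (by linarith) (by nlinarith) f hf N (by
    intro P hP
    rw [hN]
    apply hedge R (by linarith) Bd P
    intro p hp
    obtain ⟨a1, a2, a3, a4, a5, a6, a7, a8⟩ := hP p hp
    refine ⟨a1, a2, a3, a4, a5, a6, a7, ?_⟩
    apply hBd
    · have b1 := RealQuad.abs_ip_le hD a1 a2 a3 a4 a5 a6 a7
      have hR2 : 1 ≤ R ^ 2 := one_le_pow₀ (by linarith)
      have b4 : (|(B : ℝ)| + rt B C) ≤ R ^ 2 * (|(B : ℝ)| + rt B C) := by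
        have : 0 ≤ |(B : ℝ)| + rt B C := by linarith
        nlinarith
      calc |(ip B C p.1 p.2 : ℝ)| ≤ R ^ 2 * Real.exp (2 * Kg) + (|(B : ℝ)| + rt B C) := b1
        _ ≤ R ^ 2 * Real.exp (2 * Kg) + R ^ 2 * (|(B : ℝ)| + rt B C) := by linarith
        _ = (Real.exp (2 * Kg) + (|(B : ℝ)| + rt B C)) * R ^ 2 := by ring
        _ ≤ K * R ^ 2 := by gcongr
    · have b1 := col_mul_col hf (B := B) (C := C) a7
      have b2 : f (val B C (ip B C p.1 p.2)) = col f B C p.1 * col f B C p.2 := by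
        rw [b1]
        unfold val nf
        congr 2
        ring
      rcases RealQuad.col_val hf hD a1.ne_zero with e1 | e1 <;>
        rcases RealQuad.col_val hf hD a2.ne_zero with e2 | e2
      · exact absurd (e1.trans e2.symm) a8
      · rw [b2, e1, e2]; norm_num
      · rw [b2, e1, e2]; norm_num
      · exact absurd (e1.trans e2.symm) a8)
  refine ⟨c, E, hc.mono ?_, ?_, ?_, ?_⟩
  · have l1 : 0 ≤ Real.log R := Real.log_nonneg (by linarith)
    calc Kg * N * H ^ 2 / R ^ 2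
        = (Kg * Ke) * √(Bd.card : ℝ) * H ^ 2 * Real.log R ^ A / R := by
          rw [hN]; field_simp
      _ ≤ K * √(Bd.card : ℝ) * H ^ 2 * Real.log R ^ A / R := by gcongr
  · intro v hv hvH x hx hx'
    apply h1 v hv _ x hx hx'
    have h5 : (0 : ℝ) < nf B C v := by exact_mod_cast hv.nf_pos hD
    rw [abs_of_pos h5] at hvH
    refine le_trans ?_ hvH
    gcongr
  · intro t ht x hx hx'
    apply h2 t _ x hx hx'
    refine ht.trans ?_
    gcongr
  · intro S hS v hv w hw t ht hE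
    obtain ⟨v0, -, -, v1, v2⟩ := hbox S v hv
    obtain ⟨w0, -, -, w1, w2⟩ := hbox S w hw
    rw [← thR_mulv hD v0 w0] at hE ⊢
    rw [h3 _ (pos_mulv hD v0 w0) _ t _ hE, col_mulv hf]
    · push_cast; ring
    · rw [mg_mulv hD v0 w0]
      have m1 := RealQuad.mg_pos v0
      have m2 := RealQuad.mg_pos w0
      calc Kg * (mg B C v * mg B C w) ≤ Kg * ((Kb * S) * (Kb * S)) := by gcongr
        _ = Kg * Kb ^ 2 * (S : ℝ) ^ 2 := by ring
        _ ≤ K * (S : ℝ) ^ 2 := by gcongr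
        _ ≤ R := hS
    · refine ht.trans ?_
      gcongr

end Pool.Agent.LogPar
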