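import Pool.Agent.LogPar.ThD
import Pool.Agent.LogPar.Arc

set_option autoImplicit false

/-! # Definite case: the sign function of the direction -/

namespace Pool.Agent.LogPar

open Pool.Agent.FareyParity MeasureTheory

variable {B C : ℤ}

namespace GeoD

open Complex ComplexConjugate

/-- the point of the unit circle -/
noncomputable def pc (x : UnitAddCircle) : ℂ := fourier 1 x

theorem pc_add (x y : UnitAddCircle) : pc (x + y) = pc x * pc y := by
  rw [pc, pc, pc, fourier_one, fourier_one, fourier_one, AddCircle.toCircle_add, Circle.coe_mul]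

theorem norm_pc (x : UnitAddCircle) : ‖pc x‖ = 1 := by
  rw [pc, fourier_one, Circle.norm_coe]

theorem pc_conj (x : UnitAddCircle) : conj (pc x) * pc x = 1 := by
  rw [mul_comm, mul_conj, normSq_eq_norm_sq, norm_pc]
  simp

theorem pc_coe (t : ℝ) : pc (t : UnitAddCircle) = exp ((2 * Real.pi * t : ℝ) * I) := by
  rw [pc, fourier_coe_apply]
  congr 1
  push_cast
  ring

theorem pc_coe_re (t : ℝ) : (pc (t : UnitAddCircle)).re = Real.cos (2 * Real.pi * t) := by
  rw [pc_coe, exp_ofReal_mul_I_re]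

theorem pc_coe_im (t : ℝ) : (pc (t : UnitAddCircle)).im = Real.sin (2 * Real.pi * t) := by
  rw [pc_coe, exp_ofReal_mul_I_im]

theorem continuous_pc : Continuous pc := (fourier (T := 1) 1).continuous

theorem four_norm_le (φ : UnitAddCircle) (h : 0 ≤ (pc φ).re) : 4 * ‖φ‖ ≤ |(pc φ).im| := by
  obtain ⟨r, rfl⟩ : ∃ r : ℝ, (r : UnitAddCircle) = φ := QuotientAddGroup.mk_surjective φ
  have hπ := Real.pi_pos
  rw [UnitAddCircle.norm_eq]
  rw [pc_coe_re] at h
  rw [pc_coe_im]
  have hr := abs_sub_round r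
  obtain ⟨s, hs⟩ : ∃ s : ℝ, s = r - round r := ⟨_, rfl⟩
  rw [← hs] at hr ⊢
  have e : 2 * Real.pi * r = 2 * Real.pi * s + (round r : ℤ) * (2 * Real.pi) := by
    rw [hs]
    ring
  rw [e, Real.cos_add_int_mul_two_pi] at h
  rw [e, Real.sin_add_int_mul_two_pi]
  have h1 : |2 * Real.pi * s| ≤ Real.pi / 2 := by
    by_contra hcon
    push Not at hcon
    have h2 : Real.cos |2 * Real.pi * s| < 0 := by
      apply Real.cos_neg_of_pi_div_two_lt_of_lt hcon
      rw [abs_mul, abs_of_pos (by positivity : 0 < 2 * Real.pi)]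
      nlinarith
    rw [Real.cos_abs] at h2
    linarith
  have h3 := Real.mul_abs_le_abs_sin h1
  calc 4 * |s| = 2 / Real.pi * |2 * Real.pi * s| := by
        rw [abs_mul, abs_of_pos (by positivity : 0 < 2 * Real.pi)]
        field_simp
        ring
    _ ≤ _ := h3

/-- coordinates of a lattice vector in the direction `x` -/
noncomputable def qq (B C : ℤ) (x : UnitAddCircle) (v : ℤ × ℤ) : ℂ := conj (pc x) * cv B C v

theorem norm_qq (x : UnitAddCircle) (v : ℤ × ℤ) : ‖qq B C x v‖ = ‖cv B C v‖ := by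
  rw [qq, norm_mul, norm_conj, norm_pc, one_mul]

theorem conj_qq_mul (hD : B ^ 2 < 4 * C) (x : UnitAddCircle) (z w : ℤ × ℤ) :
    conj (qq B C x z) * qq B C x w = cv B C (ip B C z w, dt z w) := by
  rw [← conj_cv_mul hD, qq, qq, map_mul, conj_conj]
  have := pc_conj x
  linear_combination (conj (cv B C z) * cv B C w) * this

theorem qq_im (hD : B ^ 2 < 4 * C) (x : UnitAddCircle) (z w : ℤ × ℤ) :
    (qq B C x z).re * (qq B C x w).im - (qq B C x z).im * (qq B C x w).re =
      bt B C * (dt z w : ℝ) := by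
  have h := congrArg Complex.im (conj_qq_mul hD x z w)
  rw [mul_im, conj_re, conj_im, cv_im] at h
  linarith

theorem cv_eq (hD : B ^ 2 < 4 * C) {v : ℤ × ℤ} (hv : v ≠ 0) :
    cv B C v = pc (thD B C v) * ‖cv B C v‖ := (fourier_one_thD hD hv).symm

theorem qq_mulv (hD : B ^ 2 < 4 * C) {v : ℤ × ℤ} (hv : v ≠ 0) (x : UnitAddCircle)
    (u : ℤ × ℤ) :
    qq B C (x + thD B C v) (mulv B C v u) = (‖cv B C v‖ : ℂ) * qq B C x u := by
  have h := pc_conj (thD B C v)
  rw [qq, qq, pc_add, map_mul, cv_mulv hD]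
  have e := cv_eq hD hv
  calc conj (pc x) * conj (pc (thD B C v)) * (cv B C v * cv B C u)
      = conj (pc x) * conj (pc (thD B C v)) * ((pc (thD B C v) * ‖cv B C v‖) * cv B C u) := by
        rw [← e]
    _ = (conj (pc (thD B C v)) * pc (thD B C v)) * (‖cv B C v‖ * (conj (pc x) * cv B C u)) := by
        ring
    _ = _ := by rw [h, one_mul]

theorem qq_add (x : UnitAddCircle) (t : ℝ) (u : ℤ × ℤ) :
    qq B C (x + (t : UnitAddCircle)) u = exp ((-(2 * Real.pi * t) : ℝ) * I) * qq B C x u := by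
  rw [qq, qq, pc_add, map_mul, pc_coe, ← exp_conj, map_mul, conj_I, conj_ofReal]
  push_cast
  ring_nf

theorem qq_add_re (x : UnitAddCircle) (t : ℝ) (u : ℤ × ℤ) :
    (qq B C (x + (t : UnitAddCircle)) u).re =
      Real.cos (2 * Real.pi * t) * (qq B C x u).re +
        Real.sin (2 * Real.pi * t) * (qq B C x u).im := by
  rw [qq_add, mul_re, exp_ofReal_mul_I_re, exp_ofReal_mul_I_im, Real.cos_neg, Real.sin_neg]
  ring

theorem qq_add_im (x : UnitAddCircle) (t : ℝ) (u : ℤ × ℤ) :
    (qq B C (x + (t : UnitAddCircle)) u).im =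
      Real.cos (2 * Real.pi * t) * (qq B C x u).im -
        Real.sin (2 * Real.pi * t) * (qq B C x u).re := by
  rw [qq_add, mul_im, exp_ofReal_mul_I_re, exp_ofReal_mul_I_im, Real.cos_neg, Real.sin_neg]
  ring

theorem qq_self (hD : B ^ 2 < 4 * C) {v : ℤ × ℤ} (hv : v ≠ 0) :
    qq B C (thD B C v) v = (‖cv B C v‖ : ℂ) := by
  have h := pc_conj (thD B C v)
  rw [qq]
  have e := cv_eq hD hv
  calc conj (pc (thD B C v)) * cv B C v
      = conj (pc (thD B C v)) * (pc (thD B C v) * ‖cv B C v‖) := by rw [← e]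
    _ = (conj (pc (thD B C v)) * pc (thD B C v)) * ‖cv B C v‖ := by ring
    _ = _ := by rw [h, one_mul]

theorem continuous_qq (v : ℤ × ℤ) : Continuous (fun x => qq B C x v) := by
  unfold qq
  exact (continuous_conj.comp continuous_pc).mul continuous_const

/-- angle between a direction and a lattice vector -/
theorem angle_le (hD : B ^ 2 < 4 * C) {v : ℤ × ℤ} (hv : v ≠ 0) {x : UnitAddCircle}
    (h : 0 < (qq B C x v).re) :
    dist x (thD B C v) ≤ |(qq B C x v).im| / (4 * (qq B C x v).re) := by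
  have h1 := one_le_norm_cv hD hv
  have e : pc (thD B C v - x) * ‖cv B C v‖ = qq B C x v := by
    have e1 : pc x * pc (thD B C v - x) = pc (thD B C v) := by
      rw [← pc_add]
      congr 1
      abel
    have e2 : cv B C v = (pc x * pc (thD B C v - x)) * ‖cv B C v‖ := by
      rw [e1]
      exact cv_eq hD hv
    calc pc (thD B C v - x) * ‖cv B C v‖
        = (conj (pc x) * pc x) * (pc (thD B C v - x) * ‖cv B C v‖) := by rw [pc_conj, one_mul]
      _ = conj (pc x) * ((pc x * pc (thD B C v - x)) * ‖cv B C v‖) := by ring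
      _ = qq B C x v := by rw [← e2, qq]
  have hre : (pc (thD B C v - x)).re * ‖cv B C v‖ = (qq B C x v).re := by
    rw [← e, re_mul_ofReal]
  have him : (pc (thD B C v - x)).im * ‖cv B C v‖ = (qq B C x v).im := by
    rw [← e, im_mul_ofReal]
  have hn : (qq B C x v).re ≤ ‖cv B C v‖ := by
    rw [← norm_qq x v]
    exact re_le_norm _
  have h2 : 0 ≤ (pc (thD B C v - x)).re := by
    by_contra hcon
    push Not at hcon
    have : (pc (thD B C v - x)).re * ‖cv B C v‖ < 0 := mul_neg_of_neg_of_pos hcon (by linarith)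
    linarith
  have h3 := four_norm_le _ h2
  have h4 : |(qq B C x v).im| = |(pc (thD B C v - x)).im| * ‖cv B C v‖ := by
    rw [← him, abs_mul, abs_of_nonneg (norm_nonneg _)]
  rw [dist_comm, dist_eq_norm, le_div_iff₀ (by linarith)]
  calc ‖thD B C v - x‖ * (4 * (qq B C x v).re) = (4 * ‖thD B C v - x‖) * (qq B C x v).re := by ring
    _ ≤ |(pc (thD B C v - x)).im| * ‖cv B C v‖ := by
        apply mul_le_mul h3 hn h.le (abs_nonneg _)
    _ = _ := h4.symm

/-- the thin rectangle in the direction `x` -/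
def Rect (B C : ℤ) (L w : ℝ) (x : UnitAddCircle) : Set (ℤ × ℤ) :=
  {v | 0 < (qq B C x v).re ∧ (qq B C x v).re ≤ L ∧ |(qq B C x v).im| ≤ w}

theorem zero_not_mem {L w : ℝ} {x : UnitAddCircle} {v : ℤ × ℤ} (h : v ∈ Rect B C L w x) :
    v ≠ 0 := by
  rintro rfl
  have h1 := h.1
  have : cv B C (0 : ℤ × ℤ) = 0 := by
    apply Complex.ext <;> simp
  rw [qq, this, mul_zero] at h1
  simp at h1

theorem triClosed_rect (L w : ℝ) (x : UnitAddCircle) : TriClosed (Rect B C L w x) := by
  intro P hP Q hQ v hv D a b hD ha hb hab heq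
  have hD' : (0 : ℝ) < D := by exact_mod_cast hD
  have ha' : (0 : ℝ) ≤ a := by exact_mod_cast ha
  have hb' : (0 : ℝ) ≤ b := by exact_mod_cast hb
  have hab' : (a : ℝ) + b ≤ D := by exact_mod_cast hab
  have hc : (D : ℂ) * qq B C x v = a * qq B C x P + b * qq B C x Q := by
    have h1 : (D : ℂ) * cv B C v = a * cv B C P + b * cv B C Q := by
      rw [← cv_smul, ← cv_smul, ← cv_smul, ← cv_add, heq]
    rw [qq, qq, qq]
    linear_combination (conj (pc x)) * h1
  have hre : (D : ℝ) * (qq B C x v).re = a * (qq B C x P).re + b * (qq B C x Q).re := by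
    have := congrArg Complex.re hc
    simpa using this
  have him : (D : ℝ) * (qq B C x v).im = a * (qq B C x P).im + b * (qq B C x Q).im := by
    have := congrArg Complex.im hc
    simpa using this
  have hpos : (0 : ℝ) < a + b := by
    rcases eq_or_lt_of_le ha with h0 | h0
    · rcases eq_or_lt_of_le hb with h0' | h0'
      · exfalso
        rw [← h0, ← h0', zero_smul, zero_smul, add_zero] at heq
        rcases smul_eq_zero.1 heq with h | h
        · exact hD.ne' h
        · exact hv h
      · have : (0 : ℝ) < b := by exact_mod_cast h0'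
        linarith
    · have : (0 : ℝ) < a := by exact_mod_cast h0
      linarith
  obtain ⟨hP1, hP2, hP3⟩ := hP
  obtain ⟨hQ1, hQ2, hQ3⟩ := hQ
  have hL : 0 ≤ L := hP1.le.trans hP2
  have hw : 0 ≤ w := (abs_nonneg _).trans hP3
  refine ⟨?_, ?_, ?_⟩
  · have h1 : 0 < a * (qq B C x P).re + b * (qq B C x Q).re := by
      rcases eq_or_lt_of_le ha' with h0 | h0
      · have hb0 : 0 < (b : ℝ) := by linarith
        have := mul_pos hb0 hQ1
        have := mul_nonneg ha' hP1.le
        linarith
      · have := mul_pos h0 hP1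
        have := mul_nonneg hb' hQ1.le
        linarith
    rw [← hre] at h1
    exact pos_of_mul_pos_right h1 hD'.le
  · refine le_of_mul_le_mul_left ?_ hD'
    rw [hre]
    calc a * (qq B C x P).re + b * (qq B C x Q).re ≤ a * L + b * L := by gcongr
      _ = (a + b) * L := by ring
      _ ≤ D * L := by gcongr
  · refine le_of_mul_le_mul_left ?_ hD'
    calc (D : ℝ) * |(qq B C x v).im| = |(D : ℝ) * (qq B C x v).im| := by
          rw [abs_mul, abs_of_pos hD']
      _ ≤ |a * (qq B C x P).im| + |b * (qq B C x Q).im| := by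
          rw [him]
          exact abs_add_le _ _
      _ = a * |(qq B C x P).im| + b * |(qq B C x Q).im| := by
          rw [abs_mul, abs_mul, abs_of_nonneg ha', abs_of_nonneg hb']
      _ ≤ a * w + b * w := by gcongr
      _ = (a + b) * w := by ring
      _ ≤ D * w := by gcongr

theorem norm_of_rect {L w : ℝ} {x : UnitAddCircle} {v : ℤ × ℤ} (h : v ∈ Rect B C L w x) :
    ‖cv B C v‖ ≤ L + w := by
  obtain ⟨h1, h2, h3⟩ := h
  rw [← norm_qq x v]
  calc ‖qq B C x v‖ ≤ |(qq B C x v).re| + |(qq B C x v).im| := norm_le_abs_re_add_abs_im _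
    _ ≤ L + w := by
        rw [abs_of_pos h1]
        linarith

open Classical in
/-- the bicoloured unimodular pairs -/
noncomputable def badF (f : ℕ → ℤ) (B C : ℤ) (R : ℝ) : Finset ((ℤ × ℤ) × (ℤ × ℤ)) :=
  (ballF B C (2 * R) ×ˢ ballF B C (2 * R)).filter (fun p => ‖cv B C p.1‖ ≤ 2 * R ∧
    ‖cv B C p.2‖ ≤ 2 * R ∧ dt p.1 p.2 = 1 ∧ col f B C p.1 ≠ col f B C p.2)

/-- the exceptional set -/
def EE (f : ℕ → ℤ) (B C : ℤ) (R r : ℝ) : Set UnitAddCircle :=
  ⋃ p ∈ badF f B C R, (Metric.closedBall (thD B C p.1) r ∪ Metric.closedBall (thD B C p.2) r)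

theorem measurableSet_EE (f : ℕ → ℤ) (B C : ℤ) (R r : ℝ) : MeasurableSet (EE f B C R r) :=
  Finset.measurableSet_biUnion _ (fun _ _ =>
    Metric.isClosed_closedBall.measurableSet.union Metric.isClosed_closedBall.measurableSet)

theorem vol_EE (f : ℕ → ℤ) (B C : ℤ) (R : ℝ) {r : ℝ} (h0 : 0 ≤ r) (h1 : r ≤ 1 / 2) :
    mu.real (EE f B C R r) ≤ (badF f B C R).card * (4 * r) := by
  refine (measureReal_biUnion_finset_le _ _).trans ?_
  rw [← nsmul_eq_mul]
  refine Finset.sum_le_card_nsmul _ _ _ (fun p _ => ?_)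
  refine (measureReal_union_le _ _).trans ?_
  rw [mu_ball _ h0 h1, mu_ball _ h0 h1]
  linarith

section main

variable {f : ℕ → ℤ} {R H : ℝ}

/-- the colour is constant on thin rectangles -/
theorem rect_const (hD : B ^ 2 < 4 * C) (hf : IsSign f) (hH : 0 < H) (hR : 1 ≤ R) (hHR : H ≤ R)
    {x : UnitAddCircle} (hx : x ∉ EE f B C R (H ^ 2 / (2 * bt B C * R ^ 2))) {u v : ℤ × ℤ}
    (hu : u ∈ Rect B C R (H / R) x) (hv : v ∈ Rect B C R (H / R) x) :
    col f B C u = col f B C v := by
  have hb := bt_pos hD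
  have hR0 : 0 < R := by linarith
  have main : ∀ u v : ℤ × ℤ, u ∈ Rect B C R (H / R) x → v ∈ Rect B C R (H / R) x →
      0 ≤ dt u v → col f B C u = col f B C v := by
    intro u v hu hv hdt
    by_contra hne
    obtain ⟨z, hz, w, hw, hz0, hw0, hdt1, hne1⟩ := exists_bad_pair (triClosed_rect R (H / R) x)
      (fun k v hk => col_smul hf hk v) (dt u v).toNat u v hu hv (zero_not_mem hu) (zero_not_mem hv)
      hne (Int.toNat_of_nonneg hdt).symm
    apply hx
    have hnz := norm_of_rect hz
    have hnw := norm_of_rect hw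
    have hle : R + H / R ≤ 2 * R := by
      have : H / R ≤ R := by
        rw [div_le_iff₀ hR0]
        nlinarith
      linarith
    have hmem : (z, w) ∈ badF f B C R := by
      rw [badF, Finset.mem_filter, Finset.mem_product]
      exact ⟨⟨mem_ballF hD hz0 (hnz.trans hle), mem_ballF hD hw0 (hnw.trans hle)⟩,
        hnz.trans hle, hnw.trans hle, hdt1, hne1⟩
    have him := qq_im hD x z w
    rw [hdt1, Int.cast_one, mul_one] at him
    -- a vector with large real part has its direction near `x`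
    have key : ∀ y : ℤ × ℤ, y ≠ 0 → y ∈ Rect B C R (H / R) x →
        bt B C * R / (2 * H) ≤ (qq B C x y).re →
        x ∈ Metric.closedBall (thD B C y) (H ^ 2 / (2 * bt B C * R ^ 2)) := by
      intro y hy0 hy hre
      rw [Metric.mem_closedBall]
      refine (angle_le hD hy0 hy.1).trans ?_
      have h4 : 0 < 4 * (bt B C * R / (2 * H)) := by positivity
      calc |(qq B C x y).im| / (4 * (qq B C x y).re) ≤ (H / R) / (4 * (bt B C * R / (2 * H))) := by
            apply div_le_div₀ (by positivity) hy.2.2 h4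
            linarith
        _ = H ^ 2 / (2 * bt B C * R ^ 2) := by
            field_simp
            ring
    have hsum : bt B C * R / H ≤ (qq B C x z).re + (qq B C x w).re := by
      have h1 : (qq B C x z).re * (qq B C x w).im ≤ (qq B C x z).re * (H / R) :=
        mul_le_mul_of_nonneg_left ((le_abs_self _).trans hw.2.2) hz.1.le
      have h2 : -((qq B C x z).im * (qq B C x w).re) ≤ (H / R) * (qq B C x w).re := by
        rw [← neg_mul]
        exact mul_le_mul_of_nonneg_right ((neg_le_abs _).trans hz.2.2) hw.1.le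
      have h3 : bt B C ≤ ((qq B C x z).re + (qq B C x w).re) * (H / R) := by linarith
      rw [div_le_iff₀ hH]
      calc bt B C * R ≤ (((qq B C x z).re + (qq B C x w).re) * (H / R)) * R := by gcongr
        _ = ((qq B C x z).re + (qq B C x w).re) * H := by field_simp
    have hhalf : bt B C * R / H = 2 * (bt B C * R / (2 * H)) := by
      field_simp
    rw [EE, Set.mem_iUnion₂]
    refine ⟨(z, w), hmem, ?_⟩
    rcases le_total (qq B C x w).re (qq B C x z).re with h | h
    · left
      exact key z hz0 hz (by linarith)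
    · right
      exact key w hw0 hw (by linarith)
  rcases le_total 0 (dt u v) with h | h
  · exact main u v hu hv h
  · refine (main v u hv hu ?_).symm
    rw [dt_swap]
    omega

open Classical in
/-- the sign function of the direction -/
noncomputable def cc (f : ℕ → ℤ) (B C : ℤ) (R w r : ℝ) (x : UnitAddCircle) : ℝ :=
  if x ∈ EE f B C R r then 0 else
    if ∃ v : ℤ × ℤ, v ∈ Rect B C R w x ∧ col f B C v = 1 then 1 else -1

theorem measurable_cc (f : ℕ → ℤ) (B C : ℤ) (R w r : ℝ) : Measurable (cc f B C R w r) := by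
  refine Measurable.ite (measurableSet_EE f B C R r) measurable_const
    (Measurable.ite ?_ measurable_const measurable_const)
  have h : {x : UnitAddCircle | ∃ v : ℤ × ℤ, v ∈ Rect B C R w x ∧ col f B C v = 1} =
      ⋃ v : ℤ × ℤ, {x : UnitAddCircle | v ∈ Rect B C R w x ∧ col f B C v = 1} := by
    ext x
    simp
  rw [h]
  refine MeasurableSet.iUnion (fun v => ?_)
  have hc := continuous_qq (B := B) (C := C) v
  have hre : Continuous (fun x => (qq B C x v).re) := continuous_re.comp hc
  have him : Continuous (fun x => |(qq B C x v).im|) := (continuous_im.comp hc).abs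
  have h1 : MeasurableSet {x : UnitAddCircle | 0 < (qq B C x v).re} :=
    (isOpen_lt continuous_const hre).measurableSet
  have h2 : MeasurableSet {x : UnitAddCircle | (qq B C x v).re ≤ R} :=
    (isClosed_le hre continuous_const).measurableSet
  have h3 : MeasurableSet {x : UnitAddCircle | |(qq B C x v).im| ≤ w} :=
    (isClosed_le him continuous_const).measurableSet
  exact (h1.inter (h2.inter h3)).inter (MeasurableSet.const _)

theorem cc_eq (hD : B ^ 2 < 4 * C) (hf : IsSign f) (hH : 0 < H) (hR : 1 ≤ R) (hHR : H ≤ R)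
    {x : UnitAddCircle} (hx : x ∉ EE f B C R (H ^ 2 / (2 * bt B C * R ^ 2))) {u : ℤ × ℤ}
    (hu : u ∈ Rect B C R (H / R) x) :
    cc f B C R (H / R) (H ^ 2 / (2 * bt B C * R ^ 2)) x = col f B C u := by
  rw [cc, if_neg hx]
  rcases col_val hf hD (zero_not_mem hu) with h | h
  · rw [if_pos ⟨u, hu, h⟩, h]
    simp
  · rw [if_neg, h]
    · simp
    · rintro ⟨v, hv, hv1⟩
      have := rect_const hD hf hH hR hHR hx hu hv
      omega

end main

end GeoD

open GeoD Complex ComplexConjugate in
/-- If there are at most `N` bicoloured unimodular pairs of vectors of norm `≤ 2 R`, then there is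
a sign function `c` of the direction with exceptional set of measure `≤ K N H² / R²`. -/
theorem geoD (hD : B ^ 2 < 4 * C) : ∃ K : ℝ, 1 ≤ K ∧ ∀ R H : ℝ, K ≤ H → K * H ≤ R →
    ∀ f : ℕ → ℤ, IsSign f → ∀ N : ℝ,
    (∀ P : Finset ((ℤ × ℤ) × (ℤ × ℤ)), (∀ p ∈ P, ‖cv B C p.1‖ ≤ 2 * R ∧ ‖cv B C p.2‖ ≤ 2 * R ∧
      dt p.1 p.2 = 1 ∧ col f B C p.1 ≠ col f B C p.2) → (P.card : ℝ) ≤ N) →
    ∃ (c : UnitAddCircle → ℝ) (E : Set UnitAddCircle), SignFun c E (K * N * H ^ 2 / R ^ 2) ∧
      (∀ v : ℤ × ℤ, v ≠ 0 → K * (nf B C v : ℝ) ≤ H → ∀ x, x ∉ E → x + thD B C v ∉ E →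
        c (x + thD B C v) = col f B C v * c x) ∧
      (∀ t : ℝ, |t| ≤ H / (K * R ^ 2) → ∀ x, x ∉ E → x + (t : UnitAddCircle) ∉ E →
        c (x + (t : UnitAddCircle)) = c x) ∧
      (∀ v : ℤ × ℤ, v ≠ 0 → ‖cv B C v‖ ≤ R → ∀ t : ℝ, |t| ≤ H / (K * R ^ 2) →
        thD B C v + (t : UnitAddCircle) ∉ E → c (thD B C v + (t : UnitAddCircle)) = col f B C v) := by
  have hb := bt_pos hD
  have hcB := cB_ge hD
  obtain ⟨K, hK⟩ : ∃ K : ℝ, K = 8 + 4 * cB B C ^ 2 + 2 / bt B C := ⟨_, rfl⟩
  have hbi : 0 < 2 / bt B C := by positivity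
  have hcsq : cB B C ≤ cB B C ^ 2 := by nlinarith
  have hK8 : 8 ≤ K := by rw [hK]; nlinarith [sq_nonneg (cB B C)]
  have hKc : 4 * cB B C ^ 2 ≤ K := by rw [hK]; linarith
  have hKb : 2 / bt B C ≤ K := by rw [hK]; nlinarith [sq_nonneg (cB B C)]
  have hπ := Real.pi_pos
  have hπ4 := Real.pi_le_four
  refine ⟨K, by linarith, ?_⟩
  intro R H hKH hKR f hf N hN
  have hK0 : 0 < K := by linarith
  have hH : 0 < H := by linarith
  have hHR : H ≤ R := by nlinarith
  have hR0 : 0 < R := by linarith
  have hR1 : 1 ≤ R := by nlinarith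
  have hHR' : H / R ≤ 1 / K := by
    rw [div_le_div_iff₀ hR0 hK0]
    linarith
  have hK18 : 1 / K ≤ 1 / 8 := one_div_le_one_div_of_le (by norm_num) hK8
  obtain ⟨r, hr⟩ : ∃ r : ℝ, r = H ^ 2 / (2 * bt B C * R ^ 2) := ⟨_, rfl⟩
  have hr0 : 0 ≤ r := by rw [hr]; positivity
  have hr1 : r ≤ 1 / 2 := by
    have h1 : H ^ 2 / R ^ 2 ≤ bt B C := by
      calc H ^ 2 / R ^ 2 = (H / R) ^ 2 := by rw [div_pow]
        _ ≤ (1 / K) ^ 2 := by gcongr
        _ ≤ 1 / K := by
            have : 0 < 1 / K := by positivity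
            nlinarith
        _ ≤ 1 / (2 / bt B C) := one_div_le_one_div_of_le hbi hKb
        _ = bt B C / 2 := by field_simp
        _ ≤ bt B C := by linarith
    have h2 : r = (H ^ 2 / R ^ 2) / bt B C / 2 := by
      rw [hr]
      field_simp
    rw [h2]
    have h3 : (H ^ 2 / R ^ 2) / bt B C ≤ 1 := by
      rw [div_le_one hb]
      exact h1
    linarith
  have hbadN : ((badF f B C R).card : ℝ) ≤ N := by
    apply hN
    intro p hp
    rw [badF, Finset.mem_filter] at hp
    exact hp.2
  have hN0 : 0 ≤ N := (Nat.cast_nonneg _).trans hbadN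
  refine ⟨cc f B C R (H / R) r, EE f B C R r, ⟨?_, ?_, ?_, ?_, ?_⟩, ?_, ?_, ?_⟩
  · exact measurable_cc f B C R (H / R) r
  · exact measurableSet_EE f B C R r
  · calc mu.real (EE f B C R r) ≤ (badF f B C R).card * (4 * r) := vol_EE f B C R hr0 hr1
      _ ≤ N * (4 * r) := by gcongr
      _ = (2 / bt B C) * N * H ^ 2 / R ^ 2 := by
          rw [hr]
          field_simp
          ring
      _ ≤ K * N * H ^ 2 / R ^ 2 := by gcongr
  · intro x hx
    rw [cc, if_neg hx]
    split_ifs
    · left; rfl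
    · right; rfl
  · intro x hx
    rw [cc, if_pos hx]
  · intro v hv hvH x hx hx'
    have h1 := one_le_norm_cv hD hv
    have hnf := norm_cv_sq hD v
    have hv0 : 0 < ‖cv B C v‖ := by linarith
    have hvn : ‖cv B C v‖ ≤ (nf B C v : ℝ) := by
      rw [← hnf]
      nlinarith
    have hvK : K * ‖cv B C v‖ ≤ H := by
      calc K * ‖cv B C v‖ ≤ K * (nf B C v : ℝ) := by gcongr
        _ ≤ H := hvH
    have hρ : cB B C ≤ R / ‖cv B C v‖ := by
      rw [le_div_iff₀ hv0]
      have : cB B C * ‖cv B C v‖ ≤ K * ‖cv B C v‖ := by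
        gcongr
        linarith [sq_nonneg (cB B C)]
      linarith
    obtain ⟨u, hu0, hun, hui, hur⟩ := dirichlet_dir hD (norm_pc x) hρ
    change |(qq B C x u).im| ≤ _ at hui
    change 0 ≤ (qq B C x u).re at hur
    have hui2 : cB B C ^ 2 / (R / ‖cv B C v‖) = cB B C ^ 2 * ‖cv B C v‖ / R := by
      field_simp
    rw [hui2] at hui
    have hcv : cB B C ^ 2 * ‖cv B C v‖ ≤ H := by
      have : cB B C ^ 2 * ‖cv B C v‖ ≤ K * ‖cv B C v‖ := by
        gcongr
        linarith [sq_nonneg (cB B C)]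
      linarith
    have hcn : cB B C ^ 2 * (nf B C v : ℝ) ≤ H := by
      have h0 : (0 : ℝ) ≤ nf B C v := by
        rw [← hnf]
        positivity
      have : cB B C ^ 2 * (nf B C v : ℝ) ≤ K * (nf B C v : ℝ) := by
        gcongr
        linarith [sq_nonneg (cB B C)]
      linarith
    have hui3 : |(qq B C x u).im| ≤ H / R := hui.trans (by gcongr)
    have hu1 := one_le_norm_cv hD hu0
    have hsq : (qq B C x u).re ^ 2 + (qq B C x u).im ^ 2 = ‖cv B C u‖ ^ 2 := by
      rw [← norm_qq x u, ← normSq_eq_norm_sq, normSq_apply]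
      ring
    have hrepos : 0 < (qq B C x u).re := by
      rcases eq_or_lt_of_le hur with h0 | h0
      · exfalso
        rw [← h0] at hsq
        have h3 : (qq B C x u).im ^ 2 ≤ (1 / 8) ^ 2 := by
          rw [← sq_abs]
          gcongr
          linarith
        nlinarith
      · exact h0
    have hrele : (qq B C x u).re ≤ R / ‖cv B C v‖ := by
      refine le_trans ?_ hun
      rw [← norm_qq x u]
      exact re_le_norm _
    have hmem1 : u ∈ Rect B C R (H / R) x := by
      refine ⟨hrepos, hrele.trans ?_, hui3⟩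
      exact div_le_self hR0.le h1
    have hmem2 : mulv B C v u ∈ Rect B C R (H / R) (x + thD B C v) := by
      change 0 < (qq B C _ _).re ∧ (qq B C _ _).re ≤ R ∧ |(qq B C _ _).im| ≤ H / R
      rw [qq_mulv hD hv, re_ofReal_mul, im_ofReal_mul]
      refine ⟨mul_pos hv0 hrepos, ?_, ?_⟩
      · calc ‖cv B C v‖ * (qq B C x u).re ≤ ‖cv B C v‖ * (R / ‖cv B C v‖) := by gcongr
          _ = R := by field_simp
      · rw [abs_mul, abs_of_pos hv0]
        calc ‖cv B C v‖ * |(qq B C x u).im| ≤ ‖cv B C v‖ * (cB B C ^ 2 * ‖cv B C v‖ / R) := by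
              gcongr
          _ = cB B C ^ 2 * (nf B C v : ℝ) / R := by
              rw [← hnf]
              ring
          _ ≤ H / R := by gcongr
    rw [hr] at hx hx' ⊢
    rw [cc_eq hD hf hH hR1 hHR hx hmem1, cc_eq hD hf hH hR1 hHR hx' hmem2, col_mulv hf]
    push_cast
    ring
  · intro t ht x hx hx'
    have hτ : |2 * Real.pi * t| ≤ H / R / (2 * R) * 2 := by
      rw [abs_mul, abs_of_pos (by positivity : 0 < 2 * Real.pi)]
      calc 2 * Real.pi * |t| ≤ 2 * Real.pi * (H / (K * R ^ 2)) := by gcongr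
        _ = (2 * Real.pi / K) * (H / R ^ 2) := by field_simp
        _ ≤ 1 * (H / R ^ 2) := by
            gcongr
            rw [div_le_one hK0]
            linarith
        _ = H / R / (2 * R) * 2 := by field_simp
    have hρ : cB B C ≤ R / 2 := by
      have : cB B C ≤ K / 4 := by nlinarith
      nlinarith
    obtain ⟨u, hu0, hun, hui, hur⟩ := dirichlet_dir hD (norm_pc x) hρ
    change |(qq B C x u).im| ≤ _ at hui
    change 0 ≤ (qq B C x u).re at hur
    have hτ1 : |2 * Real.pi * t| ≤ H / R / R := by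
      refine hτ.trans (le_of_eq ?_)
      field_simp
    have hui3 : |(qq B C x u).im| ≤ H / R / 2 := by
      refine hui.trans ?_
      have e : cB B C ^ 2 / (R / 2) = (4 * cB B C ^ 2) / R / 2 := by
        field_simp
        ring
      rw [e]
      gcongr
      linarith
    have hu1 := one_le_norm_cv hD hu0
    have hsq : (qq B C x u).re ^ 2 + (qq B C x u).im ^ 2 = ‖cv B C u‖ ^ 2 := by
      rw [← norm_qq x u, ← normSq_eq_norm_sq, normSq_apply]
      ring
    have hi16 : |(qq B C x u).im| ≤ 1 / 16 := by linarith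
    have hre2 : 1 / 2 ≤ (qq B C x u).re := by
      have h3 : (qq B C x u).im ^ 2 ≤ (1 / 16) ^ 2 := by
        rw [← sq_abs]
        gcongr
      nlinarith
    have hrele : (qq B C x u).re ≤ R / 2 := by
      refine le_trans ?_ hun
      rw [← norm_qq x u]
      exact re_le_norm _
    have hτ2 : |2 * Real.pi * t| ≤ 1 / 8 := by
      refine hτ1.trans ?_
      rw [div_le_iff₀ hR0]
      nlinarith
    have hcos : 1 / 2 ≤ Real.cos (2 * Real.pi * t) := by
      have h1 := Real.one_sub_sq_div_two_le_cos (x := 2 * Real.pi * t)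
      have h2 : (2 * Real.pi * t) ^ 2 ≤ (1 / 8) ^ 2 := by
        rw [← sq_abs]
        gcongr
      linarith
    have hsin : |Real.sin (2 * Real.pi * t)| ≤ |2 * Real.pi * t| := Real.abs_sin_le_abs
    have hmem1 : u ∈ Rect B C R (H / R) x := by
      refine ⟨by linarith, by linarith, ?_⟩
      have : 0 ≤ H / R := by positivity
      linarith
    have hmem2 : u ∈ Rect B C R (H / R) (x + (t : UnitAddCircle)) := by
      refine ⟨?_, ?_, ?_⟩
      · rw [qq_add_re]
        have h1 : 1 / 4 ≤ Real.cos (2 * Real.pi * t) * (qq B C x u).re := by nlinarith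
        have h2 : |Real.sin (2 * Real.pi * t) * (qq B C x u).im| ≤ 1 / 8 * (1 / 16) := by
          rw [abs_mul]
          exact mul_le_mul (hsin.trans hτ2) hi16 (abs_nonneg _) (by norm_num)
        have h3 := neg_abs_le (Real.sin (2 * Real.pi * t) * (qq B C x u).im)
        linarith
      · calc (qq B C (x + (t : UnitAddCircle)) u).re ≤ ‖qq B C (x + (t : UnitAddCircle)) u‖ :=
              re_le_norm _
          _ = ‖cv B C u‖ := norm_qq _ _
          _ ≤ R := by linarith
      · rw [qq_add_im]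
        calc |Real.cos (2 * Real.pi * t) * (qq B C x u).im -
              Real.sin (2 * Real.pi * t) * (qq B C x u).re|
            ≤ |Real.cos (2 * Real.pi * t) * (qq B C x u).im| +
              |Real.sin (2 * Real.pi * t) * (qq B C x u).re| := abs_sub _ _
          _ ≤ 1 * (H / R / 2) + (H / R / R) * (R / 2) := by
              rw [abs_mul, abs_mul, abs_of_nonneg hur]
              gcongr
              · exact Real.abs_cos_le_one _
              · exact hsin.trans hτ1
          _ = H / R := by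
              field_simp
              ring
    rw [hr] at hx hx' ⊢
    rw [cc_eq hD hf hH hR1 hHR hx hmem1, cc_eq hD hf hH hR1 hHR hx' hmem2]
  · intro v hv hvR t ht hx
    have h1 := one_le_norm_cv hD hv
    have hτ1 : |2 * Real.pi * t| ≤ H / R / R := by
      rw [abs_mul, abs_of_pos (by positivity : 0 < 2 * Real.pi)]
      calc 2 * Real.pi * |t| ≤ 2 * Real.pi * (H / (K * R ^ 2)) := by gcongr
        _ = (2 * Real.pi / K) * (H / R ^ 2) := by field_simp
        _ ≤ 1 * (H / R ^ 2) := by
            gcongr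
            rw [div_le_one hK0]
            linarith
        _ = H / R / R := by field_simp
    have hτ2 : |2 * Real.pi * t| ≤ 1 / 8 := by
      refine hτ1.trans ?_
      rw [div_le_iff₀ hR0]
      nlinarith
    have hcos : 1 / 2 ≤ Real.cos (2 * Real.pi * t) := by
      have h1 := Real.one_sub_sq_div_two_le_cos (x := 2 * Real.pi * t)
      have h2 : (2 * Real.pi * t) ^ 2 ≤ (1 / 8) ^ 2 := by
        rw [← sq_abs]
        gcongr
      linarith
    have hsin : |Real.sin (2 * Real.pi * t)| ≤ |2 * Real.pi * t| := Real.abs_sin_le_abs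
    have hs := qq_self hD hv
    have hmem : v ∈ Rect B C R (H / R) (thD B C v + (t : UnitAddCircle)) := by
      refine ⟨?_, ?_, ?_⟩
      · rw [qq_add_re, hs, ofReal_re, ofReal_im]
        nlinarith
      · calc (qq B C (thD B C v + (t : UnitAddCircle)) v).re
              ≤ ‖qq B C (thD B C v + (t : UnitAddCircle)) v‖ := re_le_norm _
          _ = ‖cv B C v‖ := norm_qq _ _
          _ ≤ R := hvR
      · rw [qq_add_im, hs, ofReal_re, ofReal_im, mul_zero, zero_sub, abs_neg, abs_mul,
          abs_of_nonneg (norm_nonneg (cv B C v))]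
        calc |Real.sin (2 * Real.pi * t)| * ‖cv B C v‖ ≤ (H / R / R) * R := by
              gcongr
              exact hsin.trans hτ1
          _ = H / R := by field_simp
    rw [hr] at hx ⊢
    rw [cc_eq hD hf hH hR1 hHR hx hmem]

end Pool.Agent.LogPar
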