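import Pool.Agent.LogPar.ThR
import Pool.Agent.LogPar.Arc

set_option autoImplicit false

/-! # Real case: the sign function of the direction -/

namespace Pool.Agent.LogPar

open Pool.Agent.FareyParity MeasureTheory
open Pool.Agent.RealQuad (Disc Pos ang mg xc yc rt)

variable {B C : ℤ}

namespace GeoR

open Pool.Agent.RealQuad

theorem lamR_pos (hD : Disc B C) : 0 < lamR B C := by
  have := lamR_ge hD
  linarith

theorem re_im_det (θ : ℝ) (z w : ℤ × ℤ) :
    re B C θ z * im B C θ w - im B C θ z * re B C θ w = 4 * rt B C * (dt z w : ℝ) := by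
  have e : Real.exp (-θ) * Real.exp θ = 1 := by
    rw [← Real.exp_add, neg_add_cancel, Real.exp_zero]
  have h : re B C θ z * im B C θ w - im B C θ z * re B C θ w =
      2 * (Real.exp (-θ) * Real.exp θ) * (yc B C z * xc B C w - xc B C z * yc B C w) := by
    unfold re im
    ring
  rw [h, e]
  simp only [xc, yc, dt]
  push_cast
  ring

theorem re_sq (hD : Disc B C) (θ : ℝ) (v : ℤ × ℤ) :
    re B C θ v ^ 2 - im B C θ v ^ 2 = 4 * (nf B C v : ℝ) := by
  have e12 : Real.exp (-θ) * Real.exp θ = 1 := by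
    rw [← Real.exp_add, neg_add_cancel, Real.exp_zero]
  rw [nf_eq hD]
  unfold re im
  linear_combination (4 * (xc B C v * yc B C v)) * e12

theorem re_shift (θ τ : ℝ) (v : ℤ × ℤ) :
    re B C (θ + τ) v = Real.cosh τ * re B C θ v - Real.sinh τ * im B C θ v := by
  have e1 : Real.exp (-(θ + τ)) = Real.exp (-θ) * Real.exp (-τ) := by
    rw [← Real.exp_add]
    congr 1
    ring
  unfold re im
  rw [e1, Real.exp_add, Real.cosh_eq, Real.sinh_eq]
  ring

theorem im_shift (θ τ : ℝ) (v : ℤ × ℤ) :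
    im B C (θ + τ) v = Real.cosh τ * im B C θ v - Real.sinh τ * re B C θ v := by
  have e1 : Real.exp (-(θ + τ)) = Real.exp (-θ) * Real.exp (-τ) := by
    rw [← Real.exp_add]
    congr 1
    ring
  unfold re im
  rw [e1, Real.exp_add, Real.cosh_eq, Real.sinh_eq]
  ring

theorem re_self {v : ℤ × ℤ} (hv : Pos B C v) : re B C (ang B C v) v = 2 * mg B C v := by
  have e12 : Real.exp (ang B C v) * Real.exp (-ang B C v) = 1 := by
    rw [← Real.exp_add, add_neg_cancel, Real.exp_zero]
  unfold re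
  rw [xc_eq hv, yc_eq hv]
  linear_combination (2 * mg B C v) * e12

theorem im_self {v : ℤ × ℤ} (hv : Pos B C v) : im B C (ang B C v) v = 0 := by
  unfold im
  rw [xc_eq hv, yc_eq hv]
  ring

theorem re_pos_of_pos {v : ℤ × ℤ} (hv : Pos B C v) (θ : ℝ) : 0 < re B C θ v :=
  add_pos (mul_pos (Real.exp_pos _) hv.1) (mul_pos (Real.exp_pos _) hv.2)

theorem continuous_re (v : ℤ × ℤ) : Continuous (fun θ => re B C θ v) := by
  unfold re
  fun_prop

theorem continuous_im (v : ℤ × ℤ) : Continuous (fun θ => im B C θ v) := by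
  unfold im
  fun_prop

/-- the thin open rectangle in the direction `θ` -/
def Rect (B C : ℤ) (L w θ : ℝ) : Set (ℤ × ℤ) :=
  {v | 0 < re B C θ v ∧ re B C θ v < L ∧ |im B C θ v| < w}

theorem zero_not_mem {L w θ : ℝ} {v : ℤ × ℤ} (h : v ∈ Rect B C L w θ) : v ≠ 0 := by
  rintro rfl
  have h1 := h.1
  simp [re, xc, yc] at h1

theorem comb_lt {a b X Y Z : ℝ} (ha : 0 ≤ a) (hb : 0 ≤ b) (hab : 0 < a + b) (hX : X < Z)
    (hY : Y < Z) : a * X + b * Y < (a + b) * Z := by
  rcases eq_or_lt_of_le ha with h | h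
  · have hb' : 0 < b := by linarith
    rw [← h]
    have := mul_lt_mul_of_pos_left hY hb'
    linarith
  · have h1 := mul_lt_mul_of_pos_left hX h
    have h2 := mul_le_mul_of_nonneg_left hY.le hb
    linarith

theorem triClosed_rect (L w θ : ℝ) : TriClosed (Rect B C L w θ) := by
  intro P hP Q hQ v hv D a b hD ha hb hab heq
  have hD' : (0 : ℝ) < D := by exact_mod_cast hD
  have ha' : (0 : ℝ) ≤ a := by exact_mod_cast ha
  have hb' : (0 : ℝ) ≤ b := by exact_mod_cast hb
  have hab' : (a : ℝ) + b ≤ D := by exact_mod_cast hab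
  have hre : (D : ℝ) * re B C θ v = a * re B C θ P + b * re B C θ Q := by
    rw [← re_smul, ← re_smul, ← re_smul, ← re_add, heq]
  have him : (D : ℝ) * im B C θ v = a * im B C θ P + b * im B C θ Q := by
    rw [← im_smul, ← im_smul, ← im_smul, ← im_add, heq]
  have hpos : (0 : ℝ) < a + b := by
    rcases eq_or_lt_of_le ha with h0 | h0
    · rcases eq_or_lt_of_le hb with h0' | h0'
      · exfalso
        rw [← h0, ← h0', zero_smul, zero_smul, add_zero] at heq
        rcases smul_eq_zero.1 heq with h | h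
        · exact hD.ne' h
        · exact hv h
      · have : (0 : ℝ) < b := by exact_mod_cast h0'
        linarith
    · have : (0 : ℝ) < a := by exact_mod_cast h0
      linarith
  obtain ⟨hP1, hP2, hP3⟩ := hP
  obtain ⟨hQ1, hQ2, hQ3⟩ := hQ
  have hL : 0 ≤ L := hP1.le.trans hP2.le
  have hw : 0 ≤ w := (abs_nonneg _).trans hP3.le
  refine ⟨?_, ?_, ?_⟩
  · have h1 := comb_lt ha' hb' hpos (neg_lt_zero.2 hP1) (neg_lt_zero.2 hQ1)
    have h2 : 0 < (D : ℝ) * re B C θ v := by
      rw [hre]
      linarith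
    exact pos_of_mul_pos_right h2 hD'.le
  · refine lt_of_mul_lt_mul_left ?_ hD'.le
    calc (D : ℝ) * re B C θ v = a * re B C θ P + b * re B C θ Q := hre
      _ < (a + b) * L := comb_lt ha' hb' hpos hP2 hQ2
      _ ≤ D * L := by gcongr
  · refine lt_of_mul_lt_mul_left ?_ hD'.le
    calc (D : ℝ) * |im B C θ v| = |(D : ℝ) * im B C θ v| := by
          rw [abs_mul, abs_of_pos hD']
      _ ≤ |a * im B C θ P| + |b * im B C θ Q| := by
          rw [him]
          exact abs_add_le _ _
      _ = a * |im B C θ P| + b * |im B C θ Q| := by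
          rw [abs_mul, abs_mul, abs_of_nonneg ha', abs_of_nonneg hb']
      _ < (a + b) * w := comb_lt ha' hb' hpos hP3 hQ3
      _ ≤ D * w := by gcongr

theorem col_eta {f : ℕ → ℤ} (hf : IsSign f) {η : ℤ × ℤ} (hη : nf B C η = 1) (v : ℤ × ℤ) :
    col f B C (mulv B C η v) = col f B C v := by
  rw [col_mulv hf]
  have : col f B C η = 1 := by
    rw [col, hη]
    exact sign_one hf
  rw [this, one_mul]

/-- translation by multiples of the period -/
theorem rect_shift (hD : Disc B C) {f : ℕ → ℤ} (hf : IsSign f) {L w : ℝ} {v : ℤ × ℤ} {s : ℝ}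
    (hv : v ∈ Rect B C L w (lamR B C * s)) (k : ℤ) :
    ∃ v' ∈ Rect B C L w (lamR B C * (s + k)), col f B C v' = col f B C v := by
  obtain ⟨hp, hn, -⟩ := etaR_spec hD
  have hm : mg B C (etaR B C) = 1 := by
    rw [mg, ← nf_eq hD, hn]
    simp
  have hmc : mg B C (cj B (etaR B C)) = 1 := by
    rw [mg_cj, hm]
  have hnc : nf B C (cj B (etaR B C)) = 1 := by
    rw [nf_cj, hn]
  have hac : ang B C (cj B (etaR B C)) = - lamR B C := ang_cj hp
  induction k using Int.induction_on with
  | zero => exact ⟨v, by simpa using hv, rfl⟩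
  | succ i ih =>
    obtain ⟨v', ⟨h1, h2, h3⟩, h4⟩ := ih
    refine ⟨mulv B C (etaR B C) v', ?_, by rw [col_eta hf hn, h4]⟩
    have e : lamR B C * (s + ((i + 1 : ℤ) : ℝ)) = lamR B C * (s + ((i : ℤ) : ℝ)) +
        ang B C (etaR B C) := by
      push_cast
      rw [lamR]
      ring
    rw [e]
    change 0 < re B C _ _ ∧ re B C _ _ < L ∧ |im B C _ _| < w
    rw [re_mulv hD hp, im_mulv hD hp, hm, one_mul, one_mul]
    exact ⟨h1, h2, h3⟩
  | pred i ih =>
    obtain ⟨v', ⟨h1, h2, h3⟩, h4⟩ := ih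
    refine ⟨mulv B C (cj B (etaR B C)) v', ?_, by rw [col_eta hf hnc, h4]⟩
    have e : lamR B C * (s + ((-(i : ℤ) - 1 : ℤ) : ℝ)) = lamR B C * (s + ((-(i : ℤ) : ℤ) : ℝ)) +
        ang B C (cj B (etaR B C)) := by
      rw [hac]
      push_cast
      ring
    rw [e]
    change 0 < re B C _ _ ∧ re B C _ _ < L ∧ |im B C _ _| < w
    rw [re_mulv hD hp.cj, im_mulv hD hp.cj, hmc, one_mul, one_mul]
    exact ⟨h1, h2, h3⟩

theorem exists_int {s s' : ℝ} (h : (s : UnitAddCircle) = (s' : UnitAddCircle)) :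
    ∃ n : ℤ, s' = s + n := by
  rw [QuotientAddGroup.eq, AddSubgroup.mem_zmultiples_iff] at h
  obtain ⟨n, hn⟩ := h
  refine ⟨n, ?_⟩
  rw [zsmul_eq_mul, mul_one] at hn
  rw [hn]
  ring

theorem norm_coe_le (x : ℝ) : ‖(x : UnitAddCircle)‖ ≤ |x| := by
  rw [UnitAddCircle.norm_eq]
  have := round_le x 0
  simpa using this

open Classical in
/-- the bicoloured unimodular pairs -/
noncomputable def badF (f : ℕ → ℤ) (B C : ℤ) (M R : ℝ) : Finset ((ℤ × ℤ) × (ℤ × ℤ)) :=
  (ballR B C M R ×ˢ ballR B C M R).filter (fun p => Pos B C p.1 ∧ Pos B C p.2 ∧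
      |ang B C p.1| ≤ M ∧ |ang B C p.2| ≤ M ∧ mg B C p.1 ≤ R ∧ mg B C p.2 ≤ R ∧
      dt p.1 p.2 = 1 ∧ col f B C p.1 ≠ col f B C p.2)

theorem mem_badF {f : ℕ → ℤ} {M R : ℝ} {p : (ℤ × ℤ) × (ℤ × ℤ)} : p ∈ badF f B C M R ↔
    (p.1 ∈ ballR B C M R ∧ p.2 ∈ ballR B C M R) ∧ Pos B C p.1 ∧ Pos B C p.2 ∧
      |ang B C p.1| ≤ M ∧ |ang B C p.2| ≤ M ∧ mg B C p.1 ≤ R ∧ mg B C p.2 ≤ R ∧
      dt p.1 p.2 = 1 ∧ col f B C p.1 ≠ col f B C p.2 := by
  classical
  unfold badF
  rw [Finset.mem_filter, Finset.mem_product]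

/-- the exceptional set -/
def EE (f : ℕ → ℤ) (B C : ℤ) (M R r : ℝ) : Set UnitAddCircle :=
  ⋃ p ∈ badF f B C M R, (Metric.closedBall (thR B C p.1) r ∪ Metric.closedBall (thR B C p.2) r)

theorem measurableSet_EE (f : ℕ → ℤ) (B C : ℤ) (M R r : ℝ) :
    MeasurableSet (EE f B C M R r) :=
  Finset.measurableSet_biUnion _ (fun _ _ =>
    Metric.isClosed_closedBall.measurableSet.union Metric.isClosed_closedBall.measurableSet)

theorem vol_EE (f : ℕ → ℤ) (B C : ℤ) (M R : ℝ) {r : ℝ} (h0 : 0 ≤ r) (h1 : r ≤ 1 / 2) :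
    mu.real (EE f B C M R r) ≤ (badF f B C M R).card * (4 * r) := by
  refine (measureReal_biUnion_finset_le _ _).trans ?_
  rw [← nsmul_eq_mul]
  refine Finset.sum_le_card_nsmul _ _ _ (fun p _ => ?_)
  refine (measureReal_union_le _ _).trans ?_
  rw [mu_ball _ h0 h1, mu_ball _ h0 h1]
  linarith

section main

variable {f : ℕ → ℤ} {R H M : ℝ}

/-- the standing inequalities -/
structure Par (B C : ℤ) (M R H : ℝ) : Prop where
  H_pos : 0 < H
  R_one : 1 ≤ R
  M_ge : lamR B C + 1 ≤ M
  w_le : H / R ≤ 1 / 2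
  rt_le : H / R ≤ rt B C

/-- the radius of the exceptional arcs -/
noncomputable def rad (B C : ℤ) (R H : ℝ) : ℝ := 2 * H ^ 2 / (rt B C * R ^ 2)

/-- the colour is constant on thin rectangles, for directions in a fundamental domain -/
theorem rect_const (hD : Disc B C) (hf : IsSign f) (hp : Par B C M R H) {s : ℝ} (hs0 : 0 ≤ s)
    (hs1 : s ≤ 1) (hx : (s : UnitAddCircle) ∉ EE f B C M R (rad B C R H)) {u v : ℤ × ℤ}
    (hu : u ∈ Rect B C R (H / R) (lamR B C * s)) (hv : v ∈ Rect B C R (H / R) (lamR B C * s)) :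
    col f B C u = col f B C v := by
  obtain ⟨hH, hR, hM, hw2, hwrt⟩ := hp
  have hb := rt_pos hD
  have hlam := lamR_pos hD
  have hlam2 := lamR_ge hD
  have hR0 : 0 < R := by linarith
  have hw0 : 0 < H / R := by positivity
  obtain ⟨θ, hθ⟩ : ∃ θ, θ = lamR B C * s := ⟨_, rfl⟩
  rw [← hθ] at hu hv
  have hθ0 : 0 ≤ θ := by rw [hθ]; positivity
  have hθ1 : θ ≤ lamR B C := by
    rw [hθ]
    nlinarith
  -- a vector of the rectangle
  have hvec : ∀ y ∈ Rect B C R (H / R) θ, Pos B C y ∧ 2 * mg B C y ≤ re B C θ y ∧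
      2 * mg B C y * |ang B C y - θ| ≤ |im B C θ y| ∧ |ang B C y| ≤ M ∧ mg B C y ≤ R := by
    intro y hy
    obtain ⟨h1, h2, h3⟩ := pos_of_im_small hD (zero_not_mem hy) hy.1.le
      (by linarith [hy.2.2] : |im B C θ y| ≤ 1)
    have hm1 := one_le_mg hD h1
    refine ⟨h1, h2, h3, ?_, by linarith [hy.2.1]⟩
    have h4 : |ang B C y - θ| ≤ 1 := by
      have h5 : |ang B C y - θ| ≤ mg B C y * |ang B C y - θ| :=
        le_mul_of_one_le_left (abs_nonneg _) hm1
      linarith [hy.2.2]
    have h6 := abs_le.1 h4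
    rw [abs_le]
    constructor <;> linarith [h6.1, h6.2]
  have main : ∀ u v : ℤ × ℤ, u ∈ Rect B C R (H / R) θ → v ∈ Rect B C R (H / R) θ →
      0 ≤ dt u v → col f B C u = col f B C v := by
    intro u v hu hv hdt
    by_contra hne
    obtain ⟨z, hz, w, hw, hz0, hw0', hdt1, hne1⟩ := exists_bad_pair (triClosed_rect R (H / R) θ)
      (fun k v hk => col_smul hf hk v) (dt u v).toNat u v hu hv (zero_not_mem hu) (zero_not_mem hv)
      hne (Int.toNat_of_nonneg hdt).symm
    apply hx
    obtain ⟨z1, z2, z3, z4, z5⟩ := hvec z hz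
    obtain ⟨w1, w2, w3, w4, w5⟩ := hvec w hw
    have hmem : (z, w) ∈ badF f B C M R := by
      rw [mem_badF]
      have hM0 : 0 ≤ M := by linarith
      exact ⟨⟨(mem_ballR hD hM0).2 ⟨z1, z4, z5⟩, (mem_ballR hD hM0).2 ⟨w1, w4, w5⟩⟩,
        z1, w1, z4, w4, z5, w5, hdt1, hne1⟩
    have him := re_im_det (B := B) (C := C) θ z w
    rw [hdt1, Int.cast_one, mul_one] at him
    have key : ∀ y : ℤ × ℤ, y ∈ Rect B C R (H / R) θ →
        2 * rt B C * R / H ≤ re B C θ y →
        (s : UnitAddCircle) ∈ Metric.closedBall (thR B C y) (rad B C R H) := by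
      intro y hy hre
      obtain ⟨y1, y2, y3, y4, y5⟩ := hvec y hy
      have hsq := re_sq hD θ y
      have hmg : (nf B C y : ℝ) = mg B C y ^ 2 := by
        rw [mg_sq y1, nf_eq hD]
      rw [hmg] at hsq
      have hre2 : 2 ≤ re B C θ y := by
        refine le_trans ?_ hre
        rw [le_div_iff₀ hH]
        rw [div_le_iff₀ hR0] at hwrt
        nlinarith
      have him2 : im B C θ y ^ 2 ≤ 1 := by
        rw [← sq_abs]
        have := hy.2.2
        have h0 := abs_nonneg (im B C θ y)
        nlinarith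
      have hm := mg_pos y1
      have hmre : re B C θ y / 2 ≤ 2 * mg B C y := by
        by_contra hcon
        push Not at hcon
        nlinarith
      have hang : |ang B C y - θ| ≤ H ^ 2 / (rt B C * R ^ 2) := by
        have h1 : re B C θ y / 2 * |ang B C y - θ| ≤ H / R := by
          calc re B C θ y / 2 * |ang B C y - θ| ≤ 2 * mg B C y * |ang B C y - θ| := by gcongr
            _ ≤ |im B C θ y| := y3
            _ ≤ H / R := hy.2.2.le
        have h2 : rt B C * R / H * |ang B C y - θ| ≤ H / R := by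
          have h2' : rt B C * R / H ≤ re B C θ y / 2 := by
            have : 2 * rt B C * R / H = 2 * (rt B C * R / H) := by ring
            linarith
          exact (mul_le_mul_of_nonneg_right h2' (abs_nonneg _)).trans h1
        have h3 : |ang B C y - θ| = (rt B C * R / H * |ang B C y - θ|) * (H / (rt B C * R)) := by
          field_simp
        rw [h3]
        calc (rt B C * R / H * |ang B C y - θ|) * (H / (rt B C * R)) ≤
            (H / R) * (H / (rt B C * R)) := by gcongr
          _ = H ^ 2 / (rt B C * R ^ 2) := by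
              field_simp
      rw [Metric.mem_closedBall, dist_comm, dist_eq_norm, thR, ← AddCircle.coe_sub]
      refine (norm_coe_le _).trans ?_
      have e : ang B C y / lamR B C - s = (ang B C y - θ) / lamR B C := by
        rw [hθ]
        field_simp
      rw [e, abs_div, abs_of_pos hlam]
      calc |ang B C y - θ| / lamR B C ≤ (H ^ 2 / (rt B C * R ^ 2)) / (1 / 2) := by gcongr
        _ = rad B C R H := by
            rw [rad]
            field_simp
    have hsum : 4 * rt B C * R / H ≤ re B C θ z + re B C θ w := by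
      have h1 : re B C θ z * im B C θ w ≤ re B C θ z * (H / R) :=
        mul_le_mul_of_nonneg_left ((le_abs_self _).trans hw.2.2.le) hz.1.le
      have h2 : -(im B C θ z * re B C θ w) ≤ (H / R) * re B C θ w := by
        rw [← neg_mul]
        exact mul_le_mul_of_nonneg_right ((neg_le_abs _).trans hz.2.2.le) hw.1.le
      have h3 : 4 * rt B C ≤ (re B C θ z + re B C θ w) * (H / R) := by linarith
      rw [div_le_iff₀ hH]
      calc 4 * rt B C * R ≤ ((re B C θ z + re B C θ w) * (H / R)) * R := by gcongr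
        _ = (re B C θ z + re B C θ w) * H := by field_simp
    have hhalf : 4 * rt B C * R / H = 2 * (2 * rt B C * R / H) := by ring
    rw [EE, Set.mem_iUnion₂]
    refine ⟨(z, w), hmem, ?_⟩
    rcases le_total (re B C θ w) (re B C θ z) with h | h
    · left
      exact key z hz (by linarith)
    · right
      exact key w hw (by linarith)
  rcases le_total 0 (dt u v) with h | h
  · exact main u v hu hv h
  · refine (main v u hv hu ?_).symm
    rw [dt_swap]
    omega

/-- the colour is constant on thin rectangles, for all representatives of the direction -/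
theorem rect_const' (hD : Disc B C) (hf : IsSign f) (hp : Par B C M R H) {s s' : ℝ}
    (hx : (s : UnitAddCircle) ∉ EE f B C M R (rad B C R H))
    (hss : (s : UnitAddCircle) = (s' : UnitAddCircle)) {u v : ℤ × ℤ}
    (hu : u ∈ Rect B C R (H / R) (lamR B C * s)) (hv : v ∈ Rect B C R (H / R) (lamR B C * s')) :
    col f B C u = col f B C v := by
  obtain ⟨n, hn⟩ := exists_int hss
  obtain ⟨u', hu', hcu⟩ := rect_shift hD hf hu (-⌊s⌋)
  obtain ⟨v', hv', hcv⟩ := rect_shift hD hf hv (-n - ⌊s⌋)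
  have e1 : s + ((-⌊s⌋ : ℤ) : ℝ) = Int.fract s := by
    push_cast
    rw [Int.fract]
    ring
  have e2 : s' + ((-n - ⌊s⌋ : ℤ) : ℝ) = Int.fract s := by
    rw [hn, Int.fract]
    push_cast
    ring
  rw [e1] at hu'
  rw [e2] at hv'
  have hx' : ((Int.fract s : ℝ) : UnitAddCircle) ∉ EE f B C M R (rad B C R H) := by
    have : ((Int.fract s : ℝ) : UnitAddCircle) = (s : UnitAddCircle) := by
      rw [QuotientAddGroup.eq, AddSubgroup.mem_zmultiples_iff]
      refine ⟨⌊s⌋, ?_⟩
      rw [zsmul_eq_mul, mul_one, Int.fract]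
      ring
    rw [this]
    exact hx
  rw [← hcu, ← hcv]
  exact rect_const hD hf hp (Int.fract_nonneg s) (Int.fract_lt_one s).le hx' hu' hv'

open Classical in
/-- the sign function of the direction -/
noncomputable def cc (f : ℕ → ℤ) (B C : ℤ) (M R w r : ℝ) (x : UnitAddCircle) : ℝ :=
  if x ∈ EE f B C M R r then 0 else
    if ∃ (v : ℤ × ℤ) (s : ℝ), (s : UnitAddCircle) = x ∧ v ∈ Rect B C R w (lamR B C * s) ∧
      col f B C v = 1 then 1 else -1

theorem measurable_cc (f : ℕ → ℤ) (B C : ℤ) (M R w r : ℝ) : Measurable (cc f B C M R w r) := by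
  refine Measurable.ite (measurableSet_EE f B C M R r) measurable_const
    (Measurable.ite ?_ measurable_const measurable_const)
  have h : {x : UnitAddCircle | ∃ (v : ℤ × ℤ) (s : ℝ), (s : UnitAddCircle) = x ∧
      v ∈ Rect B C R w (lamR B C * s) ∧ col f B C v = 1} =
      ⋃ v : ℤ × ℤ, ((fun s : ℝ => (s : UnitAddCircle)) ''
        {s : ℝ | v ∈ Rect B C R w (lamR B C * s) ∧ col f B C v = 1}) := by
    ext x
    simp only [Set.mem_iUnion, Set.mem_image]
    constructor
    · rintro ⟨v, s, h1, h2, h3⟩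
      exact ⟨v, s, ⟨h2, h3⟩, h1⟩
    · rintro ⟨v, s, ⟨h2, h3⟩, h1⟩
      exact ⟨v, s, h1, h2, h3⟩
  rw [h]
  refine MeasurableSet.iUnion (fun v => IsOpen.measurableSet ?_)
  refine QuotientAddGroup.isOpenMap_coe _ ?_
  have hre : Continuous (fun s : ℝ => re B C (lamR B C * s) v) :=
    (continuous_re v).comp (continuous_const.mul continuous_id)
  have him : Continuous (fun s : ℝ => |im B C (lamR B C * s) v|) :=
    ((continuous_im v).comp (continuous_const.mul continuous_id)).abs
  by_cases hc : col f B C v = 1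
  · have h1 : IsOpen {s : ℝ | 0 < re B C (lamR B C * s) v} := isOpen_lt continuous_const hre
    have h2 : IsOpen {s : ℝ | re B C (lamR B C * s) v < R} := isOpen_lt hre continuous_const
    have h3 : IsOpen {s : ℝ | |im B C (lamR B C * s) v| < w} := isOpen_lt him continuous_const
    convert! h1.inter (h2.inter h3) using 1
    ext s
    simp only [Rect, Set.mem_inter_iff]
    exact ⟨fun h => h.1, fun h => ⟨h, hc⟩⟩
  · convert! isOpen_empty using 1
    ext s
    simp only [Set.mem_empty_iff_false, iff_false]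
    exact fun h => hc h.2

theorem cc_eq (hD : Disc B C) (hf : IsSign f) (hp : Par B C M R H) {s : ℝ}
    {x : UnitAddCircle} (hsx : (s : UnitAddCircle) = x)
    (hx : x ∉ EE f B C M R (rad B C R H)) {u : ℤ × ℤ}
    (hu : u ∈ Rect B C R (H / R) (lamR B C * s)) :
    cc f B C M R (H / R) (rad B C R H) x = col f B C u := by
  rw [cc, if_neg hx]
  rcases Pool.Agent.RealQuad.col_val hf hD (zero_not_mem hu) with h | h
  · rw [if_pos ⟨u, s, hsx, hu, h⟩, h]
    simp
  · rw [if_neg, h]
    · simp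
    · rintro ⟨v, s', hs', hv, hv1⟩
      subst hsx
      have := rect_const' hD hf hp hx hs'.symm hu hv
      omega

end main

end GeoR

open GeoR Pool.Agent.RealQuad in
theorem geoR (hD : Disc B C) : ∃ K : ℝ, 1 ≤ K ∧ ∀ R H : ℝ, K ≤ H → K * H ≤ R →
    ∀ f : ℕ → ℤ, IsSign f → ∀ N : ℝ,
    (∀ P : Finset ((ℤ × ℤ) × (ℤ × ℤ)), (∀ p ∈ P, Pos B C p.1 ∧ Pos B C p.2 ∧
      |ang B C p.1| ≤ K ∧ |ang B C p.2| ≤ K ∧ mg B C p.1 ≤ R ∧ mg B C p.2 ≤ R ∧
      dt p.1 p.2 = 1 ∧ col f B C p.1 ≠ col f B C p.2) → (P.card : ℝ) ≤ N) →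
    ∃ (c : UnitAddCircle → ℝ) (E : Set UnitAddCircle), SignFun c E (K * N * H ^ 2 / R ^ 2) ∧
      (∀ v : ℤ × ℤ, Pos B C v → K * (nf B C v : ℝ) ≤ H → ∀ x, x ∉ E → x + thR B C v ∉ E →
        c (x + thR B C v) = col f B C v * c x) ∧
      (∀ t : ℝ, |t| ≤ H / (K * R ^ 2) → ∀ x, x ∉ E → x + (t : UnitAddCircle) ∉ E →
        c (x + (t : UnitAddCircle)) = c x) ∧
      (∀ v : ℤ × ℤ, Pos B C v → K * mg B C v ≤ R → ∀ t : ℝ, |t| ≤ H / (K * R ^ 2) →
        thR B C v + (t : UnitAddCircle) ∉ E → c (thR B C v + (t : UnitAddCircle)) = col f B C v) := by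
  have hb := rt_pos hD
  have hlam := lamR_pos hD
  have hcM := cM_ge hD hlam.le
  obtain ⟨c₀, hc₀⟩ : ∃ c₀, c₀ = cM B C (lamR B C) := ⟨_, rfl⟩
  rw [← hc₀] at hcM
  obtain ⟨K, hK⟩ : ∃ K : ℝ, K = 8 + 16 * c₀ ^ 2 + 8 / rt B C + 8 * lamR B C := ⟨_, rfl⟩
  have hbi : 0 < 8 / rt B C := by positivity
  have hcsq : c₀ ≤ c₀ ^ 2 := by nlinarith
  have hc0 : 0 ≤ c₀ ^ 2 := sq_nonneg _
  have hK8 : 8 ≤ K := by rw [hK]; linarith
  have hKc : 16 * c₀ ^ 2 ≤ K := by rw [hK]; linarith
  have hKb : 8 / rt B C ≤ K := by rw [hK]; linarith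
  have hKl : 8 * lamR B C ≤ K := by rw [hK]; linarith
  refine ⟨K, by linarith, ?_⟩
  intro R H hKH hKR f hf N hN
  have hK0 : 0 < K := by linarith
  have hH : 0 < H := by linarith
  have hHR : H ≤ R := by nlinarith
  have hR0 : 0 < R := by linarith
  have hR1 : 1 ≤ R := by nlinarith
  have hHR' : H / R ≤ 1 / K := by
    rw [div_le_div_iff₀ hR0 hK0]
    linarith
  have hK18 : 1 / K ≤ 1 / 8 := one_div_le_one_div_of_le (by norm_num) hK8
  have hKrt : 1 / K ≤ rt B C / 8 := by
    calc 1 / K ≤ 1 / (8 / rt B C) := one_div_le_one_div_of_le hbi hKb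
      _ = rt B C / 8 := by field_simp
  have hw0 : 0 < H / R := by positivity
  have hp : Par B C K R H := by
    refine ⟨hH, hR1, ?_, by linarith, by linarith⟩
    rw [hK]
    linarith
  have hr0 : 0 ≤ rad B C R H := by
    rw [rad]
    positivity
  have hr1 : rad B C R H ≤ 1 / 2 := by
    have h1 : rad B C R H = 2 * (H / R) ^ 2 / rt B C := by
      rw [rad]
      field_simp
    rw [h1, div_le_iff₀ hb]
    nlinarith
  have hbadN : ((badF f B C K R).card : ℝ) ≤ N := by
    apply hN
    intro p hp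
    exact (mem_badF.1 hp).2
  have hN0 : 0 ≤ N := (Nat.cast_nonneg _).trans hbadN
  -- representatives
  have hrep : ∀ x : UnitAddCircle, ∃ s : ℝ, (s : UnitAddCircle) = x ∧ |lamR B C * s| ≤ lamR B C := by
    intro x
    obtain ⟨r, rfl⟩ : ∃ r : ℝ, (r : UnitAddCircle) = x := QuotientAddGroup.mk_surjective x
    refine ⟨Int.fract r, ?_, ?_⟩
    · rw [QuotientAddGroup.eq, AddSubgroup.mem_zmultiples_iff]
      refine ⟨⌊r⌋, ?_⟩
      rw [zsmul_eq_mul, mul_one, Int.fract]
      ring
    · have h1 := Int.fract_nonneg r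
      have h2 := (Int.fract_lt_one r).le
      rw [abs_of_nonneg (by positivity)]
      nlinarith
  refine ⟨cc f B C K R (H / R) (rad B C R H), EE f B C K R (rad B C R H),
    ⟨?_, ?_, ?_, ?_, ?_⟩, ?_, ?_, ?_⟩
  · exact measurable_cc f B C K R (H / R) _
  · exact measurableSet_EE f B C K R _
  · calc mu.real (EE f B C K R (rad B C R H))
          ≤ (badF f B C K R).card * (4 * rad B C R H) := vol_EE f B C K R hr0 hr1
      _ ≤ N * (4 * rad B C R H) := by gcongr
      _ = (8 / rt B C) * N * H ^ 2 / R ^ 2 := by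
          rw [rad]
          field_simp
          ring
      _ ≤ K * N * H ^ 2 / R ^ 2 := by gcongr
  · intro x hx
    rw [cc, if_neg hx]
    split_ifs
    · left; rfl
    · right; rfl
  · intro x hx
    rw [cc, if_pos hx]
  · intro v hv hvH x hx hx'
    have h1 := one_le_mg hD hv
    have hnf : (nf B C v : ℝ) = mg B C v ^ 2 := by
      rw [mg_sq hv, nf_eq hD]
    have hv0 : 0 < mg B C v := by linarith
    rw [hnf] at hvH
    have hvK : K * mg B C v ≤ H := by
      have : mg B C v ≤ mg B C v ^ 2 := by nlinarith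
      have := mul_le_mul_of_nonneg_left this hK0.le
      linarith
    obtain ⟨s, hsx, hsl⟩ := hrep x
    have hρ : cM B C (lamR B C) ≤ R / (2 * mg B C v) := by
      rw [le_div_iff₀ (by positivity), ← hc₀]
      have h2 : c₀ * (2 * mg B C v) ≤ K * mg B C v := by nlinarith
      linarith
    obtain ⟨u, hu0, hun, hui, hur⟩ := dirichlet_dir hD hlam.le hsl hρ
    have hui2 : cM B C (lamR B C) ^ 2 / (R / (2 * mg B C v)) = 2 * c₀ ^ 2 * mg B C v / R := by
      rw [← hc₀]
      field_simp
    rw [hui2] at hui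
    have hcv : 2 * c₀ ^ 2 * mg B C v < H := by
      have : 2 * c₀ ^ 2 * mg B C v ≤ K / 8 * mg B C v := by
        gcongr
        linarith
      linarith
    have hcn : 2 * c₀ ^ 2 * mg B C v ^ 2 < H := by
      have : 2 * c₀ ^ 2 * mg B C v ^ 2 ≤ K / 8 * mg B C v ^ 2 := by
        gcongr
        linarith
      linarith
    have hui3 : |im B C (lamR B C * s) u| < H / R := by
      refine hui.trans_lt ?_
      exact div_lt_div_of_pos_right hcv hR0
    obtain ⟨p1, p2, p3⟩ := pos_of_im_small hD hu0 hur (by linarith)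
    have hrepos := re_pos_of_pos p1 (lamR B C * s)
    have hmem1 : u ∈ Rect B C R (H / R) (lamR B C * s) := by
      refine ⟨hrepos, hun.trans_lt ?_, hui3⟩
      rw [div_lt_iff₀ (by positivity)]
      nlinarith
    have hmem2 : mulv B C v u ∈ Rect B C R (H / R) (lamR B C * (s + ang B C v / lamR B C)) := by
      have e : lamR B C * (s + ang B C v / lamR B C) = lamR B C * s + ang B C v := by
        field_simp
      rw [e]
      change 0 < re B C _ _ ∧ re B C _ _ < R ∧ |im B C _ _| < H / R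
      rw [re_mulv hD hv, im_mulv hD hv]
      refine ⟨mul_pos hv0 hrepos, ?_, ?_⟩
      · calc mg B C v * re B C (lamR B C * s) u ≤ mg B C v * (R / (2 * mg B C v)) := by gcongr
          _ = R / 2 := by field_simp
          _ < R := by linarith
      · rw [abs_mul, abs_of_pos hv0]
        calc mg B C v * |im B C (lamR B C * s) u| ≤ mg B C v * (2 * c₀ ^ 2 * mg B C v / R) := by
              gcongr
          _ = 2 * c₀ ^ 2 * mg B C v ^ 2 / R := by ring
          _ < H / R := div_lt_div_of_pos_right hcn hR0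
    have hsx' : ((s + ang B C v / lamR B C : ℝ) : UnitAddCircle) = x + thR B C v := by
      rw [AddCircle.coe_add, hsx, thR]
    rw [cc_eq hD hf hp hsx hx hmem1, cc_eq hD hf hp hsx' hx' hmem2, col_mulv hf]
    push_cast
    ring
  · intro t ht x hx hx'
    obtain ⟨τ, hτ⟩ : ∃ τ, τ = lamR B C * t := ⟨_, rfl⟩
    have hτ1 : |τ| ≤ H / R / R / 8 := by
      rw [hτ, abs_mul, abs_of_pos hlam]
      calc lamR B C * |t| ≤ lamR B C * (H / (K * R ^ 2)) := by gcongr
        _ = (8 * lamR B C / K) * (H / R / R / 8) := by field_simp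
        _ ≤ 1 * (H / R / R / 8) := by
            gcongr
            rw [div_le_one hK0]
            exact hKl
        _ = H / R / R / 8 := one_mul _
    have hτ2 : |τ| ≤ 1 / 8 := by
      refine hτ1.trans ?_
      have : H / R / R ≤ 1 := by
        rw [div_le_iff₀ hR0]
        linarith
      linarith
    obtain ⟨s, hsx, hsl⟩ := hrep x
    have hρ : cM B C (lamR B C) ≤ R / 4 := by
      rw [← hc₀]
      nlinarith
    obtain ⟨u, hu0, hun, hui, hur⟩ := dirichlet_dir hD hlam.le hsl hρ
    have hui3 : |im B C (lamR B C * s) u| ≤ H / R / 4 := by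
      refine hui.trans ?_
      have e : cM B C (lamR B C) ^ 2 / (R / 4) = (16 * c₀ ^ 2) / R / 4 := by
        rw [← hc₀]
        field_simp
        ring
      rw [e]
      gcongr
      linarith
    obtain ⟨p1, p2, p3⟩ := pos_of_im_small hD hu0 hur (by linarith)
    have hrepos := re_pos_of_pos p1 (lamR B C * s)
    have hmem1 : u ∈ Rect B C R (H / R) (lamR B C * s) :=
      ⟨hrepos, by linarith, by linarith⟩
    have hcosh : Real.cosh τ ≤ 2 := by
      have h1 : |Real.exp τ - 1| ≤ 2 * |τ| := Real.abs_exp_sub_one_le (by linarith)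
      have h2 : |Real.exp (-τ) - 1| ≤ 2 * |-τ| := Real.abs_exp_sub_one_le (by
        rw [abs_neg]; linarith)
      rw [abs_neg] at h2
      rw [Real.cosh_eq]
      linarith [(abs_le.1 h1).2, (abs_le.1 h2).2]
    have hcosh0 : 0 < Real.cosh τ := Real.cosh_pos τ
    have hsinh : |Real.sinh τ| ≤ 2 * |τ| := by
      have h1 : |Real.exp τ - 1| ≤ 2 * |τ| := Real.abs_exp_sub_one_le (by linarith)
      have h2 : |Real.exp (-τ) - 1| ≤ 2 * |-τ| := Real.abs_exp_sub_one_le (by
        rw [abs_neg]; linarith)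
      rw [abs_neg] at h2
      rw [Real.sinh_eq, abs_le]
      constructor <;> linarith [(abs_le.1 h1).1, (abs_le.1 h1).2, (abs_le.1 h2).1, (abs_le.1 h2).2]
    have hmem2 : u ∈ Rect B C R (H / R) (lamR B C * (s + t)) := by
      have e : lamR B C * (s + t) = lamR B C * s + τ := by
        rw [hτ]
        ring
      rw [e]
      refine ⟨re_pos_of_pos p1 _, ?_, ?_⟩
      · rw [re_shift]
        have h1 : Real.cosh τ * re B C (lamR B C * s) u ≤ 2 * (R / 4) := by gcongr
        have h2 : |Real.sinh τ * im B C (lamR B C * s) u| ≤ 1 / 4 * (1 / 32) := by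
          rw [abs_mul]
          refine mul_le_mul ?_ ?_ (abs_nonneg _) (by norm_num)
          · linarith
          · linarith
        have h3 := neg_abs_le (Real.sinh τ * im B C (lamR B C * s) u)
        linarith
      · rw [im_shift]
        calc |Real.cosh τ * im B C (lamR B C * s) u - Real.sinh τ * re B C (lamR B C * s) u|
            ≤ |Real.cosh τ * im B C (lamR B C * s) u| +
              |Real.sinh τ * re B C (lamR B C * s) u| := abs_sub _ _
          _ ≤ 2 * (H / R / 4) + (2 * (H / R / R / 8)) * (R / 4) := by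
              rw [abs_mul, abs_mul, abs_of_nonneg hur, abs_of_pos hcosh0]
              gcongr
              linarith
          _ = H / R * (9 / 16) := by
              field_simp
              ring
          _ < H / R := by linarith
    have hsx' : ((s + t : ℝ) : UnitAddCircle) = x + (t : UnitAddCircle) := by
      rw [AddCircle.coe_add, hsx]
    rw [cc_eq hD hf hp hsx hx hmem1, cc_eq hD hf hp hsx' hx' hmem2]
  · intro v hv hvR t ht hx
    have h1 := one_le_mg hD hv
    obtain ⟨τ, hτ⟩ : ∃ τ, τ = lamR B C * t := ⟨_, rfl⟩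
    have hτ1 : |τ| ≤ H / R / R / 8 := by
      rw [hτ, abs_mul, abs_of_pos hlam]
      calc lamR B C * |t| ≤ lamR B C * (H / (K * R ^ 2)) := by gcongr
        _ = (8 * lamR B C / K) * (H / R / R / 8) := by field_simp
        _ ≤ 1 * (H / R / R / 8) := by
            gcongr
            rw [div_le_one hK0]
            exact hKl
        _ = H / R / R / 8 := one_mul _
    have hτ2 : |τ| ≤ 1 / 8 := by
      refine hτ1.trans ?_
      have : H / R / R ≤ 1 := by
        rw [div_le_iff₀ hR0]
        linarith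
      linarith
    have hcosh : Real.cosh τ ≤ 2 := by
      have h1 : |Real.exp τ - 1| ≤ 2 * |τ| := Real.abs_exp_sub_one_le (by linarith)
      have h2 : |Real.exp (-τ) - 1| ≤ 2 * |-τ| := Real.abs_exp_sub_one_le (by
        rw [abs_neg]; linarith)
      rw [abs_neg] at h2
      rw [Real.cosh_eq]
      linarith [(abs_le.1 h1).2, (abs_le.1 h2).2]
    have hsinh : |Real.sinh τ| ≤ 2 * |τ| := by
      have h1 : |Real.exp τ - 1| ≤ 2 * |τ| := Real.abs_exp_sub_one_le (by linarith)
      have h2 : |Real.exp (-τ) - 1| ≤ 2 * |-τ| := Real.abs_exp_sub_one_le (by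
        rw [abs_neg]; linarith)
      rw [abs_neg] at h2
      rw [Real.sinh_eq, abs_le]
      constructor <;> linarith [(abs_le.1 h1).1, (abs_le.1 h1).2, (abs_le.1 h2).1, (abs_le.1 h2).2]
    have hm0 : 0 < mg B C v := by linarith
    have hmR : mg B C v ≤ R / 8 := by nlinarith
    have hmem : v ∈ Rect B C R (H / R) (lamR B C * (ang B C v / lamR B C + t)) := by
      have e : lamR B C * (ang B C v / lamR B C + t) = ang B C v + τ := by
        rw [hτ]
        field_simp
      rw [e]
      refine ⟨re_pos_of_pos hv _, ?_, ?_⟩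
      · rw [re_shift, re_self hv, im_self hv, mul_zero, sub_zero]
        calc Real.cosh τ * (2 * mg B C v) ≤ 2 * (2 * (R / 8)) := by gcongr
          _ < R := by linarith
      · rw [im_shift, re_self hv, im_self hv, mul_zero, zero_sub, abs_neg, abs_mul,
          abs_of_pos (by positivity : 0 < 2 * mg B C v)]
        calc |Real.sinh τ| * (2 * mg B C v) ≤ (2 * (H / R / R / 8)) * (2 * (R / 8)) := by
              gcongr
              linarith
          _ = H / R * (1 / 16) := by
              field_simp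
              ring
          _ < H / R := by linarith
    have hsx' : ((ang B C v / lamR B C + t : ℝ) : UnitAddCircle) =
        thR B C v + (t : UnitAddCircle) := by
      rw [AddCircle.coe_add, thR]
    rw [cc_eq hD hf hp hsx' hx hmem]

end Pool.Agent.LogPar
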