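import Pool.Agent.LogPar.EdgeD
import Pool.Agent.FareyParity.Plus

set_option autoImplicit false

/-! # Definite case: the value `+1` is taken often -/

namespace Pool.Agent.LogPar

open Pool.Agent.FareyParity

/-- every primitive vector lies in a unimodular pair with equal colours -/
theorem prim_pair {B C : ℤ} (hD : B ^ 2 < 4 * C) {f : ℕ → ℤ} (hf : IsSign f) {ρ R : ℝ}
    (hρR : 2 * ρ + bt B C ≤ R) (hρ0 : 0 ≤ ρ) {z : ℤ × ℤ} (hz : z ∈ primF B C ρ) :
    ∃ p : (ℤ × ℤ) × (ℤ × ℤ), ‖cv B C p.1‖ ≤ R ∧ ‖cv B C p.2‖ ≤ R ∧ dt p.1 p.2 = 1 ∧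
      col f B C p.1 * col f B C p.2 = 1 ∧ (z = p.1 ∨ z = p.1 - p.2) := by
  classical
  have hb := bt_pos hD
  have hR0 : 0 ≤ R := by linarith
  have hz' := hz
  simp only [primF, Finset.mem_filter] at hz'
  have hz0 := ne_zero_of_mem_ballF hz'.1
  obtain ⟨w, hw, hwn⟩ := exists_short_partner hD hz'.2.2 hz0
  have hw0 : w ≠ 0 := by rintro rfl; simp [dt] at hw
  have hzw0 : z + w ≠ 0 := by
    intro h
    have : dt z (z + w) = 1 := by
      rw [← hw]; simp only [dt, Prod.fst_add, Prod.snd_add]; ring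
    rw [h] at this
    simp [dt] at this
  have n1 : ‖cv B C z‖ ≤ R := by linarith [hz'.2.1]
  have n2 : ‖cv B C w‖ ≤ R := by linarith [hz'.2.1]
  have n3 : ‖cv B C (z + w)‖ ≤ R := by
    rw [cv_add]
    calc _ ≤ ‖cv B C z‖ + ‖cv B C w‖ := norm_add_le _ _
      _ ≤ R := by linarith [hz'.2.1]
  have c1 := col_val hf hD hz0
  have c2 := col_val hf hD hw0
  have c3 := col_val hf hD hzw0
  have d1 : dt z (z + w) = 1 := by
    rw [← hw]; simp only [dt, Prod.fst_add, Prod.snd_add]; ring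
  have d2 : dt (z + w) w = 1 := by
    rw [← hw]; simp only [dt, Prod.fst_add, Prod.snd_add]; ring
  by_cases h1 : col f B C z * col f B C w = 1
  · exact ⟨(z, w), n1, n2, hw, h1, Or.inl rfl⟩
  · by_cases h2 : col f B C z * col f B C (z + w) = 1
    · exact ⟨(z, z + w), n1, n3, d1, h2, Or.inl rfl⟩
    · refine ⟨(z + w, w), n3, n2, d2, ?_, Or.inr (by simp)⟩
      show col f B C (z + w) * col f B C w = 1
      rcases c1 with c1 | c1 <;> rcases c2 with c2 | c2 <;> rcases c3 with c3 | c3 <;>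
        rw [c1, c2] at h1 <;> rw [c1, c3] at h2 <;> rw [c2, c3] <;> simp_all

theorem plusD {B C : ℤ} (hD : B ^ 2 < 4 * C) : ∃ K : ℝ, 1 ≤ K ∧ ∃ A : ℕ, ∀ R : ℝ, K ≤ R →
    ∀ f : ℕ → ℤ, IsSign f → ∀ Bd : Finset ℤ,
    (∀ n : ℤ, |(n : ℝ)| ≤ K * R ^ 2 → f (val B C n) = 1 → n ∈ Bd) →
    R ≤ K * √(Bd.card : ℝ) * Real.log R ^ A := by
  classical
  obtain ⟨K1, hK1, A, hedge⟩ := edgeD hD
  have hcB := cB_ge hD
  have hmB := mB_ge hD
  have hb := bt_pos hD
  obtain ⟨K0, hK0⟩ : ∃ K0 : ℝ, K0 = 40 * cB B C ^ 2 * mB B C ^ 2 := ⟨_, rfl⟩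
  have hK00 : 0 < K0 := by rw [hK0]; positivity
  obtain ⟨K2, hK2⟩ : ∃ K2 : ℝ, K2 = 320 * cB B C ^ 2 * K0 * K1 := ⟨_, rfl⟩
  have hK20 : 0 < K2 := by rw [hK2]; positivity
  obtain ⟨K, hK⟩ : ∃ K : ℝ, K = K1 + K2 + (1 + |(B : ℝ)|) + 2 * bt B C + 4 * cB B C +
      32 * cB B C ^ 2 * K0 := ⟨_, rfl⟩
  have hBabs := abs_nonneg (B : ℝ)
  have hcB0 : 0 < cB B C := by linarith
  have h32 : 0 < 32 * cB B C ^ 2 * K0 := by positivity
  have hKK1 : K1 ≤ K := by rw [hK]; linarith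
  have hK1' : 1 ≤ K := by linarith
  refine ⟨K, hK1', A, ?_⟩
  intro R hR f hf Bd hBd
  have hR1 : 1 ≤ R := by linarith
  have hR0 : 0 < R := by linarith
  obtain ⟨ρ, hρ⟩ : ∃ ρ : ℝ, ρ = R / 4 := ⟨_, rfl⟩
  have hρ0 : 0 < ρ := by rw [hρ]; positivity
  have hρR : 2 * ρ + bt B C ≤ R := by rw [hρ]; linarith
  have hcρ : cB B C ≤ ρ := by rw [hρ]; linarith
  have hρ2 : 2 * cB B C ^ 2 * K0 ≤ ρ ^ 2 := by
    have h1 : 32 * cB B C ^ 2 * K0 ≤ R := by linarith
    have h2 : R ≤ R ^ 2 := by nlinarith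
    rw [hρ, div_pow]; linarith
  have hprim := card_primF hD hcρ hK0 hρ2
  have hex : ∀ z : ℤ × ℤ, ∃ p : (ℤ × ℤ) × (ℤ × ℤ), z ∈ primF B C ρ → (‖cv B C p.1‖ ≤ R ∧
      ‖cv B C p.2‖ ≤ R ∧ dt p.1 p.2 = 1 ∧ col f B C p.1 * col f B C p.2 = 1 ∧
      (z = p.1 ∨ z = p.1 - p.2)) := by
    intro z
    by_cases hz : z ∈ primF B C ρ
    · obtain ⟨p, hp⟩ := prim_pair hD hf hρR hρ0.le hz
      exact ⟨p, fun _ => hp⟩
    · exact ⟨(0, 0), fun h => absurd h hz⟩
  choose p hp using hex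
  have h2P : (primF B C ρ).card ≤ 2 * ((primF B C ρ).image p).card := by
    apply Finset.card_le_mul_card_image_of_maps_to (f := p)
    · intro z hz; exact Finset.mem_image_of_mem p hz
    · intro q _
      have hsub : (primF B C ρ).filter (fun z => p z = q) ⊆ {q.1, q.1 - q.2} := by
        intro z hz
        rw [Finset.mem_filter] at hz
        obtain ⟨-, -, -, -, h⟩ := hp z hz.1
        rw [Finset.mem_insert, Finset.mem_singleton, ← hz.2]
        exact h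
      exact (Finset.card_le_card hsub).trans Finset.card_le_two
  have hP := hedge R (hKK1.trans hR) Bd ((primF B C ρ).image p) (by
    intro q hq
    rw [Finset.mem_image] at hq
    obtain ⟨z, hz, rfl⟩ := hq
    obtain ⟨h1, h2, h3, h4, -⟩ := hp z hz
    refine ⟨h1, h2, h3, ?_⟩
    apply hBd
    · calc |(ip B C (p z).1 (p z).2 : ℝ)|
          ≤ ‖cv B C (p z).1‖ * ‖cv B C (p z).2‖ + |(B : ℝ)| := abs_ip_le hD h3
        _ ≤ R * R + |(B : ℝ)| := by
            have := mul_le_mul h1 h2 (norm_nonneg _) hR0.le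
            linarith
        _ ≤ K * R ^ 2 := by
            have e1 : 1 ≤ R ^ 2 := one_le_pow₀ hR1
            have e2 : 1 + |(B : ℝ)| ≤ K := by rw [hK]; linarith
            nlinarith
    · rw [col_mul_col hf h3] at h4
      rw [← h4]
      congr 1
      simp only [val, nf]
      congr 1
      ring)
  have h2P' : ((primF B C ρ).card : ℝ) ≤ 2 * (((primF B C ρ).image p).card : ℝ) := by
    exact_mod_cast h2P
  have hlog : 0 ≤ Real.log R := Real.log_nonneg hR1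
  have hs : 0 ≤ √(Bd.card : ℝ) := Real.sqrt_nonneg _
  have h5 : (1 : ℝ) ≤ K2 * √(Bd.card : ℝ) * Real.log R ^ A / R := by
    calc (1 : ℝ) ≤ 5 * (2 * cB B C ^ 2 * K0 / ρ ^ 2) * (primF B C ρ).card := hprim
      _ ≤ 5 * (2 * cB B C ^ 2 * K0 / ρ ^ 2) *
          (2 * (K1 * √(Bd.card : ℝ) * R * Real.log R ^ A)) := by
          gcongr
          exact h2P'.trans (by linarith)
      _ = K2 * √(Bd.card : ℝ) * Real.log R ^ A / R := by
          rw [hρ, hK2]; field_simp; ring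
  rw [le_div_iff₀ hR0, one_mul] at h5
  have hKK2 : K2 ≤ K := by rw [hK]; linarith
  calc R ≤ K2 * √(Bd.card : ℝ) * Real.log R ^ A := h5
    _ ≤ K * √(Bd.card : ℝ) * Real.log R ^ A := by gcongr

end Pool.Agent.LogPar
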