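import Pool.Agent.LogPar.Defs
import Pool.Agent.MertensAP.Main

set_option autoImplicit false

/-! # Elements of prime norm up to bounded factors (both signs of the discriminant) -/

namespace Pool.Agent.LogPar

open Pool.Agent.FareyParity

/-- product of a multiset of lattice vectors (as elements of `ℤ[ω]`), via `QuadraticAlgebra` -/
noncomputable def mprod (B C : ℤ) (m : Multiset (ℤ × ℤ)) : ℤ × ℤ :=
  ((m.map (fun v => (⟨v.1, v.2⟩ : QuadraticAlgebra ℤ (-C) B))).prod.re,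
   (m.map (fun v => (⟨v.1, v.2⟩ : QuadraticAlgebra ℤ (-C) B))).prod.im)

theorem mprod_zero (B C : ℤ) : mprod B C 0 = (1, 0) := by
  simp only [mprod, Multiset.map_zero, Multiset.prod_zero]
  rfl

theorem mprod_cons (B C : ℤ) (v : ℤ × ℤ) (m : Multiset (ℤ × ℤ)) :
    mprod B C (v ::ₘ m) = mulv B C v (mprod B C m) := by
  simp only [mprod, Multiset.map_cons, Multiset.prod_cons, mulv, QuadraticAlgebra.re_mul,
    QuadraticAlgebra.im_mul]
  ext
  · simp only; ring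
  · simp only; ring

namespace PE

/-- the order `ℤ[ω]` -/
abbrev OO (B C : ℤ) := QuadraticAlgebra ℤ (-C) B

/-- the element of `ℤ[ω]` belonging to a lattice vector -/
def el (B C : ℤ) (v : ℤ × ℤ) : OO B C := ⟨v.1, v.2⟩

variable {B C : ℤ}

theorem norm_el (v : ℤ × ℤ) : (el B C v).norm = nf B C v := by
  simp only [QuadraticAlgebra.norm_def, el, nf]; ring

/-- evaluation at a root modulo `p` -/
def ev {p : ℕ} (w : ZMod p) (hw : w * w = (B : ZMod p) * w - (C : ZMod p)) : OO B C →+* ZMod p where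
  toFun z := (z.re : ZMod p) + z.im * w
  map_one' := by
    rw [show (1 : OO B C).re = 1 from rfl, show (1 : OO B C).im = 0 from rfl]; simp
  map_zero' := by simp
  map_add' x y := by
    simp only [QuadraticAlgebra.re_add, QuadraticAlgebra.im_add, Int.cast_add]; ring
  map_mul' x y := by
    simp only [QuadraticAlgebra.re_mul, QuadraticAlgebra.im_mul, Int.cast_add, Int.cast_mul,
      Int.cast_neg]
    linear_combination (-(x.im : ZMod p) * y.im) * hw

theorem ev_apply {p : ℕ} (w : ZMod p) (hw : w * w = (B : ZMod p) * w - (C : ZMod p)) (z : OO B C) :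
    ev w hw z = (z.re : ZMod p) + z.im * w := rfl

theorem mul_star_el (z : OO B C) : z * star z = ((z.norm : ℤ) : OO B C) := by
  rw [← QuadraticAlgebra.algebraMap_norm_eq_mul_star]
  ext
  · simp
  · simp

theorem int_cancel {n : ℤ} (hn : n ≠ 0) {x y : OO B C} (h : (n : OO B C) * x = (n : OO B C) * y) :
    x = y := by
  have h1 := congrArg QuadraticAlgebra.re h
  have h2 := congrArg QuadraticAlgebra.im h
  simp only [QuadraticAlgebra.re_mul, QuadraticAlgebra.im_mul, QuadraticAlgebra.re_intCast,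
    QuadraticAlgebra.im_intCast, Int.cast_id, mul_zero, zero_mul, add_zero] at h1 h2
  ext
  · exact mul_left_cancel₀ hn h1
  · exact mul_left_cancel₀ hn h2

/-- a prime ideal that singles out the element `v` of the finite set `Q` -/
structure Sep (B C : ℤ) (G : Finset (ℤ × ℤ)) (v : ℤ × ℤ) (Q : Finset (ℤ × ℤ))
    (I : Ideal (OO B C)) : Prop where
  prime : I.IsPrime
  mem : el B C v ∈ I
  nstar : star (el B C v) ∉ I
  ga : ∀ γ ∈ G, el B C γ ∉ I ∧ star (el B C γ) ∉ I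
  other : ∀ u ∈ Q, u ≠ v → el B C u ∉ I ∧ star (el B C u) ∉ I

/-- product over two multisets -/
def pr (B C : ℤ) (g m : Multiset (ℤ × ℤ)) : OO B C :=
  (g.map (el B C)).prod * (m.map (el B C)).prod

theorem prod_mem_iff {I : Ideal (OO B C)} (hI : I.IsPrime) (f : ℤ × ℤ → OO B C)
    (m : Multiset (ℤ × ℤ)) : (m.map f).prod ∈ I ↔ ∃ u ∈ m, f u ∈ I := by
  induction m using Multiset.induction with
  | empty =>
    simp only [Multiset.map_zero, Multiset.prod_zero, Multiset.notMem_zero, false_and,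
      exists_const, iff_false]
    exact fun h => hI.ne_top ((Ideal.eq_top_iff_one I).2 h)
  | cons a m ih =>
    rw [Multiset.map_cons, Multiset.prod_cons, hI.mul_mem_iff_mem_or_mem, ih]
    constructor
    · rintro (h | ⟨u, hu, h⟩)
      · exact ⟨a, Multiset.mem_cons_self a m, h⟩
      · exact ⟨u, Multiset.mem_cons_of_mem hu, h⟩
    · rintro ⟨u, hu, h⟩
      rcases Multiset.mem_cons.1 hu with rfl | hu
      · exact Or.inl h
      · exact Or.inr ⟨u, hu, h⟩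

theorem star_pr (g m : Multiset (ℤ × ℤ)) :
    star (pr B C g m) = (g.map (fun u => star (el B C u))).prod
      * (m.map (fun u => star (el B C u))).prod := by
  have h : ∀ m : Multiset (ℤ × ℤ), star (m.map (el B C)).prod
      = (m.map (fun u => star (el B C u))).prod := by
    intro m
    induction m using Multiset.induction with
    | empty => simp
    | cons a m ih =>
      rw [Multiset.map_cons, Multiset.prod_cons, star_mul', ih, Multiset.map_cons,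
        Multiset.prod_cons]
  rw [pr, star_mul', h, h]

theorem pr_mem_iff {v : ℤ × ℤ} {G Q : Finset (ℤ × ℤ)} {I : Ideal (OO B C)} (h : Sep B C G v Q I)
    {g m : Multiset (ℤ × ℤ)} (hg : ∀ u ∈ g, u ∈ G) (hm : ∀ u ∈ m, u ∈ Q) :
    pr B C g m ∈ I ↔ v ∈ m := by
  rw [pr, h.prime.mul_mem_iff_mem_or_mem, prod_mem_iff h.prime, prod_mem_iff h.prime]
  constructor
  · rintro (⟨u, hu, h1⟩ | ⟨u, hu, h1⟩)
    · exact absurd h1 (h.ga u (hg u hu)).1
    · by_cases huv : u = v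
      · exact huv ▸ hu
      · exact absurd h1 (h.other u (hm u hu) huv).1
  · exact fun hv => Or.inr ⟨v, hv, h.mem⟩

theorem star_pr_notMem {v : ℤ × ℤ} {G Q : Finset (ℤ × ℤ)} {I : Ideal (OO B C)}
    (h : Sep B C G v Q I) {g m : Multiset (ℤ × ℤ)} (hg : ∀ u ∈ g, u ∈ G) (hm : ∀ u ∈ m, u ∈ Q) :
    star (pr B C g m) ∉ I := by
  rw [star_pr, h.prime.mul_mem_iff_mem_or_mem, prod_mem_iff h.prime, prod_mem_iff h.prime]
  rintro (⟨u, hu, h1⟩ | ⟨u, hu, h1⟩)
  · exact (h.ga u (hg u hu)).2 h1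
  · by_cases huv : u = v
    · exact h.nstar (huv ▸ h1)
    · exact (h.other u (hm u hu) huv).2 h1

theorem mem_of_eq {v : ℤ × ℤ} {G Q : Finset (ℤ × ℤ)} {I : Ideal (OO B C)} (h : Sep B C G v Q I)
    {g g' m m' : Multiset (ℤ × ℤ)} (hg : ∀ u ∈ g, u ∈ G) (hg' : ∀ u ∈ g', u ∈ G)
    (hm : ∀ u ∈ m, u ∈ Q) (hm' : ∀ u ∈ m', u ∈ Q)
    (he : star (pr B C g m) * pr B C g' m' = pr B C g m * star (pr B C g' m')) :
    v ∈ m ↔ v ∈ m' := by
  rw [← pr_mem_iff h hg hm, ← pr_mem_iff h hg' hm']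
  constructor
  · intro h1
    have h2 : star (pr B C g m) * pr B C g' m' ∈ I := by
      rw [he]; exact I.mul_mem_right _ h1
    rcases h.prime.mem_or_mem h2 with h3 | h3
    · exact absurd h3 (star_pr_notMem h hg hm)
    · exact h3
  · intro h1
    have h2 : pr B C g m * star (pr B C g' m') ∈ I := by
      rw [← he]; exact I.mul_mem_left _ h1
    rcases h.prime.mem_or_mem h2 with h3 | h3
    · exact h3
    · exact absurd h3 (star_pr_notMem h hg' hm')

theorem core {G Q : Finset (ℤ × ℤ)}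
    (hs : ∀ v ∈ Q, ∃ I : Ideal (OO B C), Sep B C G v Q I) (hn : ∀ v ∈ Q, nf B C v ≠ 0)
    {g g' : Multiset (ℤ × ℤ)} (hg : ∀ u ∈ g, u ∈ G) (hg' : ∀ u ∈ g', u ∈ G)
    (m : Multiset (ℤ × ℤ)) : ∀ m' : Multiset (ℤ × ℤ), (∀ u ∈ m, u ∈ Q) →
      (∀ u ∈ m', u ∈ Q) →
      star (pr B C g m) * pr B C g' m' = pr B C g m * star (pr B C g' m') → m = m' := by
  induction m using Multiset.induction with
  | empty =>
    intro m' hm hm' he
    by_contra hne
    obtain ⟨v, hv⟩ := Multiset.exists_mem_of_ne_zero (fun h => hne h.symm)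
    obtain ⟨I, hI⟩ := hs v (hm' v hv)
    exact Multiset.notMem_zero v ((mem_of_eq hI hg hg' hm hm' he).2 hv)
  | cons v m ih =>
    intro m' hm hm' he
    have hvQ : v ∈ Q := hm v (Multiset.mem_cons_self v m)
    obtain ⟨I, hI⟩ := hs v hvQ
    have hv' : v ∈ m' := (mem_of_eq hI hg hg' hm hm' he).1 (Multiset.mem_cons_self v m)
    obtain ⟨m1, rfl⟩ := Multiset.exists_cons_of_mem hv'
    have hcons : ∀ (k n : Multiset (ℤ × ℤ)),
        pr B C k (v ::ₘ n) = el B C v * pr B C k n := by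
      intro k n
      simp only [pr, Multiset.map_cons, Multiset.prod_cons]; ring
    rw [hcons, hcons, star_mul', star_mul'] at he
    have hN := mul_star_el (el B C v)
    rw [norm_el] at hN
    have he2 : ((nf B C v : ℤ) : OO B C) * (star (pr B C g m) * pr B C g' m1)
        = ((nf B C v : ℤ) : OO B C) * (pr B C g m * star (pr B C g' m1)) := by
      rw [← hN]
      linear_combination he
    rw [ih m1 (fun u hu => hm u (Multiset.mem_cons_of_mem hu))
      (fun u hu => hm' u (Multiset.mem_cons_of_mem hu)) (int_cancel (hn v hvQ) he2)]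

theorem mprod_add (g m : Multiset (ℤ × ℤ)) :
    mprod B C (g + m) = ((pr B C g m).re, (pr B C g m).im) := by
  simp only [mprod, pr, Multiset.map_add, Multiset.prod_add]
  rfl

theorem dt_zero {x y : OO B C} (h : dt (x.re, x.im) (y.re, y.im) = 0) :
    star x * y = x * star y := by
  simp only [dt] at h
  ext
  · simp only [QuadraticAlgebra.re_mul, QuadraticAlgebra.re_star, QuadraticAlgebra.im_star]
    linear_combination (-B) * h
  · simp only [QuadraticAlgebra.im_mul, QuadraticAlgebra.re_star, QuadraticAlgebra.im_star]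
    linear_combination 2 * h

/-- a small solution of a linear congruence (Thue) -/
theorem thue {p : ℕ} (hp : p.Prime) (w : ZMod p) :
    ∃ v : ℤ × ℤ, v ≠ 0 ∧ v.1 ^ 2 ≤ p ∧ v.2 ^ 2 ≤ p ∧ (v.1 : ZMod p) + v.2 * w = 0 := by
  have : Fact p.Prime := ⟨hp⟩
  obtain ⟨s, hs⟩ : ∃ s : ℕ, s = Nat.sqrt p := ⟨_, rfl⟩
  have hs1 : s * s ≤ p := by rw [hs]; exact Nat.sqrt_le _
  have hs2 : p < (s + 1) * (s + 1) := by rw [hs]; exact Nat.lt_succ_sqrt _
  obtain ⟨a, ha, b, hb, hab, he⟩ := Finset.exists_ne_map_eq_of_card_lt_of_maps_to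
    (s := Finset.range (s + 1) ×ˢ Finset.range (s + 1)) (t := (Finset.univ : Finset (ZMod p)))
    (f := fun x : ℕ × ℕ => ((x.1 : ZMod p) + x.2 * w))
    (by rw [Finset.card_product, Finset.card_range, Finset.card_univ, ZMod.card]; exact hs2)
    (fun x _ => Finset.mem_coe.2 (Finset.mem_univ _))
  rw [Finset.mem_product, Finset.mem_range, Finset.mem_range] at ha hb
  have hsq : ∀ x y : ℕ, x < s + 1 → y < s + 1 → ((x : ℤ) - y) ^ 2 ≤ p := by
    intro x y hx hy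
    have h1 : |((x : ℤ) - y)| ≤ s := by rw [abs_le]; constructor <;> omega
    calc ((x : ℤ) - y) ^ 2 = |((x : ℤ) - y)| ^ 2 := (sq_abs _).symm
      _ ≤ (s : ℤ) ^ 2 := pow_le_pow_left₀ (abs_nonneg _) h1 2
      _ = ((s * s : ℕ) : ℤ) := by push_cast; ring
      _ ≤ p := by exact_mod_cast hs1
  refine ⟨((a.1 : ℤ) - b.1, (a.2 : ℤ) - b.2), ?_, hsq _ _ ha.1 hb.1, hsq _ _ ha.2 hb.2, ?_⟩
  · intro h
    apply hab
    have h1 := congrArg Prod.fst h
    have h2 := congrArg Prod.snd h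
    simp only [Prod.fst_zero, Prod.snd_zero] at h1 h2
    ext <;> omega
  · push_cast
    linear_combination he

theorem isSquare_disc {D : ℤ} {p : ℕ} (hp : p.Prime) (hmod : p ≡ 1 [MOD 4 * D.natAbs])
    (hbig : D.natAbs < p) (hD : D ≠ 0) : IsSquare ((D : ℤ) : ZMod p) := by
  have : Fact p.Prime := ⟨hp⟩
  have hD' : 0 < D.natAbs := Int.natAbs_pos.2 hD
  have hodd : Odd p := by
    rw [Nat.odd_iff]
    exact Nat.ModEq.of_dvd ⟨2 * D.natAbs, by ring⟩ hmod
  have hne : ((D : ℤ) : ZMod p) ≠ 0 := by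
    rw [Ne, ZMod.intCast_zmod_eq_zero_iff_dvd]
    intro h
    have h' : p ∣ D.natAbs := Int.natCast_dvd.1 h
    have := Nat.le_of_dvd hD' h'
    omega
  rw [← legendreSym.eq_one_iff p hne, jacobiSym.legendreSym.to_jacobiSym, jacobiSym.mod_right _ hodd]
  have : p % (4 * D.natAbs) = 1 := by
    have h1 : p % (4 * D.natAbs) = 1 % (4 * D.natAbs) := hmod
    rw [h1, Nat.mod_eq_of_lt (by omega)]
  rw [this, jacobiSym.one_right]

theorem nf_ne_zero (hD : ¬ IsSquare (B ^ 2 - 4 * C)) {v : ℤ × ℤ} (hv : v ≠ 0) : nf B C v ≠ 0 := by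
  intro h
  have h4 := four_nf B C v
  rw [h, mul_zero] at h4
  by_cases h2 : v.2 = 0
  · have h1 : v.1 ≠ 0 := fun h1 => hv (Prod.ext h1 h2)
    rw [h2] at h4
    have : (2 * v.1) ^ 2 = 0 := by linarith
    have : v.1 = 0 := by simpa using this
    exact h1 this
  · apply hD
    have h5 : v.2 ^ 2 * (B ^ 2 - 4 * C) = (2 * v.1 + B * v.2) ^ 2 := by linarith
    have h6 : v.2 ∣ 2 * v.1 + B * v.2 := by
      rw [← Int.pow_dvd_pow_iff (two_ne_zero)]
      exact ⟨_, h5.symm⟩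
    obtain ⟨c, hc⟩ := h6
    refine ⟨c, ?_⟩
    rw [hc] at h5
    have h7 : v.2 ^ 2 ≠ 0 := pow_ne_zero 2 h2
    apply mul_left_cancel₀ h7
    rw [h5]; ring

theorem nf_abs_le {v : ℤ × ℤ} {n : ℤ} (h1 : v.1 ^ 2 ≤ n) (h2 : v.2 ^ 2 ≤ n) :
    |nf B C v| ≤ (1 + |B| + |C|) * n := by
  have h3 : |v.1 * v.2| ≤ n := by
    rw [abs_mul]
    nlinarith [sq_abs v.1, sq_abs v.2, sq_nonneg (|v.1| - |v.2|), abs_nonneg v.1, abs_nonneg v.2]
  have e : nf B C v = v.1 ^ 2 + B * (v.1 * v.2) + C * v.2 ^ 2 := by simp only [nf]; ring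
  rw [e]
  have a1 : |v.1 ^ 2| ≤ n := by rw [abs_of_nonneg (sq_nonneg _)]; exact h1
  have a2 : |B * (v.1 * v.2)| ≤ |B| * n := by
    rw [abs_mul]; exact mul_le_mul_of_nonneg_left h3 (abs_nonneg _)
  have a3 : |C * v.2 ^ 2| ≤ |C| * n := by
    rw [abs_mul, abs_of_nonneg (sq_nonneg v.2)]; exact mul_le_mul_of_nonneg_left h2 (abs_nonneg _)
  calc |v.1 ^ 2 + B * (v.1 * v.2) + C * v.2 ^ 2|
      ≤ |v.1 ^ 2| + |B * (v.1 * v.2)| + |C * v.2 ^ 2| := abs_add_three _ _ _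
    _ ≤ n + |B| * n + |C| * n := by linarith
    _ = (1 + |B| + |C|) * n := by ring

/-- the element attached to a prime -/
theorem exists_el (hD : ¬ IsSquare (B ^ 2 - 4 * C)) {p : ℕ}
    (hp : p.Prime) (hmod : p ≡ 1 [MOD 4 * (B ^ 2 - 4 * C).natAbs])
    (h1 : (B ^ 2 - 4 * C).natAbs < p) (h2 : (1 + |B| + |C|) < p) :
    ∃ v : ℤ × ℤ, v ≠ 0 ∧ v.1 ^ 2 ≤ p ∧ v.2 ^ 2 ≤ p ∧ (p : ℤ) ∣ nf B C v ∧
      (∀ q : ℕ, q.Prime → q ≠ p → (1 + |B| + |C|) < q → ¬ (q : ℤ) ∣ nf B C v) ∧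
      ∃ I : Ideal (OO B C), I.IsPrime ∧ el B C v ∈ I ∧ star (el B C v) ∉ I ∧
        ∀ u : ℤ × ℤ, ¬ (p : ℤ) ∣ nf B C u → el B C u ∉ I ∧ star (el B C u) ∉ I := by
  have : Fact p.Prime := ⟨hp⟩
  have hD0 : B ^ 2 - 4 * C ≠ 0 := by
    intro h; apply hD; rw [h]; exact ⟨0, by simp⟩
  obtain ⟨d, hd⟩ := isSquare_disc hp hmod h1 hD0
  have hp2 : p ≠ 2 := by
    rintro rfl
    have h5 := Nat.ModEq.of_dvd (m := 2) (a := 2) (b := 1) ⟨2 * (B ^ 2 - 4 * C).natAbs, by ring⟩ hmod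
    exact absurd h5 (by decide)
  have h2ne : (2 : ZMod p) ≠ 0 := by
    have h5 : ((2 : ℕ) : ZMod p) ≠ 0 := by
      rw [Ne, ZMod.natCast_eq_zero_iff]
      intro h
      exact hp2 ((Nat.prime_dvd_prime_iff_eq hp Nat.prime_two).1 h)
    exact_mod_cast h5
  obtain ⟨w, hwd⟩ : ∃ w : ZMod p, w = ((B : ZMod p) + d) / 2 := ⟨_, rfl⟩
  have hw2 : 2 * w = B + d := by rw [hwd]; field_simp
  have hw : w * w = (B : ZMod p) * w - (C : ZMod p) := by
    have h4 : (4 : ZMod p) ≠ 0 := by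
      have : (4 : ZMod p) = 2 * 2 := by norm_num
      rw [this]; exact mul_ne_zero h2ne h2ne
    apply mul_left_cancel₀ h4
    push_cast at hd
    linear_combination (2 * w - B + d) * hw2 - hd
  obtain ⟨v, hv0, hv1, hv2, hv⟩ := thue hp w
  have hstar : ∀ u : ℤ × ℤ, ev w hw (star (el B C u)) = (u.1 : ZMod p) + u.2 * (B - w) := by
    intro u
    rw [ev_apply, QuadraticAlgebra.re_star, QuadraticAlgebra.im_star]
    simp only [el]; push_cast; ring
  have hev : ∀ u : ℤ × ℤ, ev w hw (el B C u) = (u.1 : ZMod p) + u.2 * w := fun u => rfl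
  have hnorm : ∀ u : ℤ × ℤ, ev w hw (el B C u) * ev w hw (star (el B C u)) = (nf B C u : ZMod p) := by
    intro u
    rw [← map_mul, mul_star_el, norm_el, map_intCast]
  have hker : ∀ x : OO B C, x ∈ RingHom.ker (ev w hw) ↔ ev w hw x = 0 := fun x => RingHom.mem_ker
  have hother : ∀ u : ℤ × ℤ, ¬ (p : ℤ) ∣ nf B C u → el B C u ∉ RingHom.ker (ev w hw) ∧
      star (el B C u) ∉ RingHom.ker (ev w hw) := by
    intro u hu
    have h5 : ((nf B C u : ℤ) : ZMod p) ≠ 0 := by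
      rw [Ne, ZMod.intCast_zmod_eq_zero_iff_dvd]; exact hu
    rw [← hnorm u] at h5
    exact ⟨left_ne_zero_of_mul h5, right_ne_zero_of_mul h5⟩
  have hpdv : (p : ℤ) ∣ nf B C v := by
    rw [← ZMod.intCast_zmod_eq_zero_iff_dvd, ← hnorm v, hev, hv, zero_mul]
  have hnv : nf B C v ≠ 0 := nf_ne_zero hD hv0
  have hle := nf_abs_le (B := B) (C := C) (n := (p : ℤ)) hv1 hv2
  obtain ⟨k, hk⟩ := hpdv
  have hk0 : k ≠ 0 := by rintro rfl; rw [mul_zero] at hk; exact hnv hk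
  have hppos : (0 : ℤ) < p := by exact_mod_cast hp.pos
  have hkle : |k| ≤ 1 + |B| + |C| := by
    rw [hk, abs_mul, abs_of_pos hppos] at hle
    by_contra hcon
    push Not at hcon
    nlinarith
  refine ⟨v, hv0, hv1, hv2, ⟨k, hk⟩, ?_, RingHom.ker (ev w hw), RingHom.ker_isPrime _, ?_, ?_, hother⟩
  · intro q hq hqp hqb hdvd
    rw [hk] at hdvd
    rcases (Nat.prime_iff_prime_int.1 hq).dvd_or_dvd hdvd with h5 | h5
    · exact hqp ((Nat.prime_dvd_prime_iff_eq hq hp).1 (Int.natCast_dvd_natCast.1 h5))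
    · have h6 := Int.le_of_dvd (abs_pos.2 hk0) ((dvd_abs _ _).2 h5)
      linarith
  · rw [hker, hev]; exact hv
  · rw [hker, hstar]
    intro h5
    have h6 : ((v.2 : ℤ) : ZMod p) * d = 0 := by
      linear_combination hv - h5 - (v.2 : ZMod p) * hw2
    have hdne : d ≠ 0 := by
      rintro rfl
      rw [mul_zero, ZMod.intCast_zmod_eq_zero_iff_dvd] at hd
      have h7 : p ∣ (B ^ 2 - 4 * C).natAbs := Int.natCast_dvd.1 hd
      have := Nat.le_of_dvd (Int.natAbs_pos.2 hD0) h7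
      omega
    have hy : ((v.2 : ℤ) : ZMod p) = 0 := (mul_eq_zero.1 h6).resolve_right hdne
    have hx : ((v.1 : ℤ) : ZMod p) = 0 := by rw [hy, zero_mul, add_zero] at hv; exact hv
    have hzero : ∀ t : ℤ, t ^ 2 ≤ p → ((t : ℤ) : ZMod p) = 0 → t = 0 := by
      intro t ht h0
      by_contra hne
      rw [ZMod.intCast_zmod_eq_zero_iff_dvd] at h0
      have h8 := Int.le_of_dvd (abs_pos.2 hne) ((dvd_abs _ _).2 h0)
      have h9 : (p : ℤ) ^ 2 ≤ t ^ 2 := by
        rw [← sq_abs t]; exact pow_le_pow_left₀ hppos.le h8 2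
      have h10 : (2 : ℤ) ≤ p := by exact_mod_cast hp.two_le
      nlinarith
    exact hv0 (Prod.ext (hzero _ hv1 hx) (hzero _ hv2 hy))

/-- many primes in a residue class -/
theorem many_primes (q : ℕ) (hq : 1 ≤ q) : ∃ K : ℝ, 1 ≤ K ∧ ∀ Y : ℝ, K ≤ Y →
    ∃ P : Finset ℕ, (∀ p ∈ P, p.Prime ∧ p ≡ 1 [MOD q] ∧ Y ^ (1 - 1 / 6000 : ℝ) < p ∧ (p : ℝ) ≤ Y) ∧
      Y ^ (1 - 1 / 5000 : ℝ) ≤ (P.card : ℝ) := by
  classical
  obtain ⟨c, hc0, hc⟩ := Pool.Agent.MertensAP.mertens_ap_mod q hq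
  obtain ⟨φ, hφ⟩ : ∃ φ : ℝ, φ = (q.totient : ℝ) := ⟨_, rfl⟩
  have hφ1 : 1 ≤ φ := by rw [hφ]; exact_mod_cast Nat.totient_pos.2 hq
  refine ⟨max (Real.exp (24000 * φ * c)) ((12000 * φ) ^ (30000 : ℕ)), ?_, ?_⟩
  · exact le_max_of_le_left (Real.one_le_exp (by positivity))
  intro Y hY
  have hY1 : Real.exp (24000 * φ * c) ≤ Y := (le_max_left _ _).trans hY
  have hY2 : (12000 * φ) ^ (30000 : ℕ) ≤ Y := (le_max_right _ _).trans hY
  have hYone : 1 < Y := lt_of_lt_of_le (one_lt_pow₀ (by linarith) (by norm_num)) hY2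
  have hY0 : 0 < Y := by linarith
  have hlog : 0 < Real.log Y := Real.log_pos hYone
  have hlog1 : 24000 * φ * c ≤ Real.log Y := (Real.le_log_iff_exp_le hY0).2 hY1
  obtain ⟨y, hy⟩ : ∃ y : ℝ, y = Y ^ (1 - 1 / 6000 : ℝ) := ⟨_, rfl⟩
  have hy1 : 1 ≤ y := by rw [hy]; exact Real.one_le_rpow hYone.le (by norm_num)
  have hyY : y ≤ Y := by
    rw [hy]
    calc Y ^ (1 - 1 / 6000 : ℝ) ≤ Y ^ (1 : ℝ) :=
          Real.rpow_le_rpow_of_exponent_le hYone.le (by norm_num)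
      _ = Y := Real.rpow_one Y
  have hlogy : Real.log y = (1 - 1 / 6000) * Real.log Y := by rw [hy, Real.log_rpow hY0]
  have h1 := hc 1 (Nat.coprime_one_left q) Y hYone.le
  have h2 := hc 1 (Nat.coprime_one_left q) y hy1
  rw [← hφ] at h1 h2
  obtain ⟨S, hS⟩ : ∃ S : Finset ℕ,
    S = (Finset.Icc 1 ⌊Y⌋₊).filter (fun p : ℕ => p.Prime ∧ p ≡ 1 [MOD q]) := ⟨_, rfl⟩
  obtain ⟨T, hT⟩ : ∃ T : Finset ℕ,
    T = (Finset.Icc 1 ⌊y⌋₊).filter (fun p : ℕ => p.Prime ∧ p ≡ 1 [MOD q]) := ⟨_, rfl⟩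
  rw [← hS] at h1
  rw [← hT] at h2
  have hTS : T ⊆ S := by
    rw [hS, hT]
    apply Finset.filter_subset_filter
    exact Finset.Icc_subset_Icc le_rfl (Nat.floor_le_floor hyY)
  have hmem : ∀ p ∈ S \ T, p.Prime ∧ p ≡ 1 [MOD q] ∧ y < p ∧ (p : ℝ) ≤ Y := by
    intro p hp
    rw [Finset.mem_sdiff, hS, hT, Finset.mem_filter, Finset.mem_filter, Finset.mem_Icc,
      Finset.mem_Icc] at hp
    obtain ⟨⟨⟨ha, hb⟩, hpr, hm⟩, hn⟩ := hp
    refine ⟨hpr, hm, ?_, (Nat.le_floor_iff hY0.le).1 hb⟩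
    rw [← Nat.floor_lt (by linarith)]
    by_contra hcon
    exact hn ⟨⟨ha, not_lt.1 hcon⟩, hpr, hm⟩
  refine ⟨S \ T, fun p hp => ?_, ?_⟩
  · rw [← hy]; exact hmem p hp
  have hsum : ∑ p ∈ S \ T, Real.log p / p = ∑ p ∈ S, Real.log p / p - ∑ p ∈ T, Real.log p / p := by
    rw [← Finset.sum_sdiff hTS]; ring
  have hup : ∑ p ∈ S \ T, Real.log p / (p : ℝ) ≤ (S \ T).card * (Real.log Y / y) := by
    rw [← nsmul_eq_mul]
    apply Finset.sum_le_card_nsmul
    intro p hp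
    obtain ⟨-, -, h3, h4⟩ := hmem p hp
    have hp0 : (0 : ℝ) < p := by linarith
    exact div_le_div₀ hlog.le (Real.log_le_log hp0 h4) (by linarith) h3.le
  have h3 := (abs_le.1 h1).1
  have h4 := (abs_le.1 h2).2
  rw [hlogy] at h4
  have h5 : Real.log Y / (12000 * φ) ≤ (S \ T).card * (Real.log Y / y) := by
    refine le_trans ?_ hup
    rw [hsum]
    have h6 : Real.log Y / φ - (1 - 1 / 6000) * Real.log Y / φ = Real.log Y / (6000 * φ) := by
      field_simp; ring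
    have h7 : 2 * c ≤ Real.log Y / (12000 * φ) := by
      rw [le_div_iff₀ (by positivity)]; linarith
    have h8 : Real.log Y / (6000 * φ) = 2 * (Real.log Y / (12000 * φ)) := by
      field_simp; ring
    linarith
  have h6 : y / (12000 * φ) ≤ (S \ T).card := by
    have h7 : Real.log Y * (y / (12000 * φ)) ≤ Real.log Y * (S \ T).card := by
      have h8 := mul_le_mul_of_nonneg_right h5 (by linarith : (0 : ℝ) ≤ y)
      calc Real.log Y * (y / (12000 * φ)) = Real.log Y / (12000 * φ) * y := by ring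
        _ ≤ (S \ T).card * (Real.log Y / y) * y := h8
        _ = Real.log Y * (S \ T).card := by field_simp
    exact le_of_mul_le_mul_left h7 hlog
  refine le_trans ?_ h6
  rw [le_div_iff₀ (by positivity), hy]
  have h7 : 12000 * φ ≤ Y ^ (1 / 30000 : ℝ) := by
    calc 12000 * φ = ((12000 * φ) ^ (30000 : ℕ)) ^ (1 / 30000 : ℝ) := by
          rw [← Real.rpow_natCast, ← Real.rpow_mul (by positivity)]
          norm_num
      _ ≤ Y ^ (1 / 30000 : ℝ) := Real.rpow_le_rpow (by positivity) hY2 (by norm_num)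
  calc Y ^ (1 - 1 / 5000 : ℝ) * (12000 * φ) ≤ Y ^ (1 - 1 / 5000 : ℝ) * Y ^ (1 / 30000 : ℝ) :=
        mul_le_mul_of_nonneg_left h7 (Real.rpow_nonneg hY0.le _)
    _ = Y ^ (1 - 1 / 6000 : ℝ) := by rw [← Real.rpow_add hY0]; norm_num

end PE

/-- There are many elements `v` of norm `≪ Y` (a bounded multiple of a prime `p`, different
primes for different `v`) such that products of different multisets of them are never parallel,
even after multiplication by products of fixed elements from `G` (used for the units and for the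
total positivity in the real case). -/
theorem prime_el {B C : ℤ} (hD : ¬ IsSquare (B ^ 2 - 4 * C)) (G : Finset (ℤ × ℤ))
    (hG : ∀ γ ∈ G, nf B C γ ≠ 0) :
    ∃ K : ℝ, 1 ≤ K ∧ ∀ Y : ℝ, K ≤ Y →
    ∃ Q : Finset (ℤ × ℤ), (∀ v ∈ Q, v ≠ 0 ∧ |(v.1 : ℝ)| ≤ √Y ∧ |(v.2 : ℝ)| ≤ √Y) ∧
    Y ^ (1 - 1 / 5000 : ℝ) ≤ (Q.card : ℝ) ∧
    ∀ m m' g g' : Multiset (ℤ × ℤ), (∀ v ∈ m, v ∈ Q) → (∀ v ∈ m', v ∈ Q) →
      (∀ v ∈ g, v ∈ G) → (∀ v ∈ g', v ∈ G) →
      dt (mprod B C (g + m)) (mprod B C (g' + m')) = 0 → m = m' := by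
  classical
  have hD0 : B ^ 2 - 4 * C ≠ 0 := by
    intro h; apply hD; rw [h]; exact ⟨0, by simp⟩
  have hDpos : 0 < (B ^ 2 - 4 * C).natAbs := Int.natAbs_pos.2 hD0
  obtain ⟨K, hK1, hK⟩ := PE.many_primes (4 * (B ^ 2 - 4 * C).natAbs) (by omega)
  obtain ⟨M, hM⟩ : ∃ M : ℕ, M = (B ^ 2 - 4 * C).natAbs + (1 + B.natAbs + C.natAbs)
    + ∑ γ ∈ G, (nf B C γ).natAbs := ⟨_, rfl⟩
  have hM1 : (B ^ 2 - 4 * C).natAbs ≤ M := by omega
  have hM2 : 1 + B.natAbs + C.natAbs ≤ M := by omega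
  have hM3 : ∀ γ ∈ G, (nf B C γ).natAbs ≤ M := by
    intro γ hγ
    have h1 : (nf B C γ).natAbs ≤ ∑ γ ∈ G, (nf B C γ).natAbs :=
      Finset.single_le_sum (f := fun γ => (nf B C γ).natAbs) (fun _ _ => Nat.zero_le _) hγ
    omega
  refine ⟨max K ((M : ℝ) ^ 2), le_max_of_le_left hK1, fun Y hY => ?_⟩
  have hKY : K ≤ Y := (le_max_left _ _).trans hY
  have hMY : (M : ℝ) ^ 2 ≤ Y := (le_max_right _ _).trans hY
  have hYone : 1 ≤ Y := hK1.trans hKY
  obtain ⟨P, hP, hPcard⟩ := hK Y hKY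
  have hMp : ∀ p ∈ P, M < p := by
    intro p hp
    have h1 := (hP p hp).2.2.1
    have h2 : (M : ℝ) ≤ Y ^ (1 - 1 / 6000 : ℝ) := by
      calc (M : ℝ) = ((M : ℝ) ^ 2) ^ (1 / 2 : ℝ) := by
            rw [← Real.rpow_natCast, ← Real.rpow_mul (Nat.cast_nonneg M)]; norm_num
        _ ≤ Y ^ (1 / 2 : ℝ) := Real.rpow_le_rpow (by positivity) hMY (by norm_num)
        _ ≤ Y ^ (1 - 1 / 6000 : ℝ) := Real.rpow_le_rpow_of_exponent_le hYone (by norm_num)
    exact_mod_cast lt_of_le_of_lt h2 h1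
  have hBC : ∀ p ∈ P, (1 + |B| + |C|) < (p : ℤ) := by
    intro p hp
    have h1 := hMp p hp
    rw [Int.abs_eq_natAbs, Int.abs_eq_natAbs]
    have : (1 + B.natAbs + C.natAbs) < p := by omega
    exact_mod_cast this
  have hex : ∀ p ∈ P, _ := fun p hp => PE.exists_el hD (hP p hp).1 (hP p hp).2.1
    (lt_of_le_of_lt hM1 (hMp p hp)) (hBC p hp)
  choose! f hf using hex
  have hne : ∀ p ∈ P, ∀ p' ∈ P, p' ≠ p → ¬ (p' : ℤ) ∣ nf B C (f p) := fun p hp p' hp' h =>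
    (hf p hp).2.2.2.2.1 p' (hP p' hp').1 h (hBC p' hp')
  have hinj : Set.InjOn f P := by
    intro p hp p' hp' he
    by_contra hcon
    exact hne p hp p' hp' (fun h => hcon h.symm) (he ▸ (hf p' hp').2.2.2.1)
  have hsq : ∀ p ∈ P, ∀ t : ℤ, t ^ 2 ≤ p → |(t : ℝ)| ≤ √Y := by
    intro p hp t ht
    apply Real.abs_le_sqrt
    have h1 : ((t : ℝ)) ^ 2 ≤ p := by exact_mod_cast ht
    exact h1.trans (hP p hp).2.2.2
  refine ⟨P.image f, ?_, ?_, ?_⟩
  · intro v hv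
    obtain ⟨p, hp, rfl⟩ := Finset.mem_image.1 hv
    obtain ⟨h0, h1, h2, -⟩ := hf p hp
    exact ⟨h0, hsq p hp _ h1, hsq p hp _ h2⟩
  · rw [Finset.card_image_of_injOn hinj]; exact hPcard
  · intro m m' g g' hm hm' hg hg' h
    rw [PE.mprod_add, PE.mprod_add] at h
    refine PE.core (Q := P.image f) (G := G) ?_ ?_ hg hg' m m' hm hm' (PE.dt_zero h)
    · intro v hv
      obtain ⟨p, hp, rfl⟩ := Finset.mem_image.1 hv
      obtain ⟨h0, h1, h2, h3, h4, I, hI, hv1, hv2, hI3⟩ := hf p hp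
      refine ⟨I, hI, hv1, hv2, ?_, ?_⟩
      · intro γ hγ
        apply hI3
        intro hdvd
        have h5 := Nat.le_of_dvd (Int.natAbs_pos.2 (hG γ hγ)) (Int.natCast_dvd.1 hdvd)
        have h6 := hM3 γ hγ
        have h7 := hMp p hp
        omega
      · intro u hu hne'
        obtain ⟨p', hp', rfl⟩ := Finset.mem_image.1 hu
        apply hI3
        exact hne p' hp' p hp (fun h => hne' (by rw [h]))
    · intro v hv
      obtain ⟨p, hp, rfl⟩ := Finset.mem_image.1 hv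
      exact PE.nf_ne_zero hD (hf p hp).1

end Pool.Agent.LogPar
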