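import Pool.Agent.LogPar.ThD
import Pool.Agent.LogPar.PrimeEl

set_option autoImplicit false

/-! # Definite case: elements whose products have distinct directions -/

namespace Pool.Agent.LogPar

open Pool.Agent.FareyParity

namespace PD

variable {B C : ℤ}

theorem cv_one : cv B C (1, 0) = 1 := by
  apply Complex.ext <;> simp [cv]

theorem mprod_ne_zero (hD : B ^ 2 < 4 * C) (m : Multiset (ℤ × ℤ)) :
    (∀ v ∈ m, v ≠ 0) → mprod B C m ≠ 0 := by
  induction m using Multiset.induction with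
  | empty => intro _; rw [mprod_zero]; simp
  | cons v m ih =>
    intro h
    rw [mprod_cons]
    exact mulv_ne_zero hD (h v (Multiset.mem_cons_self v m))
      (ih fun u hu => h u (Multiset.mem_cons_of_mem hu))

theorem thD_mprod (hD : B ^ 2 < 4 * C) (m : Multiset (ℤ × ℤ)) :
    (∀ v ∈ m, v ≠ 0) → thD B C (mprod B C m) = (m.map (thD B C)).sum := by
  induction m using Multiset.induction with
  | empty =>
    intro _
    rw [mprod_zero, thD, cv_one]; simp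
  | cons v m ih =>
    intro h
    rw [mprod_cons, thD_mulv hD (h v (Multiset.mem_cons_self v m))
      (mprod_ne_zero hD m fun u hu => h u (Multiset.mem_cons_of_mem hu)),
      ih fun u hu => h u (Multiset.mem_cons_of_mem hu), Multiset.map_cons, Multiset.sum_cons]

theorem norm_mprod (hD : B ^ 2 < 4 * C) {s : ℝ} (hs : 0 ≤ s) (m : Multiset (ℤ × ℤ)) :
    (∀ v ∈ m, ‖cv B C v‖ ≤ s) → ‖cv B C (mprod B C m)‖ ≤ s ^ m.card := by
  induction m using Multiset.induction with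
  | empty =>
    intro _
    rw [mprod_zero, cv_one]; simp
  | cons v m ih =>
    intro h
    have h1 := h v (Multiset.mem_cons_self v m)
    have h2 := ih fun u hu => h u (Multiset.mem_cons_of_mem hu)
    rw [mprod_cons, cv_mulv hD, norm_mul, Multiset.card_cons, pow_succ']
    exact mul_le_mul h1 h2 (norm_nonneg _) hs

end PD

theorem primesD {B C : ℤ} (hD : B ^ 2 < 4 * C) : ∃ K : ℝ, 1 ≤ K ∧ ∀ Y : ℝ, K ≤ Y →
    ∃ Q : Finset (ℤ × ℤ), (∀ v ∈ Q, v ≠ 0 ∧ (nf B C v : ℝ) ≤ Y) ∧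
    Y ^ (1 - 1 / 4000 : ℝ) ≤ (Q.card : ℝ) ∧
    ∀ r : ℕ, ∀ m ∈ Q.sym r, ∀ m' ∈ Q.sym r, m ≠ m' →
      1 / (K * Y ^ r) ≤
        ‖((m : Multiset (ℤ × ℤ)).map (thD B C)).sum - ((m' : Multiset (ℤ × ℤ)).map (thD B C)).sum‖ := by
  classical
  have hsq : ¬ IsSquare (B ^ 2 - 4 * C) := by
    rintro ⟨a, ha⟩
    nlinarith [mul_self_nonneg a]
  obtain ⟨K1, hK1, hprime⟩ := prime_el hsq ∅ (by simp)
  have hbt := bt_pos hD
  obtain ⟨c, hc⟩ : ∃ c : ℝ, c = 1 + |(B : ℝ)| + |(C : ℝ)| := ⟨_, rfl⟩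
  have hc1 : 1 ≤ c := by rw [hc]; linarith [abs_nonneg (B : ℝ), abs_nonneg (C : ℝ)]
  have hc0 : 0 < c := by linarith
  obtain ⟨K2, hK2⟩ : ∃ K2 : ℝ, K2 = 2 * Real.pi / bt B C := ⟨_, rfl⟩
  have hK2pos : 0 < K2 := by rw [hK2]; positivity
  refine ⟨max (max (c * K1) (c ^ 20000)) (K2 + 1), le_max_of_le_right (by linarith), fun Y hY => ?_⟩
  have hY1 : c * K1 ≤ Y := ((le_max_left _ _).trans (le_max_left _ _)).trans hY
  have hY2 : c ^ 20000 ≤ Y := ((le_max_right _ _).trans (le_max_left _ _)).trans hY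
  have hY3 : K2 + 1 ≤ Y := (le_max_right _ _).trans hY
  have hYone : 1 ≤ Y := by linarith
  have hY0 : 0 < Y := by linarith
  obtain ⟨Q0, hQ0, hQ0c, hQ0d⟩ := hprime (Y / c) (by rw [le_div_iff₀ hc0]; linarith)
  have hnorm : ∀ v ∈ Q0, (nf B C v : ℝ) ≤ Y := by
    intro v hv
    obtain ⟨h0, h1, h2⟩ := hQ0 v hv
    have hYc : 0 ≤ Y / c := by positivity
    have e : (nf B C v : ℝ) = (v.1 : ℝ) ^ 2 + B * ((v.1 : ℝ) * v.2) + C * (v.2 : ℝ) ^ 2 := by
      simp only [nf]; push_cast; ring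
    have a1 : |(v.1 : ℝ)| ^ 2 ≤ Y / c := by
      calc |(v.1 : ℝ)| ^ 2 ≤ √(Y / c) ^ 2 := pow_le_pow_left₀ (abs_nonneg _) h1 2
        _ = Y / c := Real.sq_sqrt hYc
    have a2 : |(v.2 : ℝ)| ^ 2 ≤ Y / c := by
      calc |(v.2 : ℝ)| ^ 2 ≤ √(Y / c) ^ 2 := pow_le_pow_left₀ (abs_nonneg _) h2 2
        _ = Y / c := Real.sq_sqrt hYc
    have a3 : |(v.1 : ℝ)| * |(v.2 : ℝ)| ≤ Y / c := by
      calc |(v.1 : ℝ)| * |(v.2 : ℝ)| ≤ √(Y / c) * √(Y / c) :=
            mul_le_mul h1 h2 (abs_nonneg _) (Real.sqrt_nonneg _)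
        _ = Y / c := Real.mul_self_sqrt hYc
    rw [e]
    calc (v.1 : ℝ) ^ 2 + B * ((v.1 : ℝ) * v.2) + C * (v.2 : ℝ) ^ 2
        ≤ |(v.1 : ℝ) ^ 2 + B * ((v.1 : ℝ) * v.2) + C * (v.2 : ℝ) ^ 2| := le_abs_self _
      _ ≤ |(v.1 : ℝ) ^ 2| + |B * ((v.1 : ℝ) * v.2)| + |C * (v.2 : ℝ) ^ 2| := abs_add_three _ _ _
      _ = |(v.1 : ℝ)| ^ 2 + |(B : ℝ)| * (|(v.1 : ℝ)| * |(v.2 : ℝ)|)
          + |(C : ℝ)| * |(v.2 : ℝ)| ^ 2 := by
          rw [abs_pow, abs_mul, abs_mul, abs_mul, abs_pow]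
      _ ≤ Y / c + |(B : ℝ)| * (Y / c) + |(C : ℝ)| * (Y / c) := by gcongr
      _ = c * (Y / c) := by rw [hc]; ring
      _ = Y := by field_simp
  refine ⟨Q0, ?_, ?_, ?_⟩
  · intro v hv
    exact ⟨(hQ0 v hv).1, hnorm v hv⟩
  · refine le_trans ?_ hQ0c
    rw [Real.div_rpow hY0.le hc0.le, le_div_iff₀ (by positivity)]
    have h1 : c ^ (1 - 1 / 5000 : ℝ) ≤ c := by
      calc c ^ (1 - 1 / 5000 : ℝ) ≤ c ^ (1 : ℝ) :=
            Real.rpow_le_rpow_of_exponent_le hc1 (by norm_num)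
        _ = c := Real.rpow_one c
    have h2 : c ≤ Y ^ (1 / 20000 : ℝ) := by
      calc c = (c ^ (20000 : ℕ)) ^ (1 / 20000 : ℝ) := by
            rw [← Real.rpow_natCast, ← Real.rpow_mul hc0.le]
            norm_num
        _ ≤ Y ^ (1 / 20000 : ℝ) := Real.rpow_le_rpow (by positivity) hY2 (by norm_num)
    calc Y ^ (1 - 1 / 4000 : ℝ) * c ^ (1 - 1 / 5000 : ℝ)
        ≤ Y ^ (1 - 1 / 4000 : ℝ) * Y ^ (1 / 20000 : ℝ) :=
          mul_le_mul_of_nonneg_left (h1.trans h2) (Real.rpow_nonneg hY0.le _)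
      _ = Y ^ (1 - 1 / 5000 : ℝ) := by rw [← Real.rpow_add hY0]; norm_num
  · intro r m hm m' hm' hne
    obtain ⟨M, hM⟩ : ∃ M : Multiset (ℤ × ℤ), M = (m : Multiset (ℤ × ℤ)) := ⟨_, rfl⟩
    obtain ⟨M', hM'⟩ : ∃ M' : Multiset (ℤ × ℤ), M' = (m' : Multiset (ℤ × ℤ)) := ⟨_, rfl⟩
    have hMM : M ≠ M' := by
      intro h; apply hne; apply Sym.coe_injective; rw [← hM, ← hM', h]
    have hMc : M.card = r := by rw [hM]; exact m.2
    have hMc' : M'.card = r := by rw [hM']; exact m'.2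
    have hMQ : ∀ v ∈ M, v ∈ Q0 := by
      intro v hv; rw [hM] at hv; exact Finset.mem_sym_iff.1 hm v hv
    have hMQ' : ∀ v ∈ M', v ∈ Q0 := by
      intro v hv; rw [hM'] at hv; exact Finset.mem_sym_iff.1 hm' v hv
    rw [← hM, ← hM']
    have hs : ∀ v ∈ Q0, ‖cv B C v‖ ≤ √Y := by
      intro v hv
      apply Real.le_sqrt_of_sq_le
      rw [norm_cv_sq hD]
      exact hnorm v hv
    have hdt : dt (mprod B C M) (mprod B C M') ≠ 0 := by
      intro h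
      apply hMM
      apply hQ0d M M' 0 0 hMQ hMQ' (by simp) (by simp)
      rw [zero_add, zero_add]; exact h
    have hv := PD.mprod_ne_zero hD M (fun v hv => (hQ0 v (hMQ v hv)).1)
    have hw := PD.mprod_ne_zero hD M' (fun v hv => (hQ0 v (hMQ' v hv)).1)
    have h1 := thD_sep hD hv hw
    rw [PD.thD_mprod hD M (fun v hv => (hQ0 v (hMQ v hv)).1),
      PD.thD_mprod hD M' (fun v hv => (hQ0 v (hMQ' v hv)).1)] at h1
    refine le_trans ?_ h1
    have hd1 : (1 : ℝ) ≤ |(dt (mprod B C M) (mprod B C M') : ℝ)| := by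
      have : (1 : ℤ) ≤ |dt (mprod B C M) (mprod B C M')| := Int.one_le_abs hdt
      exact_mod_cast this
    have hn1 : ‖cv B C (mprod B C M)‖ ≤ √Y ^ r := by
      rw [← hMc]
      exact PD.norm_mprod hD (Real.sqrt_nonneg _) M (fun v hv => hs v (hMQ v hv))
    have hn2 : ‖cv B C (mprod B C M')‖ ≤ √Y ^ r := by
      rw [← hMc']
      exact PD.norm_mprod hD (Real.sqrt_nonneg _) M' (fun v hv => hs v (hMQ' v hv))
    have hp1 : 0 < ‖cv B C (mprod B C M)‖ := lt_of_lt_of_le one_pos (one_le_norm_cv hD hv)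
    have hp2 : 0 < ‖cv B C (mprod B C M')‖ := lt_of_lt_of_le one_pos (one_le_norm_cv hD hw)
    have hprod : ‖cv B C (mprod B C M)‖ * ‖cv B C (mprod B C M')‖ ≤ Y ^ r := by
      calc _ ≤ √Y ^ r * √Y ^ r := by gcongr
        _ = (√Y * √Y) ^ r := by rw [mul_pow]
        _ = Y ^ r := by rw [Real.mul_self_sqrt hY0.le]
    have hpi := Real.pi_pos
    calc 1 / (max (max (c * K1) (c ^ 20000)) (K2 + 1) * Y ^ r)
        ≤ 1 / (K2 * Y ^ r) := by
          apply one_div_le_one_div_of_le (by positivity)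
          gcongr
          exact le_trans (by linarith) (le_max_right _ _)
      _ = bt B C * 1 / (2 * Real.pi * Y ^ r) := by rw [hK2]; field_simp
      _ ≤ bt B C * |(dt (mprod B C M) (mprod B C M') : ℝ)| /
          (2 * Real.pi * (‖cv B C (mprod B C M)‖ * ‖cv B C (mprod B C M')‖)) := by
          gcongr

end Pool.Agent.LogPar
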