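import Pool.Agent.LogPar.Defs

set_option autoImplicit false

/-! # Number of roots of a quadratic congruence -/

namespace Pool.Agent.LogPar

private theorem dsub {a b c d : ℤ} (h1 : d ∣ a) (h2 : d ∣ b) (e : c = a - b) : d ∣ c := by
  rw [e]; exact dvd_sub h1 h2

private theorem card_class {u m h : ℕ} (hu : u = m * h) (T : Finset ℕ)
    (hT : T ⊆ Finset.range u) (hc : ∀ n ∈ T, ∀ n' ∈ T, n % m = n' % m) : T.card ≤ h := by
  have h1 : ∀ n ∈ T, n / m ∈ Finset.range h := by
    intro n hn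
    have h2 := Finset.mem_range.1 (hT hn)
    rw [Finset.mem_range]
    exact Nat.div_lt_of_lt_mul (hu ▸ h2)
  have h2 := Finset.card_le_card_of_injOn (s := T) (t := Finset.range h) (fun n => n / m)
    (fun n hn => h1 n hn) (by
      intro n hn n' hn' he
      have h3 := hc n hn n' hn'
      have h4 := Nat.div_add_mod n m
      have h5 := Nat.div_add_mod n' m
      simp only at he
      rw [he, h3] at h4
      omega)
  simpa using h2

theorem rho_le {B C : ℤ} (hD : B ^ 2 - 4 * C ≠ 0) {u : ℕ} (hu : 1 ≤ u) :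
    ((Finset.range u).filter (fun n : ℕ => (u : ℤ) ∣ (n : ℤ) ^ 2 + B * n + C)).card ≤
      (B ^ 2 - 4 * C).natAbs * u.divisors.card := by
  classical
  set S := (Finset.range u).filter (fun n : ℕ => (u : ℤ) ∣ (n : ℤ) ^ 2 + B * n + C) with hS
  rcases S.eq_empty_or_nonempty with h0 | ⟨n0, hn0⟩
  · rw [h0]; simp
  have hn0' := (Finset.mem_filter.1 hn0).2
  refine Finset.card_le_mul_card_image_of_maps_to (f := fun n : ℕ => Int.gcd ((n : ℤ) - n0) u)
    ?_ _ ?_
  · intro n hn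
    rw [Nat.mem_divisors]
    refine ⟨?_, by omega⟩
    have := Int.gcd_dvd_right ((n : ℤ) - n0) u
    exact_mod_cast this
  · intro g hg
    set T := S.filter (fun n : ℕ => Int.gcd ((n : ℤ) - n0) u = g) with hT
    rcases T.eq_empty_or_nonempty with hT0 | ⟨n1, hn1⟩
    · rw [hT0]; simp
    obtain ⟨w, hw⟩ := (Nat.mem_divisors.1 hg).1
    have hg0 : 0 < g := Nat.pos_of_ne_zero (by rintro rfl; omega)
    have hw0 : 0 < w := Nat.pos_of_ne_zero (by rintro rfl; omega)
    -- the two congruences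
    have key : ∀ n ∈ T, ((g : ℤ) ∣ (n : ℤ) - n0) ∧ ((w : ℤ) ∣ (n : ℤ) + n0 + B) := by
      intro n hn
      obtain ⟨hnS, hng⟩ := Finset.mem_filter.1 hn
      have hnu := (Finset.mem_filter.1 hnS).2
      have hg1 : (g : ℤ) ∣ (n : ℤ) - n0 := by
        rw [← hng]; exact Int.gcd_dvd_left _ _
      refine ⟨hg1, ?_⟩
      have h1 : (u : ℤ) ∣ ((n : ℤ) - n0) * ((n : ℤ) + n0 + B) := by
        exact dsub hnu hn0' (by ring)
      obtain ⟨s, hs⟩ := hg1
      rw [hs, hw, mul_assoc] at h1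
      push_cast at h1
      have h2 : (w : ℤ) ∣ s * ((n : ℤ) + n0 + B) :=
        Int.dvd_of_mul_dvd_mul_left (by exact_mod_cast hg0.ne') h1
      have h3 : IsCoprime (w : ℤ) s := by
        rw [Int.isCoprime_iff_gcd_eq_one]
        rw [hs, hw] at hng
        push_cast at hng
        rw [Int.gcd_mul_left, Int.natAbs_natCast] at hng
        have h4 : Int.gcd s (w : ℤ) = 1 := Nat.eq_of_mul_eq_mul_left hg0 (by rw [hng, mul_one])
        rw [Int.gcd_comm]; exact h4
      exact h3.dvd_of_dvd_mul_left h2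
    set h := Nat.gcd g w with hh
    obtain ⟨g', hg'⟩ : h ∣ g := Nat.gcd_dvd_left _ _
    obtain ⟨w', hw'⟩ : h ∣ w := Nat.gcd_dvd_right _ _
    have hh0 : 0 < h := Nat.gcd_pos_of_pos_left _ hg0
    have hle : T.card ≤ h := by
      refine card_class (u := u) (m := Nat.lcm g w) (h := h) ?_ T
        ((Finset.filter_subset _ _).trans (Finset.filter_subset _ _)) ?_
      · rw [mul_comm, Nat.gcd_mul_lcm]; exact hw
      · intro n hn n' hn'
        obtain ⟨a1, a2⟩ := key n hn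
        obtain ⟨b1, b2⟩ := key n' hn'
        have c1 : (g : ℤ) ∣ (n' : ℤ) - n := by
          exact dsub b1 a1 (by ring)
        have c2 : (w : ℤ) ∣ (n' : ℤ) - n := by
          exact dsub b2 a2 (by ring)
        have d1 : n ≡ n' [MOD g] := (Nat.modEq_iff_dvd).2 c1
        have d2 : n ≡ n' [MOD w] := (Nat.modEq_iff_dvd).2 c2
        exact Nat.mod_lcm d1 d2
    have hdiv : ((h * h : ℕ) : ℤ) ∣ (B ^ 2 - 4 * C) := by
      obtain ⟨a1, a2⟩ := key n1 hn1
      have e1 : (h : ℤ) ∣ (n1 : ℤ) - n0 := (Int.natCast_dvd_natCast.2 ⟨g', hg'⟩).trans a1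
      have e2 : (h : ℤ) ∣ (n1 : ℤ) + n0 + B := (Int.natCast_dvd_natCast.2 ⟨w', hw'⟩).trans a2
      have e3 : (h : ℤ) ∣ 2 * n0 + B := by
        exact dsub e2 e1 (by ring)
      have e4 : ((h * h : ℕ) : ℤ) ∣ (2 * n0 + B) ^ 2 := by
        rw [sq]; push_cast; exact mul_dvd_mul e3 e3
      have e5 : ((h * h : ℕ) : ℤ) ∣ (u : ℤ) := by
        refine Int.natCast_dvd_natCast.2 ⟨g' * w', ?_⟩
        rw [hw]
        nth_rewrite 1 [hg']
        nth_rewrite 1 [hw']
        ring
      have e6 : ((h * h : ℕ) : ℤ) ∣ 4 * ((n0 : ℤ) ^ 2 + B * n0 + C) :=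
        (e5.trans hn0').mul_left 4
      exact dsub e4 e6 (by ring)
    have hfin : h * h ≤ (B ^ 2 - 4 * C).natAbs := by
      have := Int.natAbs_dvd_natAbs.2 hdiv
      rw [Int.natAbs_natCast] at this
      exact Nat.le_of_dvd (Int.natAbs_pos.2 hD) this
    calc T.card ≤ h := hle
      _ ≤ h * h := Nat.le_mul_of_pos_left _ hh0
      _ ≤ _ := hfin

end Pool.Agent.LogPar
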