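import Pool.Agent.LogPar.ThD
import Pool.Agent.LogPar.RepD
import Pool.Agent.LogPar.TauS

set_option autoImplicit false

/-! # Definite case: few coincidences between directions of products -/

namespace Pool.Agent.LogPar

open Pool.Agent.FareyParity

/-- multiplication by a nonzero vector is injective -/
theorem quad_mulv_inj {B C : ℤ} (hD : B ^ 2 < 4 * C) {v w w' : ℤ × ℤ} (hv : v ≠ 0)
    (h : mulv B C v w = mulv B C v w') : w = w' := by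
  by_contra hne
  have h1 : w - w' ≠ 0 := sub_ne_zero.2 hne
  have h2 : mulv B C v (w - w') = 0 := by
    have e : mulv B C v (w - w') = mulv B C v w - mulv B C v w' := by
      simp only [mulv, Prod.fst_sub, Prod.snd_sub]
      ext
      · simp only [Prod.fst_sub]; ring
      · simp only [Prod.snd_sub]; ring
    rw [e, h, sub_self]
  exact mulv_ne_zero hD hv h1 h2

theorem quad_card_divisors_le {d n : ℕ} (h : d ∣ n) (hn : n ≠ 0) :
    d.divisors.card ≤ n.divisors.card :=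
  Finset.card_le_card (Nat.divisors_subset_of_dvd hn h)

/-- number of factorisations of a given vector -/
theorem quad_fiber {B C : ℤ} (hD : B ^ 2 < 4 * C) {Kr : ℝ} (hKr : 0 ≤ Kr)
    (hr : ∀ n : ℕ, 1 ≤ n → ∀ P : Finset (ℤ × ℤ), (∀ v ∈ P, nf B C v = n) →
      (P.card : ℝ) ≤ Kr * (n.divisors.card : ℝ) ^ 2)
    {V : Finset (ℤ × ℤ)} (hV : ∀ v ∈ V, v ≠ 0) {z : ℤ × ℤ} (hz : z ≠ 0) :
    (((V ×ˢ V).filter (fun p => mulv B C p.1 p.2 = z)).card : ℝ) ≤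
      Kr * ((nf B C z).natAbs.divisors.card : ℝ) ^ 3 := by
  classical
  have hn0 : (nf B C z).natAbs ≠ 0 := by
    have := nf_pos hD hz
    omega
  obtain ⟨n, hn⟩ : ∃ n : ℕ, n = (nf B C z).natAbs := ⟨_, rfl⟩
  rw [← hn] at hn0 ⊢
  have hnz : (n : ℤ) = nf B C z := by
    have := nf_pos hD hz
    omega
  -- injection to the first coordinate
  have h1 : ((V ×ˢ V).filter (fun p => mulv B C p.1 p.2 = z)).card ≤
      (n.divisors.biUnion (fun d => V.filter (fun v => nf B C v = d))).card := by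
    apply Finset.card_le_card_of_injOn Prod.fst
    · intro p hp
      simp only [Finset.coe_filter, Finset.mem_product, Set.mem_ofPred_eq] at hp
      obtain ⟨⟨hp1, hp2⟩, hp3⟩ := hp
      simp only [Finset.coe_biUnion, Set.mem_iUnion, Finset.mem_coe, Finset.mem_filter,
        Nat.mem_divisors]
      have hpos := nf_pos hD (hV _ hp1)
      refine ⟨(nf B C p.1).natAbs, ⟨?_, hn0⟩, hp1, by omega⟩
      have : nf B C z = nf B C p.1 * nf B C p.2 := by rw [← hp3, nf_mulv]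
      rw [hn, this, Int.natAbs_mul]
      exact Dvd.intro _ rfl
    · intro p hp q hq hpq
      simp only [Finset.coe_filter, Finset.mem_product, Set.mem_ofPred_eq] at hp hq
      have h2 : mulv B C p.1 p.2 = mulv B C p.1 q.2 := by
        rw [hp.2, ← hq.2, hpq]
      exact Prod.ext hpq (quad_mulv_inj hD (hV _ hp.1.1) h2)
  have h2 : ((n.divisors.biUnion (fun d => V.filter (fun v => nf B C v = d))).card : ℝ) ≤
      ∑ d ∈ n.divisors, Kr * (n.divisors.card : ℝ) ^ 2 := by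
    calc ((n.divisors.biUnion (fun d => V.filter (fun v => nf B C v = d))).card : ℝ)
        ≤ ((∑ d ∈ n.divisors, (V.filter (fun v => nf B C v = d)).card : ℕ) : ℝ) := by
          exact_mod_cast Finset.card_biUnion_le
      _ = ∑ d ∈ n.divisors, ((V.filter (fun v => nf B C v = d)).card : ℝ) := by push_cast; rfl
      _ ≤ _ := by
          apply Finset.sum_le_sum
          intro d hd
          have hdn := Nat.dvd_of_mem_divisors hd
          have hd1 : 1 ≤ d := Nat.pos_of_mem_divisors hd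
          calc ((V.filter (fun v => nf B C v = d)).card : ℝ)
              ≤ Kr * (d.divisors.card : ℝ) ^ 2 :=
                hr d hd1 _ (fun v hv => (Finset.mem_filter.1 hv).2)
            _ ≤ Kr * (n.divisors.card : ℝ) ^ 2 := by
                have : (d.divisors.card : ℝ) ≤ n.divisors.card := by
                  exact_mod_cast quad_card_divisors_le hdn hn0
                gcongr
  calc (((V ×ˢ V).filter (fun p => mulv B C p.1 p.2 = z)).card : ℝ)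
      ≤ ((n.divisors.biUnion (fun d => V.filter (fun v => nf B C v = d))).card : ℝ) := by
        exact_mod_cast h1
    _ ≤ _ := h2
    _ = _ := by rw [Finset.sum_const, nsmul_eq_mul]; ring

/-- number of products in a given direction -/
theorem quad_dir {B C : ℤ} (hD : B ^ 2 < 4 * C) {Kr : ℝ} (hKr : 0 ≤ Kr)
    (hr : ∀ n : ℕ, 1 ≤ n → ∀ P : Finset (ℤ × ℤ), (∀ v ∈ P, nf B C v = n) →
      (P.card : ℝ) ≤ Kr * (n.divisors.card : ℝ) ^ 2)
    {V : Finset (ℤ × ℤ)} {ρ : ℝ} (hρ : 0 ≤ ρ) (hV : ∀ v ∈ V, v ≠ 0 ∧ ‖cv B C v‖ ≤ ρ)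
    {δ : ℤ × ℤ} (hδ : IsCoprime δ.1 δ.2) :
    (((V ×ˢ V).filter (fun p => dt δ (mulv B C p.1 p.2) = 0)).card : ℝ) ≤
      2 * Kr * ((nf B C δ).natAbs.divisors.card : ℝ) ^ 3 * (ρ ^ 2 / ‖cv B C δ‖) *
      ∑ k ∈ Finset.Icc 1 ⌊ρ ^ 2⌋₊, (k.divisors.card : ℝ) ^ 6 / k := by
  classical
  have hδ0 : δ ≠ 0 := by
    rintro rfl
    obtain ⟨a, b, hab⟩ := hδ
    simp at hab
  have hnδ := one_le_norm_cv hD hδ0
  have hposδ : 0 < ‖cv B C δ‖ := by linarith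
  obtain ⟨x, hx⟩ : ∃ x : ℝ, x = ρ ^ 2 / ‖cv B C δ‖ := ⟨_, rfl⟩
  have hx0 : 0 ≤ x := by rw [hx]; positivity
  have hxle : x ≤ ρ ^ 2 := by
    rw [hx]; exact div_le_self (by positivity) hnδ
  obtain ⟨t, ht⟩ : ∃ t : ℕ, t = (nf B C δ).natAbs.divisors.card := ⟨_, rfl⟩
  have hnfδ := nf_pos hD hδ0
  rw [← hx, ← ht]
  obtain ⟨N, hN⟩ : ∃ N : Finset ((ℤ × ℤ) × (ℤ × ℤ)),
    N = (V ×ˢ V).filter (fun p => dt δ (mulv B C p.1 p.2) = 0) := ⟨_, rfl⟩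
  have hcov : N ⊆ (Finset.Icc 1 ⌊x⌋₊).biUnion (fun k =>
      (V ×ˢ V).filter (fun p => mulv B C p.1 p.2 = (k : ℤ) • δ) ∪
      (V ×ˢ V).filter (fun p => mulv B C p.1 p.2 = (-(k : ℤ)) • δ)) := by
    intro p hp
    rw [hN, Finset.mem_filter] at hp
    obtain ⟨hpV, hp0⟩ := hp
    have hpV' := Finset.mem_product.1 hpV
    obtain ⟨e, he⟩ := eq_smul_of_dt_eq_zero hδ hp0
    have hne : mulv B C p.1 p.2 ≠ 0 := mulv_ne_zero hD (hV _ hpV'.1).1 (hV _ hpV'.2).1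
    have he0 : e ≠ 0 := by
      rintro rfl
      rw [zero_smul] at he
      exact hne he
    have hnorm : (e.natAbs : ℝ) * ‖cv B C δ‖ ≤ ρ ^ 2 := by
      have h1 : ‖cv B C (mulv B C p.1 p.2)‖ ≤ ρ * ρ := by
        rw [cv_mulv hD, norm_mul]
        exact mul_le_mul (hV _ hpV'.1).2 (hV _ hpV'.2).2 (norm_nonneg _) hρ
      rw [he, cv_smul, norm_mul, Complex.norm_intCast] at h1
      rw [Nat.cast_natAbs, Int.cast_abs]
      linarith
    have hk : e.natAbs ≤ ⌊x⌋₊ := by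
      apply Nat.le_floor
      rw [hx, le_div_iff₀ hposδ]
      exact hnorm
    rw [Finset.mem_biUnion]
    refine ⟨e.natAbs, Finset.mem_Icc.2 ⟨by omega, hk⟩, ?_⟩
    rw [Finset.mem_union, Finset.mem_filter, Finset.mem_filter]
    rcases Int.natAbs_eq e with h | h
    · left; refine ⟨hpV, ?_⟩
      rw [← h]; exact he
    · right; refine ⟨hpV, ?_⟩
      rw [← h]; exact he
  have hterm : ∀ k ∈ Finset.Icc 1 ⌊x⌋₊, (((V ×ˢ V).filter (fun p => mulv B C p.1 p.2 = (k : ℤ) • δ) ∪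
      (V ×ˢ V).filter (fun p => mulv B C p.1 p.2 = (-(k : ℤ)) • δ)).card : ℝ) ≤
      2 * Kr * (t : ℝ) ^ 3 * x * ((k.divisors.card : ℝ) ^ 6 / k) := by
    intro k hk
    obtain ⟨hk1, hk2⟩ := Finset.mem_Icc.1 hk
    have hkx : (k : ℝ) ≤ x := (Nat.le_floor_iff hx0).1 hk2
    have hkpos : (0 : ℝ) < k := by exact_mod_cast hk1
    have key : ∀ e : ℤ, e.natAbs = k →
        (((V ×ˢ V).filter (fun p => mulv B C p.1 p.2 = e • δ)).card : ℝ) ≤
        Kr * (t : ℝ) ^ 3 * (k.divisors.card : ℝ) ^ 6 := by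
      intro e he
      have he0 : e ≠ 0 := by omega
      have hz : e • δ ≠ 0 := smul_ne_zero he0 hδ0
      have h1 := quad_fiber hD hKr hr (V := V) (fun v hv => (hV v hv).1) hz
      refine h1.trans ?_
      have h2 : (nf B C (e • δ)).natAbs = k * k * (nf B C δ).natAbs := by
        rw [nf_smul, Int.natAbs_mul, pow_two, Int.natAbs_mul, he]
      have h3 : ((nf B C (e • δ)).natAbs.divisors.card : ℝ) ≤
          (k.divisors.card : ℝ) * k.divisors.card * t := by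
        rw [h2, ht]
        calc (((k * k * (nf B C δ).natAbs).divisors.card : ℕ) : ℝ)
            ≤ ((k * k).divisors.card : ℝ) * (nf B C δ).natAbs.divisors.card := tau_mul _ _
          _ ≤ ((k.divisors.card : ℝ) * k.divisors.card) * (nf B C δ).natAbs.divisors.card := by
              gcongr; exact tau_mul _ _
      calc Kr * ((nf B C (e • δ)).natAbs.divisors.card : ℝ) ^ 3
          ≤ Kr * ((k.divisors.card : ℝ) * k.divisors.card * t) ^ 3 := by gcongr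
        _ = _ := by ring
    have hsum : (((V ×ˢ V).filter (fun p => mulv B C p.1 p.2 = (k : ℤ) • δ) ∪
        (V ×ˢ V).filter (fun p => mulv B C p.1 p.2 = (-(k : ℤ)) • δ)).card : ℝ) ≤
        (((V ×ˢ V).filter (fun p => mulv B C p.1 p.2 = (k : ℤ) • δ)).card : ℝ) +
        (((V ×ˢ V).filter (fun p => mulv B C p.1 p.2 = (-(k : ℤ)) • δ)).card : ℝ) := by
      exact_mod_cast Finset.card_union_le _ _
    have ha := key (k : ℤ) (by simp)
    have hb := key (-(k : ℤ)) (by simp)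
    have h1x : 1 ≤ x / k := by rw [le_div_iff₀ hkpos]; linarith
    calc _ ≤ 2 * Kr * (t : ℝ) ^ 3 * (k.divisors.card : ℝ) ^ 6 := by linarith
      _ = 2 * Kr * (t : ℝ) ^ 3 * (k.divisors.card : ℝ) ^ 6 * 1 := by ring
      _ ≤ 2 * Kr * (t : ℝ) ^ 3 * (k.divisors.card : ℝ) ^ 6 * (x / k) := by gcongr
      _ = _ := by ring
  rw [← hN]
  have hcard1 := (Finset.card_le_card hcov).trans Finset.card_biUnion_le
  calc (N.card : ℝ) ≤ ((∑ k ∈ Finset.Icc 1 ⌊x⌋₊, ((V ×ˢ V).filter (fun p => mulv B C p.1 p.2 = (k : ℤ) • δ) ∪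
      (V ×ˢ V).filter (fun p => mulv B C p.1 p.2 = (-(k : ℤ)) • δ)).card : ℕ) : ℝ) := by
        exact_mod_cast hcard1
    _ = ∑ k ∈ Finset.Icc 1 ⌊x⌋₊, (((V ×ˢ V).filter (fun p => mulv B C p.1 p.2 = (k : ℤ) • δ) ∪
      (V ×ˢ V).filter (fun p => mulv B C p.1 p.2 = (-(k : ℤ)) • δ)).card : ℝ) := by
        push_cast; rfl
    _ ≤ ∑ k ∈ Finset.Icc 1 ⌊x⌋₊, 2 * Kr * (t : ℝ) ^ 3 * x * ((k.divisors.card : ℝ) ^ 6 / k) :=
        Finset.sum_le_sum hterm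
    _ = 2 * Kr * (t : ℝ) ^ 3 * x * ∑ k ∈ Finset.Icc 1 ⌊x⌋₊, ((k.divisors.card : ℝ) ^ 6 / k) := by
        rw [Finset.mul_sum]
    _ ≤ 2 * Kr * (t : ℝ) ^ 3 * x * ∑ k ∈ Finset.Icc 1 ⌊ρ ^ 2⌋₊, ((k.divisors.card : ℝ) ^ 6 / k) := by
        apply mul_le_mul_of_nonneg_left _ (by positivity)
        apply Finset.sum_le_sum_of_subset_of_nonneg
        · exact Finset.Icc_subset_Icc_right (Nat.floor_le_floor hxle)
        · intro i _ _; positivity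

/-- sum over directions -/
theorem quad_sum_dir {B C : ℤ} (hD : B ^ 2 < 4 * C) {Kr : ℝ}
    (hr : ∀ n : ℕ, 1 ≤ n → ∀ P : Finset (ℤ × ℤ), (∀ v ∈ P, nf B C v = n) →
      (P.card : ℝ) ≤ Kr * (n.divisors.card : ℝ) ^ 2)
    {D : Finset (ℤ × ℤ)} {y : ℝ} (hDD : ∀ v ∈ D, v ≠ 0 ∧ (nf B C v : ℝ) ≤ y) :
    ∑ δ ∈ D, ((nf B C δ).natAbs.divisors.card : ℝ) ^ 6 / nf B C δ ≤
      Kr * ∑ n ∈ Finset.Icc 1 ⌊y⌋₊, (n.divisors.card : ℝ) ^ 8 / n := by
  classical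
  have hmaps : ∀ v ∈ D, (nf B C v).natAbs ∈ Finset.Icc 1 ⌊y⌋₊ := by
    intro v hv
    have hpos := nf_pos hD (hDD v hv).1
    rw [Finset.mem_Icc]
    refine ⟨by omega, Nat.le_floor ?_⟩
    rw [Nat.cast_natAbs, abs_of_pos hpos]
    exact (hDD v hv).2
  rw [← Finset.sum_fiberwise_of_maps_to hmaps, Finset.mul_sum]
  apply Finset.sum_le_sum
  intro n hn
  have hn1 := (Finset.mem_Icc.1 hn).1
  have hnpos : (0 : ℝ) < n := by exact_mod_cast hn1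
  have h1 : ∀ v ∈ D.filter (fun v => (nf B C v).natAbs = n),
      ((nf B C v).natAbs.divisors.card : ℝ) ^ 6 / nf B C v = (n.divisors.card : ℝ) ^ 6 / n := by
    intro v hv
    obtain ⟨hv1, hv2⟩ := Finset.mem_filter.1 hv
    have hpos := nf_pos hD (hDD v hv1).1
    have h3 : (nf B C v : ℝ) = n := by
      have : nf B C v = (n : ℤ) := by omega
      rw [this]; simp
    rw [hv2, h3]
  rw [Finset.sum_congr rfl h1, Finset.sum_const, nsmul_eq_mul]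
  have h2 : ((D.filter (fun v => (nf B C v).natAbs = n)).card : ℝ) ≤
      Kr * (n.divisors.card : ℝ) ^ 2 := by
    apply hr n hn1
    intro v hv
    obtain ⟨hv1, hv2⟩ := Finset.mem_filter.1 hv
    have hpos := nf_pos hD (hDD v hv1).1
    omega
  calc _ ≤ Kr * (n.divisors.card : ℝ) ^ 2 * ((n.divisors.card : ℝ) ^ 6 / n) := by gcongr
    _ = _ := by ring

theorem quad_exists_dir {u : ℤ × ℤ} (hu : u ≠ 0) : ∃ δ : ℤ × ℤ, IsCoprime δ.1 δ.2 ∧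
    ∃ k : ℤ, 0 < k ∧ u = k • δ := by
  obtain ⟨k, v, hk, huv, hv⟩ := exists_primitive hu
  exact ⟨v, hv, k, hk, huv⟩

/-- the combinatorial bound -/
theorem quad_count {B C : ℤ} (hD : B ^ 2 < 4 * C) {Kr : ℝ} (hKr : 0 ≤ Kr)
    (hr : ∀ n : ℕ, 1 ≤ n → ∀ P : Finset (ℤ × ℤ), (∀ v ∈ P, nf B C v = n) →
      (P.card : ℝ) ≤ Kr * (n.divisors.card : ℝ) ^ 2)
    {V : Finset (ℤ × ℤ)} {ρ : ℝ} (hρ : 0 ≤ ρ) (hV : ∀ v ∈ V, v ≠ 0 ∧ ‖cv B C v‖ ≤ ρ)
    {P : Finset ((ℤ × ℤ) × (ℤ × ℤ) × (ℤ × ℤ) × (ℤ × ℤ))}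
    (hP : ∀ p ∈ P, p.1 ∈ V ∧ p.2.1 ∈ V ∧ p.2.2.1 ∈ V ∧ p.2.2.2 ∈ V ∧
      dt (mulv B C p.1 p.2.1) (mulv B C p.2.2.1 p.2.2.2) = 0) :
    (P.card : ℝ) ≤ 4 * Kr ^ 3 * ρ ^ 4 *
      (∑ k ∈ Finset.Icc 1 ⌊ρ ^ 2⌋₊, (k.divisors.card : ℝ) ^ 6 / k) ^ 2 *
      ∑ n ∈ Finset.Icc 1 ⌊ρ ^ 4⌋₊, (n.divisors.card : ℝ) ^ 8 / n := by
  classical
  obtain ⟨L, hL⟩ : ∃ L : ℝ, L = ∑ k ∈ Finset.Icc 1 ⌊ρ ^ 2⌋₊, (k.divisors.card : ℝ) ^ 6 / k :=
    ⟨_, rfl⟩
  have hL0 : 0 ≤ L := by rw [hL]; exact Finset.sum_nonneg (fun i _ => by positivity)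
  have hex : ∀ u : ℤ × ℤ, ∃ δ : ℤ × ℤ, u ≠ 0 → (IsCoprime δ.1 δ.2 ∧ ∃ k : ℤ, 0 < k ∧ u = k • δ) := by
    intro u
    by_cases hu : u = 0
    · exact ⟨0, fun h => absurd hu h⟩
    · obtain ⟨δ, h⟩ := quad_exists_dir hu
      exact ⟨δ, fun _ => h⟩
  choose g hg using hex
  obtain ⟨G, hG⟩ : ∃ G : ((ℤ × ℤ) × (ℤ × ℤ) × (ℤ × ℤ) × (ℤ × ℤ)) → ℤ × ℤ,
    G = fun p => g (mulv B C p.1 p.2.1) := ⟨_, rfl⟩
  have hgp : ∀ p ∈ P, IsCoprime (G p).1 (G p).2 ∧ ∃ k : ℤ, 0 < k ∧ mulv B C p.1 p.2.1 = k • (G p) := by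
    intro p hp
    obtain ⟨h1, h2, h3, h4, h5⟩ := hP p hp
    rw [hG]
    exact hg _ (mulv_ne_zero hD (hV _ h1).1 (hV _ h2).1)
  have hmaps : ∀ p ∈ P, G p ∈ P.image G := fun p hp => Finset.mem_image_of_mem _ hp
  have hdir : ∀ δ ∈ P.image G, IsCoprime δ.1 δ.2 ∧ δ ≠ 0 ∧ (nf B C δ : ℝ) ≤ ρ ^ 4 := by
    intro δ hδ
    obtain ⟨p, hp, rfl⟩ := Finset.mem_image.1 hδ
    obtain ⟨hc, k, hk, hkk⟩ := hgp p hp
    obtain ⟨h1, h2, h3, h4, h5⟩ := hP p hp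
    have h0 : G p ≠ 0 := by
      intro h0
      rw [h0, smul_zero] at hkk
      exact mulv_ne_zero hD (hV _ h1).1 (hV _ h2).1 hkk
    refine ⟨hc, h0, ?_⟩
    have hn1 : ‖cv B C (mulv B C p.1 p.2.1)‖ ≤ ρ * ρ := by
      rw [cv_mulv hD, norm_mul]
      exact mul_le_mul (hV _ h1).2 (hV _ h2).2 (norm_nonneg _) hρ
    rw [hkk, cv_smul, norm_mul, Complex.norm_intCast] at hn1
    have hk1 : (1 : ℝ) ≤ |(k : ℝ)| := by
      rw [abs_of_pos (by exact_mod_cast hk)]; exact_mod_cast hk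
    have hn2 : ‖cv B C (G p)‖ ≤ ρ * ρ := by
      refine le_trans ?_ hn1
      exact le_mul_of_one_le_left (norm_nonneg _) hk1
    rw [← norm_cv_sq hD]
    calc ‖cv B C (G p)‖ ^ 2 ≤ (ρ * ρ) ^ 2 := by gcongr
      _ = ρ ^ 4 := by ring
  have hfib : ∀ δ ∈ P.image G, ((P.filter (fun p => G p = δ)).card : ℝ) ≤
      4 * Kr ^ 2 * ρ ^ 4 * L ^ 2 * (((nf B C δ).natAbs.divisors.card : ℝ) ^ 6 / nf B C δ) := by
    intro δ hδ
    obtain ⟨hc, h0, hn⟩ := hdir δ hδ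
    have hpos := nf_pos hD h0
    obtain ⟨N, hN⟩ : ∃ N : Finset ((ℤ × ℤ) × (ℤ × ℤ)),
      N = (V ×ˢ V).filter (fun p => dt δ (mulv B C p.1 p.2) = 0) := ⟨_, rfl⟩
    have h1 : (P.filter (fun p => G p = δ)).card ≤ (N ×ˢ N).card := by
      apply Finset.card_le_card_of_injOn (fun p => ((p.1, p.2.1), (p.2.2.1, p.2.2.2)))
      · intro p hp
        simp only [Finset.coe_filter, Set.mem_ofPred_eq] at hp
        obtain ⟨hp, rfl⟩ := hp
        obtain ⟨h1, h2, h3, h4, h5⟩ := hP p hp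
        obtain ⟨hc', k, hk, hkk⟩ := hgp p hp
        simp only [Finset.coe_product, Set.mem_prod, Finset.mem_coe, hN, Finset.mem_filter,
          Finset.mem_product]
        refine ⟨⟨⟨h1, h2⟩, ?_⟩, ⟨⟨h3, h4⟩, ?_⟩⟩
        · rw [hkk]; simp only [dt, Prod.smul_fst, Prod.smul_snd, smul_eq_mul]; ring
        · rw [hkk] at h5
          have : dt (k • G p) (mulv B C p.2.2.1 p.2.2.2) =
              k * dt (G p) (mulv B C p.2.2.1 p.2.2.2) := by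
            simp only [dt, Prod.smul_fst, Prod.smul_snd, smul_eq_mul]; ring
          rw [this] at h5
          rcases mul_eq_zero.1 h5 with h | h
          · omega
          · exact h
      · intro p _ q _ hpq
        simp only [Prod.mk.injEq] at hpq
        obtain ⟨⟨ha, hb⟩, hc, hd⟩ := hpq
        exact Prod.ext ha (Prod.ext hb (Prod.ext hc hd))
    have h2 := quad_dir hD hKr hr hρ hV hc
    rw [← hN, ← hL] at h2
    have h3 : ((P.filter (fun p => G p = δ)).card : ℝ) ≤ (N.card : ℝ) * N.card := by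
      rw [Finset.card_product] at h1
      exact_mod_cast h1
    have hnsq : ‖cv B C δ‖ ^ 2 = nf B C δ := norm_cv_sq hD δ
    have hnpos : 0 < ‖cv B C δ‖ := by linarith [one_le_norm_cv hD h0]
    calc _ ≤ (N.card : ℝ) * N.card := h3
      _ ≤ (2 * Kr * ((nf B C δ).natAbs.divisors.card : ℝ) ^ 3 * (ρ ^ 2 / ‖cv B C δ‖) * L) *
          (2 * Kr * ((nf B C δ).natAbs.divisors.card : ℝ) ^ 3 * (ρ ^ 2 / ‖cv B C δ‖) * L) :=
          mul_le_mul h2 h2 (by positivity) (by positivity)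
      _ = _ := by
          rw [← hnsq]
          field_simp
          ring
  have hcard : (P.card : ℝ) = ∑ δ ∈ P.image G, ((P.filter (fun p => G p = δ)).card : ℝ) := by
    rw [Finset.card_eq_sum_card_fiberwise hmaps]; push_cast; rfl
  rw [hcard, ← hL]
  calc _ ≤ ∑ δ ∈ P.image G,
        4 * Kr ^ 2 * ρ ^ 4 * L ^ 2 * (((nf B C δ).natAbs.divisors.card : ℝ) ^ 6 / nf B C δ) :=
        Finset.sum_le_sum hfib
    _ = 4 * Kr ^ 2 * ρ ^ 4 * L ^ 2 *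
        ∑ δ ∈ P.image G, (((nf B C δ).natAbs.divisors.card : ℝ) ^ 6 / nf B C δ) := by
        rw [Finset.mul_sum]
    _ ≤ 4 * Kr ^ 2 * ρ ^ 4 * L ^ 2 *
        (Kr * ∑ n ∈ Finset.Icc 1 ⌊ρ ^ 4⌋₊, (n.divisors.card : ℝ) ^ 8 / n) := by
        apply mul_le_mul_of_nonneg_left _ (by positivity)
        exact quad_sum_dir hD hr (fun v hv => ⟨(hdir v hv).2.1, (hdir v hv).2.2⟩)
    _ = _ := by ring

theorem quadD {B C : ℤ} (hD : B ^ 2 < 4 * C) : ∃ K : ℝ, 1 ≤ K ∧ ∃ A : ℕ, ∀ S : ℕ, K ≤ S →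
    ∀ P : Finset ((ℤ × ℤ) × (ℤ × ℤ) × (ℤ × ℤ) × (ℤ × ℤ)),
    (∀ p ∈ P, p.1 ∈ boxD B C S ∧ p.2.1 ∈ boxD B C S ∧ p.2.2.1 ∈ boxD B C S ∧
      p.2.2.2 ∈ boxD B C S ∧ ‖(thD B C p.1 + thD B C p.2.1) - (thD B C p.2.2.1 + thD B C p.2.2.2)‖
        ≤ 1 / (K * (S : ℝ) ^ 4)) →
    (P.card : ℝ) ≤ K * (S : ℝ) ^ 4 * Real.log S ^ A := by
  obtain ⟨Kn, hKn1, hKn⟩ := boxD_norm hD
  obtain ⟨Kr, hKr1, hr⟩ := repD hD
  obtain ⟨K6, hK61, A6, h6⟩ := tau_sum 6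
  obtain ⟨K8, hK81, A8, h8⟩ := tau_sum 8
  have hbt := bt_pos hD
  obtain ⟨K0, hK0⟩ : ∃ K0 : ℝ, K0 = 4 * Kr ^ 3 * Kn ^ 4 * (K6 * 4 ^ A6) ^ 2 * (K8 * 8 ^ A8) := ⟨_, rfl⟩
  have hKr0 : 0 ≤ Kr := by linarith
  have hKn0 : 0 < Kn := by linarith
  have hK0pos : 0 ≤ K0 := by rw [hK0]; positivity
  have hpi := Real.pi_pos
  obtain ⟨K, hK⟩ : ∃ K : ℝ, K = 3 + Kn + K0 + (2 * Real.pi * Kn ^ 4 / bt B C) := ⟨_, rfl⟩
  have hdpos : 0 < 2 * Real.pi * Kn ^ 4 / bt B C := by positivity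
  refine ⟨K, by linarith, 2 * A6 + A8, ?_⟩
  intro S hS P hP
  have hS3 : (3 : ℝ) ≤ S := by linarith
  have hSpos : (0 : ℝ) < S := by linarith
  have hSKn : Kn ≤ S := by linarith
  have hKpos : 0 < K := by linarith
  have hlogS : 0 < Real.log S := Real.log_pos (by linarith)
  -- coincidences are exact
  have hP' : ∀ p ∈ P, p.1 ∈ boxD B C S ∧ p.2.1 ∈ boxD B C S ∧ p.2.2.1 ∈ boxD B C S ∧
      p.2.2.2 ∈ boxD B C S ∧ dt (mulv B C p.1 p.2.1) (mulv B C p.2.2.1 p.2.2.2) = 0 := by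
    intro p hp
    obtain ⟨h1, h2, h3, h4, h5⟩ := hP p hp
    refine ⟨h1, h2, h3, h4, ?_⟩
    obtain ⟨a1, a2, a3⟩ := hKn S _ h1
    obtain ⟨b1, b2, b3⟩ := hKn S _ h2
    obtain ⟨c1, c2, c3⟩ := hKn S _ h3
    obtain ⟨d1, d2, d3⟩ := hKn S _ h4
    have hab := mulv_ne_zero hD a1 b1
    have hcd := mulv_ne_zero hD c1 d1
    have hsep := thD_sep hD hab hcd
    rw [thD_mulv hD a1 b1, thD_mulv hD c1 d1] at hsep
    have h6 := hsep.trans h5
    obtain ⟨z, hz⟩ : ∃ z : ℤ, z = dt (mulv B C p.1 p.2.1) (mulv B C p.2.2.1 p.2.2.2) := ⟨_, rfl⟩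
    rw [← hz] at h6 ⊢
    by_contra hne
    have hz1 : (1 : ℝ) ≤ |(z : ℝ)| := by
      have : (1 : ℤ) ≤ |z| := Int.one_le_abs hne
      exact_mod_cast this
    have hnn : ‖cv B C (mulv B C p.1 p.2.1)‖ * ‖cv B C (mulv B C p.2.2.1 p.2.2.2)‖ ≤
        Kn ^ 4 * (S : ℝ) ^ 4 := by
      rw [cv_mulv hD, cv_mulv hD, norm_mul, norm_mul]
      calc _ ≤ ((Kn * S) * (Kn * S)) * ((Kn * S) * (Kn * S)) := by gcongr
        _ = _ := by ring
    have hn1 : 0 < ‖cv B C (mulv B C p.1 p.2.1)‖ := by linarith [one_le_norm_cv hD hab]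
    have hn2 : 0 < ‖cv B C (mulv B C p.2.2.1 p.2.2.2)‖ := by linarith [one_le_norm_cv hD hcd]
    have h7 : bt B C / (2 * Real.pi * (Kn ^ 4 * (S : ℝ) ^ 4)) ≤ 1 / (K * (S : ℝ) ^ 4) := by
      refine le_trans ?_ h6
      calc bt B C / (2 * Real.pi * (Kn ^ 4 * (S : ℝ) ^ 4))
          ≤ bt B C / (2 * Real.pi * (‖cv B C (mulv B C p.1 p.2.1)‖ *
            ‖cv B C (mulv B C p.2.2.1 p.2.2.2)‖)) := by gcongr
        _ ≤ bt B C * |(z : ℝ)| / (2 * Real.pi * (‖cv B C (mulv B C p.1 p.2.1)‖ *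
            ‖cv B C (mulv B C p.2.2.1 p.2.2.2)‖)) := by
            gcongr
            exact le_mul_of_one_le_right hbt.le hz1
    have hS4 : (0 : ℝ) < (S : ℝ) ^ 4 := by positivity
    rw [div_le_div_iff₀ (by positivity) (by positivity)] at h7
    have h8 : bt B C * K ≤ 2 * Real.pi * Kn ^ 4 := by
      have : (bt B C * K) * (S : ℝ) ^ 4 ≤ (2 * Real.pi * Kn ^ 4) * (S : ℝ) ^ 4 := by linarith
      exact le_of_mul_le_mul_right this hS4
    have h9 : K ≤ 2 * Real.pi * Kn ^ 4 / bt B C := by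
      rw [le_div_iff₀ hbt]; linarith
    linarith
  obtain ⟨ρ, hρ⟩ : ∃ ρ : ℝ, ρ = Kn * S := ⟨_, rfl⟩
  have hρ3 : 3 ≤ ρ := by rw [hρ]; nlinarith
  have hmain := quad_count hD hKr0 hr (V := boxD B C S) (ρ := ρ) (by linarith)
    (fun v hv => ⟨(hKn S v hv).1, by rw [hρ]; exact (hKn S v hv).2.2⟩) hP'
  have hρS : ρ ≤ (S : ℝ) ^ 2 := by rw [hρ]; nlinarith
  have hρpos : 0 < ρ := by linarith
  have hlogρ : Real.log ρ ≤ 2 * Real.log S := by
    have : Real.log ρ ≤ Real.log ((S : ℝ) ^ 2) := Real.log_le_log hρpos hρS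
    rw [Real.log_pow] at this
    exact_mod_cast this
  have hlogρ0 : 0 ≤ Real.log ρ := Real.log_nonneg (by linarith)
  have e6 : ∑ k ∈ Finset.Icc 1 ⌊ρ ^ 2⌋₊, (k.divisors.card : ℝ) ^ 6 / k ≤
      K6 * 4 ^ A6 * Real.log S ^ A6 := by
    have h := h6 (ρ ^ 2) (by nlinarith)
    refine h.trans ?_
    have : Real.log (ρ ^ 2) ≤ 4 * Real.log S := by
      rw [Real.log_pow]; push_cast; linarith
    have h0 : 0 ≤ Real.log (ρ ^ 2) := Real.log_nonneg (by nlinarith)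
    calc K6 * Real.log (ρ ^ 2) ^ A6 ≤ K6 * (4 * Real.log S) ^ A6 := by gcongr
      _ = _ := by rw [mul_pow]; ring
  have e8 : ∑ k ∈ Finset.Icc 1 ⌊ρ ^ 4⌋₊, (k.divisors.card : ℝ) ^ 8 / k ≤
      K8 * 8 ^ A8 * Real.log S ^ A8 := by
    have hρ4 : ρ ≤ ρ ^ 4 := by
      calc ρ = ρ ^ 1 := (pow_one _).symm
        _ ≤ ρ ^ 4 := pow_le_pow_right₀ (by linarith) (by norm_num)
    have h := h8 (ρ ^ 4) (by linarith)
    refine h.trans ?_
    have : Real.log (ρ ^ 4) ≤ 8 * Real.log S := by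
      rw [Real.log_pow]; push_cast; linarith
    have h0 : 0 ≤ Real.log (ρ ^ 4) := Real.log_nonneg (by linarith)
    calc K8 * Real.log (ρ ^ 4) ^ A8 ≤ K8 * (8 * Real.log S) ^ A8 := by gcongr
      _ = _ := by rw [mul_pow]; ring
  have n6 : 0 ≤ ∑ k ∈ Finset.Icc 1 ⌊ρ ^ 2⌋₊, (k.divisors.card : ℝ) ^ 6 / k :=
    Finset.sum_nonneg (fun i _ => by positivity)
  have n8 : 0 ≤ ∑ k ∈ Finset.Icc 1 ⌊ρ ^ 4⌋₊, (k.divisors.card : ℝ) ^ 8 / k :=
    Finset.sum_nonneg (fun i _ => by positivity)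
  calc (P.card : ℝ) ≤ _ := hmain
    _ ≤ 4 * Kr ^ 3 * ρ ^ 4 * (K6 * 4 ^ A6 * Real.log S ^ A6) ^ 2 *
        (K8 * 8 ^ A8 * Real.log S ^ A8) := by gcongr
    _ = K0 * (S : ℝ) ^ 4 * Real.log S ^ (2 * A6 + A8) := by
        rw [hK0, hρ, pow_add, pow_mul]; ring
    _ ≤ K * (S : ℝ) ^ 4 * Real.log S ^ (2 * A6 + A8) := by
        have : K0 ≤ K := by linarith
        gcongr

end Pool.Agent.LogPar
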