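import Pool.Agent.LogPar.ThD

set_option autoImplicit false

/-! # Definite case: elements with small norm and small angle; size of the box -/

namespace Pool.Agent.LogPar

open Pool.Agent.FareyParity

variable {B C : ℤ}

theorem smallD (hD : B ^ 2 < 4 * C) : ∃ K : ℝ, 1 ≤ K ∧ ∀ N : ℕ, K ≤ N → ∃ v : ℤ × ℤ,
    v ≠ 0 ∧ |(nf B C v : ℝ)| ≤ K * (N : ℝ) ^ 2 ∧
    ∃ t : ℝ, thD B C v = (t : UnitAddCircle) ∧ 1 / (K * N) ≤ t ∧ t ≤ K / N := by
  set b := bt B C with hb
  have hb0 : 0 < b := bt_pos hD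
  set K : ℝ := 100 * (1 + |(B : ℝ)| + |(C : ℝ)| + b + 1 / b) with hK
  have hib : 0 < 1 / b := by positivity
  have hB0 := abs_nonneg (B : ℝ)
  have hC0 := abs_nonneg (C : ℝ)
  refine ⟨K, by rw [hK]; linarith, fun N hN => ⟨((N : ℤ), 1), ?_, ?_, ?_⟩⟩
  · intro h
    have := congrArg Prod.snd h
    simp at this
  · have hN1 : (1 : ℝ) ≤ N := by rw [hK] at hN; linarith
    have h1 : (nf B C ((N : ℤ), 1) : ℝ) = (N : ℝ) ^ 2 + B * N + C := by
      simp only [nf]; push_cast; ring
    rw [h1]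
    have hN2 : (1 : ℝ) ≤ (N : ℝ) ^ 2 := one_le_pow₀ hN1
    have hN3 : (N : ℝ) ≤ (N : ℝ) ^ 2 := by nlinarith
    calc |(N : ℝ) ^ 2 + B * N + C| ≤ |(N : ℝ) ^ 2| + |(B : ℝ) * N| + |(C : ℝ)| := abs_add_three _ _ _
      _ = (N : ℝ) ^ 2 + |(B : ℝ)| * N + |(C : ℝ)| := by
        rw [abs_mul, Nat.abs_cast, abs_of_nonneg (by positivity : (0 : ℝ) ≤ (N : ℝ) ^ 2)]
      _ ≤ (N : ℝ) ^ 2 + |(B : ℝ)| * (N : ℝ) ^ 2 + |(C : ℝ)| * (N : ℝ) ^ 2 := by
        nlinarith
      _ ≤ K * (N : ℝ) ^ 2 := by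
        rw [hK]; nlinarith
  · have hN1 : (1 : ℝ) ≤ N := by rw [hK] at hN; linarith
    have hNB : |(B : ℝ)| ≤ N := by rw [hK] at hN; linarith
    have hNb : b ≤ N := by rw [hK] at hN; linarith
    have hpi := Real.pi_pos
    have hpi3 := Real.pi_gt_three
    have hpi4 := Real.pi_le_four
    set z := cv B C ((N : ℤ), 1) with hz
    have hre : z.re = N + B / 2 := by rw [hz, cv_re]; push_cast; ring
    have him : z.im = b := by rw [hz, cv_im]; push_cast; ring
    obtain ⟨hBl, hBu⟩ := abs_le.1 hNB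
    have hre1 : (N : ℝ) / 2 ≤ z.re := by rw [hre]; linarith
    have hre2 : z.re ≤ 2 * N := by rw [hre]; linarith
    have hre0 : 0 < z.re := by linarith
    have ha0 : 0 < Complex.arg z := by
      rcases lt_or_eq_of_le (Complex.arg_nonneg_iff.2 (by rw [him]; exact hb0.le)) with h | h
      · exact h
      · exfalso
        have := (Complex.arg_eq_zero_iff.1 h.symm).2
        rw [him] at this
        linarith
    have ha1 : Complex.arg z < Real.pi / 2 := Complex.arg_lt_pi_div_two_iff.2 (Or.inl hre0)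
    refine ⟨Complex.arg z / (2 * Real.pi), rfl, ?_, ?_⟩
    · -- lower bound
      have h1 : Real.sin (Complex.arg z) = z.im / ‖z‖ := Complex.sin_arg z
      have h2 : Real.sin (Complex.arg z) ≤ Complex.arg z := Real.sin_le ha0.le
      have hz0 : 0 < ‖z‖ := by
        rw [norm_pos_iff]
        intro h
        rw [h] at hre0
        simp at hre0
      have h3 : ‖z‖ ≤ 3 * N := by
        calc ‖z‖ ≤ |z.re| + |z.im| := Complex.norm_le_abs_re_add_abs_im z
          _ ≤ 2 * N + N := by
            rw [him, abs_of_pos hb0, abs_of_pos hre0]; linarith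
          _ = 3 * N := by ring
      have h4 : b / (3 * N) ≤ Complex.arg z := by
        calc b / (3 * N) ≤ b / ‖z‖ := div_le_div_of_nonneg_left hb0.le hz0 h3
          _ = Real.sin (Complex.arg z) := by rw [h1, him]
          _ ≤ _ := h2
      calc 1 / (K * N) ≤ (b / (3 * N)) / (2 * Real.pi) := by
            rw [div_div, div_le_div_iff₀ (by positivity) (by positivity)]
            have hKb : 100 ≤ b * K := by
              rw [hK]
              have : b * (1 / b) = 1 := by field_simp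
              nlinarith
            nlinarith
        _ ≤ Complex.arg z / (2 * Real.pi) := by gcongr
    · have h1 : Real.tan (Complex.arg z) = z.im / z.re := Complex.tan_arg z
      have h2 : Complex.arg z < Real.tan (Complex.arg z) := Real.lt_tan ha0 ha1
      have h3 : Complex.arg z ≤ b / (N / 2) := by
        calc Complex.arg z ≤ z.im / z.re := by rw [← h1]; exact h2.le
          _ = b / z.re := by rw [him]
          _ ≤ b / (N / 2) := div_le_div_of_nonneg_left hb0.le (by positivity) hre1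
      calc Complex.arg z / (2 * Real.pi) ≤ (b / (N / 2)) / (2 * Real.pi) := by gcongr
        _ = (b / Real.pi) / N := by field_simp
        _ ≤ K / N := by
          gcongr
          rw [div_le_iff₀ hpi]
          nlinarith

theorem boxD_card (B C : ℤ) : ∃ K : ℝ, 1 ≤ K ∧ ∀ S : ℕ, K ≤ S →
    (S : ℝ) ^ 2 / K ≤ (boxD B C S).card ∧ ((boxD B C S).card : ℝ) ≤ K * (S : ℝ) ^ 2 := by
  have hq1 : 1 ≤ qD B C := by unfold qD; omega
  have hq : (1 : ℝ) ≤ (qD B C : ℝ) := by exact_mod_cast hq1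
  refine ⟨qD B C, hq, fun S hS => ?_⟩
  have hc : (boxD B C S).card = qD B C * S * S := by
    unfold boxD
    rw [Finset.card_product, Int.card_Ico, Int.card_Ico]
    congr 1
    · push_cast
      have : 2 * (qD B C : ℤ) * S - qD B C * S = ((qD B C * S : ℕ) : ℤ) := by push_cast; ring
      rw [this, Int.toNat_natCast]
    · push_cast
      have : 2 * (S : ℤ) - S = (S : ℤ) := by ring
      rw [this, Int.toNat_natCast]
  rw [hc]
  push_cast
  have hS0 : (0 : ℝ) ≤ (S : ℝ) ^ 2 := by positivity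
  constructor
  · rw [div_le_iff₀ (by linarith)]
    have h1 : (S : ℝ) ^ 2 ≤ (qD B C : ℝ) * (S : ℝ) ^ 2 := by nlinarith
    calc (S : ℝ) ^ 2 ≤ (qD B C : ℝ) * (S : ℝ) ^ 2 := h1
      _ ≤ (qD B C : ℝ) * ((qD B C : ℝ) * (S : ℝ) ^ 2) := by
        apply mul_le_mul_of_nonneg_left _ (by linarith)
        exact h1
      _ = qD B C * S * S * qD B C := by ring
  · apply le_of_eq; ring

end Pool.Agent.LogPar
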