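import Pool.Agent.LogPar.GeD
import Pool.Agent.LogPar.QuadD
import Pool.Agent.LogPar.PrimesD
import Pool.Agent.LogPar.ExpoD
import Pool.Agent.LogPar.SmallD
import Pool.Agent.LogPar.PlusD

set_option autoImplicit false

/-! # Definite case: assembly of the kit -/

namespace Pool.Agent.LogPar

open Pool.Agent.FareyParity

/-- the kit for negative discriminant -/
noncomputable def kitD {B C : ℤ} (hD : B ^ 2 < 4 * C) : Kit B C where
  Adm := fun v => v ≠ 0
  th := thD B C
  box := boxD B C
  box_adm := by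
    obtain ⟨K, -, h⟩ := boxD_norm hD
    exact fun S v hv => (h S v hv).1
  adm_ne := fun v hv => (nf_pos hD hv).ne'
  box_card := boxD_card B C
  ge := geD hD
  expo := expoD hD
  quad := quadD hD
  primes := by
    obtain ⟨K, hK, h⟩ := primesD hD
    refine ⟨K, hK, fun Y hY => ?_⟩
    obtain ⟨Q, h1, h2, h3⟩ := h Y hY
    refine ⟨Q, fun v hv => ⟨(h1 v hv).1, ?_⟩, h2, h3⟩
    have h5 : (0 : ℝ) < nf B C v := by exact_mod_cast nf_pos hD (h1 v hv).1
    rw [abs_of_pos h5]
    exact (h1 v hv).2
  small := smallD hD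
  plus := plusD hD

end Pool.Agent.LogPar
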