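import Pool.Agent.LogPar.EdgeR
import Pool.Agent.RealQuad.Plus

set_option autoImplicit false

/-! # Real case: the value `+1` is taken often -/

namespace Pool.Agent.LogPar

open Pool.Agent.FareyParity
open Pool.Agent.RealQuad (Disc Pos ang mg xc yc rt)

/-- every primitive vector lies in a unimodular pair with equal colours -/
theorem prim_pairR {B C : ℤ} (hD : Disc B C) {f : ℕ → ℤ} (hf : IsSign f) {ρ : ℝ}
    {z : ℤ × ℤ} (hz : z ∈ Pool.Agent.RealQuad.primF B C 2 ρ) :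
    ∃ p : (ℤ × ℤ) × (ℤ × ℤ),
      (Pos B C p.1 ∧ |ang B C p.1| ≤ Pool.Agent.RealQuad.tP B C ∧
        mg B C p.1 ≤ Pool.Agent.RealQuad.rP B C * ρ) ∧
      (Pos B C p.2 ∧ |ang B C p.2| ≤ Pool.Agent.RealQuad.tP B C ∧
        mg B C p.2 ≤ Pool.Agent.RealQuad.rP B C * ρ) ∧
      dt p.1 p.2 = 1 ∧ col f B C p.1 * col f B C p.2 = 1 ∧ (z = p.1 ∨ z = p.1 - p.2) := by
  classical
  have hb := Pool.Agent.RealQuad.rt_pos hD
  have hz' := hz
  rw [Pool.Agent.RealQuad.primF, Finset.mem_filter,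
    Pool.Agent.RealQuad.mem_ballR hD zero_le_two] at hz'
  obtain ⟨⟨hz0, hza, hzρ⟩, hcop⟩ := hz'
  obtain ⟨w, hw, hy1, hy2, hx1, hx2⟩ := Pool.Agent.RealQuad.exists_short_partner hD hcop hz0
  obtain ⟨n1, n2, n3⟩ := Pool.Agent.RealQuad.partner_bounds hD hz0 hza hzρ hy1 hy2 hx1 hx2 hw
  have c1 := Pool.Agent.RealQuad.col_val hf hD n1.1.ne_zero
  have c2 := Pool.Agent.RealQuad.col_val hf hD n2.1.ne_zero
  have c3 := Pool.Agent.RealQuad.col_val hf hD n3.1.ne_zero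
  have d1 : dt z (z + w) = 1 := by
    rw [← hw]; simp only [dt, Prod.fst_add, Prod.snd_add]; ring
  have d2 : dt (z + w) w = 1 := by
    rw [← hw]; simp only [dt, Prod.fst_add, Prod.snd_add]; ring
  by_cases h1 : col f B C z * col f B C w = 1
  · exact ⟨(z, w), n1, n2, hw, h1, Or.inl rfl⟩
  · by_cases h2 : col f B C z * col f B C (z + w) = 1
    · exact ⟨(z, z + w), n1, n3, d1, h2, Or.inl rfl⟩
    · refine ⟨(z + w, w), n3, n2, d2, ?_, Or.inr (by simp)⟩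
      show col f B C (z + w) * col f B C w = 1
      rcases c1 with c1 | c1 <;> rcases c2 with c2 | c2 <;> rcases c3 with c3 | c3 <;>
        rw [c1, c2] at h1 <;> rw [c1, c3] at h2 <;> rw [c2, c3] <;> simp_all

theorem plusR {B C : ℤ} (hD : Disc B C) : ∃ K : ℝ, 1 ≤ K ∧ ∃ A : ℕ, ∀ R : ℝ, K ≤ R →
    ∀ f : ℕ → ℤ, IsSign f → ∀ Bd : Finset ℤ,
    (∀ n : ℤ, |(n : ℝ)| ≤ K * R ^ 2 → f (val B C n) = 1 → n ∈ Bd) →
    R ≤ K * √(Bd.card : ℝ) * Real.log R ^ A := by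
  classical
  have hb := Pool.Agent.RealQuad.rt_pos hD
  obtain ⟨T, hT⟩ : ∃ T, T = Pool.Agent.RealQuad.tP B C := ⟨_, rfl⟩
  obtain ⟨r, hr⟩ : ∃ r, r = Pool.Agent.RealQuad.rP B C := ⟨_, rfl⟩
  have hr0 : 0 < r := by rw [hr]; unfold Pool.Agent.RealQuad.rP; positivity
  obtain ⟨K1, hK1, A, hedge⟩ := edgeR hD T
  obtain ⟨a, ha⟩ : ∃ a : ℝ, a = Pool.Agent.RealQuad.cM B C 1 := ⟨_, rfl⟩
  have ha1 : 1 ≤ a := by rw [ha]; exact Pool.Agent.RealQuad.cM_ge hD zero_le_one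
  have ha0 : 0 < a := by linarith
  obtain ⟨m, hm⟩ : ∃ m : ℝ, m = Pool.Agent.RealQuad.mM B C 2 := ⟨_, rfl⟩
  have hm1 : 1 ≤ m := by rw [hm]; exact Pool.Agent.RealQuad.mM_ge hD zero_le_two
  have hm0 : 0 < m := by linarith
  obtain ⟨K0, hK0⟩ : ∃ K0 : ℝ, K0 = 32 * a ^ 2 * m ^ 2 := ⟨_, rfl⟩
  have hK00 : 0 < K0 := by rw [hK0]; positivity
  obtain ⟨K2, hK2⟩ : ∃ K2 : ℝ, K2 = 16 * a ^ 2 * K0 * r ^ 2 * K1 := ⟨_, rfl⟩
  have hK20 : 0 < K2 := by rw [hK2]; positivity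
  obtain ⟨K3, hK3⟩ : ∃ K3 : ℝ, K3 = Real.exp (2 * T) + (|(B : ℝ)| + rt B C) := ⟨_, rfl⟩
  have hBabs := abs_nonneg (B : ℝ)
  have hK30 : 0 < K3 := by rw [hK3]; have := Real.exp_pos (2 * T); positivity
  have ha2r : 0 < a ^ 2 * r := by positivity
  have hak : 0 < 2 * (a ^ 2 * K0) * r ^ 2 := by positivity
  obtain ⟨K, hK⟩ : ∃ K : ℝ, K = K1 + K2 + K3 + a ^ 2 * r + 2 * (a ^ 2 * K0) * r ^ 2 := ⟨_, rfl⟩
  have hKK1 : K1 ≤ K := by rw [hK]; linarith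
  have hK1' : 1 ≤ K := by linarith
  refine ⟨K, hK1', A, ?_⟩
  intro R hR f hf Bd hBd
  have hR1 : 1 ≤ R := by linarith
  have hR0 : 0 < R := by linarith
  have hRR : R ≤ R ^ 2 := by nlinarith
  obtain ⟨ρ, hρ⟩ : ∃ ρ : ℝ, ρ = R / r := ⟨_, rfl⟩
  have hρ0 : 0 < ρ := by rw [hρ]; positivity
  have hrρ : r * ρ = R := by rw [hρ]; field_simp
  have haρ2 : a ^ 2 ≤ ρ := by rw [hρ, le_div_iff₀ hr0]; linarith
  have haρ : a ≤ ρ := by nlinarith
  have hρ2 : 2 * (a ^ 2 * K0) ≤ ρ ^ 2 := by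
    rw [hρ, div_pow, le_div_iff₀ (by positivity)]; linarith
  have hprim := Pool.Agent.RealQuad.card_primF hD (ρ := ρ) (K := K0)
    (by rw [← ha]; exact haρ) (by rw [← ha]; exact haρ2) (by rw [← ha, ← hm]; exact hK0)
    (by rw [← ha]; exact hρ2)
  rw [← ha] at hprim
  have hex : ∀ z : ℤ × ℤ, ∃ p : (ℤ × ℤ) × (ℤ × ℤ),
      z ∈ Pool.Agent.RealQuad.primF B C 2 ρ → (
      (Pos B C p.1 ∧ |ang B C p.1| ≤ T ∧ mg B C p.1 ≤ R) ∧
      (Pos B C p.2 ∧ |ang B C p.2| ≤ T ∧ mg B C p.2 ≤ R) ∧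
      dt p.1 p.2 = 1 ∧ col f B C p.1 * col f B C p.2 = 1 ∧ (z = p.1 ∨ z = p.1 - p.2)) := by
    intro z
    by_cases hz : z ∈ Pool.Agent.RealQuad.primF B C 2 ρ
    · obtain ⟨p, hp⟩ := prim_pairR hD hf hz
      rw [← hT, ← hr, hrρ] at hp
      exact ⟨p, fun _ => hp⟩
    · exact ⟨(0, 0), fun h => absurd h hz⟩
  choose p hp using hex
  have h2P : (Pool.Agent.RealQuad.primF B C 2 ρ).card ≤
      2 * ((Pool.Agent.RealQuad.primF B C 2 ρ).image p).card := by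
    apply Finset.card_le_mul_card_image_of_maps_to (f := p)
    · intro z hz; exact Finset.mem_image_of_mem p hz
    · intro q _
      have hsub : (Pool.Agent.RealQuad.primF B C 2 ρ).filter (fun z => p z = q) ⊆
          {q.1, q.1 - q.2} := by
        intro z hz
        rw [Finset.mem_filter] at hz
        obtain ⟨-, -, -, -, h⟩ := hp z hz.1
        rw [Finset.mem_insert, Finset.mem_singleton, ← hz.2]
        exact h
      exact (Finset.card_le_card hsub).trans Finset.card_le_two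
  have hP := hedge R (hKK1.trans hR) Bd ((Pool.Agent.RealQuad.primF B C 2 ρ).image p) (by
    intro q hq
    rw [Finset.mem_image] at hq
    obtain ⟨z, hz, rfl⟩ := hq
    obtain ⟨⟨pa, aa, ma⟩, ⟨pb, ab, mb⟩, h3, h4, -⟩ := hp z hz
    refine ⟨pa, pb, aa, ab, ma, mb, h3, ?_⟩
    apply hBd
    · have h5 := Pool.Agent.RealQuad.abs_ip_le hD pa pb aa ab ma mb h3
      have e1 : 1 ≤ R ^ 2 := one_le_pow₀ hR1
      have e2 : K3 ≤ K := by rw [hK]; linarith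
      calc |(ip B C (p z).1 (p z).2 : ℝ)|
          ≤ R ^ 2 * Real.exp (2 * T) + (|(B : ℝ)| + rt B C) := h5
        _ ≤ K3 * R ^ 2 := by
            rw [hK3]
            have : 0 ≤ |(B : ℝ)| + rt B C := by positivity
            nlinarith
        _ ≤ K * R ^ 2 := by gcongr
    · rw [col_mul_col hf h3] at h4
      rw [← h4]
      congr 1
      simp only [val, nf]
      congr 1
      ring)
  have h2P' : ((Pool.Agent.RealQuad.primF B C 2 ρ).card : ℝ) ≤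
      2 * (((Pool.Agent.RealQuad.primF B C 2 ρ).image p).card : ℝ) := by
    exact_mod_cast h2P
  have hlog : 0 ≤ Real.log R := Real.log_nonneg hR1
  have hs : 0 ≤ √(Bd.card : ℝ) := Real.sqrt_nonneg _
  have h5 : (1 : ℝ) ≤ K2 * √(Bd.card : ℝ) * Real.log R ^ A / R := by
    calc (1 : ℝ) ≤ 8 * (a ^ 2 * K0 / ρ ^ 2) *
          (Pool.Agent.RealQuad.primF B C 2 ρ).card := hprim
      _ ≤ 8 * (a ^ 2 * K0 / ρ ^ 2) *
          (2 * (K1 * √(Bd.card : ℝ) * R * Real.log R ^ A)) := by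
          gcongr
          exact h2P'.trans (by linarith)
      _ = K2 * √(Bd.card : ℝ) * Real.log R ^ A / R := by
          rw [hρ, hK2]; field_simp; ring
  rw [le_div_iff₀ hR0, one_mul] at h5
  have hKK2 : K2 ≤ K := by rw [hK]; linarith
  calc R ≤ K2 * √(Bd.card : ℝ) * Real.log R ^ A := h5
    _ ≤ K * √(Bd.card : ℝ) * Real.log R ^ A := by gcongr

end Pool.Agent.LogPar
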