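import Pool.Agent.LogPar.ThR
import Pool.Agent.LogPar.PrimeEl

set_option autoImplicit false

/-! # Real case: elements whose products have distinct directions -/

namespace Pool.Agent.LogPar

open Pool.Agent.FareyParity
open Pool.Agent.RealQuad (Disc Pos ang mg xc yc rt)

namespace PR

variable {B C : ℤ}

theorem xc_one : xc B C (1, 0) = 1 := by simp [xc]
theorem yc_one : yc B C (1, 0) = 1 := by simp [yc]

theorem pos_one : Pos B C (1, 0) := by
  refine ⟨?_, ?_⟩
  · rw [xc_one]; exact one_pos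
  · rw [yc_one]; exact one_pos

theorem pos_mprod (hD : Disc B C) (m : Multiset (ℤ × ℤ)) :
    (∀ v ∈ m, Pos B C v) → Pos B C (mprod B C m) := by
  induction m using Multiset.induction with
  | empty => intro _; rw [mprod_zero]; exact pos_one
  | cons v m ih =>
    intro h
    rw [mprod_cons]
    exact pos_mulv hD (h v (Multiset.mem_cons_self v m))
      (ih fun u hu => h u (Multiset.mem_cons_of_mem hu))

theorem ang_mprod (hD : Disc B C) (m : Multiset (ℤ × ℤ)) :
    (∀ v ∈ m, Pos B C v) → ang B C (mprod B C m) = (m.map (ang B C)).sum := by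
  induction m using Multiset.induction with
  | empty =>
    intro _
    rw [mprod_zero, ang, xc_one, yc_one]; simp
  | cons v m ih =>
    intro h
    rw [mprod_cons, ang_mulv hD (h v (Multiset.mem_cons_self v m))
      (pos_mprod hD m fun u hu => h u (Multiset.mem_cons_of_mem hu)),
      ih fun u hu => h u (Multiset.mem_cons_of_mem hu), Multiset.map_cons, Multiset.sum_cons]

theorem thR_mprod (hD : Disc B C) (m : Multiset (ℤ × ℤ)) :
    (∀ v ∈ m, Pos B C v) → thR B C (mprod B C m) = (m.map (thR B C)).sum := by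
  induction m using Multiset.induction with
  | empty =>
    intro _
    rw [mprod_zero, thR, ang, xc_one, yc_one]; simp
  | cons v m ih =>
    intro h
    rw [mprod_cons, thR_mulv hD (h v (Multiset.mem_cons_self v m))
      (pos_mprod hD m fun u hu => h u (Multiset.mem_cons_of_mem hu)),
      ih fun u hu => h u (Multiset.mem_cons_of_mem hu), Multiset.map_cons, Multiset.sum_cons]

theorem mg_mprod (hD : Disc B C) {s : ℝ} (hs : 0 ≤ s) (m : Multiset (ℤ × ℤ)) :
    (∀ v ∈ m, Pos B C v ∧ mg B C v ≤ s) → mg B C (mprod B C m) ≤ s ^ m.card := by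
  induction m using Multiset.induction with
  | empty =>
    intro _
    rw [mprod_zero, mg, xc_one, yc_one]; simp
  | cons v m ih =>
    intro h
    have h1 := h v (Multiset.mem_cons_self v m)
    have h2 := ih fun u hu => h u (Multiset.mem_cons_of_mem hu)
    have hp := pos_mprod hD m fun u hu => (h u (Multiset.mem_cons_of_mem hu)).1
    rw [mprod_cons, mg_mulv hD h1.1 hp, Multiset.card_cons, pow_succ']
    exact mul_le_mul h1.2 h2 (Pool.Agent.RealQuad.mg_pos hp).le hs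

theorem mprod_append (a b : Multiset (ℤ × ℤ)) :
    mprod B C (a + b) = mulv B C (mprod B C a) (mprod B C b) := by
  induction a using Multiset.induction with
  | empty => rw [zero_add, mprod_zero]; simp [mulv]
  | cons v a ih =>
    rw [Multiset.cons_add, mprod_cons, ih, mprod_cons]
    simp only [mulv]; ext
    · simp only; ring
    · simp only; ring

theorem mg_replicate (hD : Disc B C) {η : ℤ × ℤ} (hη : Pos B C η) (h1 : nf B C η = 1) (k : ℕ) :
    mg B C (mprod B C (Multiset.replicate k η)) = 1 := by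
  have hm : mg B C η = 1 := by
    rw [mg, ← Pool.Agent.RealQuad.nf_eq hD, h1]; simp
  induction k with
  | zero => rw [Multiset.replicate_zero, mprod_zero, mg, xc_one, yc_one]; simp
  | succ k ih =>
    rw [Multiset.replicate_succ, mprod_cons, mg_mulv hD hη
      (pos_mprod hD _ fun u hu => by rw [Multiset.eq_of_mem_replicate hu]; exact hη), hm, ih, mul_one]

/-- an element of mixed signs -/
theorem exists_mixed (hD : Disc B C) : ∃ γ : ℤ × ℤ, 0 < xc B C γ ∧ yc B C γ < 0 := by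
  have hrt := Pool.Agent.RealQuad.rt_pos hD
  have hneg : nf B C (-(B / 2), 1) < 0 := by
    have h1 := hD.pos
    have h2 : B ^ 2 - 4 * C ≠ 1 := by
      intro h; apply hD.nsq; rw [h]; exact ⟨1, by norm_num⟩
    have h3 : 4 * nf B C (-(B / 2), 1) = (B % 2) ^ 2 - (B ^ 2 - 4 * C) := by
      have h4 := Int.emod_add_mul_ediv B 2
      obtain ⟨b, hb⟩ : ∃ b, b = B / 2 := ⟨_, rfl⟩
      obtain ⟨e, he⟩ : ∃ e, e = B % 2 := ⟨_, rfl⟩
      rw [← hb, ← he] at h4 ⊢
      simp only [nf]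
      rw [← h4]; ring
    have h5 : (B % 2) ^ 2 ≤ 1 := by
      rcases Int.emod_two_eq_zero_or_one B with h | h <;> rw [h] <;> norm_num
    omega
  refine ⟨(-(B / 2), 1), ?_⟩
  have h1 := Pool.Agent.RealQuad.nf_eq hD (-(B / 2), 1)
  have h2 : xc B C (-(B / 2), 1) - yc B C (-(B / 2), 1) = 2 * rt B C := by
    simp only [xc, yc]; push_cast; ring
  have h3 : ((nf B C (-(B / 2), 1) : ℤ) : ℝ) < 0 := by exact_mod_cast hneg
  rw [h1] at h3
  rcases mul_neg_iff.1 h3 with h | h
  · exact h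
  · linarith [h.1, h.2]

theorem xc_neg_one : xc B C (-1, 0) = -1 := by simp [xc]
theorem yc_neg_one : yc B C (-1, 0) = -1 := by simp [yc]

/-- a totally positive multiple -/
theorem exists_pos_mul (hD : Disc B C) {γ : ℤ × ℤ} (h1 : 0 < xc B C γ) (h2 : yc B C γ < 0)
    {v : ℤ × ℤ} (hv : v ≠ 0) : ∃ g : Multiset (ℤ × ℤ), (∀ u ∈ g, u = γ ∨ u = (-1, 0)) ∧
      Pos B C (mprod B C (g + {v})) ∧
      |(nf B C (mprod B C (g + {v})) : ℝ)| ≤ |(nf B C γ : ℝ)| * |(nf B C v : ℝ)| := by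
  have hn := Pool.Agent.RealQuad.nf_ne_zero hD hv
  have hn' : (nf B C v : ℝ) ≠ 0 := by exact_mod_cast hn
  rw [Pool.Agent.RealQuad.nf_eq hD] at hn'
  have hγ : nf B C γ ≠ 0 := Pool.Agent.RealQuad.nf_ne_zero hD
    (Pool.Agent.RealQuad.ne_zero_of_xc h1.ne')
  have hγ1 : 1 ≤ |(nf B C γ : ℝ)| := by
    have : (1 : ℤ) ≤ |nf B C γ| := Int.one_le_abs hγ
    exact_mod_cast this
  have hx : xc B C v ≠ 0 := left_ne_zero_of_mul hn'
  have hy : yc B C v ≠ 0 := right_ne_zero_of_mul hn'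
  have hsing : ∀ w : ℤ × ℤ, mprod B C {w} = w := by
    intro w
    rw [← Multiset.cons_zero, mprod_cons, mprod_zero]; simp [mulv]
  have hX : ∀ (g : Multiset (ℤ × ℤ)) (u : ℤ × ℤ),
      xc B C (mprod B C ((u ::ₘ g) + {v})) = xc B C u * xc B C (mprod B C (g + {v})) := by
    intro g u; rw [Multiset.cons_add, mprod_cons, Pool.Agent.RealQuad.xc_mulv hD]
  have hY : ∀ (g : Multiset (ℤ × ℤ)) (u : ℤ × ℤ),
      yc B C (mprod B C ((u ::ₘ g) + {v})) = yc B C u * yc B C (mprod B C (g + {v})) := by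
    intro g u; rw [Multiset.cons_add, mprod_cons, Pool.Agent.RealQuad.yc_mulv hD]
  have hX0 : xc B C (mprod B C (0 + {v})) = xc B C v := by rw [zero_add, hsing]
  have hY0 : yc B C (mprod B C (0 + {v})) = yc B C v := by rw [zero_add, hsing]
  rcases lt_or_gt_of_ne hx with hx | hx <;> rcases lt_or_gt_of_ne hy with hy | hy
  · refine ⟨(-1, 0) ::ₘ 0, ?_, ⟨?_, ?_⟩, ?_⟩
    · intro u hu; simp only [Multiset.cons_zero, Multiset.mem_singleton] at hu; exact Or.inr hu
    · rw [hX, hX0, xc_neg_one]; linarith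
    · rw [hY, hY0, yc_neg_one]; linarith
    · rw [Pool.Agent.RealQuad.nf_eq hD, hX, hY, hX0, hY0, xc_neg_one, yc_neg_one,
        Pool.Agent.RealQuad.nf_eq hD v]
      have : (-1 * xc B C v) * (-1 * yc B C v) = xc B C v * yc B C v := by ring
      rw [this]
      exact le_mul_of_one_le_left (abs_nonneg _) hγ1
  · refine ⟨(-1, 0) ::ₘ γ ::ₘ 0, ?_, ⟨?_, ?_⟩, ?_⟩
    · intro u hu
      simp only [Multiset.cons_zero, Multiset.mem_cons, Multiset.mem_singleton] at hu
      exact hu.symm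
    · rw [hX, hX, hX0, xc_neg_one]; nlinarith [mul_pos h1 (neg_pos.2 hx)]
    · rw [hY, hY, hY0, yc_neg_one]; nlinarith [mul_pos (neg_pos.2 h2) hy]
    · rw [Pool.Agent.RealQuad.nf_eq hD, hX, hY, hX, hY, hX0, hY0, xc_neg_one, yc_neg_one,
        Pool.Agent.RealQuad.nf_eq hD v, Pool.Agent.RealQuad.nf_eq hD γ, ← abs_mul]
      apply le_of_eq; congr 1; ring
  · refine ⟨γ ::ₘ 0, ?_, ⟨?_, ?_⟩, ?_⟩
    · intro u hu; simp only [Multiset.cons_zero, Multiset.mem_singleton] at hu; exact Or.inl hu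
    · rw [hX, hX0]; exact mul_pos h1 hx
    · rw [hY, hY0]; exact mul_pos_of_neg_of_neg h2 hy
    · rw [Pool.Agent.RealQuad.nf_eq hD, hX, hY, hX0, hY0,
        Pool.Agent.RealQuad.nf_eq hD v, Pool.Agent.RealQuad.nf_eq hD γ, ← abs_mul]
      apply le_of_eq; congr 1; ring
  · refine ⟨0, ?_, ⟨?_, ?_⟩, ?_⟩
    · intro u hu; exact absurd hu (Multiset.notMem_zero u)
    · rw [hX0]; exact hx
    · rw [hY0]; exact hy
    · rw [Pool.Agent.RealQuad.nf_eq hD, hX0, hY0, Pool.Agent.RealQuad.nf_eq hD v]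
      exact le_mul_of_one_le_left (abs_nonneg _) hγ1

theorem mprod_bind (s : ℤ × ℤ → ℤ × ℤ) (g : ℤ × ℤ → Multiset (ℤ × ℤ)) (m : Multiset (ℤ × ℤ)) :
    (∀ v ∈ m, s v = mprod B C (g v + {v})) →
    mprod B C (m.map s) = mprod B C (m.bind g + m) := by
  induction m using Multiset.induction with
  | empty => intro _; simp
  | cons v m ih =>
    intro h
    rw [Multiset.map_cons, mprod_cons, ih fun u hu => h u (Multiset.mem_cons_of_mem hu),
      h v (Multiset.mem_cons_self v m), ← mprod_append, Multiset.cons_bind]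
    congr 1
    rw [← Multiset.singleton_add v m]
    abel

end PR

theorem primesR {B C : ℤ} (hD : Disc B C) : ∃ K : ℝ, 1 ≤ K ∧ ∀ Y : ℝ, K ≤ Y →
    ∃ Q : Finset (ℤ × ℤ), (∀ v ∈ Q, Pos B C v ∧ |(nf B C v : ℝ)| ≤ Y) ∧
    Y ^ (1 - 1 / 4000 : ℝ) ≤ (Q.card : ℝ) ∧
    ∀ r : ℕ, ∀ m ∈ Q.sym r, ∀ m' ∈ Q.sym r, m ≠ m' →
      1 / (K * Y ^ r) ≤
        ‖((m : Multiset (ℤ × ℤ)).map (thR B C)).sum - ((m' : Multiset (ℤ × ℤ)).map (thR B C)).sum‖ := by
  classical
  obtain ⟨γ, hγx, hγy⟩ := PR.exists_mixed hD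
  obtain ⟨hηpos, hηnf, hηang⟩ := etaR_spec hD
  obtain ⟨η, hη⟩ : ∃ η, η = etaR B C := ⟨_, rfl⟩
  have hlam : ang B C η = lamR B C := by rw [hη, lamR]
  rw [← hη] at hηpos hηnf hηang
  have hlam0 : 0 < lamR B C := by have := lamR_ge hD; linarith
  have hγ0 : nf B C γ ≠ 0 := Pool.Agent.RealQuad.nf_ne_zero hD
    (Pool.Agent.RealQuad.ne_zero_of_xc hγx.ne')
  obtain ⟨G, hG⟩ : ∃ G : Finset (ℤ × ℤ), G = {η, γ, (-1, 0)} := ⟨_, rfl⟩
  have hGn : ∀ u ∈ G, nf B C u ≠ 0 := by
    intro u hu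
    rw [hG] at hu
    simp only [Finset.mem_insert, Finset.mem_singleton] at hu
    rcases hu with rfl | rfl | rfl
    · rw [hηnf]; norm_num
    · exact hγ0
    · simp [nf]
  obtain ⟨K1, hK1, hprime⟩ := prime_el hD.nsq G hGn
  obtain ⟨K2, hK2, hsep⟩ := thR_sep hD
  -- the constant
  obtain ⟨c, hc⟩ : ∃ c : ℝ, c = |(nf B C γ : ℝ)| * (1 + |(B : ℝ)| + |(C : ℝ)|) := ⟨_, rfl⟩
  have hγ1 : 1 ≤ |(nf B C γ : ℝ)| := by
    have : (1 : ℤ) ≤ |nf B C γ| := Int.one_le_abs hγ0
    exact_mod_cast this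
  have hc1 : 1 ≤ c := by
    rw [hc]
    exact one_le_mul_of_one_le_of_one_le hγ1 (by linarith [abs_nonneg (B : ℝ), abs_nonneg (C : ℝ)])
  have hc0 : 0 < c := by linarith
  refine ⟨max (max (c * K1) (c ^ 20000)) K2, le_max_of_le_right hK2, fun Y hY => ?_⟩
  have hY1 : c * K1 ≤ Y := ((le_max_left _ _).trans (le_max_left _ _)).trans hY
  have hY2 : c ^ 20000 ≤ Y := ((le_max_right _ _).trans (le_max_left _ _)).trans hY
  have hY3 : K2 ≤ Y := (le_max_right _ _).trans hY
  have hYone : 1 ≤ Y := hK2.trans hY3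
  have hY0 : 0 < Y := by linarith
  obtain ⟨Q0, hQ0, hQ0c, hQ0d⟩ := hprime (Y / c) (by rw [le_div_iff₀ hc0]; linarith)
  have hg : ∀ v ∈ Q0, _ := fun v hv => PR.exists_pos_mul hD hγx hγy (hQ0 v hv).1
  choose! g hg using hg
  obtain ⟨s, hs⟩ : ∃ s : ℤ × ℤ → ℤ × ℤ, s = fun v => mprod B C (g v + {v}) := ⟨_, rfl⟩
  have hsv : ∀ v, s v = mprod B C (g v + {v}) := fun v => by rw [hs]
  have hgG : ∀ v ∈ Q0, ∀ u ∈ g v, u ∈ G := by
    intro v hv u hu
    rw [hG]; simp only [Finset.mem_insert, Finset.mem_singleton]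
    exact Or.inr ((hg v hv).1 u hu)
  have hηG : η ∈ G := by rw [hG]; simp
  have hinj : Set.InjOn s Q0 := by
    intro v hv w hw he
    have h1 : dt (mprod B C (g v + {v})) (mprod B C (g w + {w})) = 0 := by
      rw [← hsv, ← hsv, he]; simp only [dt]; ring
    have h2 := hQ0d {v} {w} (g v) (g w)
      (fun u hu => by rw [Multiset.mem_singleton.1 hu]; exact hv)
      (fun u hu => by rw [Multiset.mem_singleton.1 hu]; exact hw) (hgG v hv) (hgG w hw) h1
    exact Multiset.singleton_inj.1 h2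
  have hnorm : ∀ v ∈ Q0, |(nf B C (s v) : ℝ)| ≤ Y := by
    intro v hv
    obtain ⟨h0, h1, h2⟩ := hQ0 v hv
    rw [hsv]
    refine (hg v hv).2.2.trans ?_
    have hYc : 0 ≤ Y / c := by positivity
    have h3 : |(nf B C v : ℝ)| ≤ (1 + |(B : ℝ)| + |(C : ℝ)|) * (Y / c) := by
      have e : (nf B C v : ℝ) = (v.1 : ℝ) ^ 2 + B * ((v.1 : ℝ) * v.2) + C * (v.2 : ℝ) ^ 2 := by
        simp only [nf]; push_cast; ring
      have a1 : |(v.1 : ℝ)| ^ 2 ≤ Y / c := by
        calc |(v.1 : ℝ)| ^ 2 ≤ √(Y / c) ^ 2 := pow_le_pow_left₀ (abs_nonneg _) h1 2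
          _ = Y / c := Real.sq_sqrt hYc
      have a2 : |(v.2 : ℝ)| ^ 2 ≤ Y / c := by
        calc |(v.2 : ℝ)| ^ 2 ≤ √(Y / c) ^ 2 := pow_le_pow_left₀ (abs_nonneg _) h2 2
          _ = Y / c := Real.sq_sqrt hYc
      have a3 : |(v.1 : ℝ)| * |(v.2 : ℝ)| ≤ Y / c := by
        calc |(v.1 : ℝ)| * |(v.2 : ℝ)| ≤ √(Y / c) * √(Y / c) :=
              mul_le_mul h1 h2 (abs_nonneg _) (Real.sqrt_nonneg _)
          _ = Y / c := Real.mul_self_sqrt hYc
      rw [e]
      calc |(v.1 : ℝ) ^ 2 + B * ((v.1 : ℝ) * v.2) + C * (v.2 : ℝ) ^ 2|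
          ≤ |(v.1 : ℝ) ^ 2| + |B * ((v.1 : ℝ) * v.2)| + |C * (v.2 : ℝ) ^ 2| := abs_add_three _ _ _
        _ = |(v.1 : ℝ)| ^ 2 + |(B : ℝ)| * (|(v.1 : ℝ)| * |(v.2 : ℝ)|)
            + |(C : ℝ)| * |(v.2 : ℝ)| ^ 2 := by
            rw [abs_pow, abs_mul, abs_mul, abs_mul, abs_pow]
        _ ≤ Y / c + |(B : ℝ)| * (Y / c) + |(C : ℝ)| * (Y / c) := by gcongr
        _ = _ := by ring
    calc |(nf B C γ : ℝ)| * |(nf B C v : ℝ)|
        ≤ |(nf B C γ : ℝ)| * ((1 + |(B : ℝ)| + |(C : ℝ)|) * (Y / c)) :=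
          mul_le_mul_of_nonneg_left h3 (abs_nonneg _)
      _ = c * (Y / c) := by rw [hc]; ring
      _ = Y := by field_simp
  refine ⟨Q0.image s, ?_, ?_, ?_⟩
  · intro v hv
    obtain ⟨u, hu, rfl⟩ := Finset.mem_image.1 hv
    exact ⟨by rw [hsv]; exact (hg u hu).2.1, hnorm u hu⟩
  · rw [Finset.card_image_of_injOn hinj]
    refine le_trans ?_ hQ0c
    rw [Real.div_rpow hY0.le hc0.le, le_div_iff₀ (by positivity)]
    have h1 : c ^ (1 - 1 / 5000 : ℝ) ≤ c := by
      calc c ^ (1 - 1 / 5000 : ℝ) ≤ c ^ (1 : ℝ) :=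
            Real.rpow_le_rpow_of_exponent_le hc1 (by norm_num)
        _ = c := Real.rpow_one c
    have h2 : c ≤ Y ^ (1 / 20000 : ℝ) := by
      calc c = (c ^ (20000 : ℕ)) ^ (1 / 20000 : ℝ) := by
            rw [← Real.rpow_natCast, ← Real.rpow_mul hc0.le]
            norm_num
        _ ≤ Y ^ (1 / 20000 : ℝ) := Real.rpow_le_rpow (by positivity) hY2 (by norm_num)
    calc Y ^ (1 - 1 / 4000 : ℝ) * c ^ (1 - 1 / 5000 : ℝ)
        ≤ Y ^ (1 - 1 / 4000 : ℝ) * Y ^ (1 / 20000 : ℝ) :=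
          mul_le_mul_of_nonneg_left (h1.trans h2) (Real.rpow_nonneg hY0.le _)
      _ = Y ^ (1 - 1 / 5000 : ℝ) := by rw [← Real.rpow_add hY0]; norm_num
  · intro r m hm m' hm' hne
    obtain ⟨M, hM⟩ : ∃ M : Multiset (ℤ × ℤ), M = (m : Multiset (ℤ × ℤ)) := ⟨_, rfl⟩
    obtain ⟨M', hM'⟩ : ∃ M' : Multiset (ℤ × ℤ), M' = (m' : Multiset (ℤ × ℤ)) := ⟨_, rfl⟩
    have hMM : M ≠ M' := by
      intro h; apply hne; apply Sym.coe_injective; rw [← hM, ← hM', h]
    have hMc : M.card = r := by rw [hM]; exact m.2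
    have hMc' : M'.card = r := by rw [hM']; exact m'.2
    have hMQ : ∀ v ∈ M, v ∈ Q0.image s := by
      intro v hv; rw [hM] at hv; exact Finset.mem_sym_iff.1 hm v hv
    have hMQ' : ∀ v ∈ M', v ∈ Q0.image s := by
      intro v hv; rw [hM'] at hv; exact Finset.mem_sym_iff.1 hm' v hv
    rw [← hM, ← hM']
    have hposQ : ∀ v ∈ Q0.image s, Pos B C v ∧ mg B C v ≤ √Y := by
      intro v hv
      obtain ⟨u, hu, rfl⟩ := Finset.mem_image.1 hv
      refine ⟨by rw [hsv]; exact (hg u hu).2.1, ?_⟩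
      rw [mg, ← Pool.Agent.RealQuad.nf_eq hD]
      exact Real.sqrt_le_sqrt ((le_abs_self _).trans (hnorm u hu))
    -- preimages
    have hpre : ∀ N : Multiset (ℤ × ℤ), (∀ v ∈ N, v ∈ Q0.image s) →
        ∃ N0 : Multiset (ℤ × ℤ), (∀ v ∈ N0, v ∈ Q0) ∧ N0.map s = N := by
      intro N
      induction N using Multiset.induction with
      | empty => intro _; exact ⟨0, by simp, by simp⟩
      | cons v N ih =>
        intro h
        obtain ⟨N0, hN0, hN0'⟩ := ih fun u hu => h u (Multiset.mem_cons_of_mem hu)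
        obtain ⟨u, hu, hus⟩ := Finset.mem_image.1 (h v (Multiset.mem_cons_self v N))
        refine ⟨u ::ₘ N0, ?_, ?_⟩
        · intro w hw
          rcases Multiset.mem_cons.1 hw with rfl | hw
          · exact hu
          · exact hN0 w hw
        · rw [Multiset.map_cons, hus, hN0']
    obtain ⟨N, hN, hNs⟩ := hpre M hMQ
    obtain ⟨N', hN', hNs'⟩ := hpre M' hMQ'
    -- nonvanishing determinants
    have hdt : ∀ i j : ℕ, dt (mprod B C (Multiset.replicate i η + M))
        (mprod B C (Multiset.replicate j η + M')) ≠ 0 := by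
      intro i j h
      have e : ∀ (k : ℕ) (N : Multiset (ℤ × ℤ)), mprod B C (Multiset.replicate k η + N.map s)
          = mprod B C ((Multiset.replicate k η + N.bind g) + N) := by
        intro k N
        rw [PR.mprod_append, PR.mprod_bind s g N (fun v _ => hsv v), ← PR.mprod_append, add_assoc]
      rw [← hNs, ← hNs', e, e] at h
      have hmem : ∀ (k : ℕ) (N : Multiset (ℤ × ℤ)), (∀ v ∈ N, v ∈ Q0) →
          ∀ u ∈ Multiset.replicate k η + N.bind g, u ∈ G := by
        intro k N hN u hu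
        rcases Multiset.mem_add.1 hu with hu | hu
        · rw [Multiset.eq_of_mem_replicate hu]; exact hηG
        · obtain ⟨v, hv, hu⟩ := Multiset.mem_bind.1 hu
          exact hgG v (hN v hv) u hu
      have h2 := hQ0d N N' _ _ hN hN' (hmem i N hN) (hmem j N' hN') h
      apply hMM
      rw [← hNs, ← hNs', h2]
    have hMp : ∀ v ∈ M, Pos B C v := fun v hv => (hposQ v (hMQ v hv)).1
    have hMp' : ∀ v ∈ M', Pos B C v := fun v hv => (hposQ v (hMQ' v hv)).1
    have hrep : ∀ (k : ℕ) (N : Multiset (ℤ × ℤ)), (∀ v ∈ N, Pos B C v) →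
        ∀ v ∈ Multiset.replicate k η + N, Pos B C v := by
      intro k N hN v hv
      rcases Multiset.mem_add.1 hv with hv | hv
      · rw [Multiset.eq_of_mem_replicate hv]; exact hηpos
      · exact hN v hv
    have hthη : thR B C η = 0 := by
      rw [thR, hlam, div_self hlam0.ne']
      exact AddCircle.coe_period 1
    have hthrep : ∀ (k : ℕ) (N : Multiset (ℤ × ℤ)), (∀ v ∈ N, Pos B C v) →
        thR B C (mprod B C (Multiset.replicate k η + N)) = (N.map (thR B C)).sum := by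
      intro k N hN
      rw [PR.thR_mprod hD _ (hrep k N hN), Multiset.map_add, Multiset.sum_add,
        Multiset.map_replicate, Multiset.sum_replicate, hthη, smul_zero, zero_add]
    have hangrep : ∀ (k : ℕ) (N : Multiset (ℤ × ℤ)), (∀ v ∈ N, Pos B C v) →
        ang B C (mprod B C (Multiset.replicate k η + N)) = k * lamR B C + (N.map (ang B C)).sum := by
      intro k N hN
      rw [PR.ang_mprod hD _ (hrep k N hN), Multiset.map_add, Multiset.sum_add,
        Multiset.map_replicate, Multiset.sum_replicate, hlam, nsmul_eq_mul]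
    have hmgrep : ∀ (k : ℕ) (N : Multiset (ℤ × ℤ)), (∀ v ∈ N, Pos B C v ∧ mg B C v ≤ √Y) →
        mg B C (mprod B C (Multiset.replicate k η + N)) ≤ √Y ^ N.card := by
      intro k N hN
      rw [PR.mprod_append, mg_mulv hD
        (PR.pos_mprod hD _ fun u hu => by rw [Multiset.eq_of_mem_replicate hu]; exact hηpos)
        (PR.pos_mprod hD _ fun u hu => (hN u hu).1), PR.mg_replicate hD hηpos hηnf, one_mul]
      exact PR.mg_mprod hD (Real.sqrt_nonneg _) N hN
    -- choose the shift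
    obtain ⟨a, ha⟩ : ∃ a : ℝ, a = (M.map (ang B C)).sum := ⟨_, rfl⟩
    obtain ⟨b, hb⟩ : ∃ b : ℝ, b = (M'.map (ang B C)).sum := ⟨_, rfl⟩
    obtain ⟨k, hk⟩ : ∃ k : ℤ, |a - b - k * lamR B C| ≤ lamR B C / 2 := by
      refine ⟨round ((a - b) / lamR B C), ?_⟩
      have h1 := abs_sub_round ((a - b) / lamR B C)
      have h2 : a - b - round ((a - b) / lamR B C) * lamR B C
          = ((a - b) / lamR B C - round ((a - b) / lamR B C)) * lamR B C := by
        field_simp
      rw [h2, abs_mul, abs_of_pos hlam0]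
      nlinarith
    obtain ⟨i, j, hij⟩ : ∃ i j : ℕ, (k : ℝ) = j - i := by
      rcases le_total 0 k with h | h
      · refine ⟨0, k.toNat, ?_⟩
        have : ((k.toNat : ℤ) : ℝ) = k := by rw [Int.toNat_of_nonneg h]
        rw [← this]; push_cast; ring
      · refine ⟨(-k).toNat, 0, ?_⟩
        have : (((-k).toNat : ℤ) : ℝ) = -k := by rw [Int.toNat_of_nonneg (by omega)]; push_cast; ring
        have h2 : (((-k).toNat : ℕ) : ℝ) = -k := by exact_mod_cast this
        rw [h2]; push_cast; ring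
    have hPosα := PR.pos_mprod hD _ (hrep i M hMp)
    have hPosβ := PR.pos_mprod hD _ (hrep j M' hMp')
    have hclose : |ang B C (mprod B C (Multiset.replicate i η + M))
        - ang B C (mprod B C (Multiset.replicate j η + M'))| ≤ lamR B C / 2 := by
      rw [hangrep i M hMp, hangrep j M' hMp', ← ha, ← hb]
      have : (i : ℝ) * lamR B C + a - (j * lamR B C + b) = a - b - k * lamR B C := by
        rw [hij]; ring
      rw [this]; exact hk
    have h1 := hsep _ _ hPosα hPosβ hclose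
    rw [hthrep i M hMp, hthrep j M' hMp'] at h1
    refine le_trans ?_ h1
    have hdt1 : (1 : ℝ) ≤ |(dt (mprod B C (Multiset.replicate i η + M))
        (mprod B C (Multiset.replicate j η + M')) : ℝ)| := by
      have h2 := Int.one_le_abs (hdt i j)
      exact_mod_cast h2
    have hmg1 := hmgrep i M (fun v hv => hposQ v (hMQ v hv))
    have hmg2 := hmgrep j M' (fun v hv => hposQ v (hMQ' v hv))
    rw [hMc] at hmg1
    rw [hMc'] at hmg2
    have hmgα := Pool.Agent.RealQuad.mg_pos hPosα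
    have hmgβ := Pool.Agent.RealQuad.mg_pos hPosβ
    have hprod : mg B C (mprod B C (Multiset.replicate i η + M))
        * mg B C (mprod B C (Multiset.replicate j η + M')) ≤ Y ^ r := by
      calc _ ≤ √Y ^ r * √Y ^ r := mul_le_mul hmg1 hmg2 hmgβ.le (by positivity)
        _ = (√Y * √Y) ^ r := by rw [mul_pow]
        _ = Y ^ r := by rw [Real.mul_self_sqrt hY0.le]
    apply div_le_div₀ (by positivity) hdt1 (by positivity)
    exact mul_le_mul (le_max_right _ _) hprod (by positivity) (by positivity)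

end Pool.Agent.LogPar
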