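import Pool.Agent.LogPar.RDefs
import Pool.Agent.LogPar.Rho

set_option autoImplicit false

/-! # Real case: number of representations of an integer -/

namespace Pool.Agent.LogPar

open Pool.Agent.FareyParity
open Pool.Agent.RealQuad (Disc Pos ang mg xc yc rt)

/-- number of primitive vectors of given norm -/
theorem prim_cardR {B C : ℤ} (hD : Disc B C) (M : ℝ) {u : ℕ} (hu : 1 ≤ u) (S : Finset (ℤ × ℤ))
    (hS : ∀ z ∈ S, IsCoprime z.1 z.2 ∧ Pos B C z ∧ |ang B C z| ≤ M ∧ nf B C z = u) :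
    S.card ≤ Pool.Agent.RealQuad.mult B C M *
      ((B ^ 2 - 4 * C).natAbs * u.divisors.card) := by
  classical
  have hu0 : (0 : ℤ) < u := by exact_mod_cast hu
  have hex : ∀ z : ℤ × ℤ, ∃ w : ℤ × ℤ, z ∈ S → dt z w = 1 ∧ 0 ≤ ip B C z w ∧
      ip B C z w < u := by
    intro z
    by_cases hz : z ∈ S
    · obtain ⟨w0, hw0⟩ := exists_partner (hS z hz).1
      refine ⟨w0 - (ip B C z w0 / u) • z, fun _ => ?_⟩
      have h1 : dt z (w0 - (ip B C z w0 / u) • z) = 1 := by
        rw [← hw0]; simp only [dt, Prod.fst_sub, Prod.snd_sub, Prod.smul_fst, Prod.smul_snd,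
          smul_eq_mul]; ring
      have h2 : ip B C z (w0 - (ip B C z w0 / u) • z) = ip B C z w0 % u := by
        have h3 : ip B C z (w0 - (ip B C z w0 / u) • z)
            = ip B C z w0 - (ip B C z w0 / u) * nf B C z := by
          simp only [ip, nf, Prod.fst_sub, Prod.snd_sub, Prod.smul_fst, Prod.smul_snd,
            smul_eq_mul]; ring
        rw [h3, (hS z hz).2.2.2, Int.emod_def]; ring
      refine ⟨h1, ?_, ?_⟩
      · rw [h2]; exact Int.emod_nonneg _ hu0.ne'
      · rw [h2]; exact Int.emod_lt_of_pos _ hu0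
    · exact ⟨0, fun h => absurd h hz⟩
  choose W hW using hex
  have hrho := rho_le (B := B) (C := C) (by have := hD.pos; omega) hu
  refine (Finset.card_le_mul_card_image_of_maps_to (s := S)
    (t := (Finset.range u).filter (fun n : ℕ => (u : ℤ) ∣ (n : ℤ) ^ 2 + B * n + C))
    (f := fun z => (ip B C z (W z)).toNat) ?_ (Pool.Agent.RealQuad.mult B C M) ?_).trans
    (Nat.mul_le_mul_left _ hrho)
  · intro z hz
    obtain ⟨h1, h2, h3⟩ := hW z hz
    rw [Finset.mem_filter, Finset.mem_range]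
    refine ⟨by omega, ?_⟩
    have h4 := (pair_dvd h1 (rfl : ip B C z (W z) = ip B C z (W z))).2
    rw [(hS z hz).2.2.2] at h4
    have h5 : (((ip B C z (W z)).toNat : ℕ) : ℤ) = ip B C z (W z) := Int.toNat_of_nonneg h2
    rw [h5]; exact h4
  · intro b _
    apply Pool.Agent.RealQuad.fiber_card hD M (b : ℤ) (u : ℤ)
    intro z hz
    rw [Finset.mem_filter] at hz
    obtain ⟨hzS, hzb⟩ := hz
    obtain ⟨h1, h2, h3⟩ := hW z hzS
    obtain ⟨g1, g2, g3, g4⟩ := hS z hzS
    refine ⟨g2, g3, g4, W z, h1, ?_⟩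
    rw [← hzb]; exact (Int.toNat_of_nonneg h2).symm

theorem pos_of_smul {B C k : ℤ} (hk : 0 < k) {v : ℤ × ℤ} (h : Pos B C (k • v)) :
    Pos B C v ∧ ang B C (k • v) = ang B C v := by
  have hk' : (0 : ℝ) < k := by exact_mod_cast hk
  obtain ⟨h1, h2⟩ := h
  rw [Pool.Agent.RealQuad.xc_smul] at h1
  rw [Pool.Agent.RealQuad.yc_smul] at h2
  refine ⟨⟨(mul_pos_iff_of_pos_left hk').1 h1, (mul_pos_iff_of_pos_left hk').1 h2⟩, ?_⟩
  unfold ang
  rw [Pool.Agent.RealQuad.xc_smul, Pool.Agent.RealQuad.yc_smul, mul_div_mul_left _ _ hk'.ne']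

theorem repR {B C : ℤ} (hD : Disc B C) (M : ℝ) : ∃ K : ℝ, 1 ≤ K ∧ ∀ n : ℕ, 1 ≤ n →
    ∀ P : Finset (ℤ × ℤ), (∀ v ∈ P, Pos B C v ∧ |ang B C v| ≤ M ∧ nf B C v = n) →
    (P.card : ℝ) ≤ K * (n.divisors.card : ℝ) ^ 2 := by
  classical
  obtain ⟨Q, hQ⟩ : ∃ Q : ℕ, Q = Pool.Agent.RealQuad.mult B C M * (B ^ 2 - 4 * C).natAbs :=
    ⟨_, rfl⟩
  refine ⟨((Q + 1 : ℕ) : ℝ), ?_, ?_⟩
  · have : 1 ≤ Q + 1 := by omega
    exact_mod_cast this
  · intro n hn P hP
    have hex : ∀ v : ℤ × ℤ, ∃ (k : ℤ) (v0 : ℤ × ℤ), v ∈ P →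
        0 < k ∧ v = k • v0 ∧ IsCoprime v0.1 v0.2 := by
      intro v
      by_cases hv : v ∈ P
      · obtain ⟨k, v0, h⟩ := exists_primitive (hP v hv).1.ne_zero
        exact ⟨k, v0, fun _ => h⟩
      · exact ⟨0, 0, fun h => absurd h hv⟩
    choose k v0 hk using hex
    have key : P.card ≤ (Pool.Agent.RealQuad.mult B C M *
        ((B ^ 2 - 4 * C).natAbs * n.divisors.card)) * n.divisors.card := by
      apply Finset.card_le_mul_card_image_of_maps_to (f := fun v => (k v).toNat)
      · intro v hv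
        obtain ⟨h1, h2, h3⟩ := hk v hv
        have h4 := (hP v hv).2.2
        rw [h2, nf_smul] at h4
        rw [Nat.mem_divisors]
        refine ⟨?_, by omega⟩
        have h5 : k v ∣ (n : ℤ) := ⟨k v * nf B C (v0 v), by rw [← h4]; ring⟩
        have h6 : ((k v).toNat : ℤ) = k v := Int.toNat_of_nonneg h1.le
        rw [← h6] at h5
        exact_mod_cast h5
      · intro b _
        obtain ⟨S, hS⟩ : ∃ S, S = P.filter (fun v => (k v).toNat = b) := ⟨_, rfl⟩
        rw [← hS]
        rcases S.eq_empty_or_nonempty with h0 | ⟨v1, hv1⟩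
        · rw [h0]; simp
        have hv1' := hv1
        rw [hS, Finset.mem_filter] at hv1'
        obtain ⟨g1, g2, g3⟩ := hk v1 hv1'.1
        have hb : (b : ℤ) = k v1 := by
          rw [← hv1'.2]; exact Int.toNat_of_nonneg g1.le
        have hbpos : (0 : ℤ) < b := by rw [hb]; exact g1
        have g4 := (hP v1 hv1'.1).2.2
        rw [g2, nf_smul, ← hb] at g4
        have hu0 : 0 < nf B C (v0 v1) := by
          have hn' : (0 : ℤ) < n := by exact_mod_cast hn
          rw [← g4] at hn'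
          exact (mul_pos_iff_of_pos_left (by positivity)).1 hn'
        obtain ⟨u, hu⟩ : ∃ u : ℕ, (u : ℤ) = nf B C (v0 v1) :=
          ⟨(nf B C (v0 v1)).toNat, Int.toNat_of_nonneg hu0.le⟩
        have hu1 : 1 ≤ u := by omega
        have hun : u ∣ n := by
          have : (u : ℤ) ∣ (n : ℤ) := ⟨(b : ℤ) ^ 2, by rw [← g4, hu]; ring⟩
          exact_mod_cast this
        have hinj : Set.InjOn v0 (S : Set (ℤ × ℤ)) := by
          intro x hx y hy hxy
          rw [Finset.mem_coe, hS, Finset.mem_filter] at hx hy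
          obtain ⟨x1, x2, x3⟩ := hk x hx.1
          obtain ⟨y1, y2, y3⟩ := hk y hy.1
          have e1 : k x = b := by rw [← hx.2]; exact (Int.toNat_of_nonneg x1.le).symm
          have e2 : k y = b := by rw [← hy.2]; exact (Int.toNat_of_nonneg y1.le).symm
          rw [x2, y2, e1, e2, hxy]
        have hcard := prim_cardR hD M hu1 (S.image v0) (by
          intro z hz
          rw [Finset.mem_image] at hz
          obtain ⟨x, hx, rfl⟩ := hz
          rw [hS, Finset.mem_filter] at hx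
          obtain ⟨x1, x2, x3⟩ := hk x hx.1
          have e1 : k x = b := by rw [← hx.2]; exact (Int.toNat_of_nonneg x1.le).symm
          obtain ⟨p1, p2, p3⟩ := hP x hx.1
          rw [x2] at p1 p2 p3
          obtain ⟨q1, q2⟩ := pos_of_smul x1 p1
          refine ⟨x3, q1, by rw [← q2]; exact p2, ?_⟩
          rw [nf_smul, e1, ← g4] at p3
          rw [hu]
          exact mul_left_cancel₀ (by positivity) p3)
        rw [Finset.card_image_of_injOn hinj] at hcard
        refine hcard.trans ?_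
        have : u.divisors.card ≤ n.divisors.card :=
          Finset.card_le_card (Nat.divisors_subset_of_dvd (by omega) hun)
        gcongr
    have key' : (P.card : ℝ) ≤ ((Q * n.divisors.card ^ 2 : ℕ) : ℝ) := by
      have : P.card ≤ Q * n.divisors.card ^ 2 := by
        refine key.trans (le_of_eq ?_)
        rw [hQ]; ring
      exact_mod_cast this
    refine key'.trans ?_
    push_cast
    have : (0 : ℝ) ≤ (n.divisors.card : ℝ) ^ 2 := by positivity
    nlinarith

end Pool.Agent.LogPar
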