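import Pool.Agent.LogPar.ThR
import Pool.Agent.LogPar.RepR
import Pool.Agent.LogPar.TauS

set_option autoImplicit false

/-! # Real case: few coincidences between directions of products -/

namespace Pool.Agent.LogPar

open Pool.Agent.FareyParity
open Pool.Agent.RealQuad (Disc Pos ang mg xc yc rt)

/-- multiplication by a nonzero vector is injective -/
theorem quadr_mulv_inj {B C : ℤ} (hD : Disc B C) {v w w' : ℤ × ℤ} (hv : v ≠ 0)
    (h : mulv B C v w = mulv B C v w') : w = w' := by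
  by_contra hne
  have h1 : w - w' ≠ 0 := sub_ne_zero.2 hne
  have h2 : mulv B C v (w - w') = 0 := by
    have e : mulv B C v (w - w') = mulv B C v w - mulv B C v w' := by
      simp only [mulv, Prod.fst_sub, Prod.snd_sub]
      ext
      · simp only [Prod.fst_sub]; ring
      · simp only [Prod.snd_sub]; ring
    rw [e, h, sub_self]
  have h3 := nf_mulv B C v (w - w')
  rw [h2] at h3
  have h4 : nf B C (0 : ℤ × ℤ) = 0 := by simp [nf]
  rw [h4] at h3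
  exact mul_ne_zero (Pool.Agent.RealQuad.nf_ne_zero hD hv) (Pool.Agent.RealQuad.nf_ne_zero hD h1)
    h3.symm

theorem quadr_card_divisors_le {d n : ℕ} (h : d ∣ n) (hn : n ≠ 0) :
    d.divisors.card ≤ n.divisors.card :=
  Finset.card_le_card (Nat.divisors_subset_of_dvd hn h)

/-- multiples -/
theorem quadr_smul {B C : ℤ} {δ : ℤ × ℤ} {k : ℤ} (h : Pos B C (k • δ)) (hk : 0 < k) :
    Pos B C δ ∧ ang B C δ = ang B C (k • δ) ∧ mg B C (k • δ) = k * mg B C δ := by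
  have hk' : (0 : ℝ) < k := by exact_mod_cast hk
  have h1 := h.1
  have h2 := h.2
  rw [Pool.Agent.RealQuad.xc_smul] at h1
  rw [Pool.Agent.RealQuad.yc_smul] at h2
  refine ⟨⟨pos_of_mul_pos_right h1 hk'.le, pos_of_mul_pos_right h2 hk'.le⟩, ?_, ?_⟩
  · unfold ang
    rw [Pool.Agent.RealQuad.xc_smul, Pool.Agent.RealQuad.yc_smul, mul_div_mul_left _ _ hk'.ne']
  · unfold mg
    rw [Pool.Agent.RealQuad.xc_smul, Pool.Agent.RealQuad.yc_smul]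
    have : (k : ℝ) * xc B C δ * (k * yc B C δ) = (k : ℝ) ^ 2 * (xc B C δ * yc B C δ) := by ring
    rw [this, Real.sqrt_mul (by positivity), Real.sqrt_sq hk'.le]

/-- a positive multiple between totally positive elements -/
theorem quadr_pos_coef {B C : ℤ} {δ : ℤ × ℤ} {e : ℤ} (hδ : Pos B C δ) (h : Pos B C (e • δ)) :
    0 < e := by
  have h1 := h.1
  rw [Pool.Agent.RealQuad.xc_smul] at h1
  have := pos_of_mul_pos_left h1 hδ.1.le
  exact_mod_cast this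

/-- number of factorisations of a given vector -/
theorem quadr_fiber {B C : ℤ} (hD : Disc B C) {Kr : ℝ} (hKr : 0 ≤ Kr)
    (hr : ∀ n : ℕ, 1 ≤ n → ∀ P : Finset (ℤ × ℤ),
      (∀ v ∈ P, Pos B C v ∧ |ang B C v| ≤ 1 / 10 ∧ nf B C v = n) →
      (P.card : ℝ) ≤ Kr * (n.divisors.card : ℝ) ^ 2)
    {V : Finset (ℤ × ℤ)} (hV : ∀ v ∈ V, Pos B C v ∧ |ang B C v| ≤ 1 / 10)
    {z : ℤ × ℤ} (hz : Pos B C z) :
    (((V ×ˢ V).filter (fun p => mulv B C p.1 p.2 = z)).card : ℝ) ≤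
      Kr * ((nf B C z).natAbs.divisors.card : ℝ) ^ 3 := by
  classical
  have hzpos := hz.nf_pos hD
  have hn0 : (nf B C z).natAbs ≠ 0 := by omega
  obtain ⟨n, hn⟩ : ∃ n : ℕ, n = (nf B C z).natAbs := ⟨_, rfl⟩
  rw [← hn] at hn0 ⊢
  have hnz : (n : ℤ) = nf B C z := by omega
  -- injection to the first coordinate
  have h1 : ((V ×ˢ V).filter (fun p => mulv B C p.1 p.2 = z)).card ≤
      (n.divisors.biUnion (fun d => V.filter (fun v => nf B C v = d))).card := by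
    apply Finset.card_le_card_of_injOn Prod.fst
    · intro p hp
      simp only [Finset.coe_filter, Finset.mem_product, Set.mem_ofPred_eq] at hp
      obtain ⟨⟨hp1, hp2⟩, hp3⟩ := hp
      simp only [Finset.coe_biUnion, Set.mem_iUnion, Finset.mem_coe, Finset.mem_filter,
        Nat.mem_divisors]
      have hpos := (hV _ hp1).1.nf_pos hD
      refine ⟨(nf B C p.1).natAbs, ⟨?_, hn0⟩, hp1, by omega⟩
      have : nf B C z = nf B C p.1 * nf B C p.2 := by rw [← hp3, nf_mulv]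
      rw [hn, this, Int.natAbs_mul]
      exact Dvd.intro _ rfl
    · intro p hp q hq hpq
      simp only [Finset.coe_filter, Finset.mem_product, Set.mem_ofPred_eq] at hp hq
      have h2 : mulv B C p.1 p.2 = mulv B C p.1 q.2 := by
        rw [hp.2, ← hq.2, hpq]
      exact Prod.ext hpq (quadr_mulv_inj hD (hV _ hp.1.1).1.ne_zero h2)
  have h2 : ((n.divisors.biUnion (fun d => V.filter (fun v => nf B C v = d))).card : ℝ) ≤
      ∑ d ∈ n.divisors, Kr * (n.divisors.card : ℝ) ^ 2 := by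
    calc ((n.divisors.biUnion (fun d => V.filter (fun v => nf B C v = d))).card : ℝ)
        ≤ ((∑ d ∈ n.divisors, (V.filter (fun v => nf B C v = d)).card : ℕ) : ℝ) := by
          exact_mod_cast Finset.card_biUnion_le
      _ = ∑ d ∈ n.divisors, ((V.filter (fun v => nf B C v = d)).card : ℝ) := by push_cast; rfl
      _ ≤ _ := by
          apply Finset.sum_le_sum
          intro d hd
          have hdn := Nat.dvd_of_mem_divisors hd
          have hd1 : 1 ≤ d := Nat.pos_of_mem_divisors hd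
          calc ((V.filter (fun v => nf B C v = d)).card : ℝ)
              ≤ Kr * (d.divisors.card : ℝ) ^ 2 := by
                apply hr d hd1
                intro v hv
                obtain ⟨hv1, hv2⟩ := Finset.mem_filter.1 hv
                exact ⟨(hV v hv1).1, (hV v hv1).2, hv2⟩
            _ ≤ Kr * (n.divisors.card : ℝ) ^ 2 := by
                have : (d.divisors.card : ℝ) ≤ n.divisors.card := by
                  exact_mod_cast quadr_card_divisors_le hdn hn0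
                gcongr
  calc (((V ×ˢ V).filter (fun p => mulv B C p.1 p.2 = z)).card : ℝ)
      ≤ ((n.divisors.biUnion (fun d => V.filter (fun v => nf B C v = d))).card : ℝ) := by
        exact_mod_cast h1
    _ ≤ _ := h2
    _ = _ := by rw [Finset.sum_const, nsmul_eq_mul]; ring

/-- number of products in a given direction -/
theorem quadr_dir {B C : ℤ} (hD : Disc B C) {Kr : ℝ} (hKr : 0 ≤ Kr)
    (hr : ∀ n : ℕ, 1 ≤ n → ∀ P : Finset (ℤ × ℤ),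
      (∀ v ∈ P, Pos B C v ∧ |ang B C v| ≤ 1 / 10 ∧ nf B C v = n) →
      (P.card : ℝ) ≤ Kr * (n.divisors.card : ℝ) ^ 2)
    {V : Finset (ℤ × ℤ)} {ρ : ℝ} (hρ : 0 ≤ ρ)
    (hV : ∀ v ∈ V, (Pos B C v ∧ |ang B C v| ≤ 1 / 10) ∧ mg B C v ≤ ρ)
    {δ : ℤ × ℤ} (hδ : IsCoprime δ.1 δ.2) (hδ0 : Pos B C δ) :
    (((V ×ˢ V).filter (fun p => dt δ (mulv B C p.1 p.2) = 0)).card : ℝ) ≤
      Kr * ((nf B C δ).natAbs.divisors.card : ℝ) ^ 3 * (ρ ^ 2 / mg B C δ) *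
      ∑ k ∈ Finset.Icc 1 ⌊ρ ^ 2⌋₊, (k.divisors.card : ℝ) ^ 6 / k := by
  classical
  have hnδ := Pool.Agent.RealQuad.one_le_mg hD hδ0
  have hposδ : 0 < mg B C δ := by linarith
  obtain ⟨x, hx⟩ : ∃ x : ℝ, x = ρ ^ 2 / mg B C δ := ⟨_, rfl⟩
  have hx0 : 0 ≤ x := by rw [hx]; positivity
  have hxle : x ≤ ρ ^ 2 := by
    rw [hx]; exact div_le_self (by positivity) hnδ
  obtain ⟨t, ht⟩ : ∃ t : ℕ, t = (nf B C δ).natAbs.divisors.card := ⟨_, rfl⟩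
  have hnfδ := hδ0.nf_pos hD
  rw [← hx, ← ht]
  obtain ⟨N, hN⟩ : ∃ N : Finset ((ℤ × ℤ) × (ℤ × ℤ)),
    N = (V ×ˢ V).filter (fun p => dt δ (mulv B C p.1 p.2) = 0) := ⟨_, rfl⟩
  have hcov : N ⊆ (Finset.Icc 1 ⌊x⌋₊).biUnion (fun k =>
      (V ×ˢ V).filter (fun p => mulv B C p.1 p.2 = (k : ℤ) • δ)) := by
    intro p hp
    rw [hN, Finset.mem_filter] at hp
    obtain ⟨hpV, hp0⟩ := hp
    have hpV' := Finset.mem_product.1 hpV
    obtain ⟨e, he⟩ := eq_smul_of_dt_eq_zero hδ hp0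
    have hne : Pos B C (mulv B C p.1 p.2) := pos_mulv hD (hV _ hpV'.1).1.1 (hV _ hpV'.2).1.1
    rw [he] at hne
    have he0 : 0 < e := quadr_pos_coef hδ0 hne
    obtain ⟨_, _, hmg⟩ := quadr_smul hne he0
    have hnorm : (e : ℝ) * mg B C δ ≤ ρ ^ 2 := by
      rw [← hmg, ← he, mg_mulv hD (hV _ hpV'.1).1.1 (hV _ hpV'.2).1.1, pow_two]
      exact mul_le_mul (hV _ hpV'.1).2 (hV _ hpV'.2).2
        (Pool.Agent.RealQuad.mg_pos (hV _ hpV'.2).1.1).le hρ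
    obtain ⟨k, hk⟩ : ∃ k : ℕ, (k : ℤ) = e := ⟨e.toNat, by omega⟩
    have hkx : k ≤ ⌊x⌋₊ := by
      apply Nat.le_floor
      rw [hx, le_div_iff₀ hposδ]
      have : (k : ℝ) = (e : ℝ) := by rw [← hk]; simp
      rw [this]
      exact hnorm
    rw [Finset.mem_biUnion]
    refine ⟨k, Finset.mem_Icc.2 ⟨by omega, hkx⟩, ?_⟩
    rw [Finset.mem_filter, hk]
    exact ⟨hpV, he⟩
  have hterm : ∀ k ∈ Finset.Icc 1 ⌊x⌋₊,
      (((V ×ˢ V).filter (fun p => mulv B C p.1 p.2 = (k : ℤ) • δ)).card : ℝ) ≤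
      Kr * (t : ℝ) ^ 3 * x * ((k.divisors.card : ℝ) ^ 6 / k) := by
    intro k hk
    obtain ⟨hk1, hk2⟩ := Finset.mem_Icc.1 hk
    have hkx : (k : ℝ) ≤ x := (Nat.le_floor_iff hx0).1 hk2
    have hkpos : (0 : ℝ) < k := by exact_mod_cast hk1
    have hz : Pos B C ((k : ℤ) • δ) := by
      refine ⟨?_, ?_⟩
      · rw [Pool.Agent.RealQuad.xc_smul]
        exact mul_pos (by exact_mod_cast hk1) hδ0.1
      · rw [Pool.Agent.RealQuad.yc_smul]
        exact mul_pos (by exact_mod_cast hk1) hδ0.2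
    have key : (((V ×ˢ V).filter (fun p => mulv B C p.1 p.2 = (k : ℤ) • δ)).card : ℝ) ≤
        Kr * (t : ℝ) ^ 3 * (k.divisors.card : ℝ) ^ 6 := by
      have h1 := quadr_fiber hD hKr hr (V := V) (fun v hv => (hV v hv).1) hz
      refine h1.trans ?_
      have h2 : (nf B C ((k : ℤ) • δ)).natAbs = k * k * (nf B C δ).natAbs := by
        rw [nf_smul, Int.natAbs_mul, pow_two, Int.natAbs_mul, Int.natAbs_natCast]
      have h3 : ((nf B C ((k : ℤ) • δ)).natAbs.divisors.card : ℝ) ≤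
          (k.divisors.card : ℝ) * k.divisors.card * t := by
        rw [h2, ht]
        calc (((k * k * (nf B C δ).natAbs).divisors.card : ℕ) : ℝ)
            ≤ ((k * k).divisors.card : ℝ) * (nf B C δ).natAbs.divisors.card := tau_mul _ _
          _ ≤ ((k.divisors.card : ℝ) * k.divisors.card) * (nf B C δ).natAbs.divisors.card := by
              gcongr; exact tau_mul _ _
      calc Kr * ((nf B C ((k : ℤ) • δ)).natAbs.divisors.card : ℝ) ^ 3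
          ≤ Kr * ((k.divisors.card : ℝ) * k.divisors.card * t) ^ 3 := by gcongr
        _ = _ := by ring
    have h1x : 1 ≤ x / k := by rw [le_div_iff₀ hkpos]; linarith
    calc _ ≤ Kr * (t : ℝ) ^ 3 * (k.divisors.card : ℝ) ^ 6 := key
      _ = Kr * (t : ℝ) ^ 3 * (k.divisors.card : ℝ) ^ 6 * 1 := by ring
      _ ≤ Kr * (t : ℝ) ^ 3 * (k.divisors.card : ℝ) ^ 6 * (x / k) := by gcongr
      _ = _ := by ring
  rw [← hN]
  have hcard1 := (Finset.card_le_card hcov).trans Finset.card_biUnion_le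
  calc (N.card : ℝ) ≤ ((∑ k ∈ Finset.Icc 1 ⌊x⌋₊,
        ((V ×ˢ V).filter (fun p => mulv B C p.1 p.2 = (k : ℤ) • δ)).card : ℕ) : ℝ) := by
        exact_mod_cast hcard1
    _ = ∑ k ∈ Finset.Icc 1 ⌊x⌋₊,
        (((V ×ˢ V).filter (fun p => mulv B C p.1 p.2 = (k : ℤ) • δ)).card : ℝ) := by
        push_cast; rfl
    _ ≤ ∑ k ∈ Finset.Icc 1 ⌊x⌋₊, Kr * (t : ℝ) ^ 3 * x * ((k.divisors.card : ℝ) ^ 6 / k) :=
        Finset.sum_le_sum hterm
    _ = Kr * (t : ℝ) ^ 3 * x * ∑ k ∈ Finset.Icc 1 ⌊x⌋₊, ((k.divisors.card : ℝ) ^ 6 / k) := by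
        rw [Finset.mul_sum]
    _ ≤ Kr * (t : ℝ) ^ 3 * x * ∑ k ∈ Finset.Icc 1 ⌊ρ ^ 2⌋₊, ((k.divisors.card : ℝ) ^ 6 / k) := by
        apply mul_le_mul_of_nonneg_left _ (by positivity)
        apply Finset.sum_le_sum_of_subset_of_nonneg
        · exact Finset.Icc_subset_Icc_right (Nat.floor_le_floor hxle)
        · intro i _ _; positivity

/-- sum over directions -/
theorem quadr_sum_dir {B C : ℤ} (hD : Disc B C) {Kr : ℝ}
    (hr : ∀ n : ℕ, 1 ≤ n → ∀ P : Finset (ℤ × ℤ),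
      (∀ v ∈ P, Pos B C v ∧ |ang B C v| ≤ 1 / 10 ∧ nf B C v = n) →
      (P.card : ℝ) ≤ Kr * (n.divisors.card : ℝ) ^ 2)
    {D : Finset (ℤ × ℤ)} {y : ℝ}
    (hDD : ∀ v ∈ D, (Pos B C v ∧ |ang B C v| ≤ 1 / 10) ∧ (nf B C v : ℝ) ≤ y) :
    ∑ δ ∈ D, ((nf B C δ).natAbs.divisors.card : ℝ) ^ 6 / nf B C δ ≤
      Kr * ∑ n ∈ Finset.Icc 1 ⌊y⌋₊, (n.divisors.card : ℝ) ^ 8 / n := by
  classical
  have hmaps : ∀ v ∈ D, (nf B C v).natAbs ∈ Finset.Icc 1 ⌊y⌋₊ := by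
    intro v hv
    have hpos := (hDD v hv).1.1.nf_pos hD
    rw [Finset.mem_Icc]
    refine ⟨by omega, Nat.le_floor ?_⟩
    rw [Nat.cast_natAbs, abs_of_pos hpos]
    exact (hDD v hv).2
  rw [← Finset.sum_fiberwise_of_maps_to hmaps, Finset.mul_sum]
  apply Finset.sum_le_sum
  intro n hn
  have hn1 := (Finset.mem_Icc.1 hn).1
  have hnpos : (0 : ℝ) < n := by exact_mod_cast hn1
  have h1 : ∀ v ∈ D.filter (fun v => (nf B C v).natAbs = n),
      ((nf B C v).natAbs.divisors.card : ℝ) ^ 6 / nf B C v = (n.divisors.card : ℝ) ^ 6 / n := by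
    intro v hv
    obtain ⟨hv1, hv2⟩ := Finset.mem_filter.1 hv
    have hpos := (hDD v hv1).1.1.nf_pos hD
    have h3 : (nf B C v : ℝ) = n := by
      have : nf B C v = (n : ℤ) := by omega
      rw [this]; simp
    rw [hv2, h3]
  rw [Finset.sum_congr rfl h1, Finset.sum_const, nsmul_eq_mul]
  have h2 : ((D.filter (fun v => (nf B C v).natAbs = n)).card : ℝ) ≤
      Kr * (n.divisors.card : ℝ) ^ 2 := by
    apply hr n hn1
    intro v hv
    obtain ⟨hv1, hv2⟩ := Finset.mem_filter.1 hv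
    have hpos := (hDD v hv1).1.1.nf_pos hD
    exact ⟨(hDD v hv1).1.1, (hDD v hv1).1.2, by omega⟩
  calc _ ≤ Kr * (n.divisors.card : ℝ) ^ 2 * ((n.divisors.card : ℝ) ^ 6 / n) := by gcongr
    _ = _ := by ring

/-- the combinatorial bound -/
theorem quadr_count {B C : ℤ} (hD : Disc B C) {Kr : ℝ} (hKr : 0 ≤ Kr)
    (hr : ∀ n : ℕ, 1 ≤ n → ∀ P : Finset (ℤ × ℤ),
      (∀ v ∈ P, Pos B C v ∧ |ang B C v| ≤ 1 / 10 ∧ nf B C v = n) →
      (P.card : ℝ) ≤ Kr * (n.divisors.card : ℝ) ^ 2)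
    {V : Finset (ℤ × ℤ)} {ρ : ℝ} (hρ : 0 ≤ ρ)
    (hV : ∀ v ∈ V, Pos B C v ∧ 0 ≤ ang B C v ∧ ang B C v ≤ 1 / 20 ∧ mg B C v ≤ ρ)
    {P : Finset ((ℤ × ℤ) × (ℤ × ℤ) × (ℤ × ℤ) × (ℤ × ℤ))}
    (hP : ∀ p ∈ P, p.1 ∈ V ∧ p.2.1 ∈ V ∧ p.2.2.1 ∈ V ∧ p.2.2.2 ∈ V ∧
      dt (mulv B C p.1 p.2.1) (mulv B C p.2.2.1 p.2.2.2) = 0) :
    (P.card : ℝ) ≤ Kr ^ 3 * ρ ^ 4 *
      (∑ k ∈ Finset.Icc 1 ⌊ρ ^ 2⌋₊, (k.divisors.card : ℝ) ^ 6 / k) ^ 2 *
      ∑ n ∈ Finset.Icc 1 ⌊ρ ^ 4⌋₊, (n.divisors.card : ℝ) ^ 8 / n := by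
  classical
  obtain ⟨L, hL⟩ : ∃ L : ℝ, L = ∑ k ∈ Finset.Icc 1 ⌊ρ ^ 2⌋₊, (k.divisors.card : ℝ) ^ 6 / k :=
    ⟨_, rfl⟩
  have hL0 : 0 ≤ L := by rw [hL]; exact Finset.sum_nonneg (fun i _ => by positivity)
  have hV2 : ∀ v ∈ V, (Pos B C v ∧ |ang B C v| ≤ 1 / 10) ∧ mg B C v ≤ ρ := by
    intro v hv
    obtain ⟨h1, h2, h3, h4⟩ := hV v hv
    refine ⟨⟨h1, ?_⟩, h4⟩
    rw [abs_of_nonneg h2]; linarith
  have hex : ∀ u : ℤ × ℤ, ∃ δ : ℤ × ℤ, u ≠ 0 → (IsCoprime δ.1 δ.2 ∧ ∃ k : ℤ, 0 < k ∧ u = k • δ) := by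
    intro u
    by_cases hu : u = 0
    · exact ⟨0, fun h => absurd hu h⟩
    · obtain ⟨k, v, hk, huv, hv⟩ := exists_primitive hu
      exact ⟨v, fun _ => ⟨hv, k, hk, huv⟩⟩
  choose g hg using hex
  obtain ⟨G, hG⟩ : ∃ G : ((ℤ × ℤ) × (ℤ × ℤ) × (ℤ × ℤ) × (ℤ × ℤ)) → ℤ × ℤ,
    G = fun p => g (mulv B C p.1 p.2.1) := ⟨_, rfl⟩
  have hgp : ∀ p ∈ P, IsCoprime (G p).1 (G p).2 ∧ ∃ k : ℤ, 0 < k ∧ mulv B C p.1 p.2.1 = k • (G p) := by
    intro p hp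
    obtain ⟨h1, h2, h3, h4, h5⟩ := hP p hp
    rw [hG]
    exact hg _ (pos_mulv hD (hV _ h1).1 (hV _ h2).1).ne_zero
  have hmaps : ∀ p ∈ P, G p ∈ P.image G := fun p hp => Finset.mem_image_of_mem _ hp
  have hdir : ∀ δ ∈ P.image G, IsCoprime δ.1 δ.2 ∧ (Pos B C δ ∧ |ang B C δ| ≤ 1 / 10) ∧
      (nf B C δ : ℝ) ≤ ρ ^ 4 := by
    intro δ hδ
    obtain ⟨p, hp, rfl⟩ := Finset.mem_image.1 hδ
    obtain ⟨hc, k, hk, hkk⟩ := hgp p hp
    obtain ⟨h1, h2, h3, h4, h5⟩ := hP p hp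
    have hpm : Pos B C (mulv B C p.1 p.2.1) := pos_mulv hD (hV _ h1).1 (hV _ h2).1
    have hpm' := hpm
    rw [hkk] at hpm'
    obtain ⟨g1, g2, g3⟩ := quadr_smul hpm' hk
    have hang := ang_mulv hD (hV _ h1).1 (hV _ h2).1
    have hmg := mg_mulv hD (hV _ h1).1 (hV _ h2).1
    rw [← hkk] at g2 g3
    refine ⟨hc, ⟨g1, ?_⟩, ?_⟩
    · rw [g2, hang, abs_of_nonneg (add_nonneg (hV _ h1).2.1 (hV _ h2).2.1)]
      linarith [(hV _ h1).2.2.1, (hV _ h2).2.2.1]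
    · have hk1 : (1 : ℝ) ≤ (k : ℝ) := by exact_mod_cast hk
      have hm1 : mg B C (mulv B C p.1 p.2.1) ≤ ρ * ρ := by
        rw [hmg]
        exact mul_le_mul (hV _ h1).2.2.2 (hV _ h2).2.2.2
          (Pool.Agent.RealQuad.mg_pos (hV _ h2).1).le hρ
      have hgpos := Pool.Agent.RealQuad.mg_pos g1
      have hn2 : mg B C (G p) ≤ ρ * ρ := by
        refine le_trans ?_ hm1
        rw [g3]
        exact le_mul_of_one_le_left hgpos.le hk1
      rw [Pool.Agent.RealQuad.nf_eq hD, ← Pool.Agent.RealQuad.mg_sq g1]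
      calc mg B C (G p) ^ 2 ≤ (ρ * ρ) ^ 2 := by gcongr
        _ = ρ ^ 4 := by ring
  have hfib : ∀ δ ∈ P.image G, ((P.filter (fun p => G p = δ)).card : ℝ) ≤
      Kr ^ 2 * ρ ^ 4 * L ^ 2 * (((nf B C δ).natAbs.divisors.card : ℝ) ^ 6 / nf B C δ) := by
    intro δ hδ
    obtain ⟨hc, ⟨h0, _⟩, hn⟩ := hdir δ hδ
    have hpos := h0.nf_pos hD
    obtain ⟨N, hN⟩ : ∃ N : Finset ((ℤ × ℤ) × (ℤ × ℤ)),
      N = (V ×ˢ V).filter (fun p => dt δ (mulv B C p.1 p.2) = 0) := ⟨_, rfl⟩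
    have h1 : (P.filter (fun p => G p = δ)).card ≤ (N ×ˢ N).card := by
      apply Finset.card_le_card_of_injOn (fun p => ((p.1, p.2.1), (p.2.2.1, p.2.2.2)))
      · intro p hp
        simp only [Finset.coe_filter, Set.mem_ofPred_eq] at hp
        obtain ⟨hp, rfl⟩ := hp
        obtain ⟨h1, h2, h3, h4, h5⟩ := hP p hp
        obtain ⟨hc', k, hk, hkk⟩ := hgp p hp
        simp only [Finset.coe_product, Set.mem_prod, Finset.mem_coe, hN, Finset.mem_filter,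
          Finset.mem_product]
        refine ⟨⟨⟨h1, h2⟩, ?_⟩, ⟨⟨h3, h4⟩, ?_⟩⟩
        · rw [hkk]; simp only [dt, Prod.smul_fst, Prod.smul_snd, smul_eq_mul]; ring
        · rw [hkk] at h5
          have : dt (k • G p) (mulv B C p.2.2.1 p.2.2.2) =
              k * dt (G p) (mulv B C p.2.2.1 p.2.2.2) := by
            simp only [dt, Prod.smul_fst, Prod.smul_snd, smul_eq_mul]; ring
          rw [this] at h5
          rcases mul_eq_zero.1 h5 with h | h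
          · omega
          · exact h
      · intro p _ q _ hpq
        simp only [Prod.mk.injEq] at hpq
        obtain ⟨⟨ha, hb⟩, hc, hd⟩ := hpq
        exact Prod.ext ha (Prod.ext hb (Prod.ext hc hd))
    have h2 := quadr_dir hD hKr hr hρ hV2 hc h0
    rw [← hN, ← hL] at h2
    have h3 : ((P.filter (fun p => G p = δ)).card : ℝ) ≤ (N.card : ℝ) * N.card := by
      rw [Finset.card_product] at h1
      exact_mod_cast h1
    have hnsq : (nf B C δ : ℝ) = mg B C δ ^ 2 := by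
      rw [Pool.Agent.RealQuad.nf_eq hD, ← Pool.Agent.RealQuad.mg_sq h0]
    have hnpos : 0 < mg B C δ := Pool.Agent.RealQuad.mg_pos h0
    calc _ ≤ (N.card : ℝ) * N.card := h3
      _ ≤ (Kr * ((nf B C δ).natAbs.divisors.card : ℝ) ^ 3 * (ρ ^ 2 / mg B C δ) * L) *
          (Kr * ((nf B C δ).natAbs.divisors.card : ℝ) ^ 3 * (ρ ^ 2 / mg B C δ) * L) :=
          mul_le_mul h2 h2 (by positivity) (by positivity)
      _ = _ := by
          rw [hnsq]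
          field_simp
  have hcard : (P.card : ℝ) = ∑ δ ∈ P.image G, ((P.filter (fun p => G p = δ)).card : ℝ) := by
    rw [Finset.card_eq_sum_card_fiberwise hmaps]; push_cast; rfl
  rw [hcard, ← hL]
  calc _ ≤ ∑ δ ∈ P.image G,
        Kr ^ 2 * ρ ^ 4 * L ^ 2 * (((nf B C δ).natAbs.divisors.card : ℝ) ^ 6 / nf B C δ) :=
        Finset.sum_le_sum hfib
    _ = Kr ^ 2 * ρ ^ 4 * L ^ 2 *
        ∑ δ ∈ P.image G, (((nf B C δ).natAbs.divisors.card : ℝ) ^ 6 / nf B C δ) := by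
        rw [Finset.mul_sum]
    _ ≤ Kr ^ 2 * ρ ^ 4 * L ^ 2 *
        (Kr * ∑ n ∈ Finset.Icc 1 ⌊ρ ^ 4⌋₊, (n.divisors.card : ℝ) ^ 8 / n) := by
        apply mul_le_mul_of_nonneg_left _ (by positivity)
        exact quadr_sum_dir hD hr (fun v hv => ⟨(hdir v hv).2.1, (hdir v hv).2.2⟩)
    _ = _ := by ring

theorem quadR {B C : ℤ} (hD : Disc B C) : ∃ K : ℝ, 1 ≤ K ∧ ∃ A : ℕ, ∀ S : ℕ, K ≤ S →
    ∀ P : Finset ((ℤ × ℤ) × (ℤ × ℤ) × (ℤ × ℤ) × (ℤ × ℤ)),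
    (∀ p ∈ P, p.1 ∈ boxD B C S ∧ p.2.1 ∈ boxD B C S ∧ p.2.2.1 ∈ boxD B C S ∧
      p.2.2.2 ∈ boxD B C S ∧ ‖(thR B C p.1 + thR B C p.2.1) - (thR B C p.2.2.1 + thR B C p.2.2.2)‖
        ≤ 1 / (K * (S : ℝ) ^ 4)) →
    (P.card : ℝ) ≤ K * (S : ℝ) ^ 4 * Real.log S ^ A := by
  obtain ⟨Kn, hKn1, hKn⟩ := boxR hD
  obtain ⟨Kr, hKr1, hr⟩ := repR hD (1 / 10)
  obtain ⟨Ks, hKs1, hs⟩ := thR_sep hD
  obtain ⟨K6, hK61, A6, h6⟩ := tau_sum 6
  obtain ⟨K8, hK81, A8, h8⟩ := tau_sum 8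
  have hlam := lamR_ge hD
  obtain ⟨K0, hK0⟩ : ∃ K0 : ℝ, K0 = Kr ^ 3 * Kn ^ 4 * (K6 * 4 ^ A6) ^ 2 * (K8 * 8 ^ A8) := ⟨_, rfl⟩
  have hKr0 : 0 ≤ Kr := by linarith
  have hKn0 : 0 < Kn := by linarith
  have hK0pos : 0 ≤ K0 := by rw [hK0]; positivity
  obtain ⟨K, hK⟩ : ∃ K : ℝ, K = 3 + Kn + K0 + Ks * Kn ^ 4 := ⟨_, rfl⟩
  have hdpos : 0 < Ks * Kn ^ 4 := by positivity
  refine ⟨K, by linarith, 2 * A6 + A8, ?_⟩
  intro S hS P hP
  have hS3 : (3 : ℝ) ≤ S := by linarith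
  have hSpos : (0 : ℝ) < S := by linarith
  have hSKn : Kn ≤ S := by linarith
  have hKpos : 0 < K := by linarith
  have hlogS : 0 < Real.log S := Real.log_pos (by linarith)
  -- coincidences are exact
  have hP' : ∀ p ∈ P, p.1 ∈ boxD B C S ∧ p.2.1 ∈ boxD B C S ∧ p.2.2.1 ∈ boxD B C S ∧
      p.2.2.2 ∈ boxD B C S ∧ dt (mulv B C p.1 p.2.1) (mulv B C p.2.2.1 p.2.2.2) = 0 := by
    intro p hp
    obtain ⟨h1, h2, h3, h4, h5⟩ := hP p hp
    refine ⟨h1, h2, h3, h4, ?_⟩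
    obtain ⟨a1, a2, a3, a4, a5⟩ := hKn S _ h1
    obtain ⟨b1, b2, b3, b4, b5⟩ := hKn S _ h2
    obtain ⟨c1, c2, c3, c4, c5⟩ := hKn S _ h3
    obtain ⟨d1, d2, d3, d4, d5⟩ := hKn S _ h4
    have hab := pos_mulv hD a1 b1
    have hcd := pos_mulv hD c1 d1
    have hdiff : |ang B C (mulv B C p.1 p.2.1) - ang B C (mulv B C p.2.2.1 p.2.2.2)| ≤
        lamR B C / 2 := by
      rw [ang_mulv hD a1 b1, ang_mulv hD c1 d1, abs_le]
      constructor <;> linarith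
    have hsep := hs _ _ hab hcd hdiff
    rw [thR_mulv hD a1 b1, thR_mulv hD c1 d1] at hsep
    have h6 := hsep.trans h5
    obtain ⟨z, hz⟩ : ∃ z : ℤ, z = dt (mulv B C p.1 p.2.1) (mulv B C p.2.2.1 p.2.2.2) := ⟨_, rfl⟩
    rw [← hz] at h6 ⊢
    by_contra hne
    have hz1 : (1 : ℝ) ≤ |(z : ℝ)| := by
      have : (1 : ℤ) ≤ |z| := Int.one_le_abs hne
      exact_mod_cast this
    have ha0 := Pool.Agent.RealQuad.mg_pos a1
    have hb0 := Pool.Agent.RealQuad.mg_pos b1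
    have hc0 := Pool.Agent.RealQuad.mg_pos c1
    have hd0 := Pool.Agent.RealQuad.mg_pos d1
    have hnn : mg B C (mulv B C p.1 p.2.1) * mg B C (mulv B C p.2.2.1 p.2.2.2) ≤
        Kn ^ 4 * (S : ℝ) ^ 4 := by
      rw [mg_mulv hD a1 b1, mg_mulv hD c1 d1]
      calc _ ≤ ((Kn * S) * (Kn * S)) * ((Kn * S) * (Kn * S)) := by gcongr
        _ = _ := by ring
    have hn1 := Pool.Agent.RealQuad.mg_pos hab
    have hn2 := Pool.Agent.RealQuad.mg_pos hcd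
    have h7 : 1 / (Ks * (Kn ^ 4 * (S : ℝ) ^ 4)) ≤ 1 / (K * (S : ℝ) ^ 4) := by
      refine le_trans ?_ h6
      calc 1 / (Ks * (Kn ^ 4 * (S : ℝ) ^ 4))
          ≤ 1 / (Ks * (mg B C (mulv B C p.1 p.2.1) * mg B C (mulv B C p.2.2.1 p.2.2.2))) := by
            gcongr
        _ ≤ |(z : ℝ)| / (Ks * (mg B C (mulv B C p.1 p.2.1) *
            mg B C (mulv B C p.2.2.1 p.2.2.2))) := by
            gcongr
    have hS4 : (0 : ℝ) < (S : ℝ) ^ 4 := by positivity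
    rw [div_le_div_iff₀ (by positivity) (by positivity)] at h7
    have h8 : K ≤ Ks * Kn ^ 4 := by
      have : K * (S : ℝ) ^ 4 ≤ (Ks * Kn ^ 4) * (S : ℝ) ^ 4 := by linarith
      exact le_of_mul_le_mul_right this hS4
    linarith
  obtain ⟨ρ, hρ⟩ : ∃ ρ : ℝ, ρ = Kn * S := ⟨_, rfl⟩
  have hρ3 : 3 ≤ ρ := by rw [hρ]; nlinarith
  have hmain := quadr_count hD hKr0 hr (V := boxD B C S) (ρ := ρ) (by linarith)
    (fun v hv => ⟨(hKn S v hv).1, (hKn S v hv).2.1, (hKn S v hv).2.2.1,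
      by rw [hρ]; exact (hKn S v hv).2.2.2.2⟩) hP'
  have hρS : ρ ≤ (S : ℝ) ^ 2 := by rw [hρ]; nlinarith
  have hρpos : 0 < ρ := by linarith
  have hlogρ : Real.log ρ ≤ 2 * Real.log S := by
    have : Real.log ρ ≤ Real.log ((S : ℝ) ^ 2) := Real.log_le_log hρpos hρS
    rw [Real.log_pow] at this
    exact_mod_cast this
  have hlogρ0 : 0 ≤ Real.log ρ := Real.log_nonneg (by linarith)
  have e6 : ∑ k ∈ Finset.Icc 1 ⌊ρ ^ 2⌋₊, (k.divisors.card : ℝ) ^ 6 / k ≤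
      K6 * 4 ^ A6 * Real.log S ^ A6 := by
    have h := h6 (ρ ^ 2) (by nlinarith)
    refine h.trans ?_
    have : Real.log (ρ ^ 2) ≤ 4 * Real.log S := by
      rw [Real.log_pow]; push_cast; linarith
    have h0 : 0 ≤ Real.log (ρ ^ 2) := Real.log_nonneg (by nlinarith)
    calc K6 * Real.log (ρ ^ 2) ^ A6 ≤ K6 * (4 * Real.log S) ^ A6 := by gcongr
      _ = _ := by rw [mul_pow]; ring
  have e8 : ∑ k ∈ Finset.Icc 1 ⌊ρ ^ 4⌋₊, (k.divisors.card : ℝ) ^ 8 / k ≤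
      K8 * 8 ^ A8 * Real.log S ^ A8 := by
    have hρ4 : ρ ≤ ρ ^ 4 := by
      calc ρ = ρ ^ 1 := (pow_one _).symm
        _ ≤ ρ ^ 4 := pow_le_pow_right₀ (by linarith) (by norm_num)
    have h := h8 (ρ ^ 4) (by linarith)
    refine h.trans ?_
    have : Real.log (ρ ^ 4) ≤ 8 * Real.log S := by
      rw [Real.log_pow]; push_cast; linarith
    have h0 : 0 ≤ Real.log (ρ ^ 4) := Real.log_nonneg (by linarith)
    calc K8 * Real.log (ρ ^ 4) ^ A8 ≤ K8 * (8 * Real.log S) ^ A8 := by gcongr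
      _ = _ := by rw [mul_pow]; ring
  have n6 : 0 ≤ ∑ k ∈ Finset.Icc 1 ⌊ρ ^ 2⌋₊, (k.divisors.card : ℝ) ^ 6 / k :=
    Finset.sum_nonneg (fun i _ => by positivity)
  have n8 : 0 ≤ ∑ k ∈ Finset.Icc 1 ⌊ρ ^ 4⌋₊, (k.divisors.card : ℝ) ^ 8 / k :=
    Finset.sum_nonneg (fun i _ => by positivity)
  calc (P.card : ℝ) ≤ _ := hmain
    _ ≤ Kr ^ 3 * ρ ^ 4 * (K6 * 4 ^ A6 * Real.log S ^ A6) ^ 2 *
        (K8 * 8 ^ A8 * Real.log S ^ A8) := by gcongr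
    _ = K0 * (S : ℝ) ^ 4 * Real.log S ^ (2 * A6 + A8) := by
        rw [hK0, hρ, pow_add, pow_mul]; ring
    _ ≤ K * (S : ℝ) ^ 4 * Real.log S ^ (2 * A6 + A8) := by
        have : K0 ≤ K := by linarith
        gcongr

end Pool.Agent.LogPar
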