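import Pool.Agent.LogPar.ThR

set_option autoImplicit false

/-! # Real case: elements with small norm and small angle -/

namespace Pool.Agent.LogPar

open Pool.Agent.FareyParity
open Pool.Agent.RealQuad (Disc Pos ang mg xc yc rt)

variable {B C : ℤ}

theorem smallR (hD : Disc B C) : ∃ K : ℝ, 1 ≤ K ∧ ∀ N : ℕ, K ≤ N → ∃ v : ℤ × ℤ,
    Pos B C v ∧ |(nf B C v : ℝ)| ≤ K * (N : ℝ) ^ 2 ∧
    ∃ t : ℝ, thR B C v = (t : UnitAddCircle) ∧ 1 / (K * N) ≤ t ∧ t ≤ K / N := by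
  set r := rt B C with hr
  have hr0 : 0 < r := Pool.Agent.RealQuad.rt_pos hD
  set l := lamR B C with hl
  have hl0 : 1 / 2 ≤ l := lamR_ge hD
  have hl1 : 0 < l := by linarith
  set b : ℝ := |(B : ℝ)| with hb
  have hb0 : 0 ≤ b := abs_nonneg _
  have hBl := neg_abs_le (B : ℝ)
  have hBu := le_abs_self (B : ℝ)
  have hlr : 0 < 2 * l / r := by positivity
  set K : ℝ := 4 + 6 * r + b + 2 * l / r with hK
  have hK0 : 0 < K := by positivity
  refine ⟨K, by rw [hK]; linarith, fun N hN => ?_⟩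
  have hNb : 4 + 6 * r + b ≤ (N : ℝ) := by
    have : 4 + 6 * r + b ≤ K := by rw [hK]; linarith
    linarith
  have hN0 : (0 : ℝ) < N := by linarith
  have hxc : xc B C ((N : ℤ), 1) = N + B / 2 + r := by
    simp only [xc, hr]; push_cast; ring
  have hyc : yc B C ((N : ℤ), 1) = N + B / 2 - r := by
    simp only [yc, hr]; push_cast; ring
  have hy1 : (N : ℝ) / 2 ≤ yc B C ((N : ℤ), 1) := by rw [hyc]; linarith
  have hy2 : yc B C ((N : ℤ), 1) ≤ 2 * N := by rw [hyc]; linarith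
  have hx1 : (N : ℝ) / 2 ≤ xc B C ((N : ℤ), 1) := by rw [hxc]; linarith
  have hx2 : xc B C ((N : ℤ), 1) ≤ 2 * N := by rw [hxc]; linarith
  have hx0 : 0 < xc B C ((N : ℤ), 1) := by linarith
  have hy0 : 0 < yc B C ((N : ℤ), 1) := by linarith
  have hxy : xc B C ((N : ℤ), 1) - yc B C ((N : ℤ), 1) = 2 * r := by rw [hxc, hyc]; ring
  refine ⟨((N : ℤ), 1), ⟨hx0, hy0⟩, ?_, ang B C ((N : ℤ), 1) / l, rfl, ?_, ?_⟩
  · rw [Pool.Agent.RealQuad.nf_eq hD, abs_of_pos (mul_pos hx0 hy0)]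
    have h1 : xc B C ((N : ℤ), 1) * yc B C ((N : ℤ), 1) ≤ (2 * N) * (2 * N) :=
      mul_le_mul hx2 hy2 hy0.le (by linarith)
    have h2 : (4 : ℝ) * (N : ℝ) ^ 2 ≤ K * (N : ℝ) ^ 2 := by
      apply mul_le_mul_of_nonneg_right _ (sq_nonneg _)
      rw [hK]; linarith
    nlinarith
  · have h1 : 1 - (xc B C ((N : ℤ), 1) / yc B C ((N : ℤ), 1))⁻¹ ≤
        Real.log (xc B C ((N : ℤ), 1) / yc B C ((N : ℤ), 1)) :=
      Real.one_sub_inv_le_log_of_pos (div_pos hx0 hy0)
    have h2 : 1 - (xc B C ((N : ℤ), 1) / yc B C ((N : ℤ), 1))⁻¹ = 2 * r / xc B C ((N : ℤ), 1) := by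
      rw [inv_div, ← hxy]
      field_simp
    have h3 : r / N ≤ 2 * r / xc B C ((N : ℤ), 1) := by
      rw [div_le_div_iff₀ hN0 hx0]
      nlinarith
    have h4 : r / N / 2 ≤ ang B C ((N : ℤ), 1) := by
      unfold ang
      rw [h2] at h1
      linarith
    have h5 : 1 / (K * N) ≤ r / N / 2 / l := by
      rw [div_div, div_div, div_le_div_iff₀ (by positivity) (by positivity)]
      have h6 : 2 * l / r ≤ K := by rw [hK]; linarith
      rw [div_le_iff₀ hr0] at h6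
      nlinarith
    exact h5.trans (div_le_div_of_nonneg_right h4 hl1.le)
  · have h1 : Real.log (xc B C ((N : ℤ), 1) / yc B C ((N : ℤ), 1)) ≤
        xc B C ((N : ℤ), 1) / yc B C ((N : ℤ), 1) - 1 :=
      Real.log_le_sub_one_of_pos (div_pos hx0 hy0)
    have h2 : xc B C ((N : ℤ), 1) / yc B C ((N : ℤ), 1) - 1 = 2 * r / yc B C ((N : ℤ), 1) := by
      rw [← hxy]
      field_simp
    have h3 : 2 * r / yc B C ((N : ℤ), 1) ≤ 4 * r / N := by
      rw [div_le_div_iff₀ hy0 hN0]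
      nlinarith
    have h4 : ang B C ((N : ℤ), 1) ≤ 2 * r / N := by
      unfold ang
      rw [h2] at h1
      have : 4 * r / N = 2 * (2 * r / N) := by ring
      linarith
    have h5 : 0 ≤ 2 * r / (N : ℝ) := by positivity
    calc ang B C ((N : ℤ), 1) / l ≤ 2 * r / N / l := div_le_div_of_nonneg_right h4 hl1.le
      _ ≤ K / N := by
          rw [div_div, div_le_div_iff₀ (by positivity) hN0]
          have h6 : 4 * r ≤ K := by rw [hK]; linarith
          nlinarith [mul_pos hN0 hl1, mul_pos hN0 hr0, mul_pos (mul_pos hN0 hr0) hl1]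

end Pool.Agent.LogPar
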