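import Pool.Agent.LogPar.GeRA
import Pool.Agent.LogPar.QuadR
import Pool.Agent.LogPar.PrimesR
import Pool.Agent.LogPar.ExpoR
import Pool.Agent.LogPar.SmallR
import Pool.Agent.LogPar.SmallD
import Pool.Agent.LogPar.PlusR

set_option autoImplicit false

/-! # Real case: assembly of the kit -/

namespace Pool.Agent.LogPar

open Pool.Agent.FareyParity
open Pool.Agent.RealQuad (Disc Pos ang mg xc yc rt)

/-- the kit for positive nonsquare discriminant -/
noncomputable def kitR {B C : ℤ} (hD : Disc B C) : Kit B C where
  Adm := Pos B C
  th := thR B C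
  box := boxD B C
  box_adm := by
    obtain ⟨K, -, h⟩ := boxR hD
    exact fun S v hv => (h S v hv).1
  adm_ne := fun v hv => (hv.nf_pos hD).ne'
  box_card := boxD_card B C
  ge := geR hD
  expo := expoR hD
  quad := quadR hD
  primes := primesR hD
  small := smallR hD
  plus := plusR hD

end Pool.Agent.LogPar
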