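import Pool.Agent.LogPar.DDefs
import Pool.Agent.RealQuad.Basic
import Pool.Agent.RealQuad.Geom
import Pool.Agent.RealQuad.Count

set_option autoImplicit false

/-! # Real case (positive nonsquare discriminant): definitions -/

namespace Pool.Agent.LogPar

open Pool.Agent.FareyParity
open Pool.Agent.RealQuad (Disc Pos ang mg xc yc rt)

/-- a totally positive unit of norm one with positive angle -/
def IsEta (B C : ℤ) (η : ℤ × ℤ) : Prop := Pos B C η ∧ nf B C η = 1 ∧ 1 / 2 ≤ ang B C η

open Classical in
/-- the chosen unit -/
noncomputable def etaR (B C : ℤ) : ℤ × ℤ := if h : ∃ η, IsEta B C η then h.choose else (1, 0)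

/-- the period of the angle -/
noncomputable def lamR (B C : ℤ) : ℝ := ang B C (etaR B C)

/-- the direction of a totally positive element modulo units -/
noncomputable def thR (B C : ℤ) (v : ℤ × ℤ) : UnitAddCircle :=
  ((ang B C v / lamR B C : ℝ) : UnitAddCircle)

end Pool.Agent.LogPar
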