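import Pool.Agent.LogPar.Four

set_option autoImplicit false

/-! # Spectral inequalities -/

namespace Pool.Agent.LogPar

open MeasureTheory ComplexConjugate

variable {c : UnitAddCircle → ℝ} {E : Set UnitAddCircle} {δ : ℝ}

theorem spec_abs_le (hc : SignFun c E δ) (x : UnitAddCircle) : |c x| ≤ 1 := by
  by_cases hx : x ∈ E
  · rw [hc.zero x hx]; simp
  · rcases hc.one x hx with h | h <;> rw [h] <;> simp

/-- If `c (x + a) = ε c x` for most `x`, then `fourier k a` is close to `ε` for most of the
spectrum of `c`. -/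
theorem spec_one (hc : SignFun c E δ) {a : UnitAddCircle} {ε : ℝ} (hε : ε = 1 ∨ ε = -1)
    (h : ∀ x, x ∉ E → x + a ∉ E → c (x + a) = ε * c x) (s : Finset ℤ) :
    ∑ k ∈ s, ‖fc c k‖ ^ 2 * ‖(fourier k a : ℂ) - ε‖ ^ 2 ≤ 8 * δ := by
  set C : UnitAddCircle → ℂ := fun x => (c x : ℂ) with hC
  have hCm : Measurable C := Complex.measurable_ofReal.comp hc.meas
  have hCm' : Measurable fun x : UnitAddCircle => C (x + a) :=
    hCm.comp (measurable_id.add_const a)
  have hCb : ∀ x, ‖C x‖ ≤ 1 := by
    intro x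
    rw [hC]
    show ‖(c x : ℂ)‖ ≤ 1
    rw [Complex.norm_real]
    exact spec_abs_le hc x
  have hεn : ‖(ε : ℂ)‖ = 1 := by
    rw [Complex.norm_real, Real.norm_eq_abs]
    rcases hε with h1 | h1 <;> rw [h1] <;> simp
  set g : UnitAddCircle → ℂ := fun x => C (x + a) - ε * C x with hg
  have hgm : Measurable g := hCm'.sub (hCm.const_mul _)
  have hgM : ∀ x, ‖g x‖ ≤ 2 := by
    intro x
    calc ‖g x‖ ≤ ‖C (x + a)‖ + ‖(ε : ℂ) * C x‖ := norm_sub_le _ _
      _ ≤ 1 + 1 := by
          refine add_le_add (hCb _) ?_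
          rw [norm_mul, hεn, one_mul]
          exact hCb _
      _ = 2 := by norm_num
  have hco : ∀ k, fourierCoeff g k = ((fourier k a : ℂ) - ε) * fc c k := by
    intro k
    have h1 : Integrable (fun x : UnitAddCircle => (fourier (-k) x : ℂ) • C (x + a)) mu := by
      refine Integrable.of_bound (C := 1) ?_ ?_
      · exact (((fourier (-k)).continuous.measurable).smul hCm').aestronglyMeasurable
      · refine Filter.Eventually.of_forall fun x => ?_
        rw [norm_smul]
        have h1 : ‖(fourier (-k) x : ℂ)‖ = 1 := by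
          rw [fourier_apply]; exact Circle.norm_coe _
        rw [h1, one_mul]
        exact hCb _
    have h2 : Integrable (fun x : UnitAddCircle => (fourier (-k) x : ℂ) • C x) mu := by
      refine Integrable.of_bound (C := 1) ?_ ?_
      · exact (((fourier (-k)).continuous.measurable).smul hCm).aestronglyMeasurable
      · refine Filter.Eventually.of_forall fun x => ?_
        rw [norm_smul]
        have h1 : ‖(fourier (-k) x : ℂ)‖ = 1 := by
          rw [fourier_apply]; exact Circle.norm_coe _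
        rw [h1, one_mul]
        exact hCb _
    have e1 : fourierCoeff g k = fourierCoeff (fun x => C (x + a)) k - ε * fourierCoeff C k := by
      unfold fourierCoeff
      rw [← integral_const_mul, ← integral_sub h1 (h2.const_mul _)]
      congr 1
      funext x
      simp only [hg, smul_eq_mul]
      ring
    rw [e1, fourierCoeff_translate]
    unfold fc
    ring
  -- the support
  set E' : Set UnitAddCircle := (fun x => x + a) ⁻¹' E with hE'
  have hE'm : MeasurableSet E' := (measurable_id.add_const a) hc.measE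
  have hvol' : mu.real E' = mu.real E := by
    unfold Measure.real
    rw [hE', measure_preimage_add_right]
  have hgz : ∀ x, x ∉ E ∪ E' → g x = 0 := by
    intro x hx
    rw [Set.mem_union, not_or] at hx
    show (c (x + a) : ℂ) - ε * (c x : ℂ) = 0
    rw [h x hx.1 hx.2]
    push_cast
    ring
  have hint : ∫ x, ‖g x‖ ^ 2 ∂mu ≤ 8 * δ := by
    have hle : ∀ x, ‖g x‖ ^ 2 ≤ (E ∪ E').indicator (fun _ => (4 : ℝ)) x := by
      intro x
      by_cases hx : x ∈ E ∪ E'
      · rw [Set.indicator_of_mem hx]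
        have := hgM x
        have h0 := norm_nonneg (g x)
        nlinarith
      · rw [Set.indicator_of_notMem hx, hgz x hx]
        simp
    have hmeas : MeasurableSet (E ∪ E') := hc.measE.union hE'm
    calc ∫ x, ‖g x‖ ^ 2 ∂mu ≤ ∫ x, (E ∪ E').indicator (fun _ => (4 : ℝ)) x ∂mu := by
          refine integral_mono_of_nonneg (Filter.Eventually.of_forall fun x => sq_nonneg _) ?_
            (Filter.Eventually.of_forall hle)
          exact (integrable_const (4 : ℝ)).indicator hmeas
      _ = 4 * mu.real (E ∪ E') := by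
          rw [integral_indicator hmeas, integral_const, smul_eq_mul, mul_comm]
          simp [Measure.real]
      _ ≤ 4 * (mu.real E + mu.real E') := by
          refine mul_le_mul_of_nonneg_left (measureReal_union_le _ _) (by norm_num)
      _ ≤ 8 * δ := by
          rw [hvol']
          have := hc.vol
          linarith
  have hb := bessel hgm hgM s
  refine le_trans (le_of_eq ?_) (hb.trans hint)
  refine Finset.sum_congr rfl fun k _ => ?_
  rw [hco, norm_mul, mul_pow]
  ring

theorem spec_norm_sq (k : ℤ) (t : ℝ) :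
    ‖(fourier k (t : UnitAddCircle) : ℂ) - ((1 : ℝ) : ℂ)‖ ^ 2 =
      2 - 2 * Real.cos (2 * Real.pi * k * t) := by
  have e1 : (fourier k (t : UnitAddCircle) : ℂ) =
      Complex.exp (((2 * Real.pi * k * t : ℝ) : ℂ) * Complex.I) := by
    rw [fourier_coe_apply]
    congr 1
    push_cast
    ring
  rw [e1, Complex.exp_mul_I, ← Complex.ofReal_cos, ← Complex.ofReal_sin]
  have h0 := Real.sin_sq_add_cos_sq (2 * Real.pi * k * t)
  generalize Real.cos (2 * Real.pi * k * t) = A at h0 ⊢
  generalize Real.sin (2 * Real.pi * k * t) = B at h0 ⊢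
  have e2 : ((A : ℂ) + (B : ℂ) * Complex.I - ((1 : ℝ) : ℂ)) = ⟨A - 1, B⟩ := by
    apply Complex.ext <;> simp
  rw [e2, ← Complex.normSq_eq_norm_sq, Complex.normSq_mk]
  nlinarith

theorem spec_integral {k : ℤ} {T : ℝ} (hT : 0 < T) (hk : 1 ≤ |(k : ℝ)| * T) :
    T ≤ ∫ t in (0 : ℝ)..T, (2 - 2 * Real.cos (2 * Real.pi * k * t)) := by
  have hk0 : (k : ℝ) ≠ 0 := by
    intro h0
    rw [h0] at hk
    simp at hk
    linarith
  have hpi := Real.pi_gt_three
  have hc0 : 2 * Real.pi * (k : ℝ) ≠ 0 := by positivity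
  have hd : ∀ t ∈ Set.uIcc (0 : ℝ) T, HasDerivAt
      (fun t => 2 * t - 2 * (Real.sin (2 * Real.pi * k * t) / (2 * Real.pi * k)))
      (2 - 2 * Real.cos (2 * Real.pi * k * t)) t := by
    intro t _
    have h1 : HasDerivAt (fun t : ℝ => 2 * Real.pi * (k : ℝ) * t) (2 * Real.pi * k) t := by
      simpa using (hasDerivAt_id t).const_mul (2 * Real.pi * (k : ℝ))
    have h2 := (h1.sin.div_const (2 * Real.pi * k)).const_mul 2
    have h3 : HasDerivAt (fun t : ℝ => 2 * t) 2 t := by
      simpa using (hasDerivAt_id t).const_mul (2 : ℝ)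
    have h4 := h3.sub h2
    rw [mul_div_cancel_right₀ _ hc0] at h4
    exact h4
  rw [intervalIntegral.integral_eq_sub_of_hasDerivAt hd]
  · simp only [mul_zero, Real.sin_zero, zero_div, sub_zero]
    have h1 : Real.sin (2 * Real.pi * k * T) / (2 * Real.pi * k) ≤ T / 6 := by
      have ha : |Real.sin (2 * Real.pi * k * T) / (2 * Real.pi * k)| ≤ T / 6 := by
        rw [abs_div, abs_mul, abs_mul, abs_of_pos Real.pi_pos, abs_two]
        have hkpos : 0 < |(k : ℝ)| := abs_pos.2 hk0
        rw [div_le_iff₀ (by positivity)]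
        calc |Real.sin (2 * Real.pi * k * T)| ≤ 1 := Real.abs_sin_le_one _
          _ ≤ |(k : ℝ)| * T := hk
          _ ≤ T / 6 * (2 * Real.pi * |(k : ℝ)|) := by
              nlinarith [mul_pos hkpos hT]
      exact (le_abs_self _).trans ha
    linarith
  · apply Continuous.intervalIntegrable
    fun_prop

/-- If `c (x + t) = c x` for most `x`, for all small `t`, then the spectrum of `c` is
concentrated on low frequencies. -/
theorem spec_tail (hc : SignFun c E δ) {T : ℝ} (hT : 0 < T)
    (h : ∀ t : ℝ, |t| ≤ T → ∀ x, x ∉ E → x + (t : UnitAddCircle) ∉ E →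
      c (x + (t : UnitAddCircle)) = c x) (s : Finset ℤ) (hs : ∀ k ∈ s, 1 ≤ |(k : ℝ)| * T) :
    ∑ k ∈ s, ‖fc c k‖ ^ 2 ≤ 8 * δ := by
  have h1 : ∀ t ∈ Set.Icc (0 : ℝ) T,
      ∑ k ∈ s, ‖fc c k‖ ^ 2 * (2 - 2 * Real.cos (2 * Real.pi * k * t)) ≤ 8 * δ := by
    intro t ht
    have h2 := spec_one hc (a := (t : UnitAddCircle)) (ε := 1) (Or.inl rfl) (by
      intro x hx hxt
      rw [one_mul]
      exact h t (by rw [abs_of_nonneg ht.1]; exact ht.2) x hx hxt) s
    simpa only [spec_norm_sq] using h2
  have h2 : ∫ t in (0 : ℝ)..T, ∑ k ∈ s, ‖fc c k‖ ^ 2 * (2 - 2 * Real.cos (2 * Real.pi * k * t)) ≤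
      ∫ _t in (0 : ℝ)..T, 8 * δ := by
    apply intervalIntegral.integral_mono_on hT.le
    · apply Continuous.intervalIntegrable
      fun_prop
    · exact intervalIntegrable_const
    · exact h1
  rw [intervalIntegral.integral_const, intervalIntegral.integral_finsetSum] at h2
  · have h3 : ∑ k ∈ s, ‖fc c k‖ ^ 2 * T ≤ ∑ k ∈ s, ∫ t in (0 : ℝ)..T,
        ‖fc c k‖ ^ 2 * (2 - 2 * Real.cos (2 * Real.pi * k * t)) := by
      refine Finset.sum_le_sum fun k hk => ?_
      rw [intervalIntegral.integral_const_mul]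
      exact mul_le_mul_of_nonneg_left (spec_integral hT (hs k hk)) (sq_nonneg _)
    rw [← Finset.sum_mul] at h3
    have h4 := h3.trans h2
    rw [smul_eq_mul, sub_zero] at h4
    nlinarith
  · intro k _
    apply Continuous.intervalIntegrable
    fun_prop

end Pool.Agent.LogPar
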