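import Pool.Agent.LogPar.DDefs

set_option autoImplicit false

/-! # Definite case: directions -/

namespace Pool.Agent.LogPar

open Pool.Agent.FareyParity ComplexConjugate

variable {B C : ℤ}

theorem fourier_thD (hD : B ^ 2 < 4 * C) {v : ℤ × ℤ} (hv : v ≠ 0) (k : ℤ) :
    (fourier k (thD B C v) : ℂ) = Complex.exp (k * Complex.arg (cv B C v) * Complex.I) := by
  have _ := cv_ne_zero hD hv
  unfold thD
  rw [fourier_coe_apply]
  congr 1
  have h : (Real.pi : ℂ) ≠ 0 := by exact_mod_cast Real.pi_ne_zero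
  push_cast
  field_simp

theorem fourier_one_thD (hD : B ^ 2 < 4 * C) {v : ℤ × ℤ} (hv : v ≠ 0) :
    (fourier 1 (thD B C v) : ℂ) * ‖cv B C v‖ = cv B C v := by
  rw [fourier_thD hD hv, mul_comm]
  have h := Complex.norm_mul_exp_arg_mul_I (cv B C v)
  push_cast
  rw [one_mul]
  exact h

theorem coe_int_unit (k : ℤ) : ((k : ℝ) : UnitAddCircle) = 0 := by
  rw [AddCircle.coe_eq_zero_iff]
  exact ⟨k, by simp⟩

theorem thD_mulv (hD : B ^ 2 < 4 * C) {v w : ℤ × ℤ} (hv : v ≠ 0) (hw : w ≠ 0) :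
    thD B C (mulv B C v w) = thD B C v + thD B C w := by
  have hv' := cv_ne_zero hD hv
  have hw' := cv_ne_zero hD hw
  have h1 := Complex.arg_mul_coe_angle hv' hw'
  rw [← Real.Angle.coe_add, Real.Angle.angle_eq_iff_two_pi_dvd_sub] at h1
  obtain ⟨k, hk⟩ := h1
  have h2 : Complex.arg (cv B C (mulv B C v w)) / (2 * Real.pi) =
      Complex.arg (cv B C v) / (2 * Real.pi) + Complex.arg (cv B C w) / (2 * Real.pi) + (k : ℝ) := by
    rw [cv_mulv hD]
    have hpi := Real.pi_ne_zero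
    field_simp
    linarith
  unfold thD
  rw [h2, AddCircle.coe_add, AddCircle.coe_add, coe_int_unit, add_zero]

theorem mulv_ne_zero (hD : B ^ 2 < 4 * C) {v w : ℤ × ℤ} (hv : v ≠ 0) (hw : w ≠ 0) :
    mulv B C v w ≠ 0 := by
  intro h
  have h1 := cv_mulv hD v w
  rw [h] at h1
  have h2 : cv B C (0 : ℤ × ℤ) = 0 := by
    apply Complex.ext <;> simp
  rw [h2] at h1
  exact mul_ne_zero (cv_ne_zero hD hv) (cv_ne_zero hD hw) h1.symm

/-- nonparallel vectors have well separated directions -/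
theorem thD_sep (hD : B ^ 2 < 4 * C) {v w : ℤ × ℤ} (hv : v ≠ 0) (hw : w ≠ 0) :
    bt B C * |(dt v w : ℝ)| / (2 * Real.pi * (‖cv B C v‖ * ‖cv B C w‖)) ≤
      ‖thD B C v - thD B C w‖ := by
  have hv' : 0 < ‖cv B C v‖ := lt_of_lt_of_le one_pos (one_le_norm_cv hD hv)
  have hw' : 0 < ‖cv B C w‖ := lt_of_lt_of_le one_pos (one_le_norm_cv hD hw)
  set a := Complex.arg (cv B C v) with ha
  set b := Complex.arg (cv B C w) with hb
  set ψ : ℝ := a / (2 * Real.pi) - b / (2 * Real.pi) with hψ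
  have hpi := Real.pi_pos
  -- the norm on the circle
  have h1 : ‖thD B C v - thD B C w‖ = |ψ - round ψ| := by
    unfold thD
    rw [← AddCircle.coe_sub, UnitAddCircle.norm_eq]
  -- the imaginary part
  have h2 : bt B C * (dt v w : ℝ) = ‖cv B C v‖ * ‖cv B C w‖ * Real.sin (b - a) := by
    have h3 := congrArg Complex.im (conj_cv_mul hD v w)
    rw [cv_im] at h3
    have h4 : (conj (cv B C v) * cv B C w).im =
        (cv B C v).re * (cv B C w).im - (cv B C v).im * (cv B C w).re := by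
      rw [Complex.mul_im, Complex.conj_re, Complex.conj_im]; ring
    have e1 : (cv B C v).re = ‖cv B C v‖ * Real.cos a := by rw [ha, Complex.norm_mul_cos_arg]
    have e2 : (cv B C v).im = ‖cv B C v‖ * Real.sin a := by rw [ha, Complex.norm_mul_sin_arg]
    have e3 : (cv B C w).re = ‖cv B C w‖ * Real.cos b := by rw [hb, Complex.norm_mul_cos_arg]
    have e4 : (cv B C w).im = ‖cv B C w‖ * Real.sin b := by rw [hb, Complex.norm_mul_sin_arg]
    rw [← h3, h4, e1, e2, e3, e4, Real.sin_sub]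
    ring
  have h5 : |Real.sin (b - a)| ≤ 2 * Real.pi * |ψ - round ψ| := by
    have h6 : b - a = -(2 * Real.pi * (ψ - round ψ)) - (round ψ : ℤ) * (2 * Real.pi) := by
      rw [hψ]
      field_simp
      ring
    rw [h6, Real.sin_sub_int_mul_two_pi, Real.sin_neg, abs_neg]
    have h7 := Real.abs_sin_le_abs (x := 2 * Real.pi * (ψ - round ψ))
    rw [abs_mul, abs_of_pos (by positivity : (0:ℝ) < 2 * Real.pi)] at h7
    exact h7
  rw [h1, div_le_iff₀ (by positivity)]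
  have h8 : bt B C * |(dt v w : ℝ)| = ‖cv B C v‖ * ‖cv B C w‖ * |Real.sin (b - a)| := by
    have h9 := congrArg abs h2
    rw [abs_mul, abs_mul, abs_mul, abs_of_pos (bt_pos hD), abs_of_pos hv', abs_of_pos hw'] at h9
    exact h9
  rw [h8]
  calc ‖cv B C v‖ * ‖cv B C w‖ * |Real.sin (b - a)| ≤
      ‖cv B C v‖ * ‖cv B C w‖ * (2 * Real.pi * |ψ - round ψ|) :=
        mul_le_mul_of_nonneg_left h5 (by positivity)
    _ = |ψ - round ψ| * (2 * Real.pi * (‖cv B C v‖ * ‖cv B C w‖)) := by ring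

/-- size of the vectors of the box -/
theorem boxD_norm (hD : B ^ 2 < 4 * C) : ∃ K : ℝ, 1 ≤ K ∧ ∀ S : ℕ, ∀ v ∈ boxD B C S,
    v ≠ 0 ∧ (S : ℝ) ≤ ‖cv B C v‖ ∧ ‖cv B C v‖ ≤ K * S := by
  have hbt := bt_pos hD
  have hB0 : (0:ℝ) ≤ |(B : ℝ)| := abs_nonneg _
  have hq0 : (0:ℝ) ≤ (qD B C : ℝ) := Nat.cast_nonneg _
  refine ⟨1 + 2 * qD B C + |(B : ℝ)| + 2 * bt B C, by linarith, ?_⟩
  intro S v hv
  unfold boxD at hv
  rw [Finset.mem_product, Finset.mem_Ico, Finset.mem_Ico] at hv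
  obtain ⟨⟨h1, h2⟩, ⟨h3, h4⟩⟩ := hv
  have hS : 1 ≤ S := by
    rcases Nat.eq_zero_or_pos S with h0 | h0
    · subst h0; simp at h3 h4; omega
    · exact h0
  have hSr : (1:ℝ) ≤ S := by exact_mod_cast hS
  have h1' : (qD B C : ℝ) * S ≤ v.1 := by exact_mod_cast h1
  have h2' : (v.1 : ℝ) ≤ 2 * qD B C * S := by exact_mod_cast h2.le
  have h3' : (S : ℝ) ≤ v.2 := by exact_mod_cast h3
  have h4' : (v.2 : ℝ) ≤ 2 * S := by exact_mod_cast h4.le
  have hq : |(B : ℝ)| + 1 ≤ (qD B C : ℝ) := by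
    have h5 : B.natAbs + 1 ≤ qD B C := by unfold qD; omega
    have h6 : ((B.natAbs + 1 : ℕ) : ℝ) ≤ (qD B C : ℝ) := by exact_mod_cast h5
    rw [Nat.cast_add, Nat.cast_one, Nat.cast_natAbs, Int.cast_abs] at h6
    exact h6
  have hBv : |(B : ℝ) / 2 * v.2| ≤ |(B : ℝ)| * S := by
    rw [abs_mul, abs_div, abs_of_nonneg (by linarith : (0:ℝ) ≤ v.2), abs_two]
    nlinarith
  have hBv' := abs_le.mp hBv
  have hre1 : (S : ℝ) ≤ (cv B C v).re := by
    rw [cv_re]
    have : (|(B : ℝ)| + 1) * S ≤ (qD B C : ℝ) * S := mul_le_mul_of_nonneg_right hq (by linarith)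
    nlinarith [hBv'.1]
  have hre2 : (cv B C v).re ≤ (2 * qD B C + |(B : ℝ)|) * S := by
    rw [cv_re]
    nlinarith [hBv'.2]
  have him : |(cv B C v).im| ≤ 2 * bt B C * S := by
    rw [cv_im, abs_mul, abs_of_pos hbt, abs_of_nonneg (by linarith : (0:ℝ) ≤ v.2)]
    nlinarith
  refine ⟨?_, ?_, ?_⟩
  · intro h0
    rw [h0] at h3
    simp at h3
    omega
  · refine hre1.trans ?_
    exact (le_abs_self _).trans (Complex.abs_re_le_norm _)
  · refine (Complex.norm_le_abs_re_add_abs_im _).trans ?_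
    rw [abs_of_nonneg (by linarith : 0 ≤ (cv B C v).re)]
    nlinarith

end Pool.Agent.LogPar
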