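import Pool.Agent.LogPar.RDefs

set_option autoImplicit false

/-! # Real case: directions -/

namespace Pool.Agent.LogPar

open Pool.Agent.FareyParity
open Pool.Agent.RealQuad (Disc Pos ang mg xc yc rt)

variable {B C : ℤ}

/-- Pell -/
theorem exists_eta (hD : Disc B C) : ∃ η, IsEta B C η := by
  obtain ⟨s, hs1, hs2⟩ := Pell.Solution₁.exists_pos_of_not_isSquare hD.pos hD.nsq
  have hprop := s.prop
  obtain ⟨a, ha⟩ : ∃ a, a = s.x := ⟨_, rfl⟩
  obtain ⟨b, hb⟩ : ∃ b, b = s.y := ⟨_, rfl⟩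
  rw [← ha] at hs1 hprop
  rw [← hb] at hs2 hprop
  have hrt := Pool.Agent.RealQuad.rt_pos hD
  have hnf : nf B C (a - b * B, 2 * b) = 1 := by
    simp only [nf]; linear_combination hprop
  have hx : xc B C (a - b * B, 2 * b) = a + 2 * rt B C * b := by
    simp only [xc]; push_cast; ring
  have hy : yc B C (a - b * B, 2 * b) = a - 2 * rt B C * b := by
    simp only [yc]; push_cast; ring
  have hxy := Pool.Agent.RealQuad.nf_eq hD (a - b * B, 2 * b)
  rw [hnf] at hxy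
  have ha2 : (2 : ℝ) ≤ a := by exact_mod_cast hs1
  have hb1 : (1 : ℝ) ≤ b := by exact_mod_cast hs2
  have hx2 : 2 ≤ xc B C (a - b * B, 2 * b) := by
    rw [hx]; nlinarith
  have hxpos : 0 < xc B C (a - b * B, 2 * b) := by linarith
  have hxy1 : xc B C (a - b * B, 2 * b) * yc B C (a - b * B, 2 * b) = 1 := by
    rw [← hxy]; norm_num
  have hypos : 0 < yc B C (a - b * B, 2 * b) := by
    by_contra h
    have := mul_nonneg hxpos.le (neg_nonneg.2 (not_lt.1 h))
    linarith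
  refine ⟨(a - b * B, 2 * b), ⟨hxpos, hypos⟩, hnf, ?_⟩
  have h4 : 4 ≤ xc B C (a - b * B, 2 * b) / yc B C (a - b * B, 2 * b) := by
    rw [le_div_iff₀ hypos]
    nlinarith
  have hlog : Real.log 4 ≤ Real.log (xc B C (a - b * B, 2 * b) / yc B C (a - b * B, 2 * b)) :=
    Real.log_le_log (by norm_num) h4
  have hl4 : Real.log 4 = 2 * Real.log 2 := by
    rw [show (4 : ℝ) = 2 ^ 2 by norm_num, Real.log_pow]; norm_num
  have hl2 := Real.log_two_gt_d9
  simp only [ang]
  linarith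

theorem etaR_spec (hD : Disc B C) : IsEta B C (etaR B C) := by
  have h := exists_eta hD
  rw [etaR, dif_pos h]
  exact h.choose_spec

theorem lamR_ge (hD : Disc B C) : 1 / 2 ≤ lamR B C := (etaR_spec hD).2.2

theorem pos_mulv (hD : Disc B C) {v w : ℤ × ℤ} (hv : Pos B C v) (hw : Pos B C w) :
    Pos B C (mulv B C v w) := by
  refine ⟨?_, ?_⟩
  · rw [Pool.Agent.RealQuad.xc_mulv hD]; exact mul_pos hv.1 hw.1
  · rw [Pool.Agent.RealQuad.yc_mulv hD]; exact mul_pos hv.2 hw.2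

theorem ThR_xc (hD : Disc B C) {v w : ℤ × ℤ} (hv : Pos B C v) (hw : Pos B C w) :
    xc B C (mulv B C v w) = mg B C v * mg B C w * Real.exp (ang B C v + ang B C w) := by
  rw [Pool.Agent.RealQuad.xc_mulv hD, Pool.Agent.RealQuad.xc_eq hv, Pool.Agent.RealQuad.xc_eq hw,
    Real.exp_add]; ring

theorem ThR_yc (hD : Disc B C) {v w : ℤ × ℤ} (hv : Pos B C v) (hw : Pos B C w) :
    yc B C (mulv B C v w) = mg B C v * mg B C w * Real.exp (-(ang B C v + ang B C w)) := by
  rw [Pool.Agent.RealQuad.yc_mulv hD, Pool.Agent.RealQuad.yc_eq hv, Pool.Agent.RealQuad.yc_eq hw,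
    neg_add, Real.exp_add]; ring

theorem ang_mulv (hD : Disc B C) {v w : ℤ × ℤ} (hv : Pos B C v) (hw : Pos B C w) :
    ang B C (mulv B C v w) = ang B C v + ang B C w :=
  Pool.Agent.RealQuad.ang_eq (mul_pos (Pool.Agent.RealQuad.mg_pos hv)
    (Pool.Agent.RealQuad.mg_pos hw)) (ThR_xc hD hv hw) (ThR_yc hD hv hw)

theorem mg_mulv (hD : Disc B C) {v w : ℤ × ℤ} (hv : Pos B C v) (hw : Pos B C w) :
    mg B C (mulv B C v w) = mg B C v * mg B C w :=
  Pool.Agent.RealQuad.mg_eq (mul_pos (Pool.Agent.RealQuad.mg_pos hv)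
    (Pool.Agent.RealQuad.mg_pos hw)) (ThR_xc hD hv hw) (ThR_yc hD hv hw)

theorem thR_mulv (hD : Disc B C) {v w : ℤ × ℤ} (hv : Pos B C v) (hw : Pos B C w) :
    thR B C (mulv B C v w) = thR B C v + thR B C w := by
  rw [thR, thR, thR, ang_mulv hD hv hw, add_div, AddCircle.coe_add]

theorem fourier_thR (v : ℤ × ℤ) (k : ℤ) :
    (fourier k (thR B C v) : ℂ) =
      Complex.exp ((2 * Real.pi * k * ang B C v / lamR B C : ℝ) * Complex.I) := by
  rw [thR, fourier_coe_apply]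
  congr 1
  push_cast
  ring

/-- the hyperbolic sine formula -/
theorem dt_sinh (hD : Disc B C) {v w : ℤ × ℤ} (hv : Pos B C v) (hw : Pos B C w) :
    rt B C * |(dt v w : ℝ)| = mg B C v * mg B C w * |Real.sinh (ang B C v - ang B C w)| := by
  have hrt := Pool.Agent.RealQuad.rt_pos hD
  have hm := mul_pos (Pool.Agent.RealQuad.mg_pos hv) (Pool.Agent.RealQuad.mg_pos hw)
  have h1 : xc B C v * yc B C w - yc B C v * xc B C w = -(2 * (rt B C * (dt v w : ℝ))) := by
    simp only [xc, yc, dt]; push_cast; ring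
  have h2 : xc B C v * yc B C w - yc B C v * xc B C w
      = 2 * (mg B C v * mg B C w * Real.sinh (ang B C v - ang B C w)) := by
    rw [Pool.Agent.RealQuad.xc_eq hv, Pool.Agent.RealQuad.xc_eq hw, Pool.Agent.RealQuad.yc_eq hv,
      Pool.Agent.RealQuad.yc_eq hw, Real.sinh_eq]
    rw [show ang B C v - ang B C w = ang B C v + -ang B C w by ring,
      show -(ang B C v + -ang B C w) = -ang B C v + ang B C w by ring, Real.exp_add, Real.exp_add]
    ring
  have h3 : rt B C * (dt v w : ℝ) = -(mg B C v * mg B C w * Real.sinh (ang B C v - ang B C w)) := by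
    linarith
  calc rt B C * |(dt v w : ℝ)| = |rt B C * (dt v w : ℝ)| := by rw [abs_mul, abs_of_pos hrt]
    _ = mg B C v * mg B C w * |Real.sinh (ang B C v - ang B C w)| := by
        rw [h3, abs_neg, abs_mul, abs_of_pos hm]

theorem ThR_sinh_le (x : ℝ) : Real.sinh x ≤ x * Real.exp x := by
  have h1 := Real.add_one_le_exp (-2 * x)
  have h2 : Real.exp (-2 * x) * Real.exp x = Real.exp (-x) := by
    rw [← Real.exp_add]; congr 1; ring
  rw [Real.sinh_eq]
  have h3 := mul_le_mul_of_nonneg_right h1 (Real.exp_pos x).le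
  rw [h2] at h3
  linarith

theorem ThR_abs_sinh_le (x : ℝ) : |Real.sinh x| ≤ |x| * Real.exp |x| := by
  rw [Real.abs_sinh]
  exact ThR_sinh_le |x|

/-- nonparallel vectors of comparable angle have well separated directions -/
theorem thR_sep (hD : Disc B C) : ∃ K : ℝ, 1 ≤ K ∧ ∀ v w : ℤ × ℤ, Pos B C v → Pos B C w →
    |ang B C v - ang B C w| ≤ lamR B C / 2 →
    |(dt v w : ℝ)| / (K * (mg B C v * mg B C w)) ≤ ‖thR B C v - thR B C w‖ := by
  have hrt := Pool.Agent.RealQuad.rt_pos hD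
  have hl : 0 < lamR B C := by have := lamR_ge hD; linarith
  obtain ⟨L, hL⟩ : ∃ L, L = lamR B C := ⟨_, rfl⟩
  rw [← hL] at hl ⊢
  refine ⟨max 1 (L * Real.exp (L / 2) / rt B C), le_max_left _ _, fun v w hv hw h => ?_⟩
  have hm := mul_pos (Pool.Agent.RealQuad.mg_pos hv) (Pool.Agent.RealQuad.mg_pos hw)
  have hK : 0 < max 1 (L * Real.exp (L / 2) / rt B C) := lt_max_of_lt_left one_pos
  have hn : ‖thR B C v - thR B C w‖ = |ang B C v - ang B C w| / L := by
    rw [thR, thR, ← hL, ← AddCircle.coe_sub, ← sub_div]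
    have hle : |(ang B C v - ang B C w) / L| ≤ |(1 : ℝ)| / 2 := by
      rw [abs_div, abs_of_pos hl, abs_one, div_le_iff₀ hl]
      linarith
    rw [(AddCircle.norm_coe_eq_abs_iff (1 : ℝ) one_ne_zero).2 hle, abs_div, abs_of_pos hl]
  rw [hn, div_le_iff₀ (by positivity)]
  have h1 := dt_sinh hD hv hw
  have h2 := ThR_abs_sinh_le (ang B C v - ang B C w)
  have h3 : |Real.sinh (ang B C v - ang B C w)|
      ≤ |ang B C v - ang B C w| * Real.exp (L / 2) :=
    h2.trans (mul_le_mul_of_nonneg_left (Real.exp_le_exp.2 h) (abs_nonneg _))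
  have h4 : |(dt v w : ℝ)| ≤ mg B C v * mg B C w *
      (|ang B C v - ang B C w| * Real.exp (L / 2)) / rt B C := by
    rw [le_div_iff₀ hrt, mul_comm, h1]
    exact mul_le_mul_of_nonneg_left h3 hm.le
  refine h4.trans ?_
  have h5 : mg B C v * mg B C w * (|ang B C v - ang B C w| * Real.exp (L / 2)) / rt B C
      = |ang B C v - ang B C w| / L * (L * Real.exp (L / 2) / rt B C * (mg B C v * mg B C w)) := by
    field_simp
  rw [h5]
  apply mul_le_mul_of_nonneg_left _ (by positivity)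
  exact mul_le_mul_of_nonneg_right (le_max_right _ _) hm.le

theorem ThR_rt_le : rt B C ≤ |(B : ℝ)| + |(C : ℝ)| + 1 := by
  rw [rt]
  have hB := abs_nonneg (B : ℝ)
  have hC := abs_nonneg (C : ℝ)
  have h1 : √((B : ℝ) ^ 2 - 4 * C) ≤ 2 * (|(B : ℝ)| + |(C : ℝ)| + 1) := by
    apply Real.sqrt_le_iff.2
    refine ⟨by positivity, ?_⟩
    have h2 : (B : ℝ) ^ 2 = |(B : ℝ)| ^ 2 := (sq_abs _).symm
    have h3 : -(C : ℝ) ≤ |(C : ℝ)| := neg_le_abs _
    rw [h2]
    nlinarith
  linarith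

/-- size and angle of the vectors of the box -/
theorem boxR (hD : Disc B C) : ∃ K : ℝ, 1 ≤ K ∧ ∀ S : ℕ, ∀ v ∈ boxD B C S,
    Pos B C v ∧ 0 ≤ ang B C v ∧ ang B C v ≤ 1 / 20 ∧ (S : ℝ) ≤ K * mg B C v ∧
      mg B C v ≤ K * S := by
  obtain ⟨u, hu⟩ : ∃ u : ℝ, u = |(B : ℝ)| + |(C : ℝ)| + 1 := ⟨_, rfl⟩
  have hu1 : 1 ≤ u := by rw [hu]; linarith [abs_nonneg (B : ℝ), abs_nonneg (C : ℝ)]
  have hBu : |(B : ℝ)| ≤ u := by rw [hu]; linarith [abs_nonneg (C : ℝ)]
  have hq : (qD B C : ℝ) = 100 * u := by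
    simp only [qD]; push_cast
    rw [hu, Nat.cast_natAbs, Nat.cast_natAbs, Int.cast_abs, Int.cast_abs]
  refine ⟨203 * u, by linarith, ?_⟩
  rintro S ⟨x, y⟩ hv
  simp only [boxD, Finset.mem_product, Finset.mem_Ico] at hv
  obtain ⟨⟨hx1, hx2⟩, hy1, hy2⟩ := hv
  have hx1' : 100 * u * S ≤ (x : ℝ) := by
    have : ((qD B C * S : ℕ) : ℝ) ≤ (x : ℝ) := by exact_mod_cast hx1
    rw [Nat.cast_mul, hq] at this; exact this
  have hx2' : (x : ℝ) ≤ 200 * u * S := by
    have : (x : ℝ) ≤ ((2 * qD B C * S : ℕ) : ℝ) := by exact_mod_cast hx2.le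
    rw [Nat.cast_mul, Nat.cast_mul, hq] at this; push_cast at this; linarith
  have hy1' : (S : ℝ) ≤ (y : ℝ) := by exact_mod_cast hy1
  have hy2' : (y : ℝ) ≤ 2 * S := by
    have : (y : ℝ) ≤ ((2 * S : ℕ) : ℝ) := by exact_mod_cast hy2.le
    push_cast at this; exact this
  have hS1 : 1 ≤ (S : ℝ) := by
    have : (1 : ℤ) ≤ S := by push_cast at hy2; omega
    exact_mod_cast this
  have hrt := Pool.Agent.RealQuad.rt_pos hD
  have hrtu : rt B C ≤ u := by rw [hu]; exact ThR_rt_le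
  have hy0 : 0 < (y : ℝ) := by linarith
  have hrty : rt B C * y ≤ 2 * u * S := by
    calc rt B C * y ≤ u * (2 * S) := mul_le_mul hrtu hy2' hy0.le (by linarith)
      _ = 2 * u * S := by ring
  have hrty0 : 0 < rt B C * y := mul_pos hrt hy0
  have hBy : |(B : ℝ) / 2 * y| ≤ u * S := by
    rw [abs_mul, abs_div, abs_of_pos hy0]
    calc |(B : ℝ)| / |(2 : ℝ)| * y ≤ u / 2 * (2 * S) := by
          rw [abs_two]; gcongr
      _ = u * S := by ring
  obtain ⟨hBy1, hBy2⟩ := abs_le.1 hBy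
  have huS : 0 < u * S := by positivity
  have hyc : 97 * (u * S) ≤ yc B C (x, y) := by
    simp only [yc]; nlinarith
  have hycpos : 0 < yc B C (x, y) := by linarith
  have hxy : xc B C (x, y) = yc B C (x, y) + 2 * (rt B C * y) := by
    simp only [xc, yc]; ring
  have hxc : xc B C (x, y) ≤ 203 * (u * S) := by
    simp only [xc]; nlinarith
  have hxcpos : 0 < xc B C (x, y) := by rw [hxy]; linarith
  have hle : yc B C (x, y) ≤ xc B C (x, y) := by rw [hxy]; linarith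
  refine ⟨⟨hxcpos, hycpos⟩, ?_, ?_, ?_, ?_⟩
  · rw [ang]
    apply div_nonneg _ (by norm_num)
    apply Real.log_nonneg
    rw [le_div_iff₀ hycpos]; linarith
  · rw [ang]
    have h1 := Real.log_le_sub_one_of_pos (div_pos hxcpos hycpos)
    have h2 : xc B C (x, y) / yc B C (x, y) - 1 ≤ 1 / 10 := by
      rw [sub_le_iff_le_add, div_le_iff₀ hycpos, hxy]
      nlinarith
    linarith
  · have h1 : yc B C (x, y) ≤ mg B C (x, y) := by
      rw [mg]; apply Real.le_sqrt_of_sq_le; nlinarith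
    have h2 : (S : ℝ) ≤ mg B C (x, y) := by nlinarith
    nlinarith
  · have h1 : mg B C (x, y) ≤ xc B C (x, y) := by
      rw [mg]; apply Real.sqrt_le_iff.2; exact ⟨hxcpos.le, by nlinarith⟩
    linarith

end Pool.Agent.LogPar
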